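import Pool.Agent.Lib.MP_f51cdd_lc.Seu.Logic

/-!
The unfolding lemma of `Tm.eval` is generated once, in this module.
-/

namespace Pool.Agent.Lib.MP_f51cdd_lc.Seu

theorem eqfix1 : True := by
  have := @Tm.eval.eq_def
  trivial

end Pool.Agent.Lib.MP_f51cdd_lc.Seu
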