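import Pool.Agent.Lib.MP_f51cdd_lc.Seu.Defs

namespace Pool.Agent.Lib.MP_f51cdd_lc.Seu

open Equiv Function

/-- `g` induces `σ` along `q` on the set `O`. -/
def A2Ind {Ω Ω' : Type} (O : Ω → Prop) (q : Ω → Ω') (g : Perm Ω) (σ : Perm Ω') : Prop :=
  ∀ x, O x → σ (q x) = q (g x)

section aux

variable {Ω Ω' : Type} {Γ : Subgroup (Perm Ω)} {O : Ω → Prop} {q : Ω → Ω'}

theorem a2_ind_one : A2Ind O q 1 1 := fun _ _ => rfl

theorem a2_ind_mul (hO : ∀ g ∈ Γ, ∀ x, O x → O (g x)) {g h : Perm Ω} {σ τ : Perm Ω'}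
    (hh : h ∈ Γ) (h1 : A2Ind O q g σ) (h2 : A2Ind O q h τ) : A2Ind O q (g * h) (σ * τ) := by
  intro x hx
  rw [Perm.mul_apply, h2 x hx, h1 _ (hO h hh x hx), Perm.mul_apply]

theorem a2_ind_inv (hO : ∀ g ∈ Γ, ∀ x, O x → O (g x)) {g : Perm Ω} {σ : Perm Ω'}
    (hg : g ∈ Γ) (h1 : A2Ind O q g σ) : A2Ind O q g⁻¹ σ⁻¹ := by
  intro x hx
  rw [Perm.inv_eq_iff_eq, h1 _ (hO _ (Γ.inv_mem hg) x hx)]
  simp

theorem a2_ind_pow (hO : ∀ g ∈ Γ, ∀ x, O x → O (g x)) {g : Perm Ω} {σ : Perm Ω'}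
    (hg : g ∈ Γ) (h1 : A2Ind O q g σ) (n : ℕ) : A2Ind O q (g ^ n) (σ ^ n) := by
  induction n with
  | zero => simpa using a2_ind_one
  | succ n ih =>
    rw [pow_succ, pow_succ]
    exact a2_ind_mul hO hg ih h1

/-- The group induced on the quotient. -/
def a2Grp (Γ : Subgroup (Perm Ω)) (O : Ω → Prop) (q : Ω → Ω')
    (hO : ∀ g ∈ Γ, ∀ x, O x → O (g x)) : Subgroup (Perm Ω') where
  carrier := {σ | ∃ g ∈ Γ, A2Ind O q g σ}
  one_mem' := ⟨1, Γ.one_mem, a2_ind_one⟩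
  mul_mem' := by
    rintro a b ⟨g, hg, ha⟩ ⟨h, hh, hb⟩
    exact ⟨g * h, Γ.mul_mem hg hh, a2_ind_mul hO hh ha hb⟩
  inv_mem' := by
    rintro a ⟨g, hg, ha⟩
    exact ⟨g⁻¹, Γ.inv_mem hg, a2_ind_inv hO hg ha⟩

theorem a2_exists_ind {r : Setoid Ω} (hO : ∀ g ∈ Γ, ∀ x, O x → O (g x)) (hr : Inv Γ r)
    (hq : ∀ x y, O x → O y → (q x = q y ↔ r x y)) (hs : ∀ w, ∃ x, O x ∧ q x = w)
    {g : Perm Ω} (hg : g ∈ Γ) : ∃ σ, A2Ind O q g σ := by
  choose s hsO hsq using hs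
  have key : ∀ {a : Perm Ω}, a ∈ Γ → ∀ x, O x → q (a (s (q x))) = q (a x) := by
    intro a ha x hx
    rw [hq _ _ (hO a ha _ (hsO _)) (hO a ha _ hx)]
    exact hr a ha _ _ ((hq _ _ (hsO _) hx).1 (hsq _))
  refine ⟨{ toFun := fun w => q (g (s w))
            invFun := fun w => q (g⁻¹ (s w))
            left_inv := fun w => ?_
            right_inv := fun w => ?_ }, fun x hx => key hg x hx⟩
  · simp only []
    rw [key (Γ.inv_mem hg) _ (hO g hg _ (hsO w))]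
    simp [hsq]
  · simp only []
    rw [key hg _ (hO _ (Γ.inv_mem hg) _ (hsO w))]
    simp [hsq]

theorem a2_cls {r : Setoid Ω} (hr : Inv Γ r) {g : Perm Ω} (hg : g ∈ Γ) {x : Ω}
    (hx : r (g x) x) (z : Ω) : r (g z) x ↔ r z x :=
  ⟨fun h => (hr.iff hg z x).1 (r.trans h (r.symm hx)), fun h => r.trans (hr g hg z x h) hx⟩

/-- An element keeping the colours of the quotient and the class of `x` acts on this class as
an element of 2-power order. -/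
theorem a2_two [Finite Ω] [Finite Ω'] (hP : SP) {r : Setoid Ω} {m : ℕ} (hm : 4 ≤ m)
    (hO : ∀ g ∈ Γ, ∀ x, O x → O (g x)) (hr : Inv Γ r)
    (hq : ∀ x y, O x → O y → (q x = q y ↔ r x y))
    (hs : ∀ w, ∃ x, O x ∧ q x = w) (hcl : ∀ x y, O x → r y x → O y)
    (hfaith : ∀ g ∈ Γ, (∀ x, O x → r (g x) x) → ∀ x, O x → g x = x)
    {K : Type} (c' : Ω' → K) (hQ : Q (m + 1) Ω' (stab (a2Grp Γ O q hO) c'))
    {x : Ω} (hx : O x) (hcard : Nat.card {z // r z x} = m) {g : Perm Ω} (hg : g ∈ Γ)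
    (hgc : ∀ y, O y → c' (q (g y)) = c' (q y)) (hgx : r (g x) x) :
    ∃ e : ℕ, ∀ z, r z x → (g ^ 2 ^ e) z = z := by
  classical
  set Δ := stab (a2Grp Γ O q hO) c' with hΔ
  let N : Subgroup (Perm Ω') :=
    { carrier := {σ | σ ∈ Δ ∧ ∃ a ∈ Γ, A2Ind O q a σ ∧ ∀ z, r z x → a z = z}
      one_mem' := ⟨Δ.one_mem, 1, Γ.one_mem, a2_ind_one, fun _ _ => rfl⟩
      mul_mem' := by
        rintro σ τ ⟨hσ, a, ha, ha1, ha2⟩ ⟨hτ, b, hb, hb1, hb2⟩
        exact ⟨Δ.mul_mem hσ hτ, a * b, Γ.mul_mem ha hb, a2_ind_mul hO hb ha1 hb1,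
          fun z hz => by rw [Perm.mul_apply, hb2 z hz, ha2 z hz]⟩
      inv_mem' := by
        rintro σ ⟨hσ, a, ha, ha1, ha2⟩
        exact ⟨Δ.inv_mem hσ, a⁻¹, Γ.inv_mem ha, a2_ind_inv hO ha ha1,
          fun z hz => by rw [Perm.inv_eq_iff_eq, ha2 z hz]⟩ }
  have hN : ∀ σ, σ ∈ N ↔ σ ∈ Δ ∧ ∃ a ∈ Γ, A2Ind O q a σ ∧ ∀ z, r z x → a z = z :=
    fun _ => Iff.rfl
  have hfix : ∀ σ ∈ Δ, σ (q x) = q x → ∃ a ∈ Γ, A2Ind O q a σ ∧ r (a x) x := by
    rintro σ ⟨⟨a, ha, ha1⟩, -⟩ h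
    refine ⟨a, ha, ha1, (hq _ _ (hO a ha x hx) hx).1 ?_⟩
    rw [← ha1 x hx, h]
  have hT : ∀ σ : Perm Ω', ∃ τ : Perm {z // r z x}, σ ∈ Δ → σ (q x) = q x →
      ∃ a ∈ Γ, A2Ind O q a σ ∧ ∀ z, (τ z : Ω) = a z := by
    intro σ
    by_cases h : σ ∈ Δ ∧ σ (q x) = q x
    · obtain ⟨a, ha, ha1, ha2⟩ := hfix σ h.1 h.2
      exact ⟨a.subtypePerm (a2_cls hr ha ha2), fun _ _ => ⟨a, ha, ha1, fun _ => rfl⟩⟩
    · exact ⟨1, fun h1 h2 => (h ⟨h1, h2⟩).elim⟩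
  choose T hT using hT
  let _ : Fintype {z // r z x} := Fintype.ofFinite _
  have hcP : Fintype.card (Perm {z // r z x}) = m.factorial := by
    rw [Fintype.card_perm, ← Nat.card_eq_fintype_card, hcard]
  let ε : Perm {z // r z x} ≃ Fin m.factorial := Fintype.equivFinOfCardEq hcP
  obtain ⟨σ, hσ⟩ := a2_exists_ind hO hr hq hs hg
  have hσΔ : σ ∈ Δ := by
    refine ⟨⟨g, hg, hσ⟩, fun w => ?_⟩
    obtain ⟨y, hy, rfl⟩ := hs w
    rw [hσ y hy, hgc y hy]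
  have hσx : σ (q x) = q x := by
    rw [hσ x hx]; exact (hq _ _ (hO g hg x hx) hx).2 hgx
  obtain ⟨e, he⟩ := hP (m + 1) Ω' Δ hQ (by omega) (q x) N m.factorial (fun σ => ε (T σ))
    (by
      rw [Nat.factorial_succ]
      exact Nat.mul_lt_mul_of_pos_right (by omega) (Nat.factorial_pos m))
    (fun n hn => hn.1)
    (by
      rintro n ⟨-, a, -, ha1, ha2⟩
      rw [ha1 x hx, ha2 x (r.refl x)])
    (by
      rintro τ hτ hτx n ⟨hn, b, hb, hb1, hb2⟩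
      obtain ⟨a, ha, ha1, ha2⟩ := hfix τ hτ hτx
      refine ⟨Δ.mul_mem (Δ.mul_mem hτ hn) (Δ.inv_mem hτ), a * b * a⁻¹,
        Γ.mul_mem (Γ.mul_mem ha hb) (Γ.inv_mem ha),
        a2_ind_mul hO (Γ.inv_mem ha) (a2_ind_mul hO hb ha1 hb1) (a2_ind_inv hO ha ha1),
        fun z hz => ?_⟩
      have hz' : r (a⁻¹ z) x := (a2_cls hr ha ha2 _).1 (by simpa using hz)
      rw [Perm.mul_apply, Perm.mul_apply, hb2 _ hz']
      simp)
    (by
      intro τ hτ τ' hτ' hτx hτ'x hκ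
      have hTT : T τ = T τ' := ε.injective hκ
      obtain ⟨a, ha, ha1, ha2⟩ := hT τ hτ hτx
      obtain ⟨b, hb, hb1, hb2⟩ := hT τ' hτ' hτ'x
      refine ⟨Δ.mul_mem (Δ.inv_mem hτ) hτ', a⁻¹ * b, Γ.mul_mem (Γ.inv_mem ha) hb,
        a2_ind_mul hO hb (a2_ind_inv hO ha ha1) hb1, fun z hz => ?_⟩
      rw [Perm.mul_apply, Perm.inv_eq_iff_eq]
      have h1 := ha2 ⟨z, hz⟩
      have h2 := hb2 ⟨z, hz⟩
      rw [hTT] at h1
      exact h2.symm.trans h1)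
    σ hσΔ hσx
  obtain ⟨-, a, ha, ha1, ha2⟩ := (hN _).1 he
  have hge : g ^ 2 ^ e ∈ Γ := Γ.pow_mem hg _
  have hpow := a2_ind_pow hO hg hσ (2 ^ e)
  have hu := hfaith (a⁻¹ * g ^ 2 ^ e) (Γ.mul_mem (Γ.inv_mem ha) hge) (by
    intro y hy
    have h1 : r ((g ^ 2 ^ e) y) (a y) := by
      rw [← hq _ _ (hO _ hge y hy) (hO a ha y hy), ← hpow y hy, ha1 y hy]
    simpa using hr _ (Γ.inv_mem ha) _ _ h1)
  refine ⟨e, fun z hz => ?_⟩
  have h1 := hu z (hcl x z hx hz)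
  rw [Perm.mul_apply, Perm.inv_eq_iff_eq, ha2 z hz] at h1
  exact h1

end aux

theorem s2A (hEnc : SEnc) (h2 : S2grp) (hP : SP) : S2A := by
  classical
  intro Ω _ Γ x₀ r m hm hr hsup hcard hfaith hgood
  have hO : ∀ g ∈ Γ, ∀ x, Orb Γ x₀ x → Orb Γ x₀ (g x) := by
    rintro g hg x ⟨a, ha, rfl⟩
    exact ⟨g * a, Γ.mul_mem hg ha, rfl⟩
  have h0 : Orb Γ x₀ x₀ := ⟨1, Γ.one_mem, rfl⟩
  have hcl : ∀ x y, Orb Γ x₀ x → r y x → Orb Γ x₀ y := by
    intro x y hx h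
    by_cases e : y = x
    · exact e ▸ hx
    · exact hsup y x h e
  have hnt : ∀ x, Orb Γ x₀ x → ∃ y, y ≠ x ∧ r x y := by
    intro x hx
    have : Nontrivial {z // r z x} := by
      rw [← Finite.one_lt_card_iff_nontrivial, hcard x hx]; omega
    obtain ⟨y, hy⟩ := exists_ne (⟨x, r.refl x⟩ : {z // r z x})
    exact ⟨y, fun e => hy (Subtype.ext e), r.symm y.2⟩
  let Ω' : Type := {w : Quotient r // ∃ x, Orb Γ x₀ x ∧ Quotient.mk r x = w}
  let q : Ω → Ω' := fun x =>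
    if h : Orb Γ x₀ x then ⟨Quotient.mk r x, x, h, rfl⟩ else ⟨Quotient.mk r x₀, x₀, h0, rfl⟩
  have hq : ∀ x y, Orb Γ x₀ x → Orb Γ x₀ y → (q x = q y ↔ r x y) := by
    intro x y hx hy
    simp only [q, dif_pos hx, dif_pos hy]
    exact ⟨fun h => Quotient.exact (congrArg Subtype.val h),
      fun h => Subtype.ext (Quotient.sound h)⟩
  have hs : ∀ w, ∃ x, Orb Γ x₀ x ∧ q x = w := by
    rintro ⟨w, x, hx, rfl⟩
    exact ⟨x, hx, by simp only [q, dif_pos hx]⟩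
  have hsurj : Surjective q := fun w => (hs w).imp fun _ h => h.2
  have : Finite Ω' := Finite.of_surjective q hsurj
  have hlt : Nat.card Ω' < Nat.card Ω := by
    let _ := Fintype.ofFinite Ω
    let _ := Fintype.ofFinite Ω'
    rw [Nat.card_eq_fintype_card, Nat.card_eq_fintype_card]
    refine Fintype.card_lt_of_surjective_not_injective q hsurj fun hinj => ?_
    obtain ⟨y, hy, hy'⟩ := hnt x₀ h0
    exact hy (hinj ((hq _ _ (hcl _ _ h0 (r.symm hy')) h0).2 (r.symm hy')))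
  obtain ⟨c', hQ⟩ := hgood Ω' (a2Grp Γ (Orb Γ x₀) q hO) hlt
  obtain ⟨c₁, hc₁⟩ := hEnc Ω Γ {x | Orb Γ x₀ x} r m (fun x => c' (q x)) hO hr
    (fun x hx y h => hcl x y hx (r.symm h)) (fun x hx => (hcard x hx).ge) (by
      intro x y h
      by_cases e : x = y
      · rw [e]
      · have hx := hsup x y h e
        rw [(hq x y hx (hcl x y hx (r.symm h))).2 h])
  let G : Subgroup (Perm Ω) :=
    { carrier := {g | g ∈ Γ ∧ ∀ y, Orb Γ x₀ y → c' (q (g y)) = c' (q y)}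
      one_mem' := ⟨Γ.one_mem, fun _ _ => rfl⟩
      mul_mem' := by
        rintro a b ⟨ha, ha1⟩ ⟨hb, hb1⟩
        exact ⟨Γ.mul_mem ha hb, fun y hy => by
          rw [Perm.mul_apply, ha1 _ (hO b hb y hy), hb1 y hy]⟩
      inv_mem' := by
        rintro a ⟨ha, ha1⟩
        refine ⟨Γ.inv_mem ha, fun y hy => ?_⟩
        have := ha1 _ (hO _ (Γ.inv_mem ha) y hy)
        simpa using this.symm }
  have hC : ∀ x, ∃ C : Ω → Fin 4, Orb Γ x₀ x → ∀ g ∈ G, r (g x) x →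
      (∀ z, r z x → C (g z) = C z) → ∀ z, r z x → g z = z := by
    intro x
    by_cases hx : Orb Γ x₀ x
    swap
    · exact ⟨fun _ => 0, fun h => (hx h).elim⟩
    obtain ⟨C, hC⟩ := h2 {z // r z x} (onClass G r x) (by
      rintro τ ⟨g, hg, hτ⟩
      have hgx : r (g x) x := by
        have := (τ ⟨x, r.refl x⟩).2
        rwa [hτ] at this
      obtain ⟨e, he⟩ := a2_two hP hm hO hr hq hs hcl hfaith c' hQ hx (hcard x hx) hg.1 hg.2 hgx
      have hpow : ∀ n : ℕ, ∀ z, ((τ ^ n) z : Ω) = (g ^ n) z := by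
        intro n
        induction n with
        | zero => intro z; rfl
        | succ n ih =>
          intro z
          rw [pow_succ', pow_succ', Perm.mul_apply, Perm.mul_apply, hτ, ih]
      refine ⟨e, Equiv.ext fun z => Subtype.ext ?_⟩
      rw [hpow, he z z.2]
      rfl)
    refine ⟨fun z => if h : r z x then C ⟨z, h⟩ else 0, fun _ g hg hgx hgc z hz => ?_⟩
    obtain ⟨τ, hτ, hτ'⟩ := exists_ind (Γ := G) (p := fun z => r z x) hg (a2_cls hr hg.1 hgx)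
    have h1 : τ = 1 := hC τ hτ fun y => by
      have h := hgc y y.2
      have hy : r (g y) x := (a2_cls hr hg.1 hgx _).2 y.2
      simp only [dif_pos hy, dif_pos y.2] at h
      have : τ y = ⟨g y, hy⟩ := Subtype.ext (hτ' y)
      rw [this, h]
    have h3 := hτ' ⟨z, hz⟩
    rw [h1] at h3
    exact h3.symm
  choose C hC using hC
  have hrep : ∀ y, r y (Quotient.mk r y).out := fun y => r.symm (Quotient.mk_out y)
  refine ⟨{x | Orb Γ x₀ x}, r,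
    fun y => (finProdFinEquiv (c₁ y, C (Quotient.mk r y).out y) : Fin (4 * 4)),
    ⟨x₀, h0⟩, hO, hr, hnt, fun x hx y h => ?_, fun g hg hgc x hgx => ?_⟩
  · by_contra e
    exact hx (hsup x y h fun e' => e e'.symm)
  · by_cases hx : Orb Γ x₀ x
    swap
    · by_contra e
      exact hx (hcl _ _ (hsup _ _ hgx e) (r.symm hgx))
    have hpair : ∀ y, Orb Γ x₀ y → c₁ (g y) = c₁ y ∧
        C (Quotient.mk r (g y)).out (g y) = C (Quotient.mk r y).out y := by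
      intro y hy
      have h := finProdFinEquiv.injective (hgc y hy)
      exact ⟨congrArg Prod.fst h, congrArg Prod.snd h⟩
    have hG : g ∈ G := ⟨hg, hc₁ g hg fun y hy => (hpair y hy).1⟩
    have hx' : Orb Γ x₀ (Quotient.mk r x).out := hcl x _ hx (r.symm (hrep x))
    have hgx' : r (g (Quotient.mk r x).out) (Quotient.mk r x).out :=
      r.trans ((a2_cls hr hg hgx _).2 (r.symm (hrep x))) (hrep x)
    refine hC _ hx' g hG hgx' (fun z hz => ?_) x (hrep x)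
    have hzx : r z x := r.trans hz (r.symm (hrep x))
    have e1 : Quotient.mk r z = Quotient.mk r x := Quotient.sound hzx
    have e2 : Quotient.mk r (g z) = Quotient.mk r x :=
      Quotient.sound ((a2_cls hr hg hgx z).2 hzx)
    have h := (hpair z (hcl x z hx hzx)).2
    rwa [e1, e2] at h

end Pool.Agent.Lib.MP_f51cdd_lc.Seu
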