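import Pool.Agent.Lib.MP_f51cdd_lc.Seu.LDefs

namespace Pool.Agent.Lib.MP_f51cdd_lc.Seu

open Equiv Function RelAlg

section
variable {A : Type} [BooleanAlgebra A]

theorem alg_le_sup {z a b : A} (hz : IsAtom z) (h : z ≤ a ⊔ b) : z ≤ a ∨ z ≤ b := by
  by_contra hc
  rw [not_or, hz.not_le_iff_disjoint, hz.not_le_iff_disjoint, ← disjoint_sup_right,
    ← hz.not_le_iff_disjoint] at hc
  exact hc h

theorem alg_le_iff {z c : A} (hz : IsAtom z) : z ≤ c ↔ ¬c ⊓ z = ⊥ := by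
  rw [← disjoint_iff, disjoint_comm, hz.not_disjoint_iff_le]

theorem alg_add [Finite A] (g : A → A) (h0 : g ⊥ = ⊥) (hs : ∀ a b, g (a ⊔ b) = g a ⊔ g b) {z : A}
    (hz : IsAtom z) (a : A) : z ≤ g a ↔ ∃ x, IsAtom x ∧ x ≤ a ∧ z ≤ g x := by
  constructor
  · induction a using WellFoundedLT.induction with
    | ind a ih =>
      intro h
      rcases eq_bot_or_exists_atom_le a with rfl | ⟨x, hx, hxa⟩
      · rw [h0, le_bot_iff] at h
        exact absurd h hz.1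
      · have e : a = x ⊔ a \ x := (sup_sdiff_cancel_right hxa).symm
        rw [e, hs] at h
        rcases alg_le_sup hz h with h | h
        · exact ⟨x, hx, hxa, h⟩
        · obtain ⟨y, hy, hya, h'⟩ := ih (a \ x) (sdiff_lt hxa hx.1) h
          exact ⟨y, hy, hya.trans sdiff_le, h'⟩
  · rintro ⟨x, -, hxa, h⟩
    rw [← sup_eq_right.mpr hxa, hs]
    exact h.trans le_sup_left

theorem alg_iso (A : Type) [BooleanAlgebra A] [Finite A] :
    ∃ e : A ≃o Set {x : A // IsAtom x}, ∀ a x, x ∈ e a ↔ x.1 ≤ a := by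
  classical
  let f : A ↪o Set {x : A // IsAtom x} := OrderEmbedding.ofMapLEIff (fun a => {x | x.1 ≤ a})
    fun a b => by
      rw [BooleanAlgebra.le_iff_atom_le_imp (x := a)]
      exact ⟨fun h x hx hxa => h (show (⟨x, hx⟩ : {x : A // IsAtom x}) ∈ _ from hxa),
        fun h x hx => h x.1 x.2 hx⟩
  have hf : Surjective f := fun S => by
    induction S, Set.toFinite S using Set.Finite.induction_on with
    | empty =>
      refine ⟨⊥, Set.eq_empty_of_forall_notMem fun x hx => x.2.1 (le_bot_iff.mp hx)⟩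
    | @insert y S _ _ ih =>
      obtain ⟨a, rfl⟩ := ih
      refine ⟨y.1 ⊔ a, Set.ext fun x => ⟨fun hx => ?_, ?_⟩⟩
      · rcases alg_le_sup x.2 hx with h | h
        · exact Or.inl (Subtype.ext ((y.2.le_iff_eq x.2.1).mp h))
        · exact Or.inr h
      · rintro (rfl | h)
        · exact (le_sup_left : x.1 ≤ x.1 ⊔ a)
        · exact le_trans h (le_sup_right : a ≤ y.1 ⊔ a)
  exact ⟨RelIso.ofSurjective f hf, fun _ _ => Iff.rfl⟩

theorem alg_single {e : A ≃o Set {x : A // IsAtom x}} (he : ∀ a x, x ∈ e a ↔ x.1 ≤ a)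
    (x : {x : A // IsAtom x}) : e.symm {x} = x.1 := by
  rw [OrderIso.symm_apply_eq]
  ext y
  rw [he, x.2.le_iff_eq y.2.1, Set.mem_singleton_iff, Subtype.ext_iff]

theorem alg_pal {B : Type} [BooleanAlgebra B] [Finite B] {n : ℕ} {α : Fin n → A} {β : Fin n → B}
    (h : ∀ s : Fin n → Bool, (Finset.univ.inf fun i => if s i then β i else (β i)ᶜ) = ⊥ →
      (Finset.univ.inf fun i => if s i then α i else (α i)ᶜ) = ⊥) (x : {x : A // IsAtom x}) :
    ∃ y : {y : B // IsAtom y}, ∀ i, x.1 ≤ α i ↔ y.1 ≤ β i := by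
  classical
  have h1 : x.1 ≤ Finset.univ.inf fun i => if decide (x.1 ≤ α i) then α i else (α i)ᶜ := by
    refine Finset.le_inf fun i _ => ?_
    by_cases hi : x.1 ≤ α i
    · simpa [hi] using hi
    · simpa [hi] using (x.2.not_le_iff_disjoint.mp hi).le_compl_right
  rcases eq_bot_or_exists_atom_le
    (Finset.univ.inf fun i => if decide (x.1 ≤ α i) then β i else (β i)ᶜ) with h2 | ⟨y, hy, h2⟩
  · rw [h _ h2, le_bot_iff] at h1
    exact absurd h1 x.2.1
  · refine ⟨⟨y, hy⟩, fun i => ?_⟩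
    have h3 := Finset.le_inf_iff.mp h2 i (Finset.mem_univ i)
    by_cases hi : x.1 ≤ α i
    · simpa [hi] using h3
    · have h4 : y ≤ (β i)ᶜ := by simpa [hi] using h3
      exact iff_of_false hi (hy.not_le_iff_disjoint.mpr (le_compl_iff_disjoint_right.mp h4))

variable [RelAlg A]

theorem alg_conv_bot : conv (⊥ : A) = ⊥ := by
  have h := conv_sup (⊥ : A) (conv ⊥)
  rw [bot_sup_eq, conv_conv] at h
  exact le_bot_iff.mp (le_sup_left.trans h.symm.le)

theorem alg_comp_sup (a b c : A) : comp a (b ⊔ c) = comp a b ⊔ comp a c := by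
  rw [← conv_conv (comp a (b ⊔ c)), conv_comp, conv_sup, sup_comp, ← conv_comp, ← conv_comp,
    conv_sup, conv_conv, conv_conv]

theorem alg_comp_bot (a : A) : comp a ⊥ = ⊥ := by
  have h := tarski (conv a) ⊤
  rw [conv_conv, compl_top, sup_bot_eq] at h
  have h' := alg_comp_sup a ⊥ (comp (conv a) ⊤)ᶜ
  rw [bot_sup_eq, h, sup_bot_eq] at h'
  exact h'.symm

theorem alg_bot_comp (a : A) : comp ⊥ a = ⊥ := by
  rw [← conv_conv (comp ⊥ a), conv_comp, alg_conv_bot, alg_comp_bot, alg_conv_bot]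

theorem alg_comp [Finite A] {z : A} (hz : IsAtom z) (a b : A) :
    z ≤ comp a b ↔ ∃ x y : {x : A // IsAtom x}, x.1 ≤ a ∧ y.1 ≤ b ∧ z ≤ comp x.1 y.1 := by
  rw [alg_add (fun a => comp a b) (alg_bot_comp b) (fun _ _ => sup_comp _ _ _) hz]
  constructor
  · rintro ⟨x, hx, hxa, h⟩
    obtain ⟨y, hy, hyb, h'⟩ := (alg_add (comp x) (alg_comp_bot x) (alg_comp_sup x) hz b).mp h
    exact ⟨⟨x, hx⟩, ⟨y, hy⟩, hxa, hyb, h'⟩
  · rintro ⟨x, y, hxa, hyb, h⟩
    exact ⟨x.1, x.2, hxa, (alg_add (comp x.1) (alg_comp_bot x.1) (alg_comp_sup x.1) hz b).mpr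
      ⟨y.1, y.2, hyb, h⟩⟩

theorem alg_conv [Finite A] {z : A} (hz : IsAtom z) (a : A) :
    z ≤ conv a ↔ ∃ x : {x : A // IsAtom x}, x.1 ≤ a ∧ z ≤ conv x.1 := by
  rw [alg_add conv alg_conv_bot conv_sup hz]
  exact ⟨fun ⟨x, hx, h⟩ => ⟨⟨x, hx⟩, h⟩, fun ⟨x, h⟩ => ⟨x.1, x.2, h⟩⟩

end

theorem sAlg (hP : SPos) : SAlg := by
  intro C A B _ _ _ _ _ _ hT hPeb
  obtain ⟨P, ⟨α₀, β₀, h0⟩, hP'⟩ := hPeb
  obtain ⟨eA, hA⟩ := alg_iso A
  obtain ⟨eB, hB⟩ := alg_iso B
  have mA : ∀ (S : Set {x : A // IsAtom x}) x, x ∈ S ↔ x.1 ≤ eA.symm S := fun S x => by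
    rw [← hA, OrderIso.apply_symm_apply]
  have mB : ∀ (S : Set {x : B // IsAtom x}) x, x ∈ S ↔ x.1 ≤ eB.symm S := fun S x => by
    rw [← hB, OrderIso.apply_symm_apply]
  obtain ⟨S, hS⟩ := hP C {x : A // IsAtom x} {x : B // IsAtom x}
    (fun α β => P (eA.symm ∘ α) (eB.symm ∘ β))
    ⟨eA ∘ α₀, eB ∘ β₀, by simpa [Function.comp_def] using h0⟩ fun α β h => by
      obtain ⟨⟨h1, -⟩, h2, h3⟩ := hP' _ _ h
      refine ⟨fun x => ?_, fun y => ?_, fun i a => ?_, fun i b => ?_⟩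
      · obtain ⟨y, hy⟩ := alg_pal (fun s => (h1 s).mpr) x
        exact ⟨y, fun i => by rw [mA, mB]; exact hy i⟩
      · obtain ⟨x, hx⟩ := alg_pal (fun s => (h1 s).mp) y
        exact ⟨x, fun i => by rw [mA, mB]; exact (hx i).symm⟩
      · obtain ⟨b, hb⟩ := h2 i (eA.symm a)
        refine ⟨eB b, ?_⟩
        rw [Function.comp_update, Function.comp_update, OrderIso.symm_apply_apply]
        exact hb
      · obtain ⟨a, ha⟩ := h3 i (eB.symm b)
        refine ⟨eA a, ?_⟩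
        rw [Function.comp_update, Function.comp_update, OrderIso.symm_apply_apply]
        exact ha
  obtain ⟨f, hf⟩ := hT C _ _ (Prop × Prop × Prop) S
    (fun x => (comp (x 0).1 (x 1).1 ⊓ (x 2).1 = ⊥, conv (x 0).1 ⊓ (x 1).1 = ⊥,
      (x 0).1 ⊓ ident = ⊥))
    (fun x => (comp (x 0).1 (x 1).1 ⊓ (x 2).1 = ⊥, conv (x 0).1 ⊓ (x 1).1 = ⊥,
      (x 0).1 ⊓ ident = ⊥)) le_rfl fun p hp x y hxy => by
      obtain ⟨α, β, h, hz⟩ := hS p hp
      obtain ⟨⟨-, h1, h2, h3⟩, -⟩ := hP' _ _ h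
      have key : ∀ i, ∃ j, (eA.symm ∘ α) j = (x i).1 ∧ (eB.symm ∘ β) j = (y i).1 := fun i => by
        obtain ⟨j, hj⟩ := hz _ (hxy i)
        obtain ⟨e1, e2⟩ := Prod.mk.inj hj
        exact ⟨j, by rw [Function.comp_apply, ← e1, alg_single hA],
          by rw [Function.comp_apply, ← e2, alg_single hB]⟩
      choose j ha hb using key
      have e1 := h1 (j 0) (j 1) (j 2)
      have e2 := h2 (j 0) (j 1)
      have e3 := h3 (j 0)
      simp only [ha, hb] at e1 e2 e3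
      exact Prod.ext (propext e1) (Prod.ext (propext e2) (propext e3))
  have c1 : ∀ x y z : {x : A // IsAtom x},
      (f z).1 ≤ comp (f x).1 (f y).1 ↔ z.1 ≤ comp x.1 y.1 := fun x y z => by
    rw [alg_le_iff (f z).2, alg_le_iff z.2]
    exact not_congr (iff_of_eq (congrArg Prod.fst (hf ![x, y, z])))
  have c2 : ∀ x y : {x : A // IsAtom x}, (f y).1 ≤ conv (f x).1 ↔ y.1 ≤ conv x.1 := fun x y => by
    rw [alg_le_iff (f y).2, alg_le_iff y.2]
    exact not_congr (iff_of_eq (congrArg (fun t => t.2.1) (hf ![x, y, y])))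
  have c3 : ∀ x : {x : A // IsAtom x}, (f x).1 ≤ ident ↔ x.1 ≤ ident := fun x => by
    rw [alg_le_iff (f x).2, alg_le_iff x.2, inf_comm, inf_comm ident]
    exact not_congr (iff_of_eq (congrArg (fun t => t.2.2) (hf ![x, x, x])))
  obtain ⟨F, hF⟩ : ∃ F : A ≃o B, ∀ a (x : {x : A // IsAtom x}), (f x).1 ≤ F a ↔ x.1 ≤ a := by
    refine ⟨(eA.trans f.toOrderIsoSet).trans eB.symm, fun a x => ?_⟩
    rw [OrderIso.trans_apply, ← mB, ← hA]
    exact f.injective.mem_set_image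
  have ext : ∀ b c : B, (∀ x : {x : A // IsAtom x}, (f x).1 ≤ b ↔ (f x).1 ≤ c) → b = c :=
    fun b c h => BooleanAlgebra.eq_iff_atom_le_iff.mpr fun y hy => by
      simpa using h (f.symm ⟨y, hy⟩)
  refine ⟨F, fun a b => ext _ _ fun z => ?_, fun a => ext _ _ fun z => ?_, ext _ _ fun z => ?_⟩
  · rw [hF, alg_comp z.2, alg_comp (f z).2, f.surjective.exists]
    refine exists_congr fun x => ?_
    rw [f.surjective.exists]
    simp only [hF, c1]
  · rw [hF, alg_conv z.2, alg_conv (f z).2, f.surjective.exists]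
    simp only [hF, c2]
  · rw [hF, c3]

end Pool.Agent.Lib.MP_f51cdd_lc.Seu
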