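import Pool.Agent.Lib.MP_f51cdd_lc.Seu.Defs

namespace Pool.Agent.Lib.MP_f51cdd_lc.Seu

open Equiv Function

section
variable {Ω : Type} {Γ : Subgroup (Perm Ω)}

theorem blk_orb {x₀ x y : Ω} (hx : Orb Γ x₀ x) (hy : Orb Γ x₀ y) : ∃ g ∈ Γ, g x = y := by
  obtain ⟨g, hg, rfl⟩ := hx
  obtain ⟨h, hh, rfl⟩ := hy
  exact ⟨h * g⁻¹, Γ.mul_mem hh (Γ.inv_mem hg), by simp⟩

/-- An element that maps a point of a class into the class acts on the class. -/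
theorem blk_ind {r : Setoid Ω} (hr : Inv Γ r) {x : Ω} {g : Perm Ω} (hg : g ∈ Γ)
    (u w : {z // r z x}) (h : g u = w) :
    ∃ σ ∈ onClass Γ r x, ∀ z, (σ z : Ω) = g z := by
  refine exists_ind (p := fun z => r z x) hg fun z => ⟨fun hz => ?_, fun hz => ?_⟩
  · have h1 : r (g z) (g u) := by rw [h]; exact r.trans' hz (r.symm' w.2)
    exact r.trans' ((hr.iff hg _ _).1 h1) u.2
  · have h1 : r (g z) (g u) := hr g hg _ _ (r.trans' hz (r.symm' u.2))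
    rw [h] at h1
    exact r.trans' h1 w.2

/-- The invariant equivalence relation generated by an invariant relation on one class. -/
def blkExt {r : Setoid Ω} (hr : Inv Γ r) {x : Ω} (s : Setoid {z // r z x})
    (hs : Inv (onClass Γ r x) s) : Setoid Ω where
  r u w := u = w ∨ ∃ g ∈ Γ, ∃ a b : {z // r z x}, s a b ∧ g a = u ∧ g b = w
  iseqv := by
    refine ⟨fun _ => Or.inl rfl, ?_, ?_⟩
    · rintro u w (h | ⟨g, hg, a, b, hab, ha, hb⟩)
      · exact Or.inl h.symm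
      · exact Or.inr ⟨g, hg, b, a, s.symm' hab, hb, ha⟩
    · rintro u w z (h | ⟨g, hg, a, b, hab, ha, hb⟩) h'
      · rwa [h]
      rcases h' with h' | ⟨k, hk, c, d, hcd, hc, hd⟩
      · exact Or.inr ⟨g, hg, a, b, hab, ha, hb.trans h'⟩
      have hm : g⁻¹ * k ∈ Γ := Γ.mul_mem (Γ.inv_mem hg) hk
      have he : (g⁻¹ * k) c = b := by
        rw [Perm.mul_apply, hc, ← hb]; simp
      obtain ⟨σ, hσ, hσ'⟩ := blk_ind hr hm c b he
      have h1 : σ c = b := Subtype.ext ((hσ' c).trans he)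
      have h2 : s b (σ d) := h1 ▸ hs σ hσ c d hcd
      refine Or.inr ⟨g, hg, a, σ d, s.trans' hab h2, ha, ?_⟩
      rw [hσ', Perm.mul_apply, hd]; simp

theorem blk_min [Finite Ω] (P : Setoid Ω → Prop) (h : ∃ r, P r) :
    ∃ r, P r ∧ ∀ r', P r' → (∀ x y, r' x y → r x y) → ∀ x y, r x y → r' x y := by
  obtain ⟨r, hr, hmin⟩ :=
    (measure fun r : Setoid Ω => {p : Ω × Ω | r p.1 p.2}.ncard).wf.has_min {r | P r} h
  refine ⟨r, hr, fun r' hr' hle x y hxy => ?_⟩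
  have h1 : {p : Ω × Ω | r p.1 p.2}.ncard ≤ {p : Ω × Ω | r' p.1 p.2}.ncard :=
    not_lt.1 (hmin r' hr')
  have h2 : {p : Ω × Ω | r' p.1 p.2} = {p : Ω × Ω | r p.1 p.2} :=
    Set.eq_of_subset_of_ncard_le (fun p hp => hle _ _ hp) h1
  have h3 : (x, y) ∈ {p : Ω × Ω | r' p.1 p.2} := h2 ▸ hxy
  exact h3

end

theorem sBlk : SBlk := by
  intro Ω _ Γ x₀ ⟨g₀, hg₀, hx₀⟩
  have hex : ∃ r : Setoid Ω, Inv Γ r ∧ (∀ x y, r x y → x ≠ y → Orb Γ x₀ x) ∧
      ∃ x y, x ≠ y ∧ r x y := by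
    refine ⟨⟨fun x y => x = y ∨ (Orb Γ x₀ x ∧ Orb Γ x₀ y), fun _ => Or.inl rfl, ?_, ?_⟩,
      ?_, ?_, x₀, g₀ x₀, hx₀.symm, Or.inr ⟨⟨1, Γ.one_mem, rfl⟩, g₀, hg₀, rfl⟩⟩
    · rintro x y (h | h)
      · exact Or.inl h.symm
      · exact Or.inr h.symm
    · rintro x y z (h | h) h'
      · rwa [h]
      rcases h' with h' | h'
      · exact Or.inr (h' ▸ h)
      · exact Or.inr ⟨h.1, h'.2⟩
    · rintro g hg x y (h | ⟨⟨a, ha, rfl⟩, ⟨b, hb, rfl⟩⟩)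
      · exact Or.inl (congrArg g h)
      · exact Or.inr ⟨⟨g * a, Γ.mul_mem hg ha, rfl⟩, ⟨g * b, Γ.mul_mem hg hb, rfl⟩⟩
    · rintro x y (h | h) hne
      · exact absurd h hne
      · exact h.1
  obtain ⟨r, ⟨hinv, hsup, a₀, b₀, hab₀, hr₀⟩, hmin⟩ := blk_min _ hex
  refine ⟨r, hinv, hsup, fun x hx => ⟨?_, ?_, ?_⟩⟩
  · obtain ⟨g, hg, rfl⟩ := blk_orb (hsup _ _ hr₀ hab₀) hx
    exact ⟨g b₀, fun h => hab₀ (g.injective h).symm, hinv g hg _ _ hr₀⟩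
  · intro u w
    by_cases huw : (u : Ω) = w
    · exact ⟨1, Subgroup.one_mem _, Subtype.ext huw⟩
    have h1 : r u w := r.trans' u.2 (r.symm' w.2)
    obtain ⟨g, hg, he⟩ := blk_orb (hsup _ _ h1 huw) (hsup _ _ (r.symm' h1) (Ne.symm huw))
    obtain ⟨σ, hσ, hσ'⟩ := blk_ind hinv hg u w he
    exact ⟨σ, hσ, Subtype.ext ((hσ' u).trans he)⟩
  · intro s hs
    by_cases htriv : ∀ a b, s a b → a = b
    · exact Or.inl htriv
    refine Or.inr fun c d => ?_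
    simp only [not_forall] at htriv
    obtain ⟨a, b, hab, hne⟩ := htriv
    have hle : ∀ u w, blkExt hinv s hs u w → r u w := by
      rintro u w (h | ⟨g, hg, a, b, -, rfl, rfl⟩)
      · exact h ▸ r.refl' u
      · exact hinv g hg _ _ (r.trans' a.2 (r.symm' b.2))
    have hP : Inv Γ (blkExt hinv s hs) ∧
        (∀ u w, blkExt hinv s hs u w → u ≠ w → Orb Γ x₀ u) ∧
        ∃ u w, u ≠ w ∧ blkExt hinv s hs u w := by
      refine ⟨?_, fun u w h hne => hsup u w (hle u w h) hne, a, b,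
        fun h => hne (Subtype.ext h), Or.inr ⟨1, Γ.one_mem, a, b, hab, rfl, rfl⟩⟩
      rintro k hk u w (h | ⟨g, hg, a, b, hab, rfl, rfl⟩)
      · exact Or.inl (congrArg k h)
      · exact Or.inr ⟨k * g, Γ.mul_mem hk hg, a, b, hab, rfl, rfl⟩
    rcases hmin _ hP hle c d (r.trans' c.2 (r.symm' d.2)) with h | ⟨g, hg, e, f, hef, he, hf⟩
    · exact (Subtype.ext h : c = d) ▸ s.refl' c
    · obtain ⟨σ, hσ, hσ'⟩ := blk_ind hinv hg e c he
      have h1 : σ e = c := Subtype.ext ((hσ' e).trans he)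
      have h2 : σ f = d := Subtype.ext ((hσ' f).trans hf)
      exact h1 ▸ h2 ▸ hs σ hσ e f hef

end Pool.Agent.Lib.MP_f51cdd_lc.Seu
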