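import Pool.Agent.Lib.MP_f51cdd_lc.Seu.Defs

namespace Pool.Agent.Lib.MP_f51cdd_lc.Seu

open Equiv Function

theorem clo_pair {Ω : Type} {Δ : Subgroup (Perm Ω)} {σ : Perm Ω} (h : Cl 2 Δ σ) (x y : Ω) :
    ∃ δ ∈ Δ, δ x = σ x ∧ δ y = σ y := by
  classical
  obtain ⟨δ, hδ, h1⟩ := h {x, y} Finset.card_le_two
  exact ⟨δ, hδ, h1 x (by simp), h1 y (by simp)⟩

theorem clo_img {Ω Ω' : Type} {Δ : Subgroup (Perm Ω)} {π : Ω → Ω'} (hπ : Surjective π)
    (hinv : Inv Δ fun x y => π x = π y) {σ : Perm Ω} (h : Cl 2 Δ σ) :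
    ∃ σ' : Perm Ω', (∀ x, σ' (π x) = π (σ x)) ∧ Cl 2 (img Δ π) σ' := by
  classical
  let K : Subgroup (Perm Ω) :=
    { carrier := {g | ∀ x y, π (g x) = π (g y) ↔ π x = π y}
      one_mem' := fun _ _ => Iff.rfl
      mul_mem' := fun {a b} ha hb x y => (ha _ _).trans (hb x y)
      inv_mem' := fun {a} ha x y => by simpa using (ha (a⁻¹ x) (a⁻¹ y)).symm }
  have hσ : σ ∈ K := fun x y => by
    obtain ⟨δ, hδ, h1, h2⟩ := clo_pair h x y
    rw [← h1, ← h2]
    exact hinv.iff hδ x y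
  obtain ⟨σ', -, h'⟩ := exists_img (Γ := K) hπ (fun g hg x y hxy => (hg x y).2 hxy) hσ
  refine ⟨σ', h', fun s hs => ?_⟩
  obtain ⟨δ, hδ, h1⟩ := h (s.image (surjInv hπ)) (Finset.card_image_le.trans hs)
  obtain ⟨δ', hδ', h2⟩ := exists_img hπ hinv hδ
  refine ⟨δ', hδ', fun y hy => ?_⟩
  rw [← surjInv_eq hπ y, h2, h', h1 _ (Finset.mem_image_of_mem _ hy)]

theorem clo_lift {Ω Ω' : Type} {Δ : Subgroup (Perm Ω)} {π : Ω → Ω'} (hπ : Surjective π)
    (hinv : Inv Δ fun x y => π x = π y) {σ : Perm Ω} (h : Cl 2 Δ σ) {r : ℕ}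
    (ih : ∀ σ', Cl 2 (img Δ π) σ' → Cl r (img Δ π) σ') (s : Finset Ω) (hs : s.card ≤ r) :
    ∃ δ ∈ Δ, ∀ x ∈ s, π (δ x) = π (σ x) := by
  classical
  obtain ⟨σ', h1, h2⟩ := clo_img hπ hinv h
  obtain ⟨δ', ⟨δ, hδ, h3⟩, h4⟩ := ih σ' h2 (s.image π) (Finset.card_image_le.trans hs)
  exact ⟨δ, hδ, fun x hx => by rw [← h3, h4 _ (Finset.mem_image_of_mem _ hx), h1]⟩

theorem clo_fresh {Ω Ω' : Type} [Finite Ω] (π : Ω → Ω') (a : Ω) (t : Finset Ω)
    (h : t.card < Nat.card {z // π z = π a}) : ∃ c, π c = π a ∧ c ∉ t := by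
  by_contra hc
  push Not at hc
  have := Nat.card_le_card_of_injective
    (fun z : {z // π z = π a} => (⟨z.1, hc _ z.2⟩ : {z // z ∈ t}))
    fun z w hzw => Subtype.ext (congrArg (fun u : {z // z ∈ t} => u.1) hzw)
  rw [Nat.card_eq_card_toFinset (t : Set Ω) |>.trans (by simp : _ = t.card) |> fun e =>
    (e : Nat.card {z // z ∈ t} = t.card)] at this
  omega

theorem clo_aux {M : ℕ} {Ω : Type} {Δ : Subgroup (Perm Ω)} (h : Q M Ω Δ) :
    Finite Ω → ∀ r, r < M → ∀ σ, Cl 2 Δ σ → Cl r Δ σ := by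
  classical
  induction h with
  | triv Ω =>
    intro _ r _ σ h s _
    refine ⟨1, Subgroup.one_mem _, fun x _ => ?_⟩
    obtain ⟨δ, hδ, h1, -⟩ := clo_pair h x x
    rw [← h1, Subgroup.mem_bot.1 hδ]
  | fibre Δ π hπ hinv hrig _ ih =>
    intro _ r hr σ h s hs
    obtain ⟨δ, hδ, h1⟩ := clo_lift hπ hinv h (ih (Finite.of_surjective π hπ) r hr) s hs
    refine ⟨δ, hδ, fun x hx => ?_⟩
    obtain ⟨ε, hε, h2, -⟩ := clo_pair h x x
    have h3 := hinv _ (Δ.inv_mem hδ) (ε x) (δ x) (by rw [h2]; exact (h1 x hx).symm)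
    have h4 := hrig _ (Δ.mul_mem (Δ.inv_mem hδ) hε) x (by simpa using h3)
    rw [← h2]
    exact (Perm.inv_eq_iff_eq.1 h4).symm
  | twin Δ π hπ hinv hbig halt _ ih =>
    intro _ r hr σ h s hs
    obtain ⟨δ, hδ, h1⟩ := clo_lift hπ hinv h (ih (Finite.of_surjective π hπ) r hr) s hs
    have key : ∀ t : Finset _, t ⊆ s →
        ∃ τ ∈ Δ, (∀ x ∈ t, τ x = σ x) ∧ ∀ x ∈ s, π (τ x) = π (σ x) := by
      intro t
      induction t using Finset.induction_on with
      | empty => exact fun _ => ⟨δ, hδ, by simp, h1⟩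
      | insert x t hx iht =>
        intro hts
        obtain ⟨τ, hτ, h2, h3⟩ := iht ((Finset.subset_insert _ _).trans hts)
        by_cases hab : τ x = σ x
        · exact ⟨τ, hτ, fun y hy => (Finset.mem_insert.1 hy).elim (fun e => e ▸ hab) (h2 y), h3⟩
        have hπx := h3 x (hts (Finset.mem_insert_self _ _))
        have hcard : (insert (τ x) (insert (σ x) (t.image σ))).card <
            Nat.card {z // π z = π (τ x)} := by
          have e1 := Finset.card_insert_le (τ x) (insert (σ x) (t.image σ))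
          have e2 := Finset.card_insert_le (σ x) (t.image σ)
          have e3 : (t.image σ).card ≤ t.card := Finset.card_image_le
          have e4 := Finset.card_le_card hts
          rw [Finset.card_insert_of_notMem hx] at e4
          have e5 := hbig _ _ hπx hab
          omega
        obtain ⟨c, hc, hct⟩ := clo_fresh π (τ x) _ hcard
        simp only [Finset.mem_insert, Finset.mem_image, not_or, not_exists, not_and] at hct
        obtain ⟨g, hg, g1, g2, g3, g4⟩ := halt (τ x) (σ x) c hab (Ne.symm hct.2.1) (Ne.symm hct.1)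
          hπx (hπx.symm.trans hc.symm)
        have hgπ : ∀ z, π (g z) = π z := by
          intro z
          by_cases ha : z = τ x
          · rw [ha, g1, hπx]
          by_cases hb : z = σ x
          · rw [hb, g2, hc, hπx]
          by_cases hc' : z = c
          · rw [hc', g3, hc]
          rw [g4 z ha hb hc']
        refine ⟨g * τ, Δ.mul_mem hg hτ, fun y hy => ?_, fun y hy => ?_⟩
        · rw [Perm.mul_apply]
          rcases Finset.mem_insert.1 hy with rfl | hy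
          · exact g1
          have hyx : y ≠ x := fun e => hx (e ▸ hy)
          rw [g4 _ (fun e => hyx (τ.injective e)) (fun e => hyx (σ.injective (h2 y hy ▸ e)))
            (fun e => hct.2.2 y hy (h2 y hy ▸ e)), h2 y hy]
        · rw [Perm.mul_apply, hgπ, h3 y hy]
    obtain ⟨τ, hτ, h2, -⟩ := key s le_rfl
    exact ⟨τ, hτ, h2⟩

theorem sCl : SCl := fun _ _ _ _ h => clo_aux h inferInstance

end Pool.Agent.Lib.MP_f51cdd_lc.Seu
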