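import Pool.Agent.Lib.MP_f51cdd_lc.Seu.Defs

namespace Pool.Agent.Lib.MP_f51cdd_lc.Seu

open Equiv Function Finset

section
variable {V : Type} [Fintype V] [DecidableEq V]

theorem col_fibre (Γ : Subgroup (Perm V)) [DecidablePred (· ∈ Γ)] (ht : Trans Γ) (x y : V) :
    (((univ : Finset (Perm V)).filter (· ∈ Γ)).filter (fun h => h x = y)).card * Fintype.card V =
      ((univ : Finset (Perm V)).filter (· ∈ Γ)).card := by
  have heq : ∀ y', (((univ : Finset (Perm V)).filter (· ∈ Γ)).filter (fun h => h x = y')).card =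
      (((univ : Finset (Perm V)).filter (· ∈ Γ)).filter (fun h => h x = y)).card := by
    intro y'
    obtain ⟨k, hk, hky⟩ := ht y' y
    refine card_bij' (fun h _ => k * h) (fun h _ => k⁻¹ * h) ?_ ?_ ?_ ?_
    · intro h hh
      simp only [mem_filter, mem_univ, true_and] at hh ⊢
      exact ⟨Γ.mul_mem hk hh.1, by rw [Perm.mul_apply, hh.2, hky]⟩
    · intro h hh
      simp only [mem_filter, mem_univ, true_and] at hh ⊢
      exact ⟨Γ.mul_mem (Γ.inv_mem hk) hh.1, by rw [Perm.mul_apply, hh.2, ← hky]; simp⟩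
    · intro h _; simp
    · intro h _; simp
  have h1 := card_eq_sum_card_fiberwise (s := (univ : Finset (Perm V)).filter (· ∈ Γ))
    (t := (univ : Finset V)) (f := fun h => h x) (fun _ _ => by simp)
  rw [h1, sum_congr rfl fun y' _ => heq y', sum_const, card_univ, smul_eq_mul, mul_comm]

theorem col_avg (Γ : Subgroup (Perm V)) [DecidablePred (· ∈ Γ)] (ht : Trans Γ) (T S : Finset V) :
    (∑ h ∈ (univ : Finset (Perm V)).filter (· ∈ Γ), (T.filter (fun x => h x ∈ S)).card) *
      Fintype.card V = T.card * S.card * ((univ : Finset (Perm V)).filter (· ∈ Γ)).card := by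
  have h1 : ∀ h : Perm V, (T.filter (fun x => h x ∈ S)).card =
      ∑ x ∈ T, ∑ y ∈ S, if h x = y then 1 else 0 := by
    intro h
    rw [card_filter]
    refine sum_congr rfl fun x _ => ?_
    rw [sum_ite_eq]
  simp only [h1]
  rw [sum_comm, sum_mul]
  have h2 : ∀ x ∈ T, (∑ h ∈ (univ : Finset (Perm V)).filter (· ∈ Γ),
      ∑ y ∈ S, if h x = y then 1 else 0) * Fintype.card V =
      S.card * ((univ : Finset (Perm V)).filter (· ∈ Γ)).card := by
    intro x _
    rw [sum_comm, sum_mul]
    have h3 : ∀ y ∈ S, (∑ h ∈ (univ : Finset (Perm V)).filter (· ∈ Γ),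
        if h x = y then 1 else 0) * Fintype.card V =
        ((univ : Finset (Perm V)).filter (· ∈ Γ)).card := by
      intro y _
      rw [← card_filter]
      exact col_fibre Γ ht x y
    rw [sum_congr rfl h3, sum_const, smul_eq_mul]
  rw [sum_congr rfl h2, sum_const, smul_eq_mul, mul_assoc]

theorem col_small {W : Type} [Fintype W] [DecidableEq W] (J : ℕ) :
    ((univ : Finset (Finset W)).filter (fun A => A.card ≤ J)).card ≤ (Fintype.card W + 1) ^ J := by
  have h1 : (univ : Finset (Finset W)).filter (fun A => A.card ≤ J) ⊆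
      (range (J + 1)).biUnion fun i => powersetCard i (univ : Finset W) := by
    intro A hA
    simp only [mem_filter, mem_univ, true_and] at hA
    simp only [mem_biUnion, mem_range, mem_powersetCard, subset_univ, true_and]
    exact ⟨A.card, by omega, rfl⟩
  refine (card_le_card h1).trans (card_biUnion_le.trans ?_)
  rw [add_pow]
  refine sum_le_sum fun i hi => ?_
  rw [card_powersetCard, card_univ, one_pow, mul_one]
  have h2 : 1 ≤ J.choose i := Nat.choose_pos (by simpa [Nat.lt_succ_iff] using hi)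
  have h3 := Nat.choose_le_pow (Fintype.card W) i
  calc (Fintype.card W).choose i ≤ Fintype.card W ^ i * 1 := by omega
    _ ≤ Fintype.card W ^ i * J.choose i := Nat.mul_le_mul_left _ h2

theorem col_good (Γ : Subgroup (Perm V)) (T : Finset V) (hT : IsBase Γ T) {h : Perm V}
    (hh : h ∈ Γ) (B : Finset (Perm V)) (hB : ∀ g ∈ B, g ∈ Γ) (J : ℕ)
    (hJ : ∀ g ∈ B, (T.filter (fun x => h x ∈ g.support)).card ≤ J) :
    B.card ≤ (Fintype.card V * Fintype.card V + 1) ^ J := by
  have h0 := col_small (W := V × V) J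
  rw [Fintype.card_prod] at h0
  refine le_trans (card_le_card_of_injOn
    (fun g : Perm V => (T.filter (fun x => h x ∈ g.support)).image fun x => (h x, g (h x)))
    ?_ ?_) h0
  · intro g hg
    simp only [coe_filter, mem_univ, true_and, Set.mem_setOf_eq]
    exact card_image_le.trans (hJ g hg)
  · have key : ∀ g g' : Perm V,
        ((T.filter (fun x => h x ∈ g.support)).image fun x => (h x, g (h x))) =
          ((T.filter (fun x => h x ∈ g'.support)).image fun x => (h x, g' (h x))) →
        ∀ x ∈ T, g (h x) ≠ h x → g' (h x) = g (h x) := by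
      intro g g' he x hx hne
      have h1 : (h x, g (h x)) ∈
          ((T.filter (fun x => h x ∈ g.support)).image fun x => (h x, g (h x))) :=
        mem_image.2 ⟨x, mem_filter.2 ⟨hx, Perm.mem_support.2 hne⟩, rfl⟩
      rw [he] at h1
      obtain ⟨x', _, h2⟩ := mem_image.1 h1
      obtain ⟨h3, h4⟩ := Prod.mk.inj h2
      rw [← h4, h3]
    intro g hg g' hg' he
    have h1 : ∀ x ∈ T, g' (h x) = g (h x) := by
      intro x hx
      by_cases h2 : g (h x) = h x
      · by_cases h3 : g' (h x) = h x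
        · rw [h2, h3]
        · exact (key g' g he.symm x hx h3).symm
      · exact key g g' he x hx h2
    have h2 : h⁻¹ * g⁻¹ * g' * h = 1 := by
      refine hT _ (Γ.mul_mem (Γ.mul_mem (Γ.mul_mem (Γ.inv_mem hh) (Γ.inv_mem (hB g hg)))
        (hB g' hg')) hh) fun x hx => ?_
      simp only [Perm.mul_apply, h1 x hx]
      simp
    have h3 : g' = g * (h * (h⁻¹ * g⁻¹ * g' * h) * h⁻¹) := by group
    rw [h3, h2]; group

theorem col_count (Γ : Subgroup (Perm V)) [DecidablePred (· ∈ Γ)] (ht : Trans Γ) (T : Finset V)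
    (hT : IsBase Γ T) (C s : ℕ) (hv : 0 < Fintype.card V)
    (hC : T.card * (Nat.log 2 (Fintype.card V) + 1) ≤ C * Fintype.card V) :
    (((univ : Finset (Perm V)).filter (· ∈ Γ)).filter (fun g => g.support.card = s)).card ≤
      2 ^ (4 * C * s + 1) := by
  set G := (univ : Finset (Perm V)).filter (· ∈ Γ) with hG
  set Gs := G.filter (fun g => g.support.card = s) with hGs
  set v := Fintype.card V with hvd
  set b := T.card with hb
  have hGne : G.Nonempty := ⟨1, by simp [hG, Γ.one_mem]⟩
  have hsum : ∑ h ∈ G, (∑ g ∈ Gs, (T.filter (fun x => h x ∈ g.support)).card) * v =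
      ∑ _h ∈ G, Gs.card * (b * s) := by
    rw [← sum_mul, sum_comm, sum_mul]
    have h1 : ∀ g ∈ Gs, (∑ h ∈ G, (T.filter (fun x => h x ∈ g.support)).card) * v =
        b * s * G.card := by
      intro g hg
      rw [← (mem_filter.1 hg).2]
      exact col_avg Γ ht T g.support
    rw [sum_congr rfl h1, sum_const, sum_const, smul_eq_mul, smul_eq_mul]
    ring
  obtain ⟨h, hh, hle⟩ := exists_le_of_sum_le hGne hsum.le
  have hhΓ : h ∈ Γ := (mem_filter.1 hh).2
  set J := 2 * b * s / v with hJ
  have hJ1 : 2 * b * s < (J + 1) * v := by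
    have := Nat.div_add_mod (2 * b * s) v
    have h2 := Nat.mod_lt (2 * b * s) hv
    rw [← hJ] at this
    nlinarith
  have hJ2 : J * v ≤ 2 * b * s := Nat.div_mul_le_self _ _
  set Bad := Gs.filter (fun g => ¬(T.filter (fun x => h x ∈ g.support)).card ≤ J) with hBad
  set Gd := Gs.filter (fun g => (T.filter (fun x => h x ∈ g.support)).card ≤ J) with hGd
  have hsplit : Gd.card + Bad.card = Gs.card := card_filter_add_card_filter_not _
  have hbad : Bad.card * (J + 1) ≤ ∑ g ∈ Gs, (T.filter (fun x => h x ∈ g.support)).card := by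
    calc Bad.card * (J + 1) = ∑ _g ∈ Bad, (J + 1) := by rw [sum_const, smul_eq_mul]
      _ ≤ ∑ g ∈ Bad, (T.filter (fun x => h x ∈ g.support)).card :=
          sum_le_sum fun g hg => by have := (mem_filter.1 hg).2; omega
      _ ≤ _ := sum_le_sum_of_subset (filter_subset _ _)
  have hbad2 : 2 * Bad.card ≤ Gs.card := by
    have h1 : Bad.card * (J + 1) * v ≤ Gs.card * (b * s) :=
      (Nat.mul_le_mul_right v hbad).trans hle
    have h2 : 2 * Bad.card * ((J + 1) * v) ≤ Gs.card * ((J + 1) * v) := by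
      calc 2 * Bad.card * ((J + 1) * v) = 2 * (Bad.card * (J + 1) * v) := by ring
        _ ≤ 2 * (Gs.card * (b * s)) := Nat.mul_le_mul_left _ h1
        _ = Gs.card * (2 * b * s) := by ring
        _ ≤ Gs.card * ((J + 1) * v) := Nat.mul_le_mul_left _ hJ1.le
    exact Nat.le_of_mul_le_mul_right h2 (by positivity)
  have hgd : Gd.card ≤ (v * v + 1) ^ J :=
    col_good Γ T hT hhΓ Gd
      (fun g hg => (mem_filter.1 (mem_filter.1 (mem_filter.1 hg).1).1).2) J
      (fun g hg => (mem_filter.1 hg).2)
  have hlog : v < 2 ^ (Nat.log 2 v + 1) := Nat.lt_pow_succ_log_self (by norm_num) v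
  have hvv : v * v + 1 ≤ 2 ^ (2 * (Nat.log 2 v + 1)) := by
    rw [two_mul, pow_add]
    exact Nat.mul_lt_mul'' hlog hlog
  have hLJ : (Nat.log 2 v + 1) * J ≤ 2 * C * s := by
    have h1 : (Nat.log 2 v + 1) * J * v ≤ 2 * C * s * v := by
      calc (Nat.log 2 v + 1) * J * v = (Nat.log 2 v + 1) * (J * v) := by ring
        _ ≤ (Nat.log 2 v + 1) * (2 * b * s) := Nat.mul_le_mul_left _ hJ2
        _ = 2 * s * (b * (Nat.log 2 v + 1)) := by ring
        _ ≤ 2 * s * (C * v) := Nat.mul_le_mul_left _ hC
        _ = 2 * C * s * v := by ring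
    exact Nat.le_of_mul_le_mul_right h1 hv
  have hgd2 : Gd.card ≤ 2 ^ (4 * C * s) := by
    calc Gd.card ≤ (v * v + 1) ^ J := hgd
      _ ≤ (2 ^ (2 * (Nat.log 2 v + 1))) ^ J := Nat.pow_le_pow_left hvv J
      _ = 2 ^ (2 * ((Nat.log 2 v + 1) * J)) := by rw [← pow_mul, mul_assoc]
      _ ≤ 2 ^ (4 * C * s) := Nat.pow_le_pow_right (by norm_num) (by nlinarith)
  rw [pow_succ]
  omega

theorem col_free (g : Perm V) :
    ∃ U : Finset V, (∀ x ∈ U, g x ∉ U) ∧ g.support.card ≤ 3 * U.card := by
  obtain ⟨U, hU, hmax⟩ := exists_max_image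
    ((univ : Finset (Finset V)).filter (fun U => ∀ x ∈ U, g x ∉ U)) card ⟨∅, by simp⟩
  have hU' : ∀ x ∈ U, g x ∉ U := (mem_filter.1 hU).2
  refine ⟨U, hU', ?_⟩
  have hsub : g.support ⊆ U ∪ U.image g ∪ U.image g.symm := by
    intro x hx
    by_contra hn
    simp only [mem_union, mem_image, not_or, not_exists, not_and] at hn
    obtain ⟨⟨h1, h2⟩, h3⟩ := hn
    have h4 : insert x U ∈ (univ : Finset (Finset V)).filter (fun U => ∀ x ∈ U, g x ∉ U) := by
      simp only [mem_filter, mem_univ, true_and, mem_insert, not_or]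
      rintro y (rfl | hy)
      · exact ⟨Perm.mem_support.1 hx, fun h => h3 _ h (by simp)⟩
      · exact ⟨h2 y hy, hU' y hy⟩
    have h5 := hmax _ h4
    rw [card_insert_of_notMem h1] at h5
    omega
  have h1 := card_le_card hsub
  have h2 := card_union_le (U ∪ U.image g) (U.image g.symm)
  have h3 := card_union_le U (U.image g)
  have h4 : (U.image g).card ≤ U.card := card_image_le
  have h5 : (U.image g.symm).card ≤ U.card := card_image_le
  omega

theorem col_fix (g : Perm V) (a : ℕ) :
    ((univ : Finset (V → Fin (2 ^ (3 * a)))).filter (fun c => ∀ x, c (g x) = c x)).card *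
      2 ^ (a * g.support.card) ≤ (2 ^ (3 * a)) ^ Fintype.card V := by
  obtain ⟨U, hU, hcard⟩ := col_free g
  have h1 : ((univ : Finset (V → Fin (2 ^ (3 * a)))).filter (fun c => ∀ x, c (g x) = c x)).card ≤
      (univ : Finset ({x // x ∉ U} → Fin (2 ^ (3 * a)))).card := by
    refine card_le_card_of_injOn (fun c x => c x.1) (fun _ _ => by simp) ?_
    intro c hc c' hc' he
    have hc1 : ∀ x, c (g x) = c x := by simpa using hc
    have hc2 : ∀ x, c' (g x) = c' x := by simpa using hc'
    funext x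
    by_cases hx : x ∈ U
    · rw [← hc1, ← hc2]
      exact congrFun he ⟨g x, hU x hx⟩
    · exact congrFun he ⟨x, hx⟩
  rw [card_univ, Fintype.card_fun, Fintype.card_fin, Fintype.card_subtype_compl,
    Fintype.card_coe] at h1
  have h2 : U.card ≤ Fintype.card V := card_le_univ U
  have h3 : 2 ^ (a * g.support.card) ≤ (2 ^ (3 * a)) ^ U.card := by
    rw [← pow_mul]
    exact Nat.pow_le_pow_right (by norm_num) (by nlinarith)
  calc _ ≤ (2 ^ (3 * a)) ^ (Fintype.card V - U.card) * (2 ^ (3 * a)) ^ U.card :=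
        Nat.mul_le_mul h1 h3
    _ = _ := by rw [← pow_add, Nat.sub_add_cancel h2]

end

theorem col_geom (n : ℕ) : ∑ s ∈ range n, (1 / 2 : ℝ) ^ (s + 1) = 1 - (1 / 2) ^ n := by
  induction n with
  | zero => simp
  | succ n ih => rw [sum_range_succ, ih]; ring

theorem sCol : SCol := by
  classical
  intro C
  refine ⟨2 ^ (3 * (4 * C + 2)), fun V _ Γ T ht hT hC => ?_⟩
  haveI := Fintype.ofFinite V
  rw [Nat.card_eq_fintype_card] at hC
  rcases Nat.eq_zero_or_pos (Fintype.card V) with hv | hv
  · haveI : IsEmpty V := Fintype.card_eq_zero_iff.1 hv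
    exact ⟨fun x => isEmptyElim x, fun g _ _ => Subsingleton.elim _ _⟩
  by_contra hn
  set G := (univ : Finset (Perm V)).filter (· ∈ Γ) with hG
  set F : Perm V → Finset (V → Fin (2 ^ (3 * (4 * C + 2)))) :=
    fun g => univ.filter (fun c => ∀ x, c (g x) = c x) with hF
  set N : ℕ := (2 ^ (3 * (4 * C + 2))) ^ Fintype.card V with hN
  have hNpos : 0 < N := by positivity
  have hcov : (univ : Finset (V → Fin (2 ^ (3 * (4 * C + 2))))) ⊆
      (range (Fintype.card V)).biUnion fun s =>
        (G.filter (fun g => g.support.card = s + 1)).biUnion F := by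
    intro c _
    have h1 : ∃ g ∈ Γ, (∀ x, c (g x) = c x) ∧ g ≠ 1 := by
      by_contra h2
      refine hn ⟨c, fun g hg hc => ?_⟩
      by_contra h3
      exact h2 ⟨g, hg, hc, h3⟩
    obtain ⟨g, hg, hc, hg1⟩ := h1
    have h2 : 0 < g.support.card := by
      rw [card_pos, nonempty_iff_ne_empty]
      exact fun h => hg1 (Perm.support_eq_empty_iff.1 h)
    have h3 : g.support.card ≤ Fintype.card V := card_le_univ _
    simp only [mem_biUnion, mem_range, mem_filter]
    refine ⟨g.support.card - 1, by omega, g, ⟨?_, by omega⟩, ?_⟩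
    · simp [hG, hg]
    · simp [hF, hc]
  have h1 := (card_le_card hcov).trans card_biUnion_le
  rw [card_univ, Fintype.card_fun, Fintype.card_fin, ← hN] at h1
  have h2 : ∀ s ∈ range (Fintype.card V),
      ((((G.filter (fun g => g.support.card = s + 1)).biUnion F).card : ℕ) : ℝ) ≤
        N * (1 / 2 : ℝ) ^ (s + 1) := by
    intro s _
    have h3 : ((G.filter (fun g => g.support.card = s + 1)).biUnion F).card *
        2 ^ ((4 * C + 2) * (s + 1)) ≤ 2 ^ (4 * C * (s + 1) + 1) * N := by
      calc _ ≤ (∑ g ∈ G.filter (fun g => g.support.card = s + 1), (F g).card) *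
            2 ^ ((4 * C + 2) * (s + 1)) := Nat.mul_le_mul_right _ card_biUnion_le
        _ ≤ ∑ _g ∈ G.filter (fun g => g.support.card = s + 1), N := by
            rw [sum_mul]
            refine sum_le_sum fun g hg => ?_
            rw [← (mem_filter.1 hg).2]
            exact col_fix g (4 * C + 2)
        _ ≤ _ := by
            rw [sum_const, smul_eq_mul]
            exact Nat.mul_le_mul_right _ (col_count Γ ht T hT C (s + 1) hv hC)
    have h4 : 2 ^ (s + 1) * 2 ^ (4 * C * (s + 1) + 1) ≤ 2 ^ ((4 * C + 2) * (s + 1)) := by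
      rw [← pow_add]
      exact Nat.pow_le_pow_right (by norm_num) (by nlinarith)
    have h5 : ((G.filter (fun g => g.support.card = s + 1)).biUnion F).card * 2 ^ (s + 1) ≤ N := by
      refine Nat.le_of_mul_le_mul_right (c := 2 ^ (4 * C * (s + 1) + 1)) ?_ (by positivity)
      calc _ = ((G.filter (fun g => g.support.card = s + 1)).biUnion F).card *
            (2 ^ (s + 1) * 2 ^ (4 * C * (s + 1) + 1)) := by ring
        _ ≤ ((G.filter (fun g => g.support.card = s + 1)).biUnion F).card *
            2 ^ ((4 * C + 2) * (s + 1)) := Nat.mul_le_mul_left _ h4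
        _ ≤ 2 ^ (4 * C * (s + 1) + 1) * N := h3
        _ = _ := by ring
    have h6 : ((((G.filter (fun g => g.support.card = s + 1)).biUnion F).card : ℕ) : ℝ) *
        2 ^ (s + 1) ≤ N := by exact_mod_cast h5
    rw [one_div, inv_pow, ← div_eq_mul_inv, le_div_iff₀ (by positivity)]
    exact h6
  have h3 : (N : ℝ) ≤ ∑ s ∈ range (Fintype.card V), N * (1 / 2 : ℝ) ^ (s + 1) := by
    refine le_trans ?_ (sum_le_sum h2)
    exact_mod_cast h1
  rw [← mul_sum, col_geom] at h3
  have h4 : (0 : ℝ) < N := by exact_mod_cast hNpos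
  have h5 : (0 : ℝ) < (1 / 2 : ℝ) ^ Fintype.card V := by positivity
  nlinarith

end Pool.Agent.Lib.MP_f51cdd_lc.Seu
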