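import Pool.Agent.Lib.MP_f51cdd_lc.Seu.Defs

namespace Pool.Agent.Lib.MP_f51cdd_lc.Seu

open Equiv Function

/-- A marking of every class inside `W` with a prescribed number of points. -/
theorem enc_mark {Ω : Type} [Finite Ω] (W : Set Ω) (r : Setoid Ω) (k : Ω → ℕ)
    (hW : ∀ x ∈ W, ∀ y, r x y → y ∈ W) (hk : ∀ x ∈ W, k x ≤ Nat.card {z // r z x})
    (hr : ∀ x y, r x y → k x = k y) :
    ∃ A : Set Ω, ∀ x ∈ W, {z | r z x ∧ z ∈ A}.ncard = k x := by
  have h : ∀ x : Ω, ∃ t : Set Ω, x ∈ W → t ⊆ {z | r z x} ∧ t.ncard = k x := by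
    intro x
    by_cases hx : x ∈ W
    · obtain ⟨t, ht, ht'⟩ := Set.exists_subset_card_eq (s := {z | r z x}) (n := k x) (hk x hx)
      exact ⟨t, fun _ => ⟨ht, ht'⟩⟩
    · exact ⟨∅, fun h => absurd h hx⟩
  choose t ht using h
  refine ⟨{z | z ∈ t (Quotient.mk r z).out}, fun x hx => ?_⟩
  have h1 : r (Quotient.mk r x).out x := Quotient.mk_out x
  obtain ⟨h2, h3⟩ := ht _ (hW x hx _ (r.symm h1))
  rw [← hr _ _ h1, ← h3]
  congr 1
  ext z
  simp only [Set.mem_ofPred_eq]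
  constructor
  · rintro ⟨hz, hz'⟩
    rwa [Quotient.sound hz] at hz'
  · intro hz
    have h4 : r z x := r.trans (h2 hz) h1
    exact ⟨h4, by rwa [Quotient.sound h4]⟩

theorem enc_count {Ω : Type} {Γ : Subgroup (Perm Ω)} {W : Set Ω} {r : Setoid Ω} {A : Set Ω}
    (hinv : Inv Γ r) (hW : ∀ x ∈ W, ∀ y, r x y → y ∈ W) {g : Perm Ω} (hg : g ∈ Γ)
    (hA : ∀ x ∈ W, g x ∈ A ↔ x ∈ A) {x : Ω} (hx : x ∈ W) :
    {z | r z (g x) ∧ z ∈ A}.ncard = {z | r z x ∧ z ∈ A}.ncard := by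
  rw [← Set.ncard_image_of_injective {z | r z x ∧ z ∈ A} g.injective]
  congr 1
  ext z
  obtain ⟨y, rfl⟩ := g.surjective z
  rw [g.injective.mem_set_image]
  simp only [Set.mem_ofPred_eq, hinv.iff hg]
  exact and_congr_right fun h => hA y (hW x hx y (r.symm h))

theorem sEnc : SEnc := by
  classical
  intro Ω _ Γ W r m ν hΓ hinv hW hm hν
  obtain ⟨A, hA⟩ := enc_mark W r (fun x => ((ν x).1 : ℕ)) hW
    (fun x hx => (Nat.lt_succ_iff.1 (ν x).1.2).trans (hm x hx)) fun x y h => by rw [hν x y h]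
  obtain ⟨B, hB⟩ := enc_mark W r (fun x => ((ν x).2 : ℕ)) hW
    (fun x hx => (Nat.lt_succ_iff.1 (ν x).2.2).trans (hm x hx)) fun x y h => by rw [hν x y h]
  refine ⟨fun x => if x ∈ A then (if x ∈ B then 0 else 1) else (if x ∈ B then 2 else 3),
    fun g hg hc x hx => ?_⟩
  have key : ∀ y ∈ W, (g y ∈ A ↔ y ∈ A) ∧ (g y ∈ B ↔ y ∈ B) := by
    intro y hy
    have h := hc y hy
    by_cases h1 : g y ∈ A <;> by_cases h2 : g y ∈ B <;> by_cases h3 : y ∈ A <;>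
      by_cases h4 : y ∈ B <;> simp only [h1, h2, h3, h4, if_true, if_false] at h ⊢ <;>
      first
        | exact absurd h (by decide)
        | exact ⟨trivial, trivial⟩
  have e1 := enc_count hinv hW hg (fun y hy => (key y hy).1) hx
  have e2 := enc_count hinv hW hg (fun y hy => (key y hy).2) hx
  rw [hA _ (hΓ g hg x hx), hA x hx] at e1
  rw [hB _ (hΓ g hg x hx), hB x hx] at e2
  exact Prod.ext (Fin.ext e1) (Fin.ext e2)

end Pool.Agent.Lib.MP_f51cdd_lc.Seu
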