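import Pool.Agent.Lib.MP_f51cdd_lc.Seu.Defs

namespace Pool.Agent.Lib.MP_f51cdd_lc.Seu

open Equiv Function

theorem gq_cl_of_pair {Ω : Type} {Δ : Subgroup (Perm Ω)} {σ : Perm Ω}
    (h : ∀ x y, ∃ δ ∈ Δ, δ x = σ x ∧ δ y = σ y) : Cl 2 Δ σ := by
  classical
  intro s hs
  have h3 : s.card = 0 ∨ s.card = 1 ∨ s.card = 2 := by omega
  rcases h3 with h0 | h1 | h2
  · rw [Finset.card_eq_zero.1 h0]
    exact ⟨1, Δ.one_mem, fun x hx => absurd hx (Finset.notMem_empty x)⟩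
  · obtain ⟨a, rfl⟩ := Finset.card_eq_one.1 h1
    obtain ⟨δ, hδ, ha, -⟩ := h a a
    exact ⟨δ, hδ, fun x hx => by rw [Finset.mem_singleton.1 hx, ha]⟩
  · obtain ⟨a, b, -, rfl⟩ := Finset.card_eq_two.1 h2
    obtain ⟨δ, hδ, ha, hb⟩ := h a b
    refine ⟨δ, hδ, fun x hx => ?_⟩
    rcases Finset.mem_insert.1 hx with rfl | hx
    · exact ha
    · rw [Finset.mem_singleton.1 hx, hb]

theorem gq_pair_of_cl {Ω : Type} {Δ : Subgroup (Perm Ω)} {σ : Perm Ω} (h : Cl 2 Δ σ) (x y : Ω) :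
    ∃ δ ∈ Δ, δ x = σ x ∧ δ y = σ y := by
  classical
  obtain ⟨δ, hδ, h1⟩ := h {x, y} Finset.card_le_two
  exact ⟨δ, hδ, h1 x (by simp), h1 y (by simp)⟩

/-- Union of the sets `e ω` over a finite set of indices. -/
def gqU {Ω V : Type} (e : Ω → Set V) (F : Finset Ω) : Set V := {x | ∃ ω ∈ F, x ∈ e ω}

theorem gq_ncard {Ω V : Type} [Finite V] {e : Ω → Set V}
    (hd : ∀ ω ω', ω ≠ ω' → Disjoint (e ω) (e ω')) (F : Finset Ω) :
    (gqU e F).ncard = ∑ ω ∈ F, (e ω).ncard := by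
  classical
  induction F using Finset.induction_on with
  | empty => simp [gqU]
  | insert a F ha ih =>
    have h1 : gqU e (insert a F) = e a ∪ gqU e F := by
      ext x
      simp [gqU]
    have h2 : Disjoint (e a) (gqU e F) := by
      rw [Set.disjoint_left]
      rintro x hx ⟨ω, hω, hx'⟩
      exact Set.disjoint_left.1 (hd a ω fun h => ha (h ▸ hω)) hx hx'
    rw [h1, Set.ncard_union_eq h2, ih, Finset.sum_insert ha]

theorem gq_eq {Ω V : Type} {e : Ω → Set V} (hd : ∀ ω ω', ω ≠ ω' → Disjoint (e ω) (e ω'))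
    {ω ω' : Ω} {x : V} (h : x ∈ e ω) (h' : x ∈ e ω') : ω = ω' := by
  by_contra hne
  exact Set.disjoint_left.1 (hd ω ω' hne) h h'

/-- The data of the game on a group `Δ`. -/
structure GqData {V Ω : Type} (Γ : Subgroup (Perm V)) (Δ : Subgroup (Perm Ω)) (e : Ω → Set V) :
    Prop where
  ne : ∀ ω, (e ω).Nonempty
  dis : ∀ ω ω', ω ≠ ω' → Disjoint (e ω) (e ω')
  act : ∀ g ∈ Γ, ∃ δ ∈ Δ, ∀ ω, g '' e ω = e (δ ω)
  card : ∀ δ ∈ Δ, ∀ ω, (e (δ ω)).ncard = (e ω).ncard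

/-- Union of the sets over a fibre. -/
def gqE {Ω Ω' V : Type} (π : Ω → Ω') (e : Ω → Set V) (w : Ω') : Set V :=
  {x | ∃ ω, π ω = w ∧ x ∈ e ω}

theorem GqData.quot {V Ω Ω' : Type} [Finite V] [Finite Ω] {Γ : Subgroup (Perm V)}
    {Δ : Subgroup (Perm Ω)} {e : Ω → Set V} (h : GqData Γ Δ e) {π : Ω → Ω'} (hπ : Surjective π)
    (hinv : Inv Δ fun x y => π x = π y) : GqData Γ (img Δ π) (gqE π e) := by
  classical
  refine ⟨fun w => ?_, fun w w' hw => ?_, fun g hg => ?_, ?_⟩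
  · obtain ⟨ω, rfl⟩ := hπ w
    obtain ⟨x, hx⟩ := h.ne ω
    exact ⟨x, ω, rfl, hx⟩
  · rw [Set.disjoint_left]
    rintro x ⟨ω, h1, h2⟩ ⟨ω', h1', h2'⟩
    exact hw (by rw [← h1, ← h1', gq_eq h.dis h2 h2'])
  · obtain ⟨δ, hδ, hge⟩ := h.act g hg
    obtain ⟨σ, hσ, hσδ⟩ := exists_img hπ hinv hδ
    refine ⟨σ, hσ, fun w => ?_⟩
    ext y
    constructor
    · rintro ⟨x, ⟨ω, h1, h2⟩, rfl⟩
      refine ⟨δ ω, by rw [← hσδ, h1], ?_⟩
      rw [← hge]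
      exact ⟨x, h2, rfl⟩
    · rintro ⟨ω, h1, h2⟩
      have h3 : δ (δ⁻¹ ω) = ω := by simp
      rw [← h3, ← hge] at h2
      obtain ⟨x, hx, rfl⟩ := h2
      refine ⟨x, ⟨δ⁻¹ ω, σ.injective ?_, hx⟩, rfl⟩
      rw [hσδ, h3, h1]
  · rintro σ ⟨δ, hδ, hσδ⟩ w
    have := Fintype.ofFinite Ω
    have hU : ∀ v, gqE π e v = gqU e (Finset.univ.filter fun ω => π ω = v) := by
      intro v
      ext x
      simp [gqE, gqU]
    rw [hU, hU, gq_ncard h.dis, gq_ncard h.dis]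
    symm
    refine Finset.sum_bij (fun ω _ => δ ω) ?_ ?_ ?_ ?_
    · intro ω hω
      simp only [Finset.mem_filter, Finset.mem_univ, true_and] at hω ⊢
      rw [← hσδ, hω]
    · intro a _ b _ hab
      exact δ.injective hab
    · intro ω hω
      simp only [Finset.mem_filter, Finset.mem_univ, true_and] at hω
      have h3 : δ (δ⁻¹ ω) = ω := by simp
      refine ⟨δ⁻¹ ω, ?_, h3⟩
      simp only [Finset.mem_filter, Finset.mem_univ, true_and]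
      exact σ.injective (by rw [hσδ, h3, hω])
    · intro ω _
      exact (h.card δ hδ ω).symm

theorem gq_head {m : ℕ} {V : Type} (S : BF m V V) {z : Set V × Set V} {p : List (Set V × Set V)}
    (h : S.R (z :: p)) : S.R [z] :=
  S.mono h fun u hu => by rw [List.mem_singleton.1 hu]; exact List.mem_cons_self

theorem GqData.forth {m : ℕ} {V Ω : Type} {S : BF m V V} {Γ : Subgroup (Perm V)}
    {Δ : Subgroup (Perm Ω)} {e : Ω → Set V} (h : GqData Γ Δ e)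
    (hΓ : ∀ A B, S.R [(A, B)] → ∃ g ∈ Γ, g '' A = B) {p : List (Set V × Set V)} (hp : S.R p)
    (hl : p.length < m) (ω : Ω) : ∃ δ ∈ Δ, S.R ((e ω, e (δ ω)) :: p) := by
  obtain ⟨T, hT⟩ := S.forth hp hl (e ω)
  obtain ⟨g, hg, hgT⟩ := hΓ _ _ (gq_head S hT)
  obtain ⟨δ, hδ, hge⟩ := h.act g hg
  exact ⟨δ, hδ, by rw [← hge, hgT]; exact hT⟩

theorem GqData.back {m : ℕ} {V Ω : Type} {S : BF m V V} {Γ : Subgroup (Perm V)}
    {Δ : Subgroup (Perm Ω)} {e : Ω → Set V} (h : GqData Γ Δ e)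
    (hΓ : ∀ A B, S.R [(A, B)] → ∃ g ∈ Γ, g '' A = B) {p : List (Set V × Set V)} (hp : S.R p)
    (hl : p.length < m) (ω : Ω) : ∃ ω₁, S.R ((e ω₁, e ω) :: p) := by
  obtain ⟨T, hT⟩ := S.back hp hl (e ω)
  obtain ⟨g, hg, hgT⟩ := hΓ _ _ (gq_head S hT)
  obtain ⟨δ, -, hge⟩ := h.act g⁻¹ (Γ.inv_mem hg)
  have h1 : e (δ ω) = T := by
    rw [← hge, ← hgT, Set.image_image]
    simp
  exact ⟨δ ω, by rw [h1]; exact hT⟩

theorem gq_fibre {m : ℕ} {V Ω Ω' : Type} [Finite Ω] {S : BF m V V} {Γ : Subgroup (Perm V)}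
    {Δ : Subgroup (Perm Ω)} {e : Ω → Set V} (h : GqData Γ Δ e) (hm : 3 ≤ m)
    (hΓ : ∀ A B, S.R [(A, B)] → ∃ g ∈ Γ, g '' A = B) {π : Ω → Ω'}
    (hrig : ∀ g ∈ Δ, ∀ x, π (g x) = π x → g x = x) {σ' : Perm Ω'} (hcl : Cl 2 (img Δ π) σ')
    (hR : ∀ w, S.R [(gqE π e w, gqE π e (σ' w))]) :
    ∃ σ : Perm Ω, Cl 2 Δ σ ∧ ∀ ω, S.R [(e ω, e (σ ω))] := by
  have hA : ∀ ω, ∃ δ ∈ Δ, π (δ ω) = σ' (π ω) ∧ S.R [(e ω, e (δ ω))] := by
    intro ω
    obtain ⟨δ, hδ, hT⟩ := h.forth hΓ (hR (π ω)) (by simp; omega) ω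
    refine ⟨δ, hδ, ?_, gq_head S hT⟩
    obtain ⟨y, hy⟩ := h.ne (δ ω)
    obtain ⟨x, hx⟩ := S.pal' hT y
    have h1 : x ∈ e ω := (hx (e ω, e (δ ω)) (by simp)).2 hy
    obtain ⟨ω₁, h2, h3⟩ := (hx (gqE π e (π ω), gqE π e (σ' (π ω))) (by simp)).1 ⟨ω, rfl, h1⟩
    rw [gq_eq h.dis hy h3, h2]
  choose d hd hdπ hdR using hA
  have hinj : Injective fun ω => d ω ω := by
    intro a b hab
    have h1 : π a = π b := σ'.injective (by rw [← hdπ, ← hdπ]; exact congrArg π hab)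
    have h2 : ((d b)⁻¹ * d a) a = b := by
      rw [Perm.mul_apply, Perm.inv_eq_iff_eq]
      exact hab
    have h3 := hrig _ (Δ.mul_mem (Δ.inv_mem (hd b)) (hd a)) a (by rw [h2, h1])
    rw [← h3, h2]
  refine ⟨Equiv.ofBijective _ (Finite.injective_iff_bijective.1 hinj), ?_, hdR⟩
  refine gq_cl_of_pair fun x y => ?_
  obtain ⟨δ', ⟨δ, hδ, hδ'⟩, hx, hy⟩ := gq_pair_of_cl hcl (π x) (π y)
  have key : ∀ z, δ' (π z) = σ' (π z) → δ z = d z z := by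
    intro z hz
    have h2 : (d z * δ⁻¹) (δ z) = d z z := by simp
    have h3 := hrig _ (Δ.mul_mem (hd z) (Δ.inv_mem hδ)) (δ z) (by rw [h2, hdπ, ← hz, hδ'])
    rw [← h3, h2]
  exact ⟨δ, hδ, key x hx, key y hy⟩

theorem gq_move {M : ℕ} {Ω Ω' : Type} [Finite Ω] {Δ : Subgroup (Perm Ω)} {π : Ω → Ω'}
    (hM : 3 ≤ M) (hbig : ∀ x y, π x = π y → x ≠ y → M < Nat.card {z // π z = π x})
    (halt : ∀ a b c, a ≠ b → b ≠ c → a ≠ c → π a = π b → π b = π c → ∃ g ∈ Δ, Cyc3 g a b c)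
    {a b : Ω} (hab : π a = π b) (u : Ω) :
    ∃ g ∈ Δ, g a = b ∧ (u ≠ a → u ≠ b → g u = u) ∧ ∀ x, π (g x) = π x := by
  classical
  by_cases hne : a = b
  · exact ⟨1, Δ.one_mem, hne, fun _ _ => rfl, fun _ => rfl⟩
  have := Fintype.ofFinite Ω
  have h1 := hbig a b hab hne
  rw [Nat.card_eq_fintype_card, Fintype.card_subtype] at h1
  have h2 : ({a, b, u} : Finset Ω).card < (Finset.univ.filter fun z => π z = π a).card :=
    lt_of_le_of_lt (Finset.card_le_three.trans hM) h1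
  obtain ⟨c, hc, hc'⟩ := Finset.exists_mem_notMem_of_card_lt_card h2
  simp only [Finset.mem_filter, Finset.mem_univ, true_and] at hc
  simp only [Finset.mem_insert, Finset.mem_singleton, not_or] at hc'
  obtain ⟨g, hg, g1, g2, g3, g4⟩ := halt a b c hne (fun e => hc'.2.1 e.symm)
    (fun e => hc'.1 e.symm) hab (by rw [hc, hab])
  refine ⟨g, hg, g1, fun h1 h2 => g4 u h1 h2 fun e => hc'.2.2 e.symm, fun x => ?_⟩
  by_cases hxa : x = a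
  · rw [hxa, g1, hab]
  by_cases hxb : x = b
  · rw [hxb, g2, hc, hab]
  by_cases hxc : x = c
  · rw [hxc, g3, hc]
  rw [g4 x hxa hxb hxc]

theorem gq_twin (hC : SCard) {M m : ℕ} {V Ω Ω' : Type} [Finite V] [Finite Ω] [Finite Ω']
    {S : BF m V V} {Γ : Subgroup (Perm V)} {Δ : Subgroup (Perm Ω)} {e : Ω → Set V}
    (h : GqData Γ Δ e) (hM : 3 ≤ M) (hm : 3 ≤ m)
    (hΓ : ∀ A B, S.R [(A, B)] → ∃ g ∈ Γ, g '' A = B) {π : Ω → Ω'}
    (hbig : ∀ x y, π x = π y → x ≠ y → M < Nat.card {z // π z = π x})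
    (halt : ∀ a b c, a ≠ b → b ≠ c → a ≠ c → π a = π b → π b = π c → ∃ g ∈ Δ, Cyc3 g a b c)
    {σ' : Perm Ω'} (hcl : Cl 2 (img Δ π) σ') (hR : ∀ w, S.R [(gqE π e w, gqE π e (σ' w))]) :
    ∃ σ : Perm Ω, Cl 2 Δ σ ∧ ∀ ω, S.R [(e ω, e (σ ω))] := by
  classical
  have := Fintype.ofFinite Ω
  have := Fintype.ofFinite Ω'
  obtain ⟨t, ht⟩ : ∃ t : Ω → Finset Ω, ∀ ω v, v ∈ t ω ↔ π v = σ' (π ω) ∧ S.R [(e ω, e v)] :=
    ⟨fun ω => Finset.univ.filter fun v => π v = σ' (π ω) ∧ S.R [(e ω, e v)], fun ω v => by simp⟩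
  have hsame : ∀ a b, π a = π b → (e b).ncard = (e a).ncard := by
    intro a b hab
    obtain ⟨g, hg, hga, -⟩ := gq_move hM hbig halt hab a
    rw [← hga]
    exact h.card g hg a
  have hfib : ∀ (w : Ω') (F : Finset Ω), (∀ ω ∈ F, π ω = w) → F.card ≤ (F.biUnion t).card := by
    intro w F hF
    rcases F.eq_empty_or_nonempty with rfl | ⟨ω₀, hω₀⟩
    · simp
    have ha : 0 < (e ω₀).ncard := (Set.ncard_pos (Set.toFinite _)).2 (h.ne ω₀)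
    obtain ⟨U, hU⟩ := S.forth (hR w) (by simp; omega) (gqU e F)
    have h1 : (gqU e F).ncard = U.ncard := hC m V V S hm _ _ _ hU (by simp)
    have h2 : U ⊆ gqU e (F.biUnion t) := by
      intro y hy
      obtain ⟨x, hx⟩ := S.pal' hU y
      obtain ⟨ω, hω, hxω⟩ := (hx (gqU e F, U) (by simp)).2 hy
      obtain ⟨v, hv, hyv⟩ := (hx (gqE π e w, gqE π e (σ' w)) (by simp)).1 ⟨ω, hF ω hω, hxω⟩
      obtain ⟨ω₁, h3⟩ := h.back hΓ hU (by simp; omega) v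
      obtain ⟨x', hx'⟩ := S.pal' h3 y
      have h4 : x' ∈ e ω₁ := (hx' (e ω₁, e v) (by simp)).2 hyv
      obtain ⟨ω₂, hω₂, h5⟩ := (hx' (gqU e F, U) (by simp)).2 hy
      have h6 : ω₁ ∈ F := by rw [gq_eq h.dis h4 h5]; exact hω₂
      refine ⟨v, Finset.mem_biUnion.2 ⟨ω₁, h6, (ht _ _).2 ⟨?_, gq_head S h3⟩⟩, hyv⟩
      rw [hv, hF ω₁ h6]
    have h3 := Set.ncard_le_ncard h2 (Set.toFinite _)
    rw [← h1, gq_ncard h.dis, gq_ncard h.dis] at h3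
    have h4 : ∀ ω ∈ F, (e ω).ncard = (e ω₀).ncard := fun ω hω =>
      hsame ω₀ ω (by rw [hF ω hω, hF ω₀ hω₀])
    have h5 : ∀ v ∈ F.biUnion t, (e v).ncard = (e ω₀).ncard := by
      intro v hv
      obtain ⟨ω, hω, hv⟩ := Finset.mem_biUnion.1 hv
      rw [← h4 ω hω]
      exact (hC m V V S hm _ _ _ ((ht _ _).1 hv).2 (by simp)).symm
    rw [Finset.sum_congr rfl h4, Finset.sum_congr rfl h5, Finset.sum_const, Finset.sum_const,
      smul_eq_mul, smul_eq_mul] at h3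
    exact Nat.le_of_mul_le_mul_right h3 ha
  have hall : ∀ F : Finset Ω, F.card ≤ (F.biUnion t).card := by
    intro F
    rw [Finset.card_eq_sum_card_fiberwise (f := π) (s := F) (t := Finset.univ)
        fun _ _ => Finset.mem_coe.2 (Finset.mem_univ _),
      Finset.card_eq_sum_card_fiberwise (f := fun v => σ'⁻¹ (π v)) (s := F.biUnion t)
        (t := Finset.univ) fun _ _ => Finset.mem_coe.2 (Finset.mem_univ _)]
    refine Finset.sum_le_sum fun w _ => ?_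
    refine (hfib w _ fun ω hω => (Finset.mem_filter.1 hω).2).trans (Finset.card_le_card ?_)
    intro v hv
    obtain ⟨ω, hω, hv⟩ := Finset.mem_biUnion.1 hv
    obtain ⟨hωF, hωw⟩ := Finset.mem_filter.1 hω
    refine Finset.mem_filter.2 ⟨Finset.mem_biUnion.2 ⟨ω, hωF, hv⟩, ?_⟩
    rw [((ht _ _).1 hv).1, hωw]
    simp
  obtain ⟨f, hinj, hf⟩ := (Finset.all_card_le_biUnion_card_iff_exists_injective t).1 hall
  refine ⟨Equiv.ofBijective f (Finite.injective_iff_bijective.1 hinj), ?_,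
    fun ω => ((ht _ _).1 (hf ω)).2⟩
  refine gq_cl_of_pair fun x y => ?_
  obtain ⟨δ', ⟨δ, hδ, hδ'⟩, hx, hy⟩ := gq_pair_of_cl hcl (π x) (π y)
  have hfx : π (δ x) = π (f x) := by rw [← hδ', hx, ((ht _ _).1 (hf x)).1]
  have hfy : π (δ y) = π (f y) := by rw [← hδ', hy, ((ht _ _).1 (hf y)).1]
  obtain ⟨g₁, hg₁, h1, -, h1π⟩ := gq_move hM hbig halt hfx x
  by_cases hxy : x = y
  · subst hxy
    exact ⟨g₁ * δ, Δ.mul_mem hg₁ hδ, h1, h1⟩
  obtain ⟨g₂, hg₂, h2, h2u, -⟩ := gq_move hM hbig halt ((h1π (δ y)).trans hfy) (f x)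
  refine ⟨g₂ * (g₁ * δ), Δ.mul_mem hg₂ (Δ.mul_mem hg₁ hδ), ?_, h2⟩
  show g₂ (g₁ (δ x)) = f x
  rw [h1]
  refine h2u (fun e => hxy ?_) fun e => hxy (hinj e)
  rw [← h1] at e
  exact δ.injective (g₁.injective e)

theorem gq_main (hC : SCard) {M m : ℕ} {V : Type} [Finite V] {S : BF m V V}
    {Γ : Subgroup (Perm V)} (hM : 3 ≤ M) (hm : 3 ≤ m)
    (hΓ : ∀ A B, S.R [(A, B)] → ∃ g ∈ Γ, g '' A = B) {Ω : Type} {Δ : Subgroup (Perm Ω)}
    (hQ : Q M Ω Δ) : Finite Ω → ∀ e : Ω → Set V, GqData Γ Δ e →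
      ∃ σ : Perm Ω, Cl 2 Δ σ ∧ ∀ ω, S.R [(e ω, e (σ ω))] := by
  induction hQ with
  | triv Ω =>
    intro _ e h
    refine ⟨1, fun s _ => ⟨1, Subgroup.one_mem _, fun _ _ => rfl⟩, fun ω => ?_⟩
    obtain ⟨δ, hδ, hT⟩ := h.forth hΓ S.nil (by simp; omega) ω
    rw [Subgroup.mem_bot.1 hδ] at hT
    exact hT
  | fibre Δ π hπ hinv hrig _ ih =>
    intro _ e h
    obtain ⟨σ', hcl, hR⟩ := ih (Finite.of_surjective π hπ) _ (h.quot hπ hinv)
    exact gq_fibre h hm hΓ hrig hcl hR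
  | twin Δ π hπ hinv hbig halt _ ih =>
    intro _ e h
    have := Finite.of_surjective π hπ
    obtain ⟨σ', hcl, hR⟩ := ih this _ (h.quot hπ hinv)
    exact gq_twin hC h hM hm hΓ hbig halt hcl hR

theorem sQ (hC : SCard) : SQ := by
  intro M m V _ S Γ hM hm hΓ Ω hΩ Δ hQ e h1 h2 h3 h4
  exact gq_main hC hM hm hΓ hQ hΩ e ⟨h1, h2, h3, h4⟩

end Pool.Agent.Lib.MP_f51cdd_lc.Seu
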