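import Pool.Agent.Lib.MP_f51cdd_lc.Seu.Defs

namespace Pool.Agent.Lib.MP_f51cdd_lc.Seu

open Equiv Function

variable {Ω : Type}

/-- `M` induces every 3-cycle on the class of `x`. -/
def gc_On (M : Subgroup (Perm Ω)) (r : Setoid Ω) (x : Ω) : Prop :=
  ∀ a b c, a ≠ b → b ≠ c → a ≠ c → r a x → r b x → r c x →
    ∃ g ∈ M, g a = b ∧ g b = c ∧ g c = a ∧ ∀ z, r z x → z ≠ a → z ≠ b → z ≠ c → g z = z

/-- `M` is a subgroup of `L` normalised by `L`. -/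
def gc_Nor (L M : Subgroup (Perm Ω)) : Prop :=
  M ≤ L ∧ ∀ g ∈ L, ∀ m ∈ M, g * m * g⁻¹ ∈ M

theorem gc_nor_inf {L M M' : Subgroup (Perm Ω)} (h : gc_Nor L M) (h' : gc_Nor L M') :
    gc_Nor L (M ⊓ M') :=
  ⟨inf_le_left.trans h.1, fun g hg m hm => ⟨h.2 g hg m hm.1, h'.2 g hg m hm.2⟩⟩

theorem gc_comm {L M M' : Subgroup (Perm Ω)} (h : gc_Nor L M) (h' : gc_Nor L M') {m m' : Perm Ω}
    (hm : m ∈ M) (hm' : m' ∈ M') : m * m' * m⁻¹ * m'⁻¹ ∈ M ⊓ M' := by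
  refine ⟨?_, M'.mul_mem (h'.2 m (h.1 hm) m' hm') (M'.inv_mem hm')⟩
  have := M.mul_mem hm (h.2 m' (h'.1 hm') m⁻¹ (M.inv_mem hm))
  simpa [mul_assoc] using this

theorem gc_giant_of_on {M : Subgroup (Perm Ω)} {r : Setoid Ω} {x : Ω} (h : gc_On M r x) :
    Giant (onClass M r x) := by
  classical
  intro a b c hab hbc hac
  obtain ⟨g, hg, h1, h2, h3, h4⟩ := h a b c (fun e => hab (Subtype.ext e))
    (fun e => hbc (Subtype.ext e)) (fun e => hac (Subtype.ext e)) a.2 b.2 c.2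
  have hc := cyc3_swap hab hbc hac
  refine ⟨_, ⟨g, hg, fun z => ?_⟩, hc⟩
  by_cases hza : z = a
  · rw [hza, hc.1, h1]
  by_cases hzb : z = b
  · rw [hzb, hc.2.1, h2]
  by_cases hzc : z = c
  · rw [hzc, hc.2.2.1, h3]
  rw [hc.2.2.2 z hza hzb hzc, h4 z z.2 (fun e => hza (Subtype.ext e))
    (fun e => hzb (Subtype.ext e)) (fun e => hzc (Subtype.ext e))]

theorem gc_on_of_giant {M : Subgroup (Perm Ω)} {r : Setoid Ω} {x : Ω}
    (h : Giant (onClass M r x)) : gc_On M r x := by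
  intro a b c hab hbc hac ha hb hc
  obtain ⟨σ, ⟨g, hg, hσ⟩, h1, h2, h3, h4⟩ := h ⟨a, ha⟩ ⟨b, hb⟩ ⟨c, hc⟩
    (fun e => hab (congrArg Subtype.val e)) (fun e => hbc (congrArg Subtype.val e))
    (fun e => hac (congrArg Subtype.val e))
  refine ⟨g, hg, ?_, ?_, ?_, fun z hz hza hzb hzc => ?_⟩
  · have := hσ ⟨a, ha⟩; rw [h1] at this; exact this.symm
  · have := hσ ⟨b, hb⟩; rw [h2] at this; exact this.symm
  · have := hσ ⟨c, hc⟩; rw [h3] at this; exact this.symm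
  · have := hσ ⟨z, hz⟩
    rw [h4 ⟨z, hz⟩ (fun e => hza (congrArg Subtype.val e))
      (fun e => hzb (congrArg Subtype.val e)) (fun e => hzc (congrArg Subtype.val e))] at this
    exact this.symm

theorem gc_keep {r : Setoid Ω} {n : Perm Ω} (hn : ∀ z, r (n z) z) (x z : Ω) :
    r (n z) x ↔ r z x :=
  ⟨fun h => r.trans (r.symm (hn z)) h, fun h => r.trans (hn z) h⟩

theorem gc_norm (hN : SNorm) [Finite Ω] {L M : Subgroup (Perm Ω)} {r : Setoid Ω} {x : Ω}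
    (hc : 5 ≤ Nat.card {z // r z x}) (hL : gc_On L r x)
    (hLM : ∀ g ∈ L, ∀ m ∈ M, g * m * g⁻¹ ∈ M) {m : Perm Ω} (hm : m ∈ M)
    (hk : ∀ z, r (m z) z) {z : Ω} (hz : r z x) (hmz : m z ≠ z) : gc_On M r x := by
  apply gc_on_of_giant
  refine hN _ _ (onClass L r x) hc (gc_giant_of_on hL) ?_ ?_
  · rintro l ⟨g, hg, hl⟩ h ⟨n, hn, hh⟩
    refine ⟨g * n * g⁻¹, hLM g hg n hn, fun w => ?_⟩
    have e : ((l⁻¹ w : {z // r z x}) : Ω) = g⁻¹ w := by
      rw [Perm.eq_inv_iff_eq, ← hl]; simp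
    simp only [Perm.mul_apply]
    rw [hl, hh, e]
  · intro hbot
    obtain ⟨σ, hσ, hσ'⟩ := exists_ind (Γ := M) (p := fun w => r w x) hm (gc_keep hk x)
    have h1 : σ = 1 := by
      have : σ ∈ (⊥ : Subgroup (Perm {z // r z x})) := hbot ▸ hσ
      exact Subgroup.mem_bot.1 this
    have := hσ' ⟨z, hz⟩
    rw [h1] at this
    exact hmz this.symm

theorem gc_sq [Finite Ω] {M : Subgroup (Perm Ω)} {r : Setoid Ω} {x : Ω} (h : gc_On M r x)
    {n : Perm Ω} (hn : ∀ z, r (n z) z) : ∃ k ∈ M, ∀ z, r z x → k z = n (n z) := by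
  classical
  have := Fintype.ofFinite {z // r z x}
  let σ : Perm {z // r z x} := n.subtypePerm (gc_keep hn x)
  have hs : σ * σ ∈ alternatingGroup {z // r z x} := by
    rw [Perm.mem_alternatingGroup, Perm.sign_mul, Int.units_mul_self]
  obtain ⟨k, hk, hk'⟩ := giant_iff.1 (gc_giant_of_on h) hs
  exact ⟨k, hk, fun z hz => (hk' ⟨z, hz⟩).symm⟩

/-- A class with at least five points has a point outside any three given points. -/
theorem gc_pick [Finite Ω] {r : Setoid Ω} {x : Ω} (hc : 5 ≤ Nat.card {z // r z x})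
    (a b c : Ω) : ∃ d, r d x ∧ d ≠ a ∧ d ≠ b ∧ d ≠ c := by
  classical
  by_contra hcon
  push Not at hcon
  have h1 : {z | r z x} ⊆ (({a, b, c} : Finset Ω) : Set Ω) := by
    intro z hz
    by_cases ha : z = a
    · simp [ha]
    by_cases hb : z = b
    · simp [hb]
    simp [hcon z hz ha hb]
  have h2 := Set.ncard_le_ncard h1 (Finset.finite_toSet _)
  rw [Set.ncard_coe_finset] at h2
  have h3 : ({a, b, c} : Finset Ω).card ≤ 3 := Finset.card_le_three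
  have h4 : Nat.card {z // r z x} = {z | r z x}.ncard := Nat.card_coe_set_eq {z | r z x}
  omega

/-- A giant group on a class separates any two points of the class. -/
theorem gc_sep [Finite Ω] {M : Subgroup (Perm Ω)} {r : Setoid Ω} {x : Ω}
    (hc : 5 ≤ Nat.card {z // r z x}) (h : gc_On M r x) {a b : Ω} (ha : r a x) (hb : r b x)
    (hab : a ≠ b) : ∃ g ∈ M, g a = a ∧ g b ≠ b := by
  obtain ⟨c, hc1, hca, hcb, -⟩ := gc_pick hc a b b
  obtain ⟨d, hd1, hda, hdb, hdc⟩ := gc_pick hc a b c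
  obtain ⟨g, hg, h1, -, -, h4⟩ := h b c d hcb.symm hdc.symm hdb.symm hb hc1 hd1
  exact ⟨g, hg, h4 a ha hab hca.symm hda.symm, by rw [h1]; exact hcb⟩

theorem gc_inf (hN : SNorm) [Finite Ω] {L M M' : Subgroup (Perm Ω)} {r : Setoid Ω} {x : Ω}
    (hc : 5 ≤ Nat.card {z // r z x}) (hk : ∀ n ∈ L, ∀ z, r (n z) z) (hL : gc_On L r x)
    (hM : gc_Nor L M) (hM' : gc_Nor L M') (h : gc_On M r x) (h' : gc_On M' r x) :
    gc_On (M ⊓ M') r x := by
  obtain ⟨b, hb1, hba, -, -⟩ := gc_pick hc x x x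
  obtain ⟨c, hc1, hca, hcb, -⟩ := gc_pick hc x b b
  obtain ⟨d, hd1, hda, hdb, hdc⟩ := gc_pick hc x b c
  obtain ⟨m, hm, h1, h2, -⟩ := h x b c hba.symm hcb.symm hca.symm (r.refl x) hb1 hc1
  obtain ⟨m', hm', h1', h2', -⟩ := h' x b d hba.symm hdb.symm hda.symm (r.refl x) hb1 hd1
  have hcm := gc_comm hM hM' hm hm'
  refine gc_norm hN hc hL (gc_nor_inf hM hM').2 hcm (hk _ ((gc_nor_inf hM hM').1 hcm)) hd1 ?_
  have e : (m * m' * m⁻¹ * m'⁻¹) (m' (m x)) = m (m' x) := by simp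
  rw [h1, h2', h1', h2] at e
  rw [e]; exact hdc.symm

/-- The elements of `N` fixing the class of `x` pointwise. -/
def gc_fix (N : Subgroup (Perm Ω)) (r : Setoid Ω) (x : Ω) : Subgroup (Perm Ω) where
  carrier := {n | n ∈ N ∧ ∀ z, r z x → n z = z}
  one_mem' := ⟨N.one_mem, fun _ _ => rfl⟩
  mul_mem' := fun {a b} ha hb =>
    ⟨N.mul_mem ha.1 hb.1, fun z hz => by rw [Perm.mul_apply, hb.2 z hz, ha.2 z hz]⟩
  inv_mem' := fun {a} ha =>
    ⟨N.inv_mem ha.1, fun z hz => by rw [Perm.inv_eq_iff_eq, ha.2 z hz]⟩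

theorem gc_fix_nor {N : Subgroup (Perm Ω)} {r : Setoid Ω} (hk : ∀ n ∈ N, ∀ z, r (n z) z)
    (x : Ω) : gc_Nor N (gc_fix N r x) := by
  refine ⟨fun n hn => hn.1, fun g hg m hm =>
    ⟨N.mul_mem (N.mul_mem hg hm.1) (N.inv_mem hg), fun z hz => ?_⟩⟩
  have := hm.2 (g⁻¹ z) (r.trans (hk _ (N.inv_mem hg) z) hz)
  rw [Perm.mul_apply, Perm.mul_apply, this]; simp

/-- The elements of `Γ` keeping every class in the orbit of `x`. -/
def gc_ker (Γ : Subgroup (Perm Ω)) (r : Setoid Ω) (x : Ω) : Subgroup (Perm Ω) where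
  carrier := {g | g ∈ Γ ∧ ∀ y, Orb Γ x y → r (g y) y}
  one_mem' := ⟨Γ.one_mem, fun y _ => r.refl y⟩
  mul_mem' := fun {a b} ha hb => ⟨Γ.mul_mem ha.1 hb.1, fun y hy => by
    obtain ⟨g, hg, rfl⟩ := hy
    exact r.trans (ha.2 (b (g x)) ⟨b * g, Γ.mul_mem hb.1 hg, rfl⟩) (hb.2 _ ⟨g, hg, rfl⟩)⟩
  inv_mem' := fun {a} ha => ⟨Γ.inv_mem ha.1, fun y hy => by
    obtain ⟨g, hg, rfl⟩ := hy
    have := ha.2 (a⁻¹ (g x)) ⟨a⁻¹ * g, Γ.mul_mem (Γ.inv_mem ha.1) hg, rfl⟩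
    exact r.symm (by simpa using this)⟩

theorem gc_ker_nor {Γ : Subgroup (Perm Ω)} {r : Setoid Ω} (hr : Inv Γ r) (x : Ω) :
    gc_Nor Γ (gc_ker Γ r x) := by
  refine ⟨fun n hn => hn.1, fun g hg m hm =>
    ⟨Γ.mul_mem (Γ.mul_mem hg hm.1) (Γ.inv_mem hg), fun y hy => ?_⟩⟩
  obtain ⟨h, hh, rfl⟩ := hy
  have := hr g hg _ _ (hm.2 (g⁻¹ (h x)) ⟨g⁻¹ * h, Γ.mul_mem (Γ.inv_mem hg) hh, rfl⟩)
  simpa using this

/-- Points with the same stabiliser in `M`. -/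
def gc_same (M : Subgroup (Perm Ω)) : Setoid Ω where
  r a b := ∀ k ∈ M, (k a = a ↔ k b = b)
  iseqv := ⟨fun _ _ _ => Iff.rfl, fun h k hk => (h k hk).symm,
    fun h h' k hk => (h k hk).trans (h' k hk)⟩

theorem gc_same_inv {Γ M : Subgroup (Perm Ω)} (h : gc_Nor Γ M) : Inv Γ (gc_same M) := by
  intro g hg a b hab k hk
  have h1 := hab (g⁻¹ * k * g⁻¹⁻¹) (h.2 _ (Γ.inv_mem hg) k hk)
  simpa [Perm.inv_eq_iff_eq, Equiv.symm_apply_eq] using h1

/-- The action of `N` on the class of `x`. -/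
def gc_hom (N : Subgroup (Perm Ω)) (r : Setoid Ω) (hk : ∀ n ∈ N, ∀ z, r (n z) z) (x : Ω) :
    N →* Perm {z // r z x} where
  toFun n := (n : Perm Ω).subtypePerm (gc_keep (hk n n.2) x)
  map_one' := by ext z; rfl
  map_mul' a b := by ext z; rfl

theorem gc_hom_apply {N : Subgroup (Perm Ω)} {r : Setoid Ω} (hk : ∀ n ∈ N, ∀ z, r (n z) z)
    (x : Ω) (n : N) (z : {z // r z x}) : (gc_hom N r hk x n z : Ω) = (n : Perm Ω) z := rfl

theorem gc_hom_ker {N : Subgroup (Perm Ω)} {r : Setoid Ω} (hk : ∀ n ∈ N, ∀ z, r (n z) z)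
    (x : Ω) (n : N) : n ∈ (gc_hom N r hk x).ker ↔ (n : Perm Ω) ∈ gc_fix N r x := by
  rw [MonoidHom.mem_ker]
  constructor
  · intro h
    refine ⟨n.2, fun z hz => ?_⟩
    have := gc_hom_apply hk x n ⟨z, hz⟩
    rw [h] at this
    exact this.symm
  · intro h
    ext z
    rw [gc_hom_apply, h.2 z z.2]; rfl

theorem gc_hom_giant {N : Subgroup (Perm Ω)} {r : Setoid Ω} (hk : ∀ n ∈ N, ∀ z, r (n z) z)
    {x : Ω} (h : gc_On N r x) : Giant (gc_hom N r hk x).range := by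
  intro a b c hab hbc hac
  obtain ⟨σ, ⟨g, hg, hσ⟩, h3⟩ := gc_giant_of_on h a b c hab hbc hac
  refine ⟨σ, ⟨⟨g, hg⟩, ?_⟩, h3⟩
  ext z
  rw [gc_hom_apply, hσ]

/-- Two classes with giant actions: either some points have the same stabiliser, or the pointwise
stabiliser of the second class is giant on the first. -/
theorem gc_two (hN : SNorm) [Finite Ω] {N : Subgroup (Perm Ω)} {r : Setoid Ω} {E : ℕ}
    (hIL : IL E) (hE : 5 ≤ E) (hk : ∀ n ∈ N, ∀ z, r (n z) z) {x y : Ω}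
    (hx : E ≤ Nat.card {z // r z x}) (hy : E ≤ Nat.card {z // r z y}) (gx : gc_On N r x)
    (gy : gc_On N r y) :
    (∃ a b, r a x ∧ r b y ∧ gc_same N a b) ∨ gc_On (gc_fix N r y) r x := by
  by_cases h : gc_fix N r y ≤ gc_fix N r x
  · left
    have h' : gc_fix N r x ≤ gc_fix N r y := by
      intro m hm
      refine ⟨hm.1, fun z hz => ?_⟩
      by_contra hmz
      have g1 : gc_On (gc_fix N r x) r y :=
        gc_norm hN (hE.trans hy) gy (gc_fix_nor hk x).2 hm (hk m hm.1) hz hmz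
      obtain ⟨b, hb1, hba, -, -⟩ := gc_pick (hE.trans hx) x x x
      obtain ⟨c, hc1, hca, hcb, -⟩ := gc_pick (hE.trans hx) x b b
      obtain ⟨n, hn, h1, h2, -⟩ := gx x b c hba.symm hcb.symm hca.symm (r.refl x) hb1 hc1
      obtain ⟨k, hk1, hk2⟩ := gc_sq g1 (hk n hn)
      have h3 : k⁻¹ * (n * n) ∈ gc_fix N r y :=
        ⟨N.mul_mem (N.inv_mem hk1.1) (N.mul_mem hn hn), fun w hw => by
          rw [Perm.mul_apply, Perm.inv_eq_iff_eq, hk2 w hw]; rfl⟩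
      have h4 := (h h3).2 x (r.refl x)
      rw [Perm.mul_apply, Perm.inv_eq_iff_eq, hk1.2 x (r.refl x), Perm.mul_apply, h1, h2] at h4
      exact hca h4
    have hker : (gc_hom N r hk x).ker = (gc_hom N r hk y).ker := by
      ext n
      rw [gc_hom_ker, gc_hom_ker, le_antisymm h h']
    obtain ⟨a, b, hab⟩ := hIL N _ _ _ _ hker (gc_hom_giant hk gx) (gc_hom_giant hk gy) hx hy
    refine ⟨a, b, a.2, b.2, fun k hk1 => ?_⟩
    have := hab ⟨k, hk1⟩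
    rwa [Subtype.ext_iff, Subtype.ext_iff, gc_hom_apply, gc_hom_apply] at this
  · right
    obtain ⟨m, hm, hm'⟩ := SetLike.not_le_iff_exists.1 h
    have : ∃ z, r z x ∧ m z ≠ z := by
      by_contra hcon
      push Not at hcon
      exact hm' ⟨hm.1, hcon⟩
    obtain ⟨z, hz, hmz⟩ := this
    exact gc_norm hN (hE.trans hx) gx (gc_fix_nor hk y).2 hm (hk m hm.1) hz hmz

/-- If the pointwise stabiliser of every other class is giant on the class of `x`, then all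
3-cycles of this class lie in the group. -/
theorem gc_local (hN : SNorm) [Finite Ω] {N : Subgroup (Perm Ω)} {r : Setoid Ω} {x : Ω}
    (hc : 5 ≤ Nat.card {z // r z x}) (hk : ∀ n ∈ N, ∀ z, r (n z) z) (gx : gc_On N r x)
    (h : ∀ y, ¬r y x → gc_On (gc_fix N r y) r x) {a b c : Ω} (hab : a ≠ b) (hbc : b ≠ c)
    (hac : a ≠ c) (ha : r a x) (hb : r b x) (hc' : r c x) : ∃ g ∈ N, Cyc3 g a b c := by
  obtain ⟨M, ⟨hM, gM⟩, hmin⟩ := (wellFounded_lt (α := Subgroup (Perm Ω))).has_min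
    {M | gc_Nor N M ∧ gc_On M r x} ⟨N, ⟨le_rfl, fun g hg m hm =>
      N.mul_mem (N.mul_mem hg hm) (N.inv_mem hg)⟩, gx⟩
  obtain ⟨g, hg, h1, h2, h3, h4⟩ := gM a b c hab hbc hac ha hb hc'
  refine ⟨g, hM.1 hg, h1, h2, h3, fun z hza hzb hzc => ?_⟩
  by_cases hz : r z x
  · exact h4 z hz hza hzb hzc
  have h5 : M ≤ gc_fix N r z := by
    have h6 := hmin (M ⊓ gc_fix N r z) ⟨gc_nor_inf hM (gc_fix_nor hk z),
      gc_inf hN hc hk gx hM (gc_fix_nor hk z) gM (h z hz)⟩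
    by_contra h7
    exact h6 (inf_lt_left.2 h7)
  exact (h5 hg).2 z (r.refl z)

theorem sGiant (hTS : STwoSys) (hN : SNorm) : SGiant := by
  intro Ω _ Γ r E hIL hE hΓ hr hO hG
  -- a minimal normal subgroup
  obtain ⟨N, ⟨hN1, hN2⟩, hmin⟩ := (wellFounded_lt (α := Subgroup (Perm Ω))).has_min
    {M | gc_Nor Γ M ∧ M ≠ ⊥} ⟨Γ, ⟨le_rfl, fun g hg m hm =>
      Γ.mul_mem (Γ.mul_mem hg hm) (Γ.inv_mem hg)⟩, hΓ⟩
  have hcard : ∀ x, (∃ g ∈ Γ, g x ≠ x) → 5 ≤ Nat.card {z // r z x} := fun x hx =>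
    hE.trans (hG x hx).1.le
  have hK : ∀ x, (∃ g ∈ Γ, g x ≠ x) → gc_On (gc_ker Γ r x) r x := by
    intro x hx a b c hab hbc hac ha hb hc
    obtain ⟨g, hg, h0, h1⟩ := (hG x hx).2 a b c hab hbc hac ha hb hc
    exact ⟨g, ⟨hg, h0⟩, h1⟩
  have hcls : ∀ x, (∃ g ∈ Γ, g x ≠ x) → ∃ y, Orb Γ x y ∧ y ≠ x ∧ r x y := by
    intro x hx
    obtain ⟨y, hy, hyx, -, -⟩ := gc_pick (hcard x hx) x x x
    exact ⟨y, hO x y (r.symm hy), hyx, r.symm hy⟩
  by_cases hk : ∀ n ∈ N, ∀ z, r (n z) z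
  swap
  · -- some element of `N` moves a class
    left
    push Not at hk
    obtain ⟨n, hn, y, hy⟩ := hk
    have hny : n y ≠ y := fun e => hy (by rw [e])
    have hmv : ∃ g ∈ Γ, g y ≠ y := ⟨n, hN1.1 hn, hny⟩
    have hKn := gc_ker_nor hr y
    have hbot : N ⊓ gc_ker Γ r y = ⊥ := by
      by_contra hne
      refine hmin _ ⟨gc_nor_inf hN1 hKn, hne⟩ (inf_lt_left.2 fun hle => ?_)
      exact hy ((hle hn).2 y ⟨1, Γ.one_mem, rfl⟩)
    refine hTS Ω Γ y r (gc_same (gc_ker Γ r y)) hr (gc_same_inv hKn) (hcls y hmv)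
      ⟨n y, ⟨n, hN1.1 hn, rfl⟩, hny, fun k hk => ?_⟩ fun z _ hz hs => ?_
    · have h1 := gc_comm hN1 hKn hn hk
      rw [hbot, Subgroup.mem_bot, mul_inv_eq_one, mul_inv_eq_iff_eq_mul] at h1
      have h2 : k (n y) = n (k y) := by
        have := congrArg (fun τ : Perm Ω => τ y) h1
        exact this.symm
      rw [h2, n.injective.eq_iff]
    · by_contra hzy
      obtain ⟨g, hg, h1, h2⟩ := gc_sep (hcard y hmv) (hK y hmv) (r.refl y) (r.symm hz)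
        (Ne.symm hzy)
      exact h2 ((hs g hg).1 h1)
  -- `N` keeps every class
  let U : Set Ω := {x | ∃ n ∈ N, n x ≠ x}
  have hUm : ∀ x ∈ U, ∃ g ∈ Γ, g x ≠ x := fun x ⟨n, hn, h⟩ => ⟨n, hN1.1 hn, h⟩
  have hUg : ∀ x ∈ U, gc_On N r x := by
    rintro x ⟨n, hn, h⟩
    have hx := hUm x ⟨n, hn, h⟩
    exact gc_norm hN (hcard x hx) (hK x hx) (fun g hg m hm => hN1.2 g hg.1 m hm) hn (hk n hn)
      (r.refl x) h
  have hUr : ∀ x ∈ U, ∀ z, r z x → z ∈ U := by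
    intro x hx z hz
    by_cases hzx : x = z
    · exact hzx ▸ hx
    obtain ⟨g, hg, -, h2⟩ := gc_sep (hcard x (hUm x hx)) (hUg x hx) (r.refl x) hz hzx
    exact ⟨g, hg, h2⟩
  have hUi : ∀ g ∈ Γ, ∀ x ∈ U, g x ∈ U := by
    rintro g hg x ⟨n, hn, h⟩
    exact ⟨g * n * g⁻¹, hN1.2 g hg n hn, by simpa using h⟩
  have hUs : ∀ a ∈ U, ∀ b, gc_same N a b → b ∈ U := by
    rintro a ⟨n, hn, h⟩ b hab
    exact ⟨n, hn, fun e => h ((hab n hn).2 e)⟩
  have hsi := gc_same_inv hN1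
  by_cases h2a : ∃ a ∈ U, ∃ b, Orb Γ a b ∧ b ≠ a ∧ gc_same N a b
  · left
    obtain ⟨a, ha, hb⟩ := h2a
    refine hTS Ω Γ a r (gc_same N) hr hsi (hcls a (hUm a ha)) hb fun z _ hz hs => ?_
    by_contra hza
    obtain ⟨g, hg, h1, h2⟩ := gc_sep (hcard a (hUm a ha)) (hUg a ha) (r.refl a) (r.symm hz)
      (Ne.symm hza)
    exact h2 ((hs g hg).1 h1)
  by_cases h2b : ∃ a ∈ U, ∃ b, b ≠ a ∧ gc_same N a b
  · left
    let s : Setoid Ω :=
      { r := fun a b => a = b ∨ (a ∈ U ∧ gc_same N a b)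
        iseqv := ⟨fun _ => Or.inl rfl, fun {a b} h => by
          rcases h with h | ⟨h1, h2⟩
          · exact Or.inl h.symm
          · exact Or.inr ⟨hUs a h1 b h2, (gc_same N).symm h2⟩, fun {a b c} h h' => by
          rcases h with rfl | ⟨h1, h2⟩
          · exact h'
          rcases h' with rfl | ⟨-, h3⟩
          · exact Or.inr ⟨h1, h2⟩
          · exact Or.inr ⟨h1, (gc_same N).trans h2 h3⟩⟩ }
    refine ⟨{a | a ∈ U ∧ ∃ b, b ≠ a ∧ gc_same N a b}, s, fun _ => 0, h2b, ?_, ?_, ?_, ?_, ?_⟩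
    · rintro g hg x ⟨hx, b, hb, hs⟩
      exact ⟨hUi g hg x hx, g b, g.injective.ne hb, hsi g hg _ _ hs⟩
    · rintro g hg x y (rfl | ⟨h1, h2⟩)
      · exact Or.inl rfl
      · exact Or.inr ⟨hUi g hg x h1, hsi g hg _ _ h2⟩
    · rintro x ⟨hx, b, hb, hs⟩
      exact ⟨b, hb, Or.inr ⟨hx, hs⟩⟩
    · rintro x hx y (rfl | ⟨h1, h2⟩)
      · rfl
      · by_contra hyx
        exact hx ⟨h1, y, hyx, h2⟩
    · rintro g hg - x (h | ⟨h1, h2⟩)
      · exact h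
      · by_contra hx
        exact h2a ⟨g x, h1, x, ⟨g⁻¹, Γ.inv_mem hg, by simp⟩, Ne.symm hx, h2⟩
  -- all 3-cycles inside the classes of `U` lie in `N`
  right
  have hfix : ∀ x ∈ U, ∀ y, ¬r y x → gc_On (gc_fix N r y) r x := by
    intro x hx y hyx
    by_cases hy : y ∈ U
    · rcases gc_two hN hIL hE hk (hG x (hUm x hx)).1.le (hG y (hUm y hy)).1.le (hUg x hx)
        (hUg y hy) with ⟨a, b, ha, hb, hab⟩ | h
      · refine absurd ⟨a, hUr x hx a ha, b, fun e => hyx ?_, hab⟩ h2b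
        exact r.trans (r.symm hb) (e ▸ ha)
      · exact h
    · intro a b c hab hbc hac ha hb hc
      obtain ⟨g, hg, h1⟩ := hUg x hx a b c hab hbc hac ha hb hc
      refine ⟨g, ⟨hg, fun z hz => ?_⟩, h1⟩
      by_contra hgz
      exact hy (hUr z ⟨g, hg, hgz⟩ y (r.symm hz))
  let s : Setoid Ω :=
    { r := fun a b => a = b ∨ (a ∈ U ∧ r a b)
      iseqv := ⟨fun _ => Or.inl rfl, fun {a b} h => by
        rcases h with h | ⟨h1, h2⟩
        · exact Or.inl h.symm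
        · exact Or.inr ⟨hUr a h1 b (r.symm h2), r.symm h2⟩, fun {a b c} h h' => by
        rcases h with rfl | ⟨h1, h2⟩
        · exact h'
        rcases h' with rfl | ⟨-, h3⟩
        · exact Or.inr ⟨h1, h2⟩
        · exact Or.inr ⟨h1, r.trans h2 h3⟩⟩ }
  refine ⟨s, ?_, ?_, ?_, ?_⟩
  · rintro g hg x y (rfl | ⟨h1, h2⟩)
    · exact Or.inl rfl
    · exact Or.inr ⟨hUi g hg x h1, hr g hg _ _ h2⟩
  · obtain ⟨n, hn, hn1⟩ := (Subgroup.bot_or_exists_ne_one N).resolve_left hN2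
    obtain ⟨x, hx⟩ : ∃ x, n x ≠ x := by
      by_contra hcon
      push Not at hcon
      exact hn1 (Equiv.ext hcon)
    exact ⟨x, n x, hx.symm, Or.inr ⟨⟨n, hn, hx⟩, r.symm (hk n hn x)⟩⟩
  · rintro x y (rfl | ⟨h1, -⟩) hxy
    · exact absurd rfl hxy
    have e : {z // s z x} ≃ {z // r z x} := Equiv.subtypeEquivRight fun z =>
      ⟨fun h => by
        rcases h with rfl | ⟨-, h⟩
        · exact r.refl _
        · exact h, fun h => Or.inr ⟨hUr x h1 z h, h⟩⟩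
    rw [Nat.card_congr e]
    exact (hG x (hUm x h1)).1
  · rintro a b c hab hbc hac (h | ⟨h1, h2⟩) h'
    · exact absurd h hab
    rcases h' with h' | ⟨-, h3⟩
    · exact absurd h' hbc
    obtain ⟨g, hg, h4⟩ := gc_local hN (hcard a (hUm a h1)) hk (hUg a h1) (hfix a h1) hab hbc hac
      (r.refl a) (r.symm h2) (r.symm (r.trans h2 h3))
    exact ⟨g, hN1.1 hg, h4⟩

end Pool.Agent.Lib.MP_f51cdd_lc.Seu
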