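import Pool.Agent.Lib.MP_f51cdd_lc.Seu.Defs

namespace Pool.Agent.Lib.MP_f51cdd_lc.Seu

open Equiv Function

/-- A nontrivial element of 2-power order has a power that is an involution. -/
theorem grp2_invol {G : Type} [Group G] : ∀ (e : ℕ) (z : G), z ≠ 1 → z ^ 2 ^ e = 1 →
    ∃ n : ℕ, z ^ n ≠ 1 ∧ z ^ n * z ^ n = 1 := by
  intro e
  induction e with
  | zero => intro z hz h; exact absurd (by simpa using h) hz
  | succ e ih =>
    intro z hz h
    by_cases h2 : z ^ 2 ^ e = 1
    · exact ih z hz h2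
    · exact ⟨2 ^ e, h2, by rw [← pow_add, ← two_mul, ← pow_succ', h]⟩

/-- A nontrivial finite permutation 2-group has a central involution. -/
theorem grp2_central {Ω : Type} [Finite Ω] (Γ : Subgroup (Perm Ω))
    (h : ∀ g ∈ Γ, ∃ e : ℕ, g ^ 2 ^ e = 1) (hΓ : Γ ≠ ⊥) :
    ∃ z : Perm Ω, z ≠ 1 ∧ z * z = 1 ∧ ∀ g ∈ Γ, g * z = z * g := by
  have hp : IsPGroup 2 Γ := fun g => by
    obtain ⟨e, he⟩ := h g.1 g.2
    exact ⟨e, Subtype.ext (by simpa using he)⟩
  have : Nontrivial Γ := (Subgroup.nontrivial_iff_ne_bot Γ).2 hΓ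
  have : Fact (Nat.Prime 2) := ⟨Nat.prime_two⟩
  have hc := hp.center_nontrivial
  obtain ⟨y, hy⟩ := exists_ne (1 : Subgroup.center Γ)
  have hy1 : (y.1.1 : Perm Ω) ≠ 1 := fun e => hy (Subtype.ext (Subtype.ext e))
  obtain ⟨e, he⟩ := h y.1.1 y.1.2
  obtain ⟨n, hn1, hn2⟩ := grp2_invol e _ hy1 he
  refine ⟨y.1.1 ^ n, hn1, hn2, fun g hg => ?_⟩
  have h1 : (⟨g, hg⟩ : Γ) * y.1 = y.1 * ⟨g, hg⟩ := Subgroup.mem_center_iff.1 y.2 _
  have h2 : Commute g (y.1.1 : Perm Ω) := congrArg Subtype.val h1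
  exact (h2.pow_right n).eq

/-- An involution commuting with the group gives a reduction with two colours. -/
theorem grp2_red {Ω : Type} [Finite Ω] (Γ : Subgroup (Perm Ω)) (z : Perm Ω) (hz : z ≠ 1)
    (hzz : z * z = 1) (hc : ∀ g ∈ Γ, g * z = z * g) : Red Γ 2 := by
  classical
  have h2 : ∀ x, z (z x) = x := fun x => by
    have := congrArg (fun τ : Perm Ω => τ x) hzz
    simpa using this
  have h3 : ∀ g ∈ Γ, ∀ x, g (z x) = z (g x) := fun g hg x => by
    have := congrArg (fun τ : Perm Ω => τ x) (hc g hg)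
    simpa using this
  obtain ⟨ι, hι⟩ := Countable.exists_injective_nat Ω
  let r : Setoid Ω :=
    { r := fun x y => y = x ∨ y = z x
      iseqv :=
        { refl := fun _ => Or.inl rfl
          symm := by
            rintro x y (rfl | rfl)
            · exact Or.inl rfl
            · exact Or.inr (h2 x).symm
          trans := by
            rintro x y w (rfl | rfl) (rfl | rfl)
            · exact Or.inl rfl
            · exact Or.inr rfl
            · exact Or.inr rfl
            · exact Or.inl (h2 x) } }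
  have hr : ∀ x y, r x y ↔ (y = x ∨ y = z x) := fun _ _ => Iff.rfl
  refine ⟨{x | z x ≠ x}, r, fun x => if ι x < ι (z x) then 0 else 1, ?_, ?_, ?_, ?_, ?_, ?_⟩
  · by_contra hne
    refine hz (Equiv.ext fun x => ?_)
    by_contra hx
    exact hne ⟨x, hx⟩
  · intro g hg x hx hgx
    exact hx (g.injective ((h3 g hg x).trans hgx))
  · intro g hg x y hxy
    rcases (hr x y).1 hxy with rfl | rfl
    · exact (hr _ _).2 (Or.inl rfl)
    · exact (hr _ _).2 (Or.inr (h3 g hg x))
  · intro x hx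
    exact ⟨z x, hx, (hr _ _).2 (Or.inr rfl)⟩
  · intro x hx y hxy
    have hx' : z x = x := by
      by_contra h
      exact hx h
    rcases (hr x y).1 hxy with h | h
    · exact h
    · exact h.trans hx'
  · intro g _ hcol x hx
    rcases (hr _ _).1 hx with h | h
    · exact h.symm
    · have hgx : g x = z x := by
        have := congrArg z h
        rw [h2] at this
        exact this.symm
      by_contra hne
      have hW : z x ≠ x := fun e => hne (hgx.trans e)
      have h4 := hcol x hW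
      have h5 : ι (z x) ≠ ι x := fun e => hW (hι e)
      simp only [hgx, h2] at h4
      by_cases h6 : ι x < ι (z x)
      · rw [if_pos h6, if_neg (by omega)] at h4
        exact absurd h4 (by decide)
      · rw [if_neg h6, if_pos (by omega)] at h4
        exact absurd h4 (by decide)

theorem grp2_main (hRed : SRed) : ∀ (n : ℕ) (Ω : Type) [Finite Ω] (Γ : Subgroup (Perm Ω)),
    Nat.card Ω < n → (∀ g ∈ Γ, ∃ e : ℕ, g ^ 2 ^ e = 1) →
    ∃ c : Ω → Fin 2 × Fin 2, stab Γ c = ⊥ := by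
  intro n
  induction n with
  | zero => intro Ω _ Γ h; exact absurd h (Nat.not_lt_zero _)
  | succ n ih =>
    intro Ω _ Γ hn h
    by_cases hΓ : Γ = ⊥
    · refine ⟨fun _ => (0, 0), le_bot_iff.1 fun g hg => ?_⟩
      rw [← hΓ]
      exact (mem_stab.1 hg).1
    obtain ⟨z, hz, hzz, hc⟩ := grp2_central Γ h hΓ
    obtain ⟨Ω', π, Δ, hs, hni, hle, hinv, hrig, hcol⟩ := hRed Ω Γ 2 (grp2_red Γ z hz hzz hc)
    have : Finite Ω' := Finite.of_surjective π hs
    have hlt : Nat.card Ω' < Nat.card Ω := by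
      refine lt_of_le_of_ne (Nat.card_le_card_of_surjective π hs) fun e => hni ?_
      exact ((Nat.bijective_iff_surjective_and_card π).2 ⟨hs, e.symm⟩).1
    have h2 : ∀ σ ∈ img Δ π, ∃ e : ℕ, σ ^ 2 ^ e = 1 := by
      rintro σ ⟨g, hg, hσ⟩
      obtain ⟨e, he⟩ := h g (hle hg)
      have hk : ∀ (k : ℕ) (x : Ω), (σ ^ k) (π x) = π ((g ^ k) x) := by
        intro k
        induction k with
        | zero => intro x; rfl
        | succ k ihk =>
          intro x
          rw [pow_succ', pow_succ', Perm.mul_apply, Perm.mul_apply, ihk, hσ]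
      refine ⟨e, Equiv.ext fun y => ?_⟩
      obtain ⟨x, rfl⟩ := hs y
      rw [hk, he]
      rfl
    obtain ⟨c', hc'⟩ := ih Ω' (img Δ π) (by omega) h2
    obtain ⟨c, hc1, hc2⟩ := hcol c'
    refine ⟨c, le_bot_iff.1 fun g hg => ?_⟩
    have hinv' : Inv (stab Γ c) fun x y => π x = π y := fun a ha => hinv a (hc1 ha)
    obtain ⟨σ, hσ, hσ'⟩ := exists_img hs hinv' hg
    rw [hc2, hc', Subgroup.mem_bot] at hσ
    rw [Subgroup.mem_bot]
    refine Equiv.ext fun x => hrig g (hc1 hg) x ?_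
    rw [← hσ' x, hσ]
    rfl

theorem s2grp (hRed : SRed) : S2grp := by
  intro Ω _ Γ h
  obtain ⟨c, hc⟩ := grp2_main hRed (Nat.card Ω + 1) Ω Γ (Nat.lt_succ_self _) h
  refine ⟨fun x => finProdFinEquiv (c x), fun g hg hcol => ?_⟩
  have : g ∈ stab Γ c := mem_stab.2 ⟨hg, fun x => finProdFinEquiv.injective (hcol x)⟩
  rwa [hc, Subgroup.mem_bot] at this

end Pool.Agent.Lib.MP_f51cdd_lc.Seu
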