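import Pool.Agent.Lib.MP_f51cdd_lc.Seu.Defs

namespace Pool.Agent.Lib.MP_f51cdd_lc.Seu

open Equiv Function

theorem high_cyc {V : Type} [Finite V] (Γ : Subgroup (Perm V)) (t : ℕ) (hT : Tr t Γ) (m : ℕ)
    (p : Fin m → ℕ) (hp : ∀ i, 0 < p i) (h1 : ∑ i, p i ≤ Nat.card V) (h2 : ∑ i, p i ≤ t) :
    ∃ g ∈ Γ, ∀ i, ∃ x, ∀ N : ℕ, (g ^ N) x = x → p i ∣ N := by
  classical
  have := Fintype.ofFinite V
  have : ∀ i, NeZero (p i) := fun i => ⟨(hp i).ne'⟩
  have hc : Fintype.card (Σ i, ZMod (p i)) = ∑ i, p i := by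
    rw [Fintype.card_sigma]
    exact Finset.sum_congr rfl fun i _ => ZMod.card (p i)
  obtain ⟨ι⟩ : Nonempty ((Σ i, ZMod (p i)) ↪ V) :=
    Function.Embedding.nonempty_of_card_le (by rw [hc, ← Nat.card_eq_fintype_card]; exact h1)
  let τ : (Σ i, ZMod (p i)) ≃ (Σ i, ZMod (p i)) :=
    Equiv.sigmaCongrRight fun i => Equiv.addRight (1 : ZMod (p i))
  obtain ⟨σ, hσ⟩ := Perm.exists_extending_pair (f := ι) (g := ι ∘ τ) ι.injective
    (ι.injective.comp τ.injective)
  obtain ⟨g, hg, hgs⟩ := hT σ (Finset.univ.map ι) (by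
    rw [Finset.card_map, Finset.card_univ, hc]; exact h2)
  have step : ∀ i (z : ZMod (p i)), g (ι ⟨i, z⟩) = ι ⟨i, z + 1⟩ := fun i z => by
    rw [hgs _ (Finset.mem_map_of_mem ι (Finset.mem_univ _)), hσ]
    rfl
  have key : ∀ i (N : ℕ), (g ^ N) (ι ⟨i, 0⟩) = ι ⟨i, (N : ZMod (p i))⟩ := by
    intro i N
    induction N with
    | zero => simp
    | succ N ih => rw [pow_succ', Perm.mul_apply, ih, step, Nat.cast_succ]
  refine ⟨g, hg, fun i => ⟨ι ⟨i, 0⟩, fun N hN => ?_⟩⟩
  rw [key] at hN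
  have h := ι.injective hN
  have h' : (N : ZMod (p i)) = 0 := eq_of_heq (Sigma.mk.inj h).2
  exact (ZMod.natCast_eq_zero_iff N (p i)).1 h'

theorem high_period {V : Type} [Finite V] (g : Perm V) (x : V) :
    ∃ l : ℕ, 0 < l ∧ l ≤ Nat.card V ∧ ∀ N, l ∣ N → (g ^ N) x = x := by
  classical
  have := Fintype.ofFinite V
  refine ⟨minimalPeriod g x, minimalPeriod_pos_of_mem_periodicPts (g.injective.mem_periodicPts x),
    ?_, fun N hN => ?_⟩
  · rw [Nat.card_eq_fintype_card]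
    exact minimalPeriod_le_card
  · have h := (isPeriodicPt_minimalPeriod g x).trans_dvd hN
    rw [Perm.coe_pow]
    exact h

theorem high_small {V : Type} [Finite V] (Γ : Subgroup (Perm V)) (m : ℕ) (hm : 0 < m)
    (p : Fin m → ℕ) (hp : ∀ i, (p i).Prime) (hne : ∀ i j, i ≠ j → p i ≠ p j)
    (hbig : ∀ i j, Nat.card V < p i * p j) (g : Perm V) (hg : g ∈ Γ)
    (hx : ∀ i, ∃ x, ∀ N : ℕ, (g ^ N) x = x → p i ∣ N) :
    ∃ h ∈ Γ, ∃ S : Finset V, (∃ a, h a ≠ a) ∧ (∀ x, h x ≠ x → x ∈ S) ∧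
      S.card * m ≤ Nat.card V := by
  classical
  have := Fintype.ofFinite V
  choose l hl0 hlv hl using high_period g
  let A : Fin m → Finset V := fun i => Finset.univ.filter fun x => p i ∣ l x
  have hdisj : ∀ i ∈ (Finset.univ : Finset (Fin m)), ∀ j ∈ (Finset.univ : Finset (Fin m)),
      i ≠ j → Disjoint (A i) (A j) := by
    intro i _ j _ hij
    rw [Finset.disjoint_left]
    intro x hi hj
    have h1 := (Finset.mem_filter.1 hi).2
    have h2 := (Finset.mem_filter.1 hj).2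
    have h3 := Nat.Coprime.mul_dvd_of_dvd_of_dvd
      ((Nat.coprime_primes (hp i) (hp j)).2 (hne i j hij)) h1 h2
    have h4 := Nat.le_of_dvd (hl0 x) h3
    have h5 := hbig i j
    have h6 := hlv x
    omega
  have hsum : ∑ i, (A i).card ≤ Nat.card V := by
    rw [← Finset.card_biUnion hdisj, Nat.card_eq_fintype_card]
    exact Finset.card_le_univ _
  have : Nonempty (Fin m) := ⟨⟨0, hm⟩⟩
  obtain ⟨i, -, hi⟩ := Finset.exists_le_of_sum_le (s := (Finset.univ : Finset (Fin m)))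
    (f := fun i => (A i).card * m) (g := fun _ => Nat.card V) Finset.univ_nonempty (by
      rw [← Finset.sum_mul, Finset.sum_const, Finset.card_univ, Fintype.card_fin, smul_eq_mul,
        mul_comm]
      exact Nat.mul_le_mul_left m hsum)
  let N : ℕ := ∏ k ∈ (Finset.range (Nat.card V + 1)).filter (fun k => ¬ p i ∣ k), k
  have hN : ¬ p i ∣ N := by
    intro h
    obtain ⟨k, hk, hd⟩ := (Prime.dvd_finsetProd_iff (hp i).prime _).1 h
    exact (Finset.mem_filter.1 hk).2 hd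
  obtain ⟨a, ha⟩ := hx i
  refine ⟨g ^ N, Γ.pow_mem hg N, A i, ⟨a, fun h => hN (ha N h)⟩, fun x hx => ?_, hi⟩
  refine Finset.mem_filter.2 ⟨Finset.mem_univ _, ?_⟩
  by_contra hd
  refine hx (hl x N (Finset.dvd_prod_of_mem _ (Finset.mem_filter.2 ⟨?_, hd⟩)))
  exact Finset.mem_range.2 (Nat.lt_succ_of_le (hlv x))

theorem high_comm {V : Type} (h h' : Perm V) (a : V) (ha : h a ≠ a) (ha' : h' a ≠ a)
    (hd : ∀ y, y ≠ a → h y = y ∨ h' y = y) :
    h a ≠ h' a ∧ Cyc3 (h * h' * h⁻¹ * h'⁻¹) a (h a) (h' a) := by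
  have inv : ∀ (f : Perm V) (x y : V), f x = y → f⁻¹ y = x := fun f x y e => by
    rw [← e]; simp
  have hb : h' (h a) = h a := (hd _ ha).resolve_left fun e => ha (h.injective e)
  have hc : h (h' a) = h' a := (hd _ ha').resolve_right fun e => ha' (h'.injective e)
  refine ⟨fun e => ha (h.injective (by rw [e, hc])), ?_, ?_, ?_, ?_⟩
  · obtain ⟨w, hw⟩ := h'.surjective a
    have hwa : w ≠ a := fun e => ha' (by rw [e] at hw; exact hw)
    have h1 : h w = w := (hd w hwa).resolve_right fun e => hwa (e.symm.trans hw)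
    simp only [Perm.mul_apply]
    rw [inv h' w a hw, inv h w w h1, hw]
  · simp only [Perm.mul_apply]
    rw [inv h' _ _ hb, inv h a _ rfl, hc]
  · obtain ⟨u, hu⟩ := h.surjective a
    have hua : u ≠ a := fun e => ha (by rw [e] at hu; exact hu)
    have h1 : h' u = u := (hd u hua).resolve_left fun e => hua (e.symm.trans hu)
    simp only [Perm.mul_apply]
    rw [inv h' a _ rfl, inv h u a hu, h1, hu]
  · intro y hya hyb hyc
    simp only [Perm.mul_apply]
    by_cases h1 : h' y = y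
    · rw [inv h' y y h1]
      obtain ⟨u, hu⟩ := h.surjective y
      have hua : u ≠ a := fun e => hyb (by rw [← hu, e])
      have h2 : h' u = u := by
        rcases hd u hua with e | e
        · rw [← e, hu, h1]
        · exact e
      rw [inv h u y hu, h2, hu]
    · have h2 : h y = y := (hd y hya).resolve_right h1
      obtain ⟨w, hw⟩ := h'.surjective y
      have hwa : w ≠ a := fun e => hyc (by rw [← hw, e])
      have h3 : h w = w := (hd w hwa).resolve_right fun e => h1 (by rw [← hw, e, e])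
      rw [inv h' w y hw, inv h w w h3, hw, h2]

theorem high_conj {V : Type} [Finite V] (Γ : Subgroup (Perm V)) (t : ℕ) (hT : Tr t Γ)
    (ht : 3 ≤ t) (κ : Perm V) (hκ : κ ∈ Γ) (a b c : V) (hab : a ≠ b) (hbc : b ≠ c) (hac : a ≠ c)
    (h : Cyc3 κ a b c) : Giant Γ := by
  classical
  intro a' b' c' hab' hbc' hac'
  have inj : ∀ a b c : V, a ≠ b → b ≠ c → a ≠ c → Injective ![a, b, c] := by
    intro a b c h1 h2 h3 i j e
    fin_cases i <;> fin_cases j <;> simp_all [eq_comm]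
  obtain ⟨σ, hσ⟩ := Perm.exists_extending_pair _ _ (inj a b c hab hbc hac)
    (inj a' b' c' hab' hbc' hac')
  obtain ⟨k, hk, hks⟩ := hT σ {a, b, c} (Finset.card_le_three.trans ht)
  have e1 : k a = a' := (hks a (by simp)).trans (hσ 0)
  have e2 : k b = b' := (hks b (by simp)).trans (hσ 1)
  have e3 : k c = c' := (hks c (by simp)).trans (hσ 2)
  refine ⟨k * κ * k⁻¹, Γ.mul_mem (Γ.mul_mem hk hκ) (Γ.inv_mem hk), ?_, ?_, ?_, ?_⟩
  · rw [← e1, ← e2]; simp [h.1]
  · rw [← e2, ← e3]; simp [h.2.1]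
  · rw [← e3, ← e1]; simp [h.2.2.1]
  · intro y h1 h2 h3
    obtain ⟨x, rfl⟩ := k.surjective y
    have := h.2.2.2 x (fun e => h1 (by rw [e, e1])) (fun e => h2 (by rw [e, e2]))
      fun e => h3 (by rw [e, e3])
    simp [this]

theorem high_giant {V : Type} [Finite V] (Γ : Subgroup (Perm V)) (t : ℕ) (hT : Tr t Γ)
    (ht : 3 ≤ t) (h : Perm V) (hh : h ∈ Γ) (S : Finset V) (a : V) (ha : h a ≠ a)
    (hS : ∀ x, h x ≠ x → x ∈ S) (h1 : S.card ≤ t) (h2 : 2 * S.card ≤ Nat.card V) : Giant Γ := by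
  classical
  have := Fintype.ofFinite V
  have haS : a ∈ S := hS a ha
  obtain ⟨ι⟩ : Nonempty (S ↪ (Sᶜ : Finset V)) := Function.Embedding.nonempty_of_card_le (by
    rw [Fintype.card_coe, Fintype.card_coe, Finset.card_compl, ← Nat.card_eq_fintype_card]
    omega)
  have hι : ∀ x, (ι x : V) ∉ S := fun x => Finset.mem_compl.1 (ι x).2
  let f : S → V := fun x => if (x : V) = a then a else ι x
  have hf : Injective f := by
    intro x y e
    by_cases hx : (x : V) = a <;> by_cases hy : (y : V) = a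
    · exact Subtype.ext (hx.trans hy.symm)
    · simp only [f, if_pos hx, if_neg hy] at e
      exact absurd (e ▸ haS) (hι y)
    · simp only [f, if_neg hx, if_pos hy] at e
      exact absurd (e ▸ haS) (hι x)
    · simp only [f, if_neg hx, if_neg hy] at e
      exact ι.injective (Subtype.ext e)
  obtain ⟨σ, hσ⟩ := Perm.exists_extending_pair (f := (Subtype.val : S → V)) (g := f)
    Subtype.val_injective hf
  obtain ⟨k, hk, hks⟩ := hT σ S h1
  have hka : k a = a := by
    rw [hks a haS, hσ ⟨a, haS⟩]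
    exact if_pos rfl
  have hkx : ∀ x ∈ S, x ≠ a → k x ∉ S := fun x hx hxa => by
    rw [hks x hx, hσ ⟨x, hx⟩]
    simp only [f, if_neg hxa]
    exact hι _
  have ha' : (k * h * k⁻¹) a ≠ a := by
    intro e
    have e1 : k⁻¹ a = a := by rw [Perm.inv_eq_iff_eq, hka]
    simp only [Perm.mul_apply, e1] at e
    exact ha (k.injective (e.trans hka.symm))
  obtain ⟨hbc, hc⟩ := high_comm h (k * h * k⁻¹) a ha ha' fun y hy => by
    obtain ⟨x, rfl⟩ := k.surjective y
    by_cases hx : h x = x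
    · right
      simp [hx]
    · left
      by_contra hy'
      exact hkx x (hS x hx) (fun e => hy (by rw [e, hka])) (hS _ hy')
  have hk' : k * h * k⁻¹ ∈ Γ := Γ.mul_mem (Γ.mul_mem hk hh) (Γ.inv_mem hk)
  exact high_conj Γ t hT ht _
    (Γ.mul_mem (Γ.mul_mem (Γ.mul_mem hh hk') (Γ.inv_mem hh)) (Γ.inv_mem hk')) _ _ _ ha.symm hbc
    ha'.symm hc

theorem high_sq (m : ℕ) (hm : 8 ≤ m) : 2 * (m * m) ≤ 2 ^ m := by
  induction m, hm using Nat.le_induction with
  | base => norm_num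
  | succ n hn ih =>
    rw [pow_succ]
    nlinarith

theorem sHigh : SHigh := by
  refine ⟨2 ^ 32, fun V _ Γ t hv hT ht => ?_⟩
  obtain ⟨v, hvd⟩ : ∃ v, v = Nat.card V := ⟨_, rfl⟩
  rw [← hvd] at hv ht
  have hv0 : v ≠ 0 := by omega
  have hL : 32 ≤ Nat.log 2 v := (Nat.le_log_iff_pow_le (by norm_num) hv0).2 hv
  have hlo : 2 ^ Nat.log 2 v ≤ v := Nat.pow_log_le_self 2 hv0
  have hhi : v < 2 ^ (Nat.log 2 v + 1) := Nat.lt_pow_succ_log_self (by norm_num) v
  generalize Nat.log 2 v = L at hL hlo hhi ht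
  obtain ⟨m, hm1, hm2⟩ : ∃ m, 4 * m ≤ L ∧ L < 4 * m + 4 := ⟨L / 4, by omega, by omega⟩
  have hm : 8 ≤ m := by omega
  have hsq := high_sq m hm
  have hp : ∀ i : Fin m, ∃ p, Nat.Prime p ∧ 2 ^ (2 * m + 2 + i) < p ∧ p ≤ 2 * 2 ^ (2 * m + 2 + i) :=
    fun i => Nat.exists_prime_lt_and_le_two_mul _ (by positivity)
  choose p hpp hp1 hp2 using hp
  have hlt : ∀ i j : Fin m, i < j → p i < p j := by
    intro i j hij
    have h1 : 2 * 2 ^ (2 * m + 2 + i) ≤ 2 ^ (2 * m + 2 + j) := by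
      rw [← pow_succ']
      exact Nat.pow_le_pow_right (by norm_num) (by have : (i : ℕ) < j := hij; omega)
    exact lt_of_le_of_lt ((hp2 i).trans h1) (hp1 j)
  have hsum : ∑ i, p i ≤ m * (4 * 2 ^ (3 * m)) := by
    have h := Finset.sum_le_card_nsmul (Finset.univ : Finset (Fin m)) p (4 * 2 ^ (3 * m))
      fun i _ => (hp2 i).trans (by
        have e : 4 * 2 ^ (3 * m) = 2 ^ (3 * m + 2) := by ring
        rw [← pow_succ', e]
        exact Nat.pow_le_pow_right (by norm_num) (by have := i.2; omega))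
    rwa [Finset.card_univ, Fintype.card_fin, smul_eq_mul] at h
  have h4m : 2 ^ m * 2 ^ (3 * m) ≤ v := by
    rw [← pow_add]
    exact (Nat.pow_le_pow_right (by norm_num) (by omega)).trans hlo
  have hX : 0 < 2 ^ (3 * m) := by positivity
  generalize 2 ^ (3 * m) = X at hsum h4m hX
  have h5 : 16 * v ≤ t * (5 * m) := ht.trans (Nat.mul_le_mul_left t (by omega))
  have hmX : 2 * (m * m) * X ≤ v := (Nat.mul_le_mul_right X hsq).trans h4m
  have hs1 : m * (4 * X) ≤ v := by nlinarith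
  have hs2 : m * (4 * X) ≤ t := by
    refine Nat.le_of_mul_le_mul_right (c := 5 * m) ?_ (by omega)
    nlinarith
  obtain ⟨g, hg, hx⟩ := high_cyc Γ t hT m p (fun i => (hpp i).pos) (hvd ▸ hsum.trans hs1)
    (hsum.trans hs2)
  obtain ⟨h, hh, S, ⟨a, ha⟩, hS, hc⟩ := high_small Γ m (by omega) p hpp
    (fun i j hij => by
      rcases lt_or_gt_of_ne hij with e | e
      · exact (hlt i j e).ne
      · exact (hlt j i e).ne')
    (fun i j => by
      have h0 : ∀ i : Fin m, 2 ^ (2 * m + 2) ≤ p i := fun i =>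
        (Nat.pow_le_pow_right (by norm_num) (by omega)).trans (hp1 i).le
      have h1 := Nat.mul_le_mul (h0 i) (h0 j)
      rw [← pow_add] at h1
      rw [← hvd]
      exact lt_of_lt_of_le hhi ((Nat.pow_le_pow_right (by norm_num) (by omega)).trans h1))
    g hg hx
  rw [← hvd] at hc
  refine high_giant Γ t hT (by nlinarith) h hh S a ha hS ?_ ?_
  · refine Nat.le_of_mul_le_mul_right (c := 5 * m) ?_ (by omega)
    nlinarith
  · rw [← hvd]
    nlinarith

end Pool.Agent.Lib.MP_f51cdd_lc.Seu
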