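import Pool.Agent.Lib.MP_f51cdd_lc.Seu.Defs

namespace Pool.Agent.Lib.MP_f51cdd_lc.Seu

open Equiv Function

theorem il_key {A Y : Type} [Group A] [Finite Y] {k : ℕ} (hk : 3 ≤ k)
    (hs : ∀ N : Subgroup A, N.Normal → N = ⊥ ∨ N = ⊤) (hc : 2 * Nat.card A = k.factorial)
    (ψ : A →* Perm Y) (hY : Nat.card Y < k) (a : A) : ψ a = 1 := by
  rcases hs ψ.ker inferInstance with h | h
  · exfalso
    have hinj : Injective ψ := (MonoidHom.ker_eq_bot_iff ψ).1 h
    have h1 := Nat.card_le_card_of_injective ψ hinj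
    rw [Nat.card_perm] at h1
    obtain ⟨j, rfl⟩ : ∃ j, k = j + 1 := ⟨k - 1, by omega⟩
    have h2 : (Nat.card Y).factorial ≤ j.factorial := Nat.factorial_le (by omega)
    rw [Nat.factorial_succ] at hc
    have h3 := Nat.factorial_pos j
    have h4 : 3 * j.factorial ≤ (j + 1) * j.factorial := Nat.mul_le_mul_right _ hk
    omega
  · have : a ∈ ψ.ker := h ▸ Subgroup.mem_top a
    exact this

theorem il_sub {A Y : Type} [Group A] [Finite Y] {k : ℕ} (hk : 3 ≤ k)
    (hs : ∀ N : Subgroup A, N.Normal → N = ⊥ ∨ N = ⊤) (hc : 2 * Nat.card A = k.factorial)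
    (ρ : A →* Perm Y) (s : Set Y) (h : ∀ a x, ρ a x ∈ s ↔ x ∈ s) (hY : s.ncard < k) (a : A)
    (x : Y) (hx : x ∈ s) : ρ a x = x := by
  let ψ : A →* Perm s :=
    { toFun := fun a => (ρ a).subtypePerm (h a)
      map_one' := by ext z; simp
      map_mul' := fun a b => by ext z; simp }
  have h1 := il_key hk hs hc ψ hY a
  have h2 := congrArg (fun τ : Perm s => ((τ ⟨x, hx⟩ : s) : Y)) h1
  simpa [ψ] using h2

theorem il_quot {A Y : Type} [Group A] [Finite Y] {k : ℕ} (hk : 3 ≤ k)
    (hs : ∀ N : Subgroup A, N.Normal → N = ⊥ ∨ N = ⊤) (hc : 2 * Nat.card A = k.factorial)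
    (ρ : A →* Perm Y) (r : Setoid Y) (h : ∀ a x y, r x y ↔ r (ρ a x) (ρ a y))
    (hY : Nat.card (Quotient r) < k) (a : A) (x : Y) : r (ρ a x) x := by
  let ψ : A →* Perm (Quotient r) :=
    { toFun := fun a => Quotient.congr (ρ a) (h a)
      map_one' := by
        ext q
        induction q using Quotient.inductionOn with
        | h z => exact congrArg (Quotient.mk r) (show ρ 1 z = z by simp)
      map_mul' := fun a b => by
        ext q
        induction q using Quotient.inductionOn with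
        | h z => exact congrArg (Quotient.mk r) (show ρ (a * b) z = ρ a (ρ b z) by simp) }
  have h1 := il_key hk hs hc ψ hY a
  have h2 := congrArg (fun τ : Perm (Quotient r) => τ (Quotient.mk r x)) h1
  exact Quotient.exact h2

theorem il_half {Y : Type} [Finite Y] (r : Setoid Y) (h : ∀ x, ∃ y, y ≠ x ∧ r x y) :
    2 * Nat.card (Quotient r) ≤ Nat.card Y := by
  choose t ht1 ht2 using h
  let F : Quotient r × Bool → Y := fun z => if z.2 = true then z.1.out else t z.1.out
  have hF : ∀ z, Quotient.mk r (F z) = z.1 := by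
    rintro ⟨q, b⟩
    cases b
    · exact (Quotient.sound (r.symm (ht2 q.out))).trans q.out_eq
    · exact q.out_eq
  have hinj : Injective F := by
    rintro ⟨q, b⟩ ⟨q', b'⟩ e
    have e1 : q = q' := by
      have := hF (q, b)
      rw [e, hF] at this
      exact this.symm
    subst e1
    cases b <;> cases b'
    · rfl
    · exact absurd e (ht1 q.out)
    · exact absurd e.symm (ht1 q.out)
    · rfl
  have := Nat.card_le_card_of_injective F hinj
  rw [Nat.card_prod] at this
  simp only [Nat.card_eq_fintype_card, Fintype.card_bool] at this ⊢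
  omega

theorem il_orb {A Y : Type} [Group A] (ρ : A →* Perm Y) (y : Y) (a : A) (x : Y) :
    ρ a x ∈ {z | ∃ b, ρ b y = z} ↔ x ∈ {z | ∃ b, ρ b y = z} := by
  constructor
  · rintro ⟨b, hb⟩
    exact ⟨a⁻¹ * b, by simp [hb]⟩
  · rintro ⟨b, hb⟩
    exact ⟨a * b, by simp [hb]⟩

theorem il_fix {d k : ℕ} (hPT : PT d) {A Y : Type} [Group A] [Finite A] [Finite Y] (hk : 3 ≤ k)
    (hs : ∀ N : Subgroup A, N.Normal → N = ⊥ ∨ N = ⊤) (hc : 2 * Nat.card A = k.factorial)
    (ρ : A →* Perm Y) (hρ : Injective ρ) (hY : Nat.card Y = k + 1)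
    (hd : 2 * d ^ (k + 1) < k.factorial) : ∃ y, ∀ a, ρ a y = y := by
  classical
  by_contra hno
  push Not at hno
  have horb : ∀ y : Y, k ≤ {z | ∃ b, ρ b y = z}.ncard := by
    intro y
    by_contra hlt
    obtain ⟨a, ha⟩ := hno y
    exact ha (il_sub hk hs hc ρ _ (il_orb ρ y) (by omega) a y ⟨1, by simp⟩)
  have htr : ∀ x y : Y, ∃ a, ρ a x = y := by
    intro x y
    by_contra hxy
    have hdis : Disjoint {z | ∃ b, ρ b x = z} {z | ∃ b, ρ b y = z} := by
      rw [Set.disjoint_left]
      rintro z ⟨b, hb⟩ ⟨c, hc'⟩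
      exact hxy ⟨c⁻¹ * b, by simp [hb, ← hc']⟩
    have h1 := Set.ncard_union_eq hdis
    have h2 := Set.ncard_le_card ({z | ∃ b, ρ b x = z} ∪ {z | ∃ b, ρ b y = z})
    have h3 := horb x
    have h4 := horb y
    omega
  have hprim : Prim ρ.range := by
    refine ⟨fun x y => ?_, fun r hr => ?_⟩
    · obtain ⟨a, ha⟩ := htr x y
      exact ⟨ρ a, ⟨a, rfl⟩, ha⟩
    · by_cases h0 : ∀ x y, r x y → x = y
      · exact Or.inl h0
      right
      push Not at h0
      obtain ⟨u, v, huv, hne⟩ := h0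
      have h1 : ∀ x, ∃ y, y ≠ x ∧ r x y := by
        intro x
        obtain ⟨a, rfl⟩ := htr u x
        exact ⟨ρ a v, fun e => hne ((ρ a).injective e).symm, hr _ ⟨a, rfl⟩ _ _ huv⟩
      have h2 := il_half r h1
      intro x y
      obtain ⟨a, rfl⟩ := htr y x
      exact il_quot hk hs hc ρ r (fun a x y => (hr.iff ⟨a, rfl⟩ x y).symm) (by omega) a y
  have hng : ¬Giant ρ.range := by
    intro hg
    have := Fintype.ofFinite Y
    have hnt : Nontrivial Y := Finite.one_lt_card_iff_nontrivial.1 (by omega)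
    have h1 := Subgroup.card_le_of_le (giant_iff.1 hg)
    have h2 : Nat.card ρ.range ≤ Nat.card A :=
      Nat.card_le_card_of_surjective ρ.rangeRestrict ρ.rangeRestrict_surjective
    have h3 := two_mul_nat_card_alternatingGroup (α := Y)
    rw [Nat.card_perm, hY, Nat.factorial_succ] at h3
    have h4 := Nat.factorial_pos k
    have h5 : 2 * k.factorial ≤ (k + 1) * k.factorial := Nat.mul_le_mul_right _ (by omega)
    omega
  obtain ⟨c, hcol⟩ := hPT Y ρ.range hprim hng
  have hinj : Injective fun a : A => c ∘ ρ a := by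
    intro a b e
    have h1 : ρ (a * b⁻¹) = 1 := by
      refine hcol _ ⟨_, rfl⟩ fun x => ?_
      have := congrFun e ((ρ b)⁻¹ x)
      simpa using this
    have h2 : a * b⁻¹ = 1 := hρ (by rw [h1, map_one])
    exact mul_inv_eq_one.1 h2
  have h1 := Nat.card_le_card_of_injective _ hinj
  rw [Nat.card_fun, hY] at h1
  simp only [Nat.card_eq_fintype_card, Fintype.card_fin] at h1 hc
  omega

theorem il_uniq {k : ℕ} {A Y : Type} [Group A] [Finite Y] (hk : 3 ≤ k)
    (hs : ∀ N : Subgroup A, N.Normal → N = ⊥ ∨ N = ⊤) (hc : 2 * Nat.card A = k.factorial)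
    (ρ : A →* Perm Y) (hρ : Injective ρ) (hY : Nat.card Y = k + 1) {y y' : Y}
    (hy : ∀ a, ρ a y = y) (hy' : ∀ a, ρ a y' = y') : y = y' := by
  by_contra hne
  have h1 : ∀ a x, ρ a x ∈ ({y, y'} : Set Y)ᶜ ↔ x ∈ ({y, y'} : Set Y)ᶜ := by
    intro a x
    have e1 : ρ a x = y ↔ x = y :=
      ⟨fun e => (ρ a).injective (e.trans (hy a).symm), fun e => e ▸ hy a⟩
    have e2 : ρ a x = y' ↔ x = y' :=
      ⟨fun e => (ρ a).injective (e.trans (hy' a).symm), fun e => e ▸ hy' a⟩
    simp only [Set.mem_compl_iff, Set.mem_insert_iff, Set.mem_singleton_iff, e1, e2]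
  have h2 : (({y, y'} : Set Y)ᶜ).ncard < k := by
    have h3 := Set.ncard_add_ncard_compl ({y, y'} : Set Y)
    rw [Set.ncard_pair hne] at h3
    omega
  have h3 : ∀ a : A, a = 1 := by
    intro a
    apply hρ
    rw [map_one]
    ext x
    by_cases hx : x ∈ ({y, y'} : Set Y)ᶜ
    · exact il_sub hk hs hc ρ _ h1 h2 a x hx
    · simp only [Set.mem_compl_iff, Set.mem_insert_iff, Set.mem_singleton_iff, not_not] at hx
      rcases hx with rfl | rfl
      · exact hy a
      · exact hy' a
  have h4 : Nat.card A = 1 := Nat.card_eq_one_iff_exists.2 ⟨1, h3⟩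
  have h5 := Nat.self_le_factorial k
  omega

theorem il_main {d k : ℕ} (hPT : PT d) (hk : 5 ≤ k) (hd : 2 * d ^ (k + 1) < k.factorial)
    {Λ B B' : Type} [Group Λ] [Finite B] [Finite B'] (f : Λ →* Perm B) (f' : Λ →* Perm B')
    (hker : f.ker = f'.ker) (hg : Giant f.range) (hB : Nat.card B = k + 1)
    (hB' : Nat.card B' = k + 1) (x : B) : ∃ y, ∀ g, f g x = x → f' g y = y := by
  classical
  have := Fintype.ofFinite B
  have hC : Nat.card {z // z ≠ x} = k := by
    have h1 := Set.ncard_add_ncard_compl ({x} : Set B)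
    rw [Set.ncard_singleton] at h1
    have h2 : Nat.card {z // z ≠ x} = (({x} : Set B)ᶜ).ncard := rfl
    omega
  have hnt : Nontrivial {z // z ≠ x} := Finite.one_lt_card_iff_nontrivial.1 (by omega)
  have hs : ∀ N : Subgroup (alternatingGroup {z // z ≠ x}), N.Normal → N = ⊥ ∨ N = ⊤ :=
    fun N _ => alternatingGroup.normal_subgroup_eq_bot_or_eq_top (by omega)
  have hc : 2 * Nat.card (alternatingGroup {z // z ≠ x}) = k.factorial := by
    rw [two_mul_nat_card_alternatingGroup, Nat.card_perm, hC]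
  have hff : ∀ g h, f g = f h ↔ f' g = f' h := by
    intro g h
    rw [← MonoidHom.div_mem_ker_iff, ← MonoidHom.div_mem_ker_iff, hker]
  have hex : ∀ a : alternatingGroup {z // z ≠ x}, ∃ h, f h = Perm.ofSubtype a.1 := by
    intro a
    refine giant_iff.1 hg ?_
    rw [Perm.mem_alternatingGroup, Perm.sign_ofSubtype]
    exact Perm.mem_alternatingGroup.1 a.2
  choose l hl using hex
  let ρ : alternatingGroup {z // z ≠ x} →* Perm B' := MonoidHom.mk' (fun a => f' (l a)) (by
    intro a b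
    rw [← map_mul, ← hff, map_mul, hl, hl, hl, ← map_mul]
    rfl)
  have hρ : Injective ρ := by
    intro a b e
    have h1 : f (l a) = f (l b) := (hff _ _).2 e
    rw [hl, hl] at h1
    exact Subtype.ext (Perm.ofSubtype_injective h1)
  obtain ⟨y, hy⟩ := il_fix hPT (by omega) hs hc ρ hρ hB' hd
  have hH : ∀ h, f h x = x → Perm.sign (f h) = 1 → f' h y = y := by
    intro h hx hsg
    have h1 : ∀ z, f h z ≠ x ↔ z ≠ x := fun z =>
      not_congr ⟨fun e => (f h).injective (e.trans hx.symm), fun e => e ▸ hx⟩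
    have h2 : ∀ z, f h z ≠ z → z ≠ x := fun z hz e => hz (e ▸ hx)
    let a : alternatingGroup {z // z ≠ x} := ⟨(f h).subtypePerm h1, by
      rw [Perm.mem_alternatingGroup, Perm.sign_subtypePerm _ h1 h2]
      exact hsg⟩
    have h3 : f (l a) = f h := by
      rw [hl]
      exact Perm.ofSubtype_subtypePerm h1 h2
    have h4 := hy a
    change f' (l a) y = y at h4
    rwa [(hff _ _).1 h3] at h4
  refine ⟨y, fun g hgx => ?_⟩
  refine il_uniq (by omega) hs hc ρ hρ hB' (fun a => ?_) hy
  have h1 : f (l a) x = x := by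
    rw [hl]
    exact Perm.ofSubtype_apply_of_not_mem _ (by simp)
  have h2 : Perm.sign (f (l a)) = 1 := by
    rw [hl, Perm.sign_ofSubtype]
    exact Perm.mem_alternatingGroup.1 a.2
  have h3 := hH (g⁻¹ * l a * g) (by
    simp only [map_mul, map_inv, Perm.mul_apply, hgx, h1]
    exact Perm.inv_eq_iff_eq.2 hgx.symm) (by
    simp only [map_mul, map_inv, h2, mul_one, inv_mul_cancel])
  simp only [map_mul, map_inv, Perm.mul_apply] at h3
  exact Perm.inv_eq_iff_eq.1 h3

theorem il_le {Λ B B' : Type} [Group Λ] [Finite B] [Finite B'] (f : Λ →* Perm B)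
    (f' : Λ →* Perm B') (hker : f.ker = f'.ker) (hg : Giant f.range) (hB' : 2 ≤ Nat.card B') :
    Nat.card B ≤ Nat.card B' := by
  classical
  by_contra hlt
  have := Fintype.ofFinite B
  have hnt : Nontrivial B := Finite.one_lt_card_iff_nontrivial.1 (by omega)
  have h1 := Subgroup.card_le_of_le (giant_iff.1 hg)
  have h2 : Nat.card f.range = Nat.card f'.range := by
    rw [← Subgroup.index_ker, ← Subgroup.index_ker, hker]
  have h3 := two_mul_nat_card_alternatingGroup (α := B)
  have h4 := Subgroup.card_le_card_group f'.range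
  rw [Nat.card_perm] at h3 h4
  have h5 : (Nat.card B' + 1).factorial ≤ (Nat.card B).factorial := Nat.factorial_le (by omega)
  rw [Nat.factorial_succ] at h5
  have h6 := Nat.factorial_pos (Nat.card B')
  have h7 : 3 * (Nat.card B').factorial ≤ (Nat.card B' + 1) * (Nat.card B').factorial :=
    Nat.mul_le_mul_right _ (by omega)
  omega

theorem sIL (d : ℕ) (hPT : PT d) : ∃ m, IL m := by
  classical
  obtain ⟨m, hm⟩ := Filter.eventually_atTop.1 (Nat.eventually_mul_pow_lt_factorial_sub 2 d 1)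
  refine ⟨m + 6, fun Λ _ B B' _ _ f f' hker hg hg' hB hB' => ?_⟩
  have he : Nat.card B' = Nat.card B :=
    le_antisymm (il_le f' f hker.symm hg' (by omega)) (il_le f f' hker hg (by omega))
  obtain ⟨k, hk⟩ : ∃ k, Nat.card B = k + 1 := ⟨Nat.card B - 1, by omega⟩
  have hd : 2 * d ^ (k + 1) < k.factorial := hm (k + 1) (by omega)
  obtain ⟨x⟩ : Nonempty B := (Nat.card_pos_iff.1 (by omega)).1
  obtain ⟨y, hy⟩ := il_main hPT (by omega) hd f f' hker hg hk (he.trans hk) x
  obtain ⟨x', hx'⟩ := il_main hPT (by omega) hd f' f hker.symm hg' (he.trans hk) hk y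
  have hxx : x' = x := by
    by_contra hne
    have := Fintype.ofFinite B
    have h1 : 1 < (Finset.univ \ {x, x'} : Finset B).card := by
      have h2 := Finset.card_sdiff_add_card_eq_card (Finset.subset_univ ({x, x'} : Finset B))
      have h3 := Finset.card_le_two (a := x) (b := x')
      rw [Finset.card_univ, ← Nat.card_eq_fintype_card] at h2
      omega
    obtain ⟨a, ha, b, hb, hab⟩ := Finset.one_lt_card.1 h1
    simp only [Finset.mem_sdiff, Finset.mem_univ, Finset.mem_insert, Finset.mem_singleton,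
      true_and, not_or] at ha hb
    obtain ⟨_, ⟨g, rfl⟩, hcyc⟩ := hg x' a b (Ne.symm ha.2) hab (Ne.symm hb.2)
    have h2 := hcyc.2.2.2 x (Ne.symm hne) (Ne.symm ha.1) (Ne.symm hb.1)
    exact ha.2 (hcyc.1.symm.trans (hx' g (hy g h2)))
  exact ⟨x, y, fun g => ⟨hy g, fun h => hxx ▸ hx' g h⟩⟩

end Pool.Agent.Lib.MP_f51cdd_lc.Seu
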