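import Pool.Agent.Lib.MP_f51cdd_lc.Seu.Defs

namespace Pool.Agent.Lib.MP_f51cdd_lc.Seu

open Equiv Function

theorem ls_one (hQ : SQ) (M : ℕ) (hM : 3 ≤ M) : LS M 1 3 := by
  intro m V K _ S Δ β β' hm hq horb hc
  obtain ⟨σ, hσ, h⟩ := hQ M m V S Δ hM hm (fun A B h => by
      obtain ⟨g, hg, h1, -⟩ := horb A B A B (S.mono h (by simp))
      exact ⟨g, hg, h1⟩) V Δ hq (fun x => {x}) (fun x => ⟨x, rfl⟩)
    (fun x y hxy => by simpa using hxy) (fun g hg => ⟨g, hg, fun x => by simp⟩)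
    (fun _ _ _ => by simp)
  refine ⟨σ, hσ, fun x => (hc _ (h (x 0)) x (σ ∘ x) fun i => ?_).symm⟩
  rw [Subsingleton.elim i 0]; simp

theorem ls_of_th (M r C : ℕ) (hr : 2 ≤ r) (h : TH r C) : LS M r C := by
  classical
  intro m V K _ S Δ β β' hm _ horb hc
  let o : (Fin r → V) → Fin r → Fin r → Set (V × V) :=
    fun x i j => {p | ∃ g ∈ Δ, p = (g (x i), g (x j))}
  obtain ⟨f, hf⟩ := h m V V (K × (Fin r → Fin r → Set (V × V))) S (fun x => (β x, o x))
    (fun x => (β' x, o x)) hm (by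
      intro p hp x y hxy
      refine Prod.ext (hc p hp x y hxy) (funext fun i => funext fun j => ?_)
      obtain ⟨g, hg, h1, h2⟩ := horb {x i} {y i} {x j} {y j} (S.mono hp (by simp [hxy]))
      simp only [Set.image_singleton, Set.singleton_eq_singleton_iff] at h1 h2
      ext q
      constructor
      · rintro ⟨k, hk, rfl⟩
        exact ⟨k * g⁻¹, Δ.mul_mem hk (Δ.inv_mem hg), by simp [← h1, ← h2]⟩
      · rintro ⟨k, hk, rfl⟩
        exact ⟨k * g, Δ.mul_mem hk hg, by simp [← h1, ← h2]⟩)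
  have key : ∀ a b : V, ∃ δ ∈ Δ, δ a = f a ∧ δ b = f b := by
    intro a b
    let i0 : Fin r := ⟨0, by omega⟩
    let i1 : Fin r := ⟨1, by omega⟩
    have hne : i1 ≠ i0 := by simp [i0, i1, Fin.ext_iff]
    let x : Fin r → V := update (fun _ => b) i0 a
    have := congrFun (congrFun (congrArg Prod.snd (hf x)) i0) i1
    have hm : (f a, f b) ∈ o (f ∘ x) i0 i1 := ⟨1, Δ.one_mem, by simp [x, update_of_ne hne]⟩
    simp only at this
    rw [this] at hm
    obtain ⟨g, hg, e⟩ := hm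
    simp only [x, update_self, update_of_ne hne, Prod.mk.injEq] at e
    exact ⟨g, hg, e.1.symm, e.2.symm⟩
  refine ⟨f, fun s hs => ?_, fun x => congrArg Prod.fst (hf x)⟩
  rcases s.eq_empty_or_nonempty with rfl | ⟨a, ha⟩
  · exact ⟨1, Δ.one_mem, by simp⟩
  · by_cases hb : ∃ b ∈ s, b ≠ a
    · obtain ⟨b, hb, hba⟩ := hb
      obtain ⟨δ, hδ, h1, h2⟩ := key a b
      refine ⟨δ, hδ, fun x hx => ?_⟩
      by_contra hne
      have hxa : x ≠ a := fun e => hne (e ▸ h1)
      have hxb : x ≠ b := fun e => hne (e ▸ h2)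
      have : ({a, b, x} : Finset V).card ≤ s.card :=
        Finset.card_le_card (by intro z hz; simp at hz; rcases hz with rfl | rfl | rfl <;> assumption)
      rw [Finset.card_eq_three.2 ⟨a, b, x, hba.symm, hxa.symm, hxb.symm, rfl⟩] at this
      omega
    · push Not at hb
      obtain ⟨δ, hδ, h1, -⟩ := key a a
      exact ⟨δ, hδ, fun x hx => by rw [hb x hx, h1]⟩

end Pool.Agent.Lib.MP_f51cdd_lc.Seu
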