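import Pool.Agent.Lib.MP_f51cdd_lc.Seu.Defs

namespace Pool.Agent.Lib.MP_f51cdd_lc.Seu

open Equiv Function

theorem card_lt_maing {Ω Ω' : Type} [Finite Ω] {π : Ω → Ω'} (hs : Surjective π)
    (hi : ¬Injective π) : Nat.card Ω' < Nat.card Ω := by
  have := Finite.of_surjective π hs
  refine lt_of_le_of_ne (Nat.card_le_card_of_surjective π hs) fun h => hi ?_
  exact ((Nat.bijective_iff_surjective_and_card π).2 ⟨hs, h.symm⟩).1

theorem sMain (hRed : SRed) (E₀ : ℕ) (h1 : 1 ≤ E₀) (hS : Struct E₀) : Main E₀ := by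
  have key : ∀ n : ℕ, ∀ (Ω : Type) [Finite Ω] (Γ : Subgroup (Perm Ω)) (E : ℕ),
      Nat.card Ω = n → E₀ ≤ E → Good E Γ := by
    intro n
    induction n using Nat.strong_induction_on with
    | _ n ih =>
      intro Ω _ Γ E hn hE
      by_cases hb : Γ = ⊥
      · refine ⟨fun _ => (⟨0, by omega⟩, ⟨0, by omega⟩), ?_⟩
        have h2 : ∀ c : Ω → Fin E × Fin E, stab Γ c = ⊥ := fun c =>
          eq_bot_iff.2 fun g hg => hb ▸ hg.1
        rw [h2]
        exact Q.triv Ω
      have IH : ∀ (Ω' : Type) [Finite Ω'] (Γ' : Subgroup (Perm Ω')) (E' : ℕ), E₀ ≤ E' →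
          Nat.card Ω' < Nat.card Ω → Good E' Γ' := fun Ω' _ Γ' E' hE' hlt =>
        ih _ (hn ▸ hlt) Ω' Γ' E' rfl hE'
      rcases hS Ω Γ E hE hb IH with h | ⟨r, hr, ⟨x, y, hxy, hrxy⟩, hbig, halt⟩
      · obtain ⟨Ω', π, Δ, hs, hi, -, hinv, hrig, hc⟩ := hRed Ω Γ E h
        have := Finite.of_surjective π hs
        obtain ⟨c', hc'⟩ := IH Ω' (img Δ π) E hE (card_lt_maing hs hi)
        obtain ⟨c, hle, he⟩ := hc c'
        exact ⟨c, Q.fibre _ π hs (fun g hg => hinv g (hle hg)) (fun g hg => hrig g (hle hg))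
          (he ▸ hc')⟩
      · have hs : Surjective (Quotient.mk r) := Quotient.mk_surjective
        have hi : ¬Injective (Quotient.mk r) := fun h => hxy (h (Quotient.sound hrxy))
        obtain ⟨c', hc'⟩ := IH (Quotient r) (img Γ (Quotient.mk r)) E hE (card_lt_maing hs hi)
        have he : img (stab Γ fun z => c' (Quotient.mk r z)) (Quotient.mk r) =
            stab (img Γ (Quotient.mk r)) c' := by
          ext σ
          constructor
          · rintro ⟨g, hg, hσ⟩
            refine ⟨⟨g, hg.1, hσ⟩, fun w => ?_⟩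
            obtain ⟨z, rfl⟩ := hs w
            rw [hσ]
            exact hg.2 z
          · rintro ⟨⟨g, hg, hσ⟩, hc⟩
            exact ⟨g, ⟨hg, fun z => (congrArg c' (hσ z)).symm.trans (hc _)⟩, hσ⟩
        refine ⟨fun z => c' (Quotient.mk r z), Q.twin _ (Quotient.mk r) hs
          (fun g hg a b hab => Quotient.sound (hr g hg.1 a b (Quotient.exact hab)))
          (fun a b hab hne => ?_) (fun a b c hab hbc hac h2 h3 => ?_) (he ▸ hc')⟩
        · refine (hbig a b (Quotient.exact hab) hne).trans_le (le_of_eq ?_)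
          exact Nat.card_congr (Equiv.subtypeEquivRight fun z => Quotient.eq.symm)
        · obtain ⟨g, hg, h4⟩ := halt a b c hab hbc hac (Quotient.exact h2) (Quotient.exact h3)
          refine ⟨g, ⟨hg, fun z => congrArg c' ?_⟩, h4⟩
          by_cases hza : z = a
          · rw [hza, h4.1, h2]
          by_cases hzb : z = b
          · rw [hzb, h4.2.1, h3]
          by_cases hzc : z = c
          · rw [hzc, h4.2.2.1, h2, h3]
          rw [h4.2.2.2 z hza hzb hzc]
  exact fun Ω _ Γ E hE => key _ Ω Γ E rfl hE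

end Pool.Agent.Lib.MP_f51cdd_lc.Seu
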