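import Pool.Agent.Lib.MP_f51cdd_lc.Seu.Defs

namespace Pool.Agent.Lib.MP_f51cdd_lc.Seu

open Equiv Function

theorem sNorm : SNorm := by
  classical
  intro B _ H L h5 hL hn hH
  have := Fintype.ofFinite B
  have hL' := giant_iff.1 hL
  obtain ⟨⟨h, hh⟩, h1⟩ := (Subgroup.ne_bot_iff_exists_ne_one).1 hH
  have h1' : h ≠ 1 := fun e => h1 (Subtype.ext e)
  obtain ⟨a, ha⟩ : ∃ a, h a ≠ a := by
    by_contra hc; push Not at hc; exact h1' (Equiv.ext hc)
  have hcard : 5 ≤ (Finset.univ : Finset B).card := by simpa [Nat.card_eq_fintype_card] using h5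
  obtain ⟨c, -, hc⟩ := Finset.exists_mem_notMem_of_card_lt_card (s := {a, h a}) (t := .univ)
    (Finset.card_le_two.trans_lt (by omega))
  obtain ⟨d, -, hd⟩ := Finset.exists_mem_notMem_of_card_lt_card (s := {a, h a, c}) (t := .univ)
    (Finset.card_le_three.trans_lt (by omega))
  simp only [Finset.mem_insert, Finset.mem_singleton, not_or] at hc hd
  obtain ⟨l, hl, l1, l2, l3, l4⟩ := hL (h a) c d (Ne.symm hc.2) (Ne.symm hd.2.2) (Ne.symm hd.2.1)
  have hla : l a = a := l4 a ha.symm (Ne.symm hc.1) (Ne.symm hd.1)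
  have hlA : l ∈ alternatingGroup B := by
    have h3 : Cyc3 l (h a) c d := ⟨l1, l2, l3, l4⟩
    rw [h3.eq (Ne.symm hc.2) (Ne.symm hd.2.2) (Ne.symm hd.2.1), Perm.mem_alternatingGroup,
      Perm.sign_mul, Perm.sign_swap (Ne.symm hd.2.1), Perm.sign_swap (Ne.symm hc.2)]
    simp
  have hnormal : (H.subgroupOf (alternatingGroup B)).Normal :=
    ⟨fun x hx g => hn g (hL' g.2) x hx⟩
  let u : alternatingGroup B := ⟨l * h * l⁻¹ * h⁻¹, by
    rw [Perm.mem_alternatingGroup] at hlA ⊢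
    simp [hlA]⟩
  have hu : u ∈ H.subgroupOf (alternatingGroup B) := H.mul_mem (hn l hl h hh) (H.inv_mem hh)
  have hu1 : u ≠ 1 := by
    intro e
    have e1 : l * h * l⁻¹ * h⁻¹ = 1 := congrArg Subtype.val e
    have e2 : l * h = h * l := by
      rw [mul_inv_eq_one, mul_inv_eq_iff_eq_mul] at e1; exact e1
    have := congrArg (fun τ : Perm B => τ a) e2
    simp only [Perm.mul_apply, hla, l1] at this
    exact hc.2 this
  rcases alternatingGroup.normal_subgroup_eq_bot_or_eq_top h5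
    (N := H.subgroupOf (alternatingGroup B)) with hb | ht
  · exact absurd (by rwa [hb, Subgroup.mem_bot] at hu) hu1
  · exact giant_iff.2 (Subgroup.subgroupOf_eq_top.1 ht)

end Pool.Agent.Lib.MP_f51cdd_lc.Seu
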