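import Pool.Agent.Lib.MP_f51cdd_lc.Seu.Defs

namespace Pool.Agent.Lib.MP_f51cdd_lc.Seu

open Equiv Function

/-- The conclusion of `SP` for one group. -/
def PqP (M : ℕ) {Ω : Type} (Δ : Subgroup (Perm Ω)) : Prop :=
  ∀ (ω : Ω) (N : Subgroup (Perm Ω)) (k : ℕ) (κ : Perm Ω → Fin k), 2 * k < M.factorial →
    N ≤ Δ → (∀ n ∈ N, n ω = ω) → (∀ g ∈ Δ, g ω = ω → ∀ n ∈ N, g * n * g⁻¹ ∈ N) →
    (∀ g ∈ Δ, ∀ h ∈ Δ, g ω = ω → h ω = ω → κ g = κ h → g⁻¹ * h ∈ N) →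
    ∀ g ∈ Δ, g ω = ω → ∃ e : ℕ, g ^ 2 ^ e ∈ N

theorem pq_step {M : ℕ} {Ω Ω' : Type} {Δ : Subgroup (Perm Ω)} {π : Ω → Ω'} (hπ : Surjective π)
    (hinv : Inv Δ fun x y => π x = π y)
    (hlift : ∀ ω, ∀ g ∈ Δ, π (g ω) = π ω → ∃ g' ∈ Δ, g' ω = ω ∧ ∀ x, π (g' x) = π (g x))
    (hsq : ∀ (ω : Ω) (N : Subgroup (Perm Ω)) (k : ℕ) (κ : Perm Ω → Fin k), 2 * k < M.factorial →
      (∀ g ∈ Δ, g ω = ω → ∀ n ∈ N, g * n * g⁻¹ ∈ N) →
      (∀ g ∈ Δ, ∀ h ∈ Δ, g ω = ω → h ω = ω → κ g = κ h → g⁻¹ * h ∈ N) →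
      ∀ u ∈ Δ, u ω = ω → (∀ x, π (u x) = π x) → u ^ 2 ∈ N)
    (ih : PqP M (img Δ π)) : PqP M Δ := by
  classical
  intro ω N k κ hk hN hω hnorm hκ g hg hgω
  have hl : ∀ σ : Perm Ω', ∃ a : Perm Ω, σ ∈ img Δ π → σ (π ω) = π ω →
      a ∈ Δ ∧ a ω = ω ∧ ∀ x, σ (π x) = π (a x) := by
    intro σ
    by_cases h : σ ∈ img Δ π ∧ σ (π ω) = π ω
    · obtain ⟨⟨a, ha, e⟩, h⟩ := h
      obtain ⟨b, hb, h1, h2⟩ := hlift ω a ha ((e ω).symm.trans h)
      exact ⟨b, fun _ _ => ⟨hb, h1, fun x => (e x).trans (h2 x).symm⟩⟩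
    · exact ⟨1, fun h1 h2 => absurd ⟨h1, h2⟩ h⟩
  choose l hl using hl
  have hi : ∀ (σ : Perm Ω') (a : Perm Ω), (∀ x, σ (π x) = π (a x)) →
      ∀ x, σ⁻¹ (π x) = π (a⁻¹ x) := by
    intro σ a h x
    rw [Perm.inv_eq_iff_eq, h]
    simp
  obtain ⟨σ, hσ, hσg⟩ := exists_img hπ hinv hg
  obtain ⟨e, n, hn, hne⟩ := ih (π ω) (img N π) k (fun σ => κ (l σ)) hk
    (fun τ ⟨a, ha, h⟩ => ⟨a, hN ha, h⟩) (fun τ ⟨a, ha, h⟩ => by rw [h, hω a ha])
    (fun τ hτ h1 ρ ⟨a, ha, h⟩ => by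
      obtain ⟨l1, l2, l3⟩ := hl τ hτ h1
      refine ⟨_, hnorm _ l1 l2 a ha, fun x => ?_⟩
      simp only [Perm.mul_apply]
      rw [hi τ _ l3, h, l3])
    (fun τ hτ ρ hρ h1 h2 h => by
      obtain ⟨l1, l2, l3⟩ := hl τ hτ h1
      obtain ⟨m1, m2, m3⟩ := hl ρ hρ h2
      refine ⟨_, hκ _ l1 _ m1 l2 m2 h, fun x => ?_⟩
      simp only [Perm.mul_apply]
      rw [m3, hi τ _ l3])
    σ hσ (by rw [hσg, hgω])
  have hp : ∀ j : ℕ, (g ^ j) ω = ω ∧ ∀ x, (σ ^ j) (π x) = π ((g ^ j) x) := by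
    intro j
    induction j with
    | zero => exact ⟨rfl, fun _ => rfl⟩
    | succ j ih =>
      simp only [pow_succ', Perm.mul_apply]
      exact ⟨by rw [ih.1, hgω], fun x => by rw [ih.2, hσg]⟩
  have hu : n⁻¹ * g ^ 2 ^ e ∈ Δ := Δ.mul_mem (Δ.inv_mem (hN hn)) (Δ.pow_mem hg _)
  have huω : (n⁻¹ * g ^ 2 ^ e) ω = ω := by
    rw [Perm.mul_apply, (hp _).1, Perm.inv_eq_iff_eq, hω n hn]
  have h2 := hsq ω N k κ hk hnorm hκ _ hu huω fun x => by
    have := hinv _ (Δ.inv_mem (hN hn)) _ _ (((hp _).2 x).symm.trans (hne x))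
    simpa using this
  refine ⟨e + 1, ?_⟩
  have h3 := N.mul_mem (N.mul_mem hn (hnorm _ hu huω n hn)) h2
  rw [pow_succ 2 e, pow_mul]
  convert h3 using 1
  rw [pow_two, pow_two]
  group

theorem pq_alt {M k : ℕ} {Ω : Type} [Fintype Ω] [DecidableEq Ω] {Δ N : Subgroup (Perm Ω)} {ω : Ω}
    {κ : Perm Ω → Fin k} (hM : 5 ≤ M) (hk : 2 * k < M.factorial)
    (hnorm : ∀ g ∈ Δ, g ω = ω → ∀ n ∈ N, g * n * g⁻¹ ∈ N)
    (hκ : ∀ g ∈ Δ, ∀ h ∈ Δ, g ω = ω → h ω = ω → κ g = κ h → g⁻¹ * h ∈ N)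
    {p : Ω → Prop} [DecidablePred p] (hω : ¬p ω) (hc : M ≤ Nat.card {x // p x})
    (halt : ∀ a b c, a ≠ b → b ≠ c → a ≠ c → p a → p b → p c → ∃ g ∈ Δ, Cyc3 g a b c)
    (τ : Perm {x // p x}) : Perm.ofSubtype τ ^ 2 ∈ N := by
  have h1 : alternatingGroup {x // p x} ≤ Δ.comap Perm.ofSubtype := by
    refine giant_iff.1 fun a b c hab hbc hac => ⟨_, ?_, cyc3_swap hab hbc hac⟩
    have e1 := Subtype.coe_ne_coe.2 hab
    have e2 := Subtype.coe_ne_coe.2 hbc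
    have e3 := Subtype.coe_ne_coe.2 hac
    obtain ⟨g, hg, h⟩ := halt a b c e1 e2 e3 a.2 b.2 c.2
    rw [Subgroup.mem_comap, map_mul, Perm.ofSubtype_swap_eq, Perm.ofSubtype_swap_eq,
      ← h.eq e1 e2 e3]
    exact hg
  let f : alternatingGroup {x // p x} →* Perm Ω :=
    Perm.ofSubtype.comp (alternatingGroup {x // p x}).subtype
  have hf : ∀ t, f t ∈ Δ ∧ f t ω = ω := fun t =>
    ⟨h1 t.2, Perm.ofSubtype_apply_of_not_mem _ hω⟩
  have : (N.comap f).Normal := ⟨fun n hn t => by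
    rw [Subgroup.mem_comap, map_mul, map_mul, map_inv]
    exact hnorm _ (hf t).1 (hf t).2 _ hn⟩
  have h2 : N.comap f = ⊤ := by
    refine (alternatingGroup.normal_subgroup_eq_bot_or_eq_top (hM.trans hc)).resolve_left
      fun h => ?_
    have : Nontrivial {x // p x} := Finite.one_lt_card_iff_nontrivial.1 (by omega)
    obtain ⟨s, t, hst, e⟩ := Fintype.exists_ne_map_eq_of_card_lt (fun t => κ (f t)) (by
      have h3 := two_mul_nat_card_alternatingGroup (α := {x // p x})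
      have h4 := Nat.factorial_le hc
      rw [Nat.card_perm, Nat.card_eq_fintype_card] at h3
      rw [Fintype.card_fin]
      omega)
    have h5 : s⁻¹ * t ∈ N.comap f := by
      rw [Subgroup.mem_comap, map_mul, map_inv]
      exact hκ _ (hf s).1 _ (hf t).1 (hf s).2 (hf t).2 e
    rw [h, Subgroup.mem_bot, inv_mul_eq_one] at h5
    exact hst h5
  have h6 : (⟨τ ^ 2, by rw [Perm.mem_alternatingGroup, map_pow, Int.units_sq]⟩ :
      alternatingGroup {x // p x}) ∈ N.comap f := h2 ▸ Subgroup.mem_top _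
  rw [← map_pow]
  exact h6

theorem pq_sq {Ω Ω' : Type} [Fintype Ω] [DecidableEq Ω] [DecidableEq Ω'] {N : Subgroup (Perm Ω)}
    {π : Ω → Ω'} {ω : Ω}
    (h : ∀ a b, π b = π a → b ≠ a → ∀ τ : Perm {x // π x = π a ∧ x ≠ ω},
      Perm.ofSubtype τ ^ 2 ∈ N) (u : Perm Ω) (hω : u ω = ω) (hu : ∀ x, π (u x) = π x) :
    u ^ 2 ∈ N := by
  induction hn : u.support.card using Nat.strong_induction_on generalizing u with
  | _ n ih =>
  by_cases h0 : ∀ a, u a = a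
  · rw [show u = 1 from Equiv.ext h0, one_pow]
    exact N.one_mem
  obtain ⟨a, ha⟩ := not_forall.1 h0
  have hp : ∀ x, π (u x) = π a ∧ u x ≠ ω ↔ π x = π a ∧ x ≠ ω := fun x => by
    rw [hu]
    refine and_congr_right fun _ => not_congr ?_
    nth_rewrite 1 [← hω]
    exact u.injective.eq_iff
  obtain ⟨v, hv⟩ : ∃ v : Perm Ω, v = Perm.ofSubtype
      (u.subtypePerm (p := fun x => π x = π a ∧ x ≠ ω) hp) := ⟨_, rfl⟩
  have v1 : ∀ x, π x = π a ∧ x ≠ ω → v x = u x := fun x hx =>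
    hv ▸ Perm.ofSubtype_subtypePerm_of_mem hp hx
  have v2 : ∀ x, ¬(π x = π a ∧ x ≠ ω) → v x = x := fun x hx =>
    hv ▸ Perm.ofSubtype_apply_of_not_mem _ hx
  have w1 : ∀ x, π x = π a ∧ x ≠ ω → (v⁻¹ * u) x = x := fun x hx => by
    rw [Perm.mul_apply, Perm.inv_eq_iff_eq, v1 x hx]
  have w2 : ∀ x, ¬(π x = π a ∧ x ≠ ω) → (v⁻¹ * u) x = u x := fun x hx => by
    rw [Perm.mul_apply, Perm.inv_eq_iff_eq, v2 _ fun h => hx ((hp x).1 h)]
  have hd : Perm.Disjoint v (v⁻¹ * u) := fun x => by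
    by_cases hx : π x = π a ∧ x ≠ ω
    · exact Or.inr (w1 x hx)
    · exact Or.inl (v2 x hx)
  have h1 : (v⁻¹ * u) ^ 2 ∈ N := by
    have hs : (v⁻¹ * u).support ⊂ u.support := by
      refine ⟨fun x hx => ?_, fun hs => Perm.mem_support.1 (hs (Perm.mem_support.2 ha))
        (w1 a ⟨rfl, fun e => ha (by rw [e, hω])⟩)⟩
      rw [Perm.mem_support] at hx ⊢
      by_cases hx' : π x = π a ∧ x ≠ ω
      · exact absurd (w1 x hx') hx
      · rwa [w2 x hx'] at hx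
    refine ih _ (hn ▸ Finset.card_lt_card hs) _ (by rw [w2 ω fun h => h.2 rfl, hω])
      (fun x => ?_) rfl
    by_cases hx : π x = π a ∧ x ≠ ω
    · rw [w1 x hx]
    · rw [w2 x hx, hu]
  have h2 := hd.commute.mul_pow 2
  rw [mul_inv_cancel_left] at h2
  rw [h2]
  exact N.mul_mem (hv ▸ h a (u a) (hu a) ha _) h1

theorem pq_main {M : ℕ} (hM : 5 ≤ M) {Ω : Type} {Δ : Subgroup (Perm Ω)} (h : Q M Ω Δ) :
    Finite Ω → PqP M Δ := by
  classical
  induction h with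
  | triv Ω =>
    intro _ ω N k κ _ _ _ _ _ g hg _
    exact ⟨0, by rw [Subgroup.mem_bot.1 hg, one_pow]; exact N.one_mem⟩
  | fibre Δ π hπ hinv hrig _ ih =>
    intro hF
    refine pq_step hπ hinv (fun ω g hg e => ⟨g, hg, hrig g hg ω e, fun _ => rfl⟩)
      (fun ω N k κ _ _ _ u hu _ e => ?_) (ih (Finite.of_surjective π hπ))
    rw [show u = 1 from Equiv.ext fun x => hrig u hu x (e x), one_pow]
    exact N.one_mem
  | @twin Ω Ω' Δ π hπ hinv hbig halt _ ih =>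
    intro hF
    have := Fintype.ofFinite Ω
    refine pq_step hπ hinv (fun ω g hg e => ?_) (fun ω N k κ hk hnorm hκ u _ hω e => ?_)
      (ih (Finite.of_surjective π hπ))
    · by_cases h0 : g ω = ω
      · exact ⟨g, hg, h0, fun _ => rfl⟩
      have h1 := hbig _ _ e h0
      rw [Nat.card_eq_fintype_card, Fintype.card_subtype] at h1
      obtain ⟨c, c1, c2⟩ := Finset.exists_mem_notMem_of_card_lt_card
        (s := {g ω, ω}) (lt_of_le_of_lt (Finset.card_le_two.trans (by omega)) h1)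
      rw [Finset.mem_filter] at c1
      rw [Finset.mem_insert, Finset.mem_singleton, not_or] at c2
      obtain ⟨t, ht, t1, t2, t3, t4⟩ := halt (g ω) ω c h0 (Ne.symm c2.2) (Ne.symm c2.1) e
        (e.symm.trans c1.2.symm)
      refine ⟨t * g, Δ.mul_mem ht hg, t1, fun x => ?_⟩
      rw [Perm.mul_apply]
      generalize g x = y
      by_cases y1 : y = g ω
      · rw [y1, t1, e]
      by_cases y2 : y = ω
      · rw [y2, t2, c1.2, e]
      by_cases y3 : y = c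
      · rw [y3, t3, c1.2]
      rw [t4 y y1 y2 y3]
    · refine pq_sq (fun a b hb hab τ => pq_alt hM hk hnorm hκ (fun h => h.2 rfl) ?_
        (fun x y z h1 h2 h3 hx hy hz => halt x y z h1 h2 h3 (hx.1.trans hy.1.symm)
          (hy.1.trans hz.1.symm)) τ) u hω e
      have h1 := hbig a b hb.symm hab.symm
      rw [Nat.card_eq_fintype_card, Fintype.card_subtype] at h1 ⊢
      have h2 := Finset.pred_card_le_card_erase (s := Finset.univ.filter fun z => π z = π a)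
        (a := ω)
      rw [show (Finset.univ.filter fun z => π z = π a ∧ z ≠ ω) =
        (Finset.univ.filter fun z => π z = π a).erase ω by ext z; simp [and_comm]]
      omega

theorem sP : SP := by
  intro M Ω hF Δ h hM
  exact pq_main hM h hF

end Pool.Agent.Lib.MP_f51cdd_lc.Seu
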