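import Pool.Agent.Lib.MP_f51cdd_lc.Seu.Defs

namespace Pool.Agent.Lib.MP_f51cdd_lc.Seu

open Equiv Function

theorem pt_tr_mono {V : Type} {Γ : Subgroup (Perm V)} {s t : ℕ} (h : s ≤ t) (ht : Tr t Γ) :
    Tr s Γ := fun σ u hu => ht σ u (hu.trans h)

theorem pt_tr_one {V : Type} {Γ : Subgroup (Perm V)} (h : Trans Γ) : Tr 1 Γ := by
  intro σ s hs
  rcases s.eq_empty_or_nonempty with rfl | ⟨x, hx⟩
  · exact ⟨1, Γ.one_mem, by simp⟩
  · obtain ⟨g, hg, hgx⟩ := h x (σ x)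
    refine ⟨g, hg, fun y hy => ?_⟩
    rw [Finset.card_le_one.1 hs y hy x hx, hgx]

theorem pt_giant {V : Type} [Finite V] {Γ : Subgroup (Perm V)} (h : Tr (Nat.card V) Γ) :
    Giant Γ := by
  classical
  have := Fintype.ofFinite V
  intro a b c hab hbc hac
  obtain ⟨δ, hδ, he⟩ := h (swap a c * swap a b) Finset.univ (by simp [Nat.card_eq_fintype_card])
  have : δ = swap a c * swap a b := Equiv.ext fun x => he x (Finset.mem_univ x)
  exact ⟨δ, hδ, this ▸ cyc3_swap hab hbc hac⟩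

theorem pt_rigid_mono {V : Type} {Γ : Subgroup (Perm V)} {d d' : ℕ} (h : d ≤ d')
    (hd : Rigid Γ d) : Rigid Γ d' := by
  obtain ⟨c, hc⟩ := hd
  exact ⟨fun x => Fin.castLE h (c x), fun g hg he =>
    hc g hg fun x => Fin.castLE_injective h (he x)⟩

theorem pt_rigid_card {V : Type} [Finite V] (Γ : Subgroup (Perm V)) :
    Rigid Γ (Nat.card V) :=
  ⟨Finite.equivFin V, fun _ _ he => Equiv.ext fun x => (Finite.equivFin V).injective (he x)⟩

theorem pt_base_uni (hHit : SHit) (hUni : SUni) {V : Type} [Finite V] {Γ : Subgroup (Perm V)}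
    (hv : 1 ≤ Nat.card V) (hP : Prim Γ) (h2 : ¬Tr 2 Γ) :
    ∃ T : Finset V, IsBase Γ T ∧
      T.card ≤ 100 * (Nat.sqrt (Nat.card V) + 1) * (Nat.log 2 (Nat.card V) + 1) := by
  classical
  set v := Nat.card V with hvdef
  set s := Nat.sqrt v with hs
  set L := Nat.log 2 v with hL
  have hs1 : 1 ≤ s := Nat.le_sqrt.2 (by omega)
  have hss : s * s ≤ v := Nat.sqrt_le v
  have hss' : v < (s + 1) * (s + 1) := Nat.lt_succ_sqrt v
  have hvL : v < 2 ^ (L + 1) := Nat.lt_pow_succ_log_self (by norm_num) v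
  have hcard : Nat.card {p : V × V // p.1 ≠ p.2} < 2 ^ (2 * (L + 1)) := by
    calc Nat.card {p : V × V // p.1 ≠ p.2} ≤ Nat.card (V × V) :=
          Nat.card_le_card_of_injective _ Subtype.val_injective
      _ = v * v := Nat.card_prod V V
      _ < 2 ^ (L + 1) * 2 ^ (L + 1) := Nat.mul_lt_mul'' hvL hvL
      _ = 2 ^ (2 * (L + 1)) := by rw [← pow_add]; congr 1; ring
  obtain ⟨T, hT, hhit⟩ := hHit V {p : V × V // p.1 ≠ p.2}
    (fun p => {z | ¬∃ g ∈ Γ, g p.1.1 = p.1.2 ∧ g z = z}) ((s + 2) / 3) (2 * (L + 1))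
    (by omega) (fun p => by
      have h := hUni V Γ hP h2 p.1.1 p.1.2 p.2
      set D := {z | ¬∃ g ∈ Γ, g p.1.1 = p.1.2 ∧ g z = z}.ncard
      have : s ≤ 3 * D := by
        by_contra hc
        have hc' : 3 * D + 1 ≤ s := by omega
        nlinarith
      omega) hcard
  refine ⟨T, fun g hg hfix => ?_, hT.trans ?_⟩
  · by_contra hne
    obtain ⟨x, hx⟩ : ∃ x, g x ≠ x := by
      by_contra hc
      exact hne (Equiv.ext fun x => by_contra fun h => hc ⟨x, h⟩)
    obtain ⟨z, hz, hzD⟩ := hhit ⟨(x, g x), hx.symm⟩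
    exact hzD ⟨g, hg, rfl, hfix z hz⟩
  · have hq : v / ((s + 2) / 3) ≤ 6 * (s + 1) := by
      apply Nat.div_le_of_le_mul
      have h3 : s ≤ 3 * ((s + 2) / 3) := by omega
      set ρ := (s + 2) / 3
      nlinarith
    rw [← hvdef]
    calc 2 * (L + 1) * (v / ((s + 2) / 3) + 1) ≤ 2 * (L + 1) * (50 * (s + 1)) :=
          Nat.mul_le_mul_left _ (by omega)
      _ = 100 * (s + 1) * (L + 1) := by ring

/-- The pointwise stabiliser of `A` in `Γ`. -/
def ptStab {V : Type} (Γ : Subgroup (Perm V)) (A : Finset V) : Subgroup (Perm V) where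
  carrier := {g | g ∈ Γ ∧ ∀ a ∈ A, g a = a}
  one_mem' := ⟨Γ.one_mem, fun _ _ => rfl⟩
  mul_mem' := fun {a b} ha hb =>
    ⟨Γ.mul_mem ha.1 hb.1, fun x hx => by rw [Perm.mul_apply, hb.2 x hx, ha.2 x hx]⟩
  inv_mem' := fun {a} ha => ⟨Γ.inv_mem ha.1, fun x hx => by
    rw [Perm.inv_eq_iff_eq, ha.2 x hx]⟩

theorem pt_fix_iff {V : Type} {A : Finset V} {g : Perm V} (h : ∀ a ∈ A, g a = a) (x : V) :
    g x ∉ A ↔ x ∉ A := by
  constructor
  · intro h1 h2
    exact h1 (by rw [h x h2]; exact h2)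
  · intro h1 h2
    exact h1 (by rw [← g.injective (h _ h2)]; exact h2)

theorem pt_base_two (hTwo : STwo) {V : Type} [Finite V] {Γ : Subgroup (Perm V)} {t : ℕ}
    (ht2 : 2 ≤ t) (ht : Tr t Γ) (hn : ¬Tr (t + 1) Γ) :
    ∃ T : Finset V, IsBase Γ T ∧
      T.card ≤ t + 100 * (Nat.sqrt (Nat.card V) + 1) * (Nat.log 2 (Nat.card V) + 1) := by
  classical
  obtain ⟨σ, s, hs, hno⟩ : ∃ (σ : Perm V) (s : Finset V), s.card ≤ t + 1 ∧
      ¬∃ δ ∈ Γ, ∀ x ∈ s, δ x = σ x := by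
    by_contra hc
    exact hn fun σ s hs => by_contra fun h => hc ⟨σ, s, hs, h⟩
  have hsc : s.card = t + 1 := by
    by_contra hc
    exact hno (ht σ s (by omega))
  obtain ⟨A, hAs, hA⟩ := Finset.exists_subset_card_eq (s := s) (n := t - 2) (by omega)
  have h2 : Tr 2 (ind (ptStab Γ A) (Subtype.val : {x // x ∉ A} → V)) := by
    intro τ u hu
    obtain ⟨δ, hδ, he⟩ := ht (Perm.ofSubtype τ) (A ∪ u.map (Embedding.subtype _))
      ((Finset.card_union_le _ _).trans (by rw [Finset.card_map]; omega))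
    have hfix : ∀ a ∈ A, δ a = a := fun a ha => by
      rw [he a (Finset.mem_union_left _ ha), Perm.ofSubtype_apply_of_not_mem τ (by simpa using ha)]
    obtain ⟨δ', hδ', he'⟩ := exists_ind (Γ := ptStab Γ A) (p := fun x => x ∉ A) (g := δ)
      ⟨hδ, hfix⟩ (pt_fix_iff hfix)
    refine ⟨δ', hδ', fun x hx => Subtype.ext ?_⟩
    rw [he', he x (Finset.mem_union_right _ (Finset.mem_map_of_mem _ hx)),
      Perm.ofSubtype_apply_coe]
  have h3 : ¬Tr 3 (ind (ptStab Γ A) (Subtype.val : {x // x ∉ A} → V)) := by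
    intro h3
    obtain ⟨g, hg, hge⟩ := ht σ A (by omega)
    have hfix : ∀ a ∈ A, (g⁻¹ * σ) a = a := fun a ha => by
      rw [Perm.mul_apply, Perm.inv_eq_iff_eq, hge a ha]
    obtain ⟨δ', ⟨h, hh, hhe⟩, he⟩ := h3 ((g⁻¹ * σ).subtypePerm (pt_fix_iff hfix))
      ((s \ A).subtype fun x => x ∉ A) (by
        rw [Finset.card_subtype]
        refine (Finset.card_filter_le _ _).trans ?_
        rw [Finset.card_sdiff_of_subset hAs]; omega)
    refine hno ⟨g * h, Γ.mul_mem hg hh.1, fun x hx => ?_⟩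
    by_cases hxA : x ∈ A
    · rw [Perm.mul_apply, hh.2 x hxA, hge x hxA]
    · have h1 := he ⟨x, hxA⟩ (by simp [hx, hxA])
      have h4 := hhe ⟨x, hxA⟩
      rw [h1] at h4
      have h5 : h x = g⁻¹ (σ x) := h4.symm
      rw [Perm.mul_apply, h5]; simp
  obtain ⟨T, hT, hTc⟩ := hTwo _ _ h2 h3
  refine ⟨A ∪ T.map (Embedding.subtype _), fun g hg hfix => ?_, ?_⟩
  · have hfA : ∀ a ∈ A, g a = a := fun a ha => hfix a (Finset.mem_union_left _ ha)
    obtain ⟨δ', hδ', he'⟩ := exists_ind (Γ := ptStab Γ A) (p := fun x => x ∉ A) (g := g)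
      ⟨hg, hfA⟩ (pt_fix_iff hfA)
    have h1 : δ' = 1 := hT δ' hδ' fun x hx => Subtype.ext (by
      rw [he']
      exact hfix x (Finset.mem_union_right _ (Finset.mem_map_of_mem _ hx)))
    ext x
    by_cases hxA : x ∈ A
    · exact hfA x hxA
    · have := he' ⟨x, hxA⟩
      rw [h1] at this
      exact this.symm
  · have hle : Nat.card {x // x ∉ A} ≤ Nat.card V :=
      Nat.card_le_card_of_injective _ Subtype.val_injective
    have h4 := Nat.sqrt_le_sqrt hle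
    have h5 : Nat.log 2 (Nat.card {x // x ∉ A}) ≤ Nat.log 2 (Nat.card V) := Nat.log_mono_right hle
    refine (Finset.card_union_le _ _).trans ?_
    rw [Finset.card_map]
    refine Nat.add_le_add (by omega) (hTc.trans ?_)
    exact Nat.mul_le_mul (Nat.mul_le_mul_left _ (by omega)) (by omega)

theorem pt_num {v : ℕ} (hv : 1 ≤ v) :
    (Nat.sqrt v + 1) * (Nat.log 2 v + 1) * (Nat.log 2 v + 1) ≤ 32 * v := by
  set s := Nat.sqrt v with hs
  set L := Nat.log 2 v with hL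
  have hs1 : 1 ≤ s := Nat.le_sqrt.2 (by omega)
  have hss : s * s ≤ v := Nat.sqrt_le v
  have h1 : 2 ^ L ≤ v := Nat.pow_log_le_self 2 (by omega)
  have h2 : L / 4 + 1 ≤ 2 ^ (L / 4) := Nat.lt_two_pow_self
  have h3 : 2 ^ (L / 4) * 2 ^ (L / 4) ≤ s := by
    apply Nat.le_sqrt.2
    refine le_trans ?_ h1
    rw [← pow_add, ← pow_add]
    exact Nat.pow_le_pow_right (by norm_num) (by omega)
  have h4 : L + 1 ≤ 4 * 2 ^ (L / 4) := by omega
  have h5 : (L + 1) * (L + 1) ≤ 16 * s := by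
    calc (L + 1) * (L + 1) ≤ (4 * 2 ^ (L / 4)) * (4 * 2 ^ (L / 4)) := Nat.mul_le_mul h4 h4
      _ = 16 * (2 ^ (L / 4) * 2 ^ (L / 4)) := by ring
      _ ≤ 16 * s := Nat.mul_le_mul_left _ h3
  calc (s + 1) * (L + 1) * (L + 1) = (s + 1) * ((L + 1) * (L + 1)) := by ring
    _ ≤ (2 * s) * (16 * s) := Nat.mul_le_mul (by omega) h5
    _ = 32 * (s * s) := by ring
    _ ≤ 32 * v := Nat.mul_le_mul_left _ hss

theorem sPT (hHit : SHit) (hUni : SUni) (hTwo : STwo) (hHigh : SHigh) (hCol : SCol) :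
    ∃ d, PT d := by
  classical
  obtain ⟨v₀, hv₀⟩ := hHigh
  obtain ⟨d, hd⟩ := hCol 3217
  refine ⟨max d (v₀ + 1), fun V _ Γ hP hG => ?_⟩
  by_cases hsm : Nat.card V ≤ v₀
  · exact pt_rigid_mono (by omega) (pt_rigid_card Γ)
  have hv : 1 ≤ Nat.card V := by omega
  have hnv : ¬Tr (Nat.card V) Γ := fun h => hG (pt_giant h)
  have hex : ∃ t, ¬Tr (t + 1) Γ := ⟨Nat.card V, fun h => hnv (pt_tr_mono (by omega) h)⟩
  have hn : ¬Tr (Nat.find hex + 1) Γ := Nat.find_spec hex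
  have h1 : 1 ≤ Nat.find hex := by
    by_contra hc
    have : Nat.find hex = 0 := by omega
    rw [this] at hn
    exact hn (pt_tr_one hP.1)
  have ht : Tr (Nat.find hex) Γ := by
    have := Nat.find_min hex (m := Nat.find hex - 1) (by omega)
    rw [Nat.sub_add_cancel h1] at this
    exact not_not.1 this
  generalize Nat.find hex = t at hn h1 ht
  have htv : t ≤ Nat.card V := by
    by_contra hc
    exact hnv (pt_tr_mono (by omega) ht)
  have htL : t * Nat.log 2 (Nat.card V) < 16 * Nat.card V := by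
    by_contra hc
    exact hG (hv₀ V Γ t (by omega) ht (by omega))
  obtain ⟨T, hT, hTc⟩ : ∃ T : Finset V, IsBase Γ T ∧
      T.card ≤ t + 100 * (Nat.sqrt (Nat.card V) + 1) * (Nat.log 2 (Nat.card V) + 1) := by
    by_cases h2 : 2 ≤ t
    · exact pt_base_two hTwo h2 ht hn
    · have : t = 1 := by omega
      subst this
      obtain ⟨T, hT, hTc⟩ := pt_base_uni hHit hUni hv hP hn
      exact ⟨T, hT, by omega⟩
  refine pt_rigid_mono (le_max_left _ _) (hd V Γ T hP.1 hT ?_)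
  have hnum := pt_num hv
  calc T.card * (Nat.log 2 (Nat.card V) + 1)
      ≤ (t + 100 * (Nat.sqrt (Nat.card V) + 1) * (Nat.log 2 (Nat.card V) + 1)) *
        (Nat.log 2 (Nat.card V) + 1) := Nat.mul_le_mul_right _ hTc
    _ = t * Nat.log 2 (Nat.card V) + t + 100 * ((Nat.sqrt (Nat.card V) + 1) *
        (Nat.log 2 (Nat.card V) + 1) * (Nat.log 2 (Nat.card V) + 1)) := by ring
    _ ≤ 3217 * Nat.card V := by omega

end Pool.Agent.Lib.MP_f51cdd_lc.Seu
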