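import Pool.Agent.Lib.MP_f51cdd_lc.Seu.Defs

namespace Pool.Agent.Lib.MP_f51cdd_lc.Seu

open Equiv Function

/-- The elements of `Γ` preserving the colouring `c` on the invariant set `W`. -/
def redGrp {Ω K : Type} (Γ : Subgroup (Perm Ω)) (W : Set Ω) (c : Ω → K)
    (hW : ∀ g ∈ Γ, ∀ x ∈ W, g x ∈ W) : Subgroup (Perm Ω) where
  carrier := {g | g ∈ Γ ∧ ∀ x ∈ W, c (g x) = c x}
  one_mem' := ⟨Γ.one_mem, fun _ _ => rfl⟩
  mul_mem' := fun {a b} ha hb =>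
    ⟨Γ.mul_mem ha.1 hb.1, fun x hx => by
      rw [Perm.mul_apply, ha.2 _ (hW b hb.1 x hx), hb.2 x hx]⟩
  inv_mem' := fun {a} ha => ⟨Γ.inv_mem ha.1, fun x hx => by
    have := ha.2 (a⁻¹ x) (hW _ (Γ.inv_mem ha.1) x hx); simpa using this.symm⟩

/-- Two invariant marks, each present in every class inside `W`. -/
theorem red_marks {Ω : Type} (Δ : Subgroup (Perm Ω)) (W : Set Ω) (r : Setoid Ω)
    (hW : ∀ g ∈ Δ, ∀ x ∈ W, g x ∈ W) (hr : Inv Δ r) (htwo : ∀ x ∈ W, ∃ y, y ≠ x ∧ r x y)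
    (hcl : ∀ x ∈ W, ∀ y, r x y → y ∈ W) (hrig : ∀ g ∈ Δ, ∀ x, r (g x) x → g x = x) :
    ∃ M₁ M₂ : Ω → Prop, (∀ g ∈ Δ, ∀ x, M₁ (g x) ↔ M₁ x) ∧ (∀ g ∈ Δ, ∀ x, M₂ (g x) ↔ M₂ x) ∧
      (∀ x ∈ W, ∃ y, r x y ∧ M₁ y) ∧ (∀ x ∈ W, ∃ y, r x y ∧ M₂ y ∧ ¬M₁ y) := by
  classical
  let s : Setoid Ω :=
    { r := fun x y => ∃ g ∈ Δ, r (g x) y
      iseqv :=
        { refl := fun x => ⟨1, Δ.one_mem, r.refl x⟩
          symm := by
            rintro x y ⟨g, hg, h⟩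
            refine ⟨g⁻¹, Δ.inv_mem hg, ?_⟩
            have := hr _ (Δ.inv_mem hg) _ _ (r.symm h)
            simpa using this
          trans := by
            rintro x y z ⟨g, hg, h⟩ ⟨g', hg', h'⟩
            exact ⟨g' * g, Δ.mul_mem hg' hg, r.trans (hr _ hg' _ _ h) h'⟩ } }
  let rep : Ω → Ω := fun x => (Quotient.mk s x).out
  have hrep : ∀ x, ∃ g ∈ Δ, r (g (rep x)) x := fun x => Quotient.mk_out (s := s) x
  have hrepeq : ∀ x y, s x y → rep x = rep y := fun x y h => by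
    simp only [rep]; rw [Quotient.sound h]
  have hrepg : ∀ g ∈ Δ, ∀ x, rep (g x) = rep x := fun g hg x =>
    (hrepeq x (g x) ⟨g, hg, r.refl _⟩).symm
  have hrepr : ∀ x y, r x y → rep x = rep y := fun x y h => hrepeq x y ⟨1, Δ.one_mem, h⟩
  have hb : ∀ z, ∃ y, z ∈ W → y ≠ z ∧ r z y := fun z => by
    by_cases hz : z ∈ W
    · obtain ⟨y, hy⟩ := htwo z hz
      exact ⟨y, fun _ => hy⟩
    · exact ⟨z, fun h => absurd h hz⟩
  choose b hb using hb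
  have hinv : ∀ f : Ω → Ω, ∀ h ∈ Δ, ∀ x,
      (∃ g ∈ Δ, g (f (rep (h x))) = h x) ↔ ∃ g ∈ Δ, g (f (rep x)) = x := by
    intro f h hh x
    rw [hrepg h hh]
    constructor
    · rintro ⟨g, hg, e⟩
      exact ⟨h⁻¹ * g, Δ.mul_mem (Δ.inv_mem hh) hg, by rw [Perm.mul_apply, e]; simp⟩
    · rintro ⟨g, hg, e⟩
      exact ⟨h * g, Δ.mul_mem hh hg, by rw [Perm.mul_apply, e]⟩
  refine ⟨fun x => ∃ g ∈ Δ, g (id (rep x)) = x, fun x => ∃ g ∈ Δ, g (b (rep x)) = x,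
    hinv id, hinv b, fun x _ => ?_, fun x hx => ?_⟩
  · obtain ⟨g, hg, h⟩ := hrep x
    exact ⟨g (rep x), r.symm h, g, hg, by rw [hrepr _ _ h]; rfl⟩
  · obtain ⟨g, hg, h⟩ := hrep x
    have hW1 : rep x ∈ W := by
      have := hW _ (Δ.inv_mem hg) _ (hcl x hx _ (r.symm h))
      simpa using this
    obtain ⟨hne, hrb⟩ := hb _ hW1
    have h2 : r x (g (b (rep x))) := r.trans (r.symm h) (hr _ hg _ _ hrb)
    refine ⟨g (b (rep x)), h2, ⟨g, hg, by rw [← hrepr _ _ h2]⟩, ?_⟩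
    rintro ⟨g', hg', e⟩
    rw [← hrepr _ _ h2] at e
    have e2 : (g⁻¹ * g') (rep x) = b (rep x) := by
      rw [Perm.mul_apply]
      have e' : g' (rep x) = g (b (rep x)) := e
      rw [e']; simp
    have := hrig _ (Δ.mul_mem (Δ.inv_mem hg) hg') (rep x) (by rw [e2]; exact r.symm hrb)
    exact hne (e2.symm.trans this)

theorem sRed : SRed := by
  classical
  rintro Ω Γ E ⟨W, r, c, ⟨x₀, hx₀⟩, hW, hr, htwo, hout, hrig⟩
  have hcl : ∀ x ∈ W, ∀ y, r x y → y ∈ W := fun x hx y h => by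
    by_contra hy
    exact hy (hout y hy x (r.symm h) ▸ hx)
  have hW' : ∀ g ∈ Γ, ∀ x, g x ∈ W ↔ x ∈ W := fun g hg x =>
    ⟨fun h => by simpa using hW _ (Γ.inv_mem hg) _ h, hW g hg x⟩
  have hle : redGrp Γ W c hW ≤ Γ := fun g hg => hg.1
  have hrΔ : Inv (redGrp Γ W c hW) r := fun g hg => hr g hg.1
  have hrigΔ : ∀ g ∈ redGrp Γ W c hW, ∀ x, r (g x) x → g x = x :=
    fun g hg => hrig g hg.1 hg.2
  obtain ⟨M₁, M₂, h1, h2, e1, e2⟩ :=
    red_marks (redGrp Γ W c hW) W r (fun g hg => hW g hg.1) hrΔ htwo hcl hrigΔ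
  refine ⟨Quotient r, Quotient.mk r, redGrp Γ W c hW, Quotient.mk_surjective, ?_, hle, ?_, ?_, ?_⟩
  · intro hinj
    obtain ⟨y, hy, hxy⟩ := htwo x₀ hx₀
    exact hy (hinj (Quotient.sound hxy)).symm
  · intro g hg x y h
    exact Quotient.sound (hrΔ g hg x y (Quotient.exact h))
  · intro g hg x h
    exact hrigΔ g hg x (Quotient.exact h)
  intro c'
  let d : Ω → Fin E × Fin E := fun x =>
    if x ∈ W then
      (c x, if M₁ x then (c' (Quotient.mk r x)).1 else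
        if M₂ x then (c' (Quotient.mk r x)).2 else c x)
    else c' (Quotient.mk r x)
  have hst : stab Γ d ≤ redGrp Γ W c hW := by
    intro g hg
    refine ⟨hg.1, fun x hx => ?_⟩
    have := congrArg Prod.fst (hg.2 x)
    simpa only [d, if_pos hx, if_pos (hW g hg.1 x hx)] using this
  refine ⟨d, hst, le_antisymm ?_ ?_⟩
  · rintro σ ⟨g, hg, hσ⟩
    refine ⟨⟨g, hst hg, hσ⟩, fun ω => ?_⟩
    obtain ⟨x, rfl⟩ := Quotient.mk_surjective ω
    by_cases hx : x ∈ W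
    · obtain ⟨y, hy, m1⟩ := e1 x hx
      obtain ⟨z, hz, m2, m1'⟩ := e2 x hx
      have hyW := hcl x hx y hy
      have hzW := hcl x hx z hz
      have q1 := congrArg Prod.snd (hg.2 y)
      have q2 := congrArg Prod.snd (hg.2 z)
      simp only [d, if_pos hyW, if_pos (hW g hg.1 y hyW), if_pos m1,
        if_pos ((h1 g (hst hg) y).2 m1)] at q1
      simp only [d, if_pos hzW, if_pos (hW g hg.1 z hzW), if_pos m2, if_neg m1',
        if_pos ((h2 g (hst hg) z).2 m2), if_neg (fun h => m1' ((h1 g (hst hg) z).1 h))] at q2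
      have ey : Quotient.mk r x = Quotient.mk r y := Quotient.sound hy
      have ez : Quotient.mk r x = Quotient.mk r z := Quotient.sound hz
      refine Prod.ext ?_ ?_
      · rw [ey, hσ]; exact q1
      · rw [ez, hσ]; exact q2
    · have q := hg.2 x
      simp only [d, if_neg hx, if_neg (fun h => hx ((hW' g hg.1 x).1 h))] at q
      rw [hσ]; exact q
  · rintro σ ⟨⟨g, hg, hσ⟩, hc⟩
    refine ⟨g, ⟨hg.1, fun x => ?_⟩, hσ⟩
    have q : c' (Quotient.mk r (g x)) = c' (Quotient.mk r x) := by rw [← hσ, hc]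
    by_cases hx : x ∈ W
    · simp only [d, if_pos hx, if_pos (hW g hg.1 x hx), h1 g hg x, h2 g hg x, q, hg.2 x hx]
    · simp only [d, if_neg hx, if_neg (fun h => hx ((hW' g hg.1 x).1 h)), q]

end Pool.Agent.Lib.MP_f51cdd_lc.Seu
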