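import Pool.Agent.Lib.MP_f51cdd_lc.Seu.Defs

namespace Pool.Agent.Lib.MP_f51cdd_lc.Seu

open Equiv Function

section
variable {m : ℕ} {V W V' W' : Type}

theorem BF.mem_iff (S : BF m V W) {p : List (Set V × Set W)} (hp : S.R p) {a : V} {b : W}
    (hab : (({a}, {b}) : Set V × Set W) ∈ p) {z : Set V × Set W} (hz : z ∈ p) :
    a ∈ z.1 ↔ b ∈ z.2 := by
  obtain ⟨y, hy⟩ := S.pal hp a
  have : y = b := (hy _ hab).1 rfl
  exact this ▸ hy z hz

/-- Restriction of a system to a pebbled pair of subsets. -/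
def BF.rel (S : BF m V W) (p : List (Set V × Set W)) (hp : S.R p) (ι : V' → V) (κ : W' → W)
    (hι : Injective ι) (hκ : Injective κ) (hX : (Set.range ι, Set.range κ) ∈ p) :
    BF (m - p.length) V' W' where
  R q := S.R (q.map (fun z => (ι '' z.1, κ '' z.2)) ++ p)
  nil := by simpa using hp
  mono := fun {q q'} h hq => S.mono h fun z hz => by
    rcases List.mem_append.1 hz with hz | hz
    · obtain ⟨w, hw, rfl⟩ := List.mem_map.1 hz
      exact List.mem_append_left _ (List.mem_map_of_mem (hq w hw))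
    · exact List.mem_append_right _ hz
  forth := fun {q} h hl A => by
    obtain ⟨T, hT⟩ := S.forth h (by simp; omega) (ι '' A)
    have hs : T ⊆ Set.range κ := fun y hy => by
      obtain ⟨x, hx⟩ := S.pal' hT y
      have h1 : x ∈ ι '' A := (hx _ List.mem_cons_self).2 hy
      exact (hx _ (List.mem_cons_of_mem _ (List.mem_append_right _ hX))).1
        (Set.image_subset_range _ _ h1)
    refine ⟨κ ⁻¹' T, ?_⟩
    simpa [Set.image_preimage_eq_of_subset hs] using hT
  back := fun {q} h hl B => by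
    obtain ⟨T, hT⟩ := S.back h (by simp; omega) (κ '' B)
    have hs : T ⊆ Set.range ι := fun x hx => by
      obtain ⟨y, hy⟩ := S.pal hT x
      have h1 : y ∈ κ '' B := (hy _ List.mem_cons_self).1 hx
      exact (hy _ (List.mem_cons_of_mem _ (List.mem_append_right _ hX))).2
        (Set.image_subset_range _ _ h1)
    refine ⟨ι ⁻¹' T, ?_⟩
    simpa [Set.image_preimage_eq_of_subset hs] using hT
  pal := fun {q} h x => by
    obtain ⟨y, hy⟩ := S.pal h (ι x)
    obtain ⟨y', rfl⟩ : y ∈ Set.range κ := (hy _ (List.mem_append_right _ hX)).1 ⟨x, rfl⟩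
    refine ⟨y', fun z hz => ?_⟩
    have := hy _ (List.mem_append_left _ (List.mem_map_of_mem hz))
    simpa [hι.mem_set_image, hκ.mem_set_image] using this
  pal' := fun {q} h y => by
    obtain ⟨x, hx⟩ := S.pal' h (κ y)
    obtain ⟨x', rfl⟩ : x ∈ Set.range ι := (hx _ (List.mem_append_right _ hX)).2 ⟨y, rfl⟩
    refine ⟨x', fun z hz => ?_⟩
    have := hx _ (List.mem_append_left _ (List.mem_map_of_mem hz))
    simpa [hι.mem_set_image, hκ.mem_set_image] using this

theorem BF.forth_list (S : BF m V W) {p : List (Set V × Set W)} (hp : S.R p)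
    (l : List (Set V)) (h : p.length + l.length ≤ m) :
    ∃ l' : List (Set V × Set W), l'.map Prod.fst = l ∧ S.R (l' ++ p) := by
  induction l with
  | nil => exact ⟨[], rfl, hp⟩
  | cons A l ih =>
    simp only [List.length_cons] at h
    obtain ⟨l', h1, h2⟩ := ih (by omega)
    have hl : l'.length = l.length := by rw [← h1, List.length_map]
    obtain ⟨T, hT⟩ := S.forth h2 (by simp; omega) A
    exact ⟨(A, T) :: l', by simp [h1], hT⟩

/-- The automorphism group of a colouring of tuples, restricted to a subset. -/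
def autOn {n : ℕ} {K : Type} (χ : (Fin n → V) → K) (X : Set V) : Subgroup (Perm X) where
  carrier := {g | ∀ x : Fin n → X, χ (fun i => g (x i)) = χ fun i => x i}
  one_mem' := fun _ => rfl
  mul_mem' := fun {a b} ha hb x => by
    simp only [Perm.mul_apply]
    rw [ha fun i => b (x i), hb]
  inv_mem' := fun {a} ha x => by
    have := ha fun i => a⁻¹ (x i)
    simpa using this.symm

/-- The conclusion of the induction on subsets. -/
def Match {n : ℕ} {K : Type} (χ : (Fin n → V) → K) (χ' : (Fin n → W) → K) (X : Set V)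
    (Y : Set W) (Z : List (Set V × Set W)) (F : V → W) : Prop :=
  Set.BijOn F X Y ∧ (∀ x : Fin n → V, (∀ i, x i ∈ X) → χ' (F ∘ x) = χ x) ∧
    ∀ z ∈ Z, ∀ x ∈ X, (x ∈ z.1 ↔ F x ∈ z.2)

end

theorem step_link {m r E C : ℕ} {V W K : Type} [Finite V] (S : BF m V W)
    {χ : (Fin (r + 1) → V) → K} {χ' : (Fin (r + 1) → W) → K} (hc : Compat S χ χ')
    (hCl : SCl) (hrE : r + 1 < E) (hr : 1 ≤ r) (h : LS E r C)
    {X' : Set V} {Y' : Set W} (hG : Good E (autOn χ X')) {v : V} {w : W}
    {Z p : List (Set V × Set W)} (hp : S.R p) (hX : (X', Y') ∈ p)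
    (hv : (({v}, {w}) : Set V × Set W) ∈ p) (hZ : ∀ z ∈ Z, z ∈ p)
    (hm : p.length + E * E + C ≤ m)
    (ih : ∀ Z', Z'.length ≤ E * E + 2 → S.R ((X', Y') :: Z') → ∃ F, Match χ χ' X' Y' Z' F) :
    ∃ F, Match χ χ' X' Y' Z F ∧ ∀ (y : Fin r → V) (τ : Fin (r + 1) → Option (Fin r)),
      (∀ j, y j ∈ X') → χ' (fun i => (τ i).elim w fun j => F (y j)) =
        χ fun i => (τ i).elim v y := by
  classical
  obtain ⟨col, hQ⟩ := hG
  set Δ := stab (autOn χ X') col with hΔ
  obtain ⟨l, hl1, hl2⟩ := S.forth_list hp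
    ((Finset.univ : Finset (Fin E × Fin E)).toList.map fun k => Subtype.val '' (col ⁻¹' {k}))
    (by simp; omega)
  have hlen : l.length = E * E := by
    have := congrArg List.length hl1
    simpa using this
  have hcol : ∀ k, ∃ z ∈ l, z.1 = Subtype.val '' (col ⁻¹' {k}) := fun k => by
    have : Subtype.val '' (col ⁻¹' {k}) ∈ l.map Prod.fst := by
      rw [hl1]; exact List.mem_map_of_mem (by simp)
    simpa only [List.mem_map] using this
  obtain ⟨F₀, hb₀, hχ₀, hz₀⟩ := ih l (by omega) (S.mono hl2 (by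
    intro z hz
    rcases List.mem_cons.1 hz with rfl | hz
    exacts [List.mem_append_right _ hX, List.mem_append_left _ hz]))
  let κ : X' → W := fun x => F₀ x
  have hκ : Injective κ := fun a b e => Subtype.ext (hb₀.injOn a.2 b.2 e)
  have hκr : Set.range κ = Y' := by
    rw [← hb₀.image_eq]; ext y; simp [κ]
  let S' := S.rel (l ++ p) hl2 Subtype.val κ Subtype.val_injective hκ
    (by rw [hκr, Subtype.range_coe]; exact List.mem_append_right _ hX)
  let β : (Fin r → X') → ((Fin (r + 1) → Option (Fin r)) → K) × (Fin r → Set (Set V × Set W)) :=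
    fun y => (fun τ => χ fun i => (τ i).elim v fun j => y j, fun j => {z | z ∈ Z ∧ (y j : V) ∈ z.1})
  let β' : (Fin r → X') → ((Fin (r + 1) → Option (Fin r)) → K) × (Fin r → Set (Set V × Set W)) :=
    fun y => (fun τ => χ' fun i => (τ i).elim w fun j => κ (y j),
      fun j => {z | z ∈ Z ∧ κ (y j) ∈ z.2})
  obtain ⟨σ, hσ, hβ⟩ := h _ X' _ S' Δ β β' (by simp; omega) hQ (by
    intro A B A' B' hR
    obtain ⟨F₁, hb₁, hχ₁, hz₁⟩ := ih ((Subtype.val '' A, κ '' B) :: (Subtype.val '' A', κ '' B') :: l)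
      (by simp; omega) (S.mono hR (by
        intro z hz
        simp only [List.mem_cons] at hz
        rcases hz with rfl | rfl | rfl | hz <;> simp [*]))
    let γ : Perm X' := (hb₁.equiv F₁).trans (hb₀.equiv F₀).symm
    have hγ : ∀ x : X', F₀ (γ x) = F₁ x := fun x =>
      congrArg Subtype.val ((hb₀.equiv F₀).apply_symm_apply (hb₁.equiv F₁ x))
    have him : ∀ (A B : Set X'), (∀ x ∈ X', x ∈ Subtype.val '' A ↔ F₁ x ∈ κ '' B) →
        γ '' A = B := fun A B hAB => by
      ext y
      obtain ⟨x, rfl⟩ := γ.surjective y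
      rw [γ.injective.mem_set_image, ← Subtype.val_injective.mem_set_image, hAB x x.2, ← hγ,
        ← hκ.mem_set_image]
    refine ⟨γ, ⟨fun x => ?_, fun x => ?_⟩, him A B (hz₁ _ List.mem_cons_self),
      him A' B' (hz₁ _ (List.mem_cons_of_mem _ List.mem_cons_self))⟩
    · rw [← hχ₀ _ fun i => (γ (x i)).2, ← hχ₁ _ fun i => (x i).2]
      exact congrArg χ' (funext fun i => hγ _)
    · obtain ⟨z, hz, hz'⟩ := hcol (col x)
      have h1 : (x : V) ∈ z.1 := by rw [hz']; exact ⟨x, rfl, rfl⟩
      have h2 := (hz₀ z hz _ (γ x).2).2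
        (by rw [hγ]; exact (hz₁ z (by simp [hz]) _ x.2).1 h1)
      rw [hz', Subtype.val_injective.mem_set_image] at h2
      exact h2) (by
    intro q hq y y' hy
    have hs : ∀ j, (({(y j : V)}, {κ (y' j)}) : Set V × Set W) ∈
        q.map (fun z => (Subtype.val '' z.1, κ '' z.2)) ++ (l ++ p) := fun j =>
      List.mem_append_left _ (List.mem_map.2 ⟨_, hy j, by simp⟩)
    refine Prod.ext (funext fun τ => hc _ hq _ _ fun i => ?_) (funext fun j => ?_)
    · cases τ i with
      | none => simp [hv]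
      | some j => exact hs j
    · ext z
      exact and_congr_right fun hz => S.mem_iff hq (hs j) (by simp [hZ z hz]))
  let F : V → W := fun x => if hx : x ∈ X' then κ (σ ⟨x, hx⟩) else w
  have hF : ∀ x : X', F x = F₀ (σ x) := fun x => by simp [F, κ]
  refine ⟨F, ⟨⟨fun x hx => ?_, fun a ha b hb e => ?_, fun y hy => ?_⟩, fun x hx => ?_,
    fun z hz x hx => ?_⟩, fun y τ hy => ?_⟩
  · rw [hF ⟨x, hx⟩]; exact hb₀.mapsTo (σ _).2
  · rw [hF ⟨a, ha⟩, hF ⟨b, hb⟩] at e
    exact congrArg Subtype.val (σ.injective (hκ e))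
  · obtain ⟨x, hx, rfl⟩ := hb₀.surjOn hy
    exact ⟨_, (σ.symm ⟨x, hx⟩).2, by rw [hF]; simp⟩
  · let x' : Fin (r + 1) → X' := fun i => ⟨x i, hx i⟩
    obtain ⟨δ, hδ, hδ'⟩ := hCl E X' Δ hQ (r + 1) hrE σ hσ (Finset.univ.image x')
      (Finset.card_image_le.trans (by simp))
    have e1 : F ∘ x = F₀ ∘ fun i => (δ (x' i) : V) := funext fun i => by
      rw [comp_apply, comp_apply, hδ' _ (Finset.mem_image_of_mem _ (Finset.mem_univ i))]
      exact hF (x' i)
    rw [e1, hχ₀ _ fun i => (δ (x' i)).2]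
    exact hδ.1 x'
  · have := congrFun (congrArg Prod.snd (hβ fun _ => ⟨x, hx⟩)) ⟨0, hr⟩
    have h2 := Set.ext_iff.1 this z
    simp only [β, β', Set.mem_ofPred_eq, hz, true_and, comp_apply] at h2
    rw [hF ⟨x, hx⟩]
    exact h2.symm
  · have := congrFun (congrArg Prod.fst (hβ fun j => ⟨y j, hy j⟩)) τ
    refine Eq.trans (congrArg χ' (funext fun i => ?_)) this
    cases τ i with
    | none => rfl
    | some j => exact hF ⟨y j, hy j⟩

theorem th_of_ls (hCl : SCl) (hC : SCard) (E₀ E r C : ℕ) (hM : Main E₀) (hE : E₀ ≤ E)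
    (hr : 1 ≤ r) (hrE : r + 1 < E) (h : LS E r C) : TH (r + 1) (C + 2 * (E * E) + 6) := by
  classical
  intro m V W K _ _ S χ χ' hm hc
  have key : ∀ (s : ℕ) (X : Set V) (Y : Set W) (Z : List (Set V × Set W)), X.ncard = s →
      Z.length ≤ E * E + 2 → S.R ((X, Y) :: Z) → ∃ F, Match χ χ' X Y Z F := by
    intro s
    induction s with
    | zero =>
      intro X Y Z hX _ hR
      have hX' : X = ∅ := (Set.ncard_eq_zero (Set.toFinite X)).1 hX
      have hY : Y = ∅ := (Set.ncard_eq_zero (Set.toFinite Y)).1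
        (by rw [← hC m V W S (by omega) _ X Y hR List.mem_cons_self, hX])
      subst hX' hY
      exact ⟨fun x => (S.pal hR x).choose, Set.bijOn_empty _,
        fun x hx => absurd (hx 0) (by simp), by simp⟩
    | succ s ih =>
      intro X Y Z hX hZ hR
      obtain ⟨v, hv⟩ : X.Nonempty := Set.nonempty_of_ncard_ne_zero (by omega)
      obtain ⟨T, hT⟩ := S.forth hR (by simp; omega) {v}
      obtain ⟨w, rfl⟩ : ∃ w, T = {w} := Set.ncard_eq_one.1
        (by rw [← hC m V W S (by omega) _ _ _ hT List.mem_cons_self]; simp)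
      obtain ⟨U, hU⟩ := S.forth hT (by simp; omega) (X \ {v})
      have hw : w ∈ Y := (S.mem_iff hT List.mem_cons_self (z := (X, Y)) (by simp)).1 hv
      have hUe : U = Y \ {w} := by
        ext y
        obtain ⟨a, ha⟩ := S.pal' hU y
        have h1 := ha _ List.mem_cons_self
        have h2 := ha ({v}, {w}) (by simp)
        have h3 := ha (X, Y) (by simp)
        simp only [Set.mem_sdiff] at h1 h2 h3 ⊢
        rw [← h1, ← h2, ← h3]
      subst hUe
      obtain ⟨F, ⟨hb, hχ, hz⟩, hl⟩ := step_link (Z := Z) S hc hCl hrE hr h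
        (hM _ (autOn χ (X \ {v})) E hE) hU List.mem_cons_self (v := v) (w := w) (by simp)
        (fun z hz => by simp [hz]) (by simp; omega)
        fun Z' hZ' hR' => ih _ _ Z' (by rw [Set.ncard_sdiff_singleton_of_mem hv]; omega) hZ' hR'
      have hup : ∀ x ∈ X \ {v}, update F v w x = F x := fun x hx => update_of_ne hx.2 _ _
      refine ⟨update F v w, ?_, fun x hx => ?_, fun z hzZ x hx => ?_⟩
      · have h1 : Set.BijOn (update F v w) (X \ {v}) (Y \ {w}) :=
          hb.congr fun x hx => (hup x hx).symm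
        have h2 := h1.insert (a := v) (by simp)
        rwa [update_self, Set.insert_sdiff_self_of_mem hv, Set.insert_sdiff_self_of_mem hw] at h2
      · by_cases hall : ∀ i, x i ∈ X \ {v}
        · rw [← hχ x hall]
          exact congrArg χ' (funext fun i => hup _ (hall i))
        by_cases hne : ∀ i, x i = v
        · exact (hc _ hT _ _ fun i => by simp [hne i]).symm
        push Not at hall hne
        obtain ⟨i₀, hi₀⟩ := hall
        obtain ⟨i₁, hi₁⟩ := hne
        let y : Fin r → V := fun j => if x (i₀.succAbove j) = v then x i₁ else x (i₀.succAbove j)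
        have hy : ∀ j, y j ∈ X \ {v} := fun j => by
          by_cases e : x (i₀.succAbove j) = v
          · simp only [y, if_pos e]; exact ⟨hx _, hi₁⟩
          · simp only [y, if_neg e]; exact ⟨hx _, e⟩
        have ht : ∀ i, ∃ t : Option (Fin r), t.elim v y = x i ∧
            (t.elim w fun j => F (y j)) = update F v w (x i) := fun i => by
          by_cases e : x i = v
          · exact ⟨none, e.symm, by simp [e]⟩
          · obtain ⟨j, rfl⟩ := Fin.exists_succAbove_eq (x := i) (y := i₀)
              (by rintro rfl; exact hi₀ ⟨hx _, e⟩)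
            exact ⟨some j, by simp [y, e], by simp [y, e]⟩
        choose τ h1 h2 using ht
        have := hl y τ hy
        simp only [h1, h2] at this
        exact this
      · by_cases e : x = v
        · subst e
          rw [update_self]
          exact S.mem_iff hT List.mem_cons_self (by simp [hzZ])
        · rw [update_of_ne e]
          exact hz z hzZ x ⟨hx, e⟩
  obtain ⟨T, hT⟩ := S.forth S.nil (by simp; omega) Set.univ
  have hTu : T = Set.univ := Set.eq_univ_of_forall fun y => by
    obtain ⟨x, hx⟩ := S.pal' hT y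
    exact (hx _ List.mem_cons_self).1 trivial
  subst hTu
  obtain ⟨F, hb, hχ, -⟩ := key _ _ _ [] rfl (by simp) hT
  exact ⟨Equiv.ofBijective F (Set.bijOn_univ.1 hb), fun x => hχ x fun _ => trivial⟩

end Pool.Agent.Lib.MP_f51cdd_lc.Seu
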