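import Pool.Agent.Lib.MP_f51cdd_lc.Seu.Defs

namespace Pool.Agent.Lib.MP_f51cdd_lc.Seu

open Equiv Function

variable {Ω : Type} {Γ : Subgroup (Perm Ω)}

theorem struc_ai (g : Perm Ω) (x : Ω) : g (g⁻¹ x) = x := by simp

theorem struc_ia (g : Perm Ω) (x : Ω) : g⁻¹ (g x) = x := by simp

theorem struc_rigid_mono {d E : ℕ} (h : Rigid Γ d) (hd : d ≤ E) : Rigid Γ E := by
  obtain ⟨c, hc⟩ := h
  exact ⟨fun x => Fin.castLE hd (c x), fun g hg h' =>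
    hc g hg fun x => Fin.castLE_injective hd (h' x)⟩

theorem struc_red_mono {d E : ℕ} (h : Red Γ d) (hd : d ≤ E) : Red Γ E := by
  obtain ⟨W, r, c, h1, h2, h3, h4, h5, h6⟩ := h
  exact ⟨W, r, fun x => Fin.castLE hd (c x), h1, h2, h3, h4, h5, fun g hg h' =>
    h6 g hg fun x hx => Fin.castLE_injective hd (h' x hx)⟩

theorem struc_il_mono {m E : ℕ} (h : IL m) (hm : m ≤ E) : IL E :=
  fun Λ _ B B' _ _ f f' h1 h2 h3 h4 h5 => h Λ B B' f f' h1 h2 h3 (hm.trans h4) (hm.trans h5)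

theorem struc_rigid_card [Finite Ω] {E : ℕ} (h : Nat.card Ω ≤ E) : Rigid Γ E := by
  refine ⟨fun x => Fin.castLE h (Finite.equivFin Ω x), fun g _ h' => ?_⟩
  ext x
  exact (Finite.equivFin Ω).injective (Fin.castLE_injective h (h' x))

theorem struc_orb_refl (x : Ω) : Orb Γ x x := ⟨1, Γ.one_mem, rfl⟩

theorem struc_orb_symm {x y : Ω} (h : Orb Γ x y) : Orb Γ y x := by
  obtain ⟨g, hg, rfl⟩ := h
  exact ⟨g⁻¹, Γ.inv_mem hg, by simp⟩

theorem struc_orb_trans {x y z : Ω} (h : Orb Γ x y) (h' : Orb Γ y z) : Orb Γ x z := by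
  obtain ⟨g, hg, rfl⟩ := h
  obtain ⟨k, hk, rfl⟩ := h'
  exact ⟨k * g, Γ.mul_mem hk hg, rfl⟩

theorem struc_orb_step {x y : Ω} {g : Perm Ω} (hg : g ∈ Γ) (h : Orb Γ x y) : Orb Γ x (g y) :=
  struc_orb_trans h ⟨g, hg, rfl⟩

theorem struc_moved {x y : Ω} (h : Orb Γ x y) (hy : ∃ g ∈ Γ, g y ≠ y) : ∃ g ∈ Γ, g x ≠ x := by
  obtain ⟨k, hk, rfl⟩ := h
  obtain ⟨g, hg, hy⟩ := hy
  refine ⟨k⁻¹ * g * k, Γ.mul_mem (Γ.mul_mem (Γ.inv_mem hk) hg) hk, fun e => hy ?_⟩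
  rw [Perm.mul_apply, Perm.mul_apply, Perm.inv_eq_iff_eq] at e
  exact e

theorem struc_rep (r : Setoid Ω) : ∃ ρ : Ω → Ω, (∀ x, r (ρ x) x) ∧ ∀ x y, r x y → ρ x = ρ y :=
  ⟨fun x => (Quotient.mk r x).out, fun x => Quotient.mk_out x, fun _ _ h =>
    congrArg Quotient.out (Quotient.sound h)⟩

theorem struc_card {r : Setoid Ω} (hr : Inv Γ r) {x y : Ω} (h : Orb Γ x y) :
    Nat.card {z // r z x} = Nat.card {z // r z y} := by
  obtain ⟨g, hg, rfl⟩ := h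
  exact Nat.card_congr (Equiv.subtypeEquiv g fun z => (hr.iff hg z x).symm)

/-- The elements keeping all classes of the orbit of `x₀`. -/
def strucK (Γ : Subgroup (Perm Ω)) (r : Setoid Ω) (x₀ : Ω) : Subgroup (Perm Ω) where
  carrier := {g | g ∈ Γ ∧ ∀ y, Orb Γ x₀ y → r (g y) y}
  one_mem' := ⟨Γ.one_mem, fun y _ => r.refl y⟩
  mul_mem' := fun {a b} ha hb => ⟨Γ.mul_mem ha.1 hb.1, fun y hy =>
    r.trans (ha.2 (b y) (struc_orb_step hb.1 hy)) (hb.2 y hy)⟩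
  inv_mem' := fun {a} ha => ⟨Γ.inv_mem ha.1, fun y hy => by
    have := ha.2 (a⁻¹ y) (struc_orb_step (Γ.inv_mem ha.1) hy)
    rw [struc_ai] at this
    exact r.symm this⟩

theorem strucK_conj {r : Setoid Ω} (hr : Inv Γ r) {x₀ : Ω} {g k : Perm Ω} (hg : g ∈ Γ)
    (hk : k ∈ strucK Γ r x₀) : g * k * g⁻¹ ∈ strucK Γ r x₀ := by
  refine ⟨Γ.mul_mem (Γ.mul_mem hg hk.1) (Γ.inv_mem hg), fun y hy => ?_⟩
  have := hr g hg _ _ (hk.2 (g⁻¹ y) (struc_orb_step (Γ.inv_mem hg) hy))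
  rwa [struc_ai] at this

/-- All 3-cycles of the class of `x` are induced by `H`. -/
def StrucOn (H : Subgroup (Perm Ω)) (r : Setoid Ω) (x : Ω) : Prop :=
  ∀ a b c, a ≠ b → b ≠ c → a ≠ c → r a x → r b x → r c x →
    ∃ g ∈ H, g a = b ∧ g b = c ∧ g c = a ∧ ∀ z, r z x → z ≠ a → z ≠ b → z ≠ c → g z = z

theorem struc_on_of_giant {H : Subgroup (Perm Ω)} {r : Setoid Ω} {x : Ω}
    (h : Giant (onClass H r x)) : StrucOn H r x := by
  intro a b c hab hbc hac ha hb hc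
  obtain ⟨σ, ⟨g, hg, hσ⟩, h1, h2, h3, h4⟩ := h ⟨a, ha⟩ ⟨b, hb⟩ ⟨c, hc⟩
    (fun e => hab (congrArg Subtype.val e)) (fun e => hbc (congrArg Subtype.val e))
    (fun e => hac (congrArg Subtype.val e))
  refine ⟨g, hg, ?_, ?_, ?_, fun z hz za zb zc => ?_⟩
  · rw [← hσ ⟨a, ha⟩, h1]
  · rw [← hσ ⟨b, hb⟩, h2]
  · rw [← hσ ⟨c, hc⟩, h3]
  · rw [← hσ ⟨z, hz⟩, h4 ⟨z, hz⟩ (fun e => za (congrArg Subtype.val e))
      (fun e => zb (congrArg Subtype.val e)) (fun e => zc (congrArg Subtype.val e))]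

theorem struc_on_conj {r : Setoid Ω} (hr : Inv Γ r) {x₀ x y : Ω}
    (h : StrucOn (strucK Γ r x₀) r x) (hxy : Orb Γ x y) : StrucOn (strucK Γ r x₀) r y := by
  obtain ⟨g, hg, rfl⟩ := hxy
  have key : ∀ z, r z (g x) → r (g⁻¹ z) x := fun z hz => by
    have := hr _ (Γ.inv_mem hg) _ _ hz
    rwa [struc_ia] at this
  intro a b c hab hbc hac ha hb hc
  obtain ⟨k, hk, h1, h2, h3, h4⟩ := h (g⁻¹ a) (g⁻¹ b) (g⁻¹ c) (fun e => hab (g⁻¹.injective e))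
    (fun e => hbc (g⁻¹.injective e)) (fun e => hac (g⁻¹.injective e)) (key a ha) (key b hb)
    (key c hc)
  refine ⟨g * k * g⁻¹, strucK_conj hr hg hk, ?_, ?_, ?_, fun z hz za zb zc => ?_⟩
  · rw [Perm.mul_apply, Perm.mul_apply, h1, struc_ai]
  · rw [Perm.mul_apply, Perm.mul_apply, h2, struc_ai]
  · rw [Perm.mul_apply, Perm.mul_apply, h3, struc_ai]
  · rw [Perm.mul_apply, Perm.mul_apply, h4 _ (key z hz) (fun e => za (g⁻¹.injective e))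
      (fun e => zb (g⁻¹.injective e)) (fun e => zc (g⁻¹.injective e)), struc_ai]

theorem struc_red {r : Setoid Ω} {x₀ : Ω} {E : ℕ} (hE : 0 < E) (hr : Inv Γ r)
    (hs : ∀ x y, r x y → x ≠ y → Orb Γ x₀ x) (hne : ∀ x, Orb Γ x₀ x → ∃ y, y ≠ x ∧ r x y)
    (hrig : ∀ x, Orb Γ x₀ x → Rigid (onClass Γ r x) E) : Red Γ E := by
  classical
  have ex : ∀ w, ∃ cw : Ω → Fin E, Orb Γ x₀ w → ∀ g ∈ Γ, r (g w) w →
      (∀ z, r z w → cw (g z) = cw z) → ∀ z, r z w → g z = z := by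
    intro w
    by_cases hw : Orb Γ x₀ w
    · obtain ⟨c, hc⟩ := hrig w hw
      refine ⟨fun z => if h : r z w then c ⟨z, h⟩ else ⟨0, hE⟩, fun _ g hg hgw hcol z hz => ?_⟩
      have hp : ∀ y, r (g y) w ↔ r y w := fun y =>
        ⟨fun h => (hr.iff hg y w).1 (r.trans h (r.symm hgw)),
          fun h => r.trans (hr g hg _ _ h) hgw⟩
      obtain ⟨σ, hσ, hσ'⟩ := exists_ind (p := fun y => r y w) hg hp
      have h1 : σ = 1 := by
        refine hc σ hσ fun y => ?_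
        have := hcol y y.2
        beta_reduce at this
        rw [dif_pos ((hp y).2 y.2), dif_pos y.2] at this
        rw [← this]
        exact congrArg c (Subtype.ext (hσ' y))
      rw [← hσ' ⟨z, hz⟩, h1, Perm.one_apply]
    · exact ⟨fun _ => ⟨0, hE⟩, fun h => absurd h hw⟩
  choose cw hcw using ex
  obtain ⟨ρ, hρ, hρ'⟩ := struc_rep r
  have hcl : ∀ x y, Orb Γ x₀ x → r y x → Orb Γ x₀ y := fun x y hx h => by
    by_cases e : y = x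
    · exact e ▸ hx
    · exact hs y x h e
  refine ⟨{x | Orb Γ x₀ x}, r, fun x => cw (ρ x) x, ⟨x₀, struc_orb_refl x₀⟩,
    fun g hg x hx => struc_orb_step hg hx, hr, hne, fun x hx y hxy => ?_, fun g hg hcol x hx => ?_⟩
  · by_contra e
    exact hx (hs x y hxy fun e' => e e'.symm)
  · by_cases hO : Orb Γ x₀ x
    · have hw : r (g (ρ x)) (ρ x) :=
        r.trans (hr g hg _ _ (hρ x)) (r.trans hx (r.symm (hρ x)))
      refine hcw (ρ x) (hcl x _ hO (hρ x)) g hg hw (fun z hz => ?_) x (r.symm (hρ x))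
      have hzx : r z x := r.trans hz (hρ x)
      have h1 := hcol z (hcl x z hO hzx)
      have h2 : ρ (g z) = ρ x := hρ' _ _ (r.trans (hr g hg _ _ hzx) hx)
      simp only [h2, hρ' _ _ hzx] at h1
      exact h1
    · by_contra e
      exact hO (hs x (g x) (r.symm hx) fun e' => e e'.symm)

theorem struc_norm [Finite Ω] (hN : SNorm) {r : Setoid Ω} {x₀ x₁ : Ω} (hr : Inv Γ r)
    (h1 : Orb Γ x₀ x₁) (hc : 5 ≤ Nat.card {z // r z x₁}) (hG : Giant (onClass Γ r x₁))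
    {k : Perm Ω} (hk : k ∈ strucK Γ r x₀) {y : Ω} (hy : Orb Γ x₀ y) (hky : k y ≠ y) :
    StrucOn (strucK Γ r x₀) r x₁ := by
  refine struc_on_of_giant (hN _ _ (onClass Γ r x₁) hc hG ?_ ?_)
  · rintro l ⟨g, hg, hl⟩ h ⟨k', hk', hh⟩
    refine ⟨g * k' * g⁻¹, strucK_conj hr hg hk', fun z => ?_⟩
    have e : ((l⁻¹ z : {z // r z x₁}) : Ω) = g⁻¹ z := by
      rw [Perm.eq_inv_iff_eq, ← hl, struc_ai]
    rw [Perm.mul_apply, Perm.mul_apply, hl, hh, e, Perm.mul_apply, Perm.mul_apply]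
  · obtain ⟨g, hg, rfl⟩ := struc_orb_trans (struc_orb_symm hy) h1
    have hk' := strucK_conj hr hg hk
    have hgw := hk'.2 _ h1
    have hp : ∀ z, r ((g * k * g⁻¹) z) (g y) ↔ r z (g y) := fun z =>
      ⟨fun h => (hr.iff hk'.1 z _).1 (r.trans h (r.symm hgw)),
        fun h => r.trans (hr _ hk'.1 _ _ h) hgw⟩
    obtain ⟨σ, hσ, hσ'⟩ := exists_ind (p := fun z => r z (g y)) hk' hp
    intro e
    have hσ1 : σ = 1 := Subgroup.mem_bot.1 (e ▸ hσ)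
    have := hσ' ⟨g y, r.refl _⟩
    rw [hσ1, Perm.one_apply, Perm.mul_apply, Perm.mul_apply, struc_ia] at this
    exact hky (g.injective this).symm

theorem sStruct (d m : ℕ) (hPT : PT d) (hIL : IL m) (hB : SBlk) (hA : S2A) (hG : SGiant)
    (hN : SNorm) : ∃ E₀, 1 ≤ E₀ ∧ Struct E₀ := by
  refine ⟨d + m + 16, by omega, ?_⟩
  intro Ω _ Γ E hE hΓ IH
  have ex : ∀ x₀, ∃ r : Setoid Ω, Inv Γ r ∧ ((∃ g ∈ Γ, g x₀ ≠ x₀) →
      (∀ x y, r x y → x ≠ y → Orb Γ x₀ x) ∧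
      ∀ x, Orb Γ x₀ x → (∃ y, y ≠ x ∧ r x y) ∧ Prim (onClass Γ r x)) := by
    intro x₀
    by_cases h : ∃ g ∈ Γ, g x₀ ≠ x₀
    · obtain ⟨r, h1, h2⟩ := hB Ω Γ x₀ h
      exact ⟨r, h1, fun _ => h2⟩
    · exact ⟨⊤, fun _ _ _ _ _ => trivial, fun h' => absurd h' h⟩
  choose R hR hRm using ex
  by_cases h1 : ∃ x₀, (∃ g ∈ Γ, g x₀ ≠ x₀) ∧ ∀ x, Orb Γ x₀ x → Rigid (onClass Γ (R x₀) x) E
  · obtain ⟨x₀, hx₀, hrig⟩ := h1
    exact Or.inl (struc_red (by omega) (hR x₀) (hRm x₀ hx₀).1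
      (fun x hx => ((hRm x₀ hx₀).2 x hx).1) hrig)
  have h1' : ∀ x₀, (∃ g ∈ Γ, g x₀ ≠ x₀) → ∃ x₁, Orb Γ x₀ x₁ ∧ E < Nat.card {z // R x₀ z x₁} ∧
      Giant (onClass Γ (R x₀) x₁) := by
    intro x₀ hx₀
    by_contra hne
    refine h1 ⟨x₀, hx₀, fun x hx => ?_⟩
    by_cases hc : Nat.card {z // R x₀ z x} ≤ E
    · exact struc_rigid_card hc
    · exact struc_rigid_mono (hPT _ _ ((hRm x₀ hx₀).2 x hx).2
        fun hg => hne ⟨x, hx, not_le.1 hc, hg⟩) (by omega)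
  by_cases h2 : ∃ x₀, (∃ g ∈ Γ, g x₀ ≠ x₀) ∧
      ∀ g ∈ Γ, (∀ x, Orb Γ x₀ x → R x₀ (g x) x) → ∀ x, Orb Γ x₀ x → g x = x
  · obtain ⟨x₀, hx₀, htriv⟩ := h2
    obtain ⟨x₁, ho, hc, -⟩ := h1' x₀ hx₀
    refine Or.inl (struc_red_mono (hA Ω Γ x₀ (R x₀) (Nat.card {z // R x₀ z x₁}) (by omega) (hR x₀)
      (hRm x₀ hx₀).1 (fun x hx => struc_card (hR x₀) (struc_orb_trans (struc_orb_symm hx) ho))
      htriv fun Ω' _ Γ' hlt => IH Ω' Γ' _ (by omega) hlt) (by omega))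
  have h2' : ∀ x₀, (∃ g ∈ Γ, g x₀ ≠ x₀) → ∀ x, Orb Γ x₀ x → E < Nat.card {z // R x₀ z x} ∧
      StrucOn (strucK Γ (R x₀) x₀) (R x₀) x := by
    intro x₀ hx₀ x hx
    obtain ⟨x₁, ho, hc, hg⟩ := h1' x₀ hx₀
    have hx₁ : Orb Γ x₁ x := struc_orb_trans (struc_orb_symm ho) hx
    refine ⟨struc_card (hR x₀) hx₁ ▸ hc, struc_on_conj (hR x₀) ?_ hx₁⟩
    by_contra hne
    refine h2 ⟨x₀, hx₀, fun k hk hk' y hy => ?_⟩
    by_contra hky
    exact hne (struc_norm hN (hR x₀) ho (by omega) hg ⟨hk, hk'⟩ hy hky)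
  obtain ⟨ρ, hρ, hρ'⟩ := struc_rep
    (⟨Orb Γ, struc_orb_refl, struc_orb_symm, struc_orb_trans⟩ : Setoid Ω)
  have hρ1 : ∀ x, Orb Γ (ρ x) x := hρ
  have hρ2 : ∀ x y, Orb Γ x y → ρ x = ρ y := hρ'
  let G : Setoid Ω := ⟨fun a b => Orb Γ a b ∧ R (ρ a) a b,
    fun a => ⟨struc_orb_refl a, (R (ρ a)).refl a⟩,
    fun {a b} h => ⟨struc_orb_symm h.1, hρ2 a b h.1 ▸ (R (ρ a)).symm h.2⟩,
    fun {a b c} h h' => ⟨struc_orb_trans h.1 h'.1,
      (R (ρ a)).trans h.2 ((hρ2 a b h.1).symm ▸ h'.2)⟩⟩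
  have hGd : ∀ a b, G a b ↔ Orb Γ a b ∧ R (ρ a) a b := fun _ _ => Iff.rfl
  have hGI : Inv Γ G := by
    intro g hg a b h
    have ha : Orb Γ a (g a) := ⟨g, hg, rfl⟩
    refine (hGd _ _).2 ⟨struc_orb_trans (struc_orb_symm ha) (struc_orb_step hg h.1), ?_⟩
    rw [← hρ2 _ _ ha]
    exact hR _ g hg _ _ h.2
  have main := hG Ω Γ G E (struc_il_mono hIL (by omega)) (by omega) hΓ hGI (fun _ _ h => h.1) (by
    intro x hx
    have hm := struc_moved (hρ1 x) hx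
    have hiff : ∀ y, Orb Γ x y → ∀ z, G z y ↔ R (ρ x) z y := by
      intro y hy z
      constructor
      · intro h
        rw [hρ2 x z (struc_orb_trans hy (struc_orb_symm h.1))]
        exact h.2
      · intro h
        have hz : Orb Γ z y := by
          by_cases e : z = y
          · exact e ▸ struc_orb_refl z
          · exact struc_orb_trans (struc_orb_symm ((hRm _ hm).1 z y h e))
              (struc_orb_trans (hρ1 x) hy)
        refine (hGd _ _).2 ⟨hz, ?_⟩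
        rw [← hρ2 x z (struc_orb_trans hy (struc_orb_symm hz))]
        exact h
    have hx' := hiff x (struc_orb_refl x)
    obtain ⟨hc, hon⟩ := h2' (ρ x) hm x (hρ1 x)
    refine ⟨?_, fun a b c hab hbc hac ha hb hc' => ?_⟩
    · rw [Nat.card_congr (Equiv.subtypeEquivRight hx')]
      exact hc
    · obtain ⟨k, hk, e1, e2, e3, e4⟩ :=
        hon a b c hab hbc hac ((hx' a).1 ha) ((hx' b).1 hb) ((hx' c).1 hc')
      exact ⟨k, hk.1, fun y hy => (hiff y hy _).2 (hk.2 y (struc_orb_trans (hρ1 x) hy)),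
        e1, e2, e3, fun z hz => e4 z ((hx' z).1 hz)⟩)
  exact main.imp_left fun h => struc_red_mono h (by omega)

end Pool.Agent.Lib.MP_f51cdd_lc.Seu
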