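import Pool.Agent.Lib.MP_f51cdd_lc.Seu.Defs

namespace Pool.Agent.Lib.MP_f51cdd_lc.Seu

open Equiv Function Finset

section
variable {V : Type} [Fintype V] [DecidableEq V] {Γ : Subgroup (Perm V)}

omit [Fintype V] in
theorem two_pair (h : Tr 2 Γ) {a b a' b' : V} (hab : a ≠ b) (hab' : a' ≠ b') :
    ∃ g ∈ Γ, g a = a' ∧ g b = b' := by
  obtain ⟨g, hg, he⟩ := h (swap (swap a a' b) b' * swap a a') {a, b} card_le_two
  refine ⟨g, hg, ?_, ?_⟩
  · rw [he a (by simp), Perm.mul_apply, swap_apply_left]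
    refine swap_apply_of_ne_of_ne (fun e => hab ?_) hab'
    exact (swap a a').injective (by rw [swap_apply_left]; exact e)
  · rw [he b (by simp), Perm.mul_apply, swap_apply_left]

omit [Fintype V] in
theorem two_const (h : Tr 2 Γ) (f : V → V → ℕ) (hf : ∀ g ∈ Γ, ∀ a b, f (g a) (g b) = f a b)
    {a b a' b' : V} (hab : a ≠ b) (hab' : a' ≠ b') : f a' b' = f a b := by
  obtain ⟨g, hg, h1, h2⟩ := two_pair h hab hab'
  rw [← h1, ← h2, hf g hg]

theorem two_sum (f : V → ℕ) (a : V) (c : ℕ) (h0 : f a = 0) (hc : ∀ b, b ≠ a → f b = c) :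
    ∑ b, f b = (Fintype.card V - 1) * c := by
  rw [← sum_erase univ h0, sum_congr rfl fun b hb => hc b (ne_of_mem_erase hb), sum_const,
    card_erase_of_mem (mem_univ a), card_univ, smul_eq_mul]

omit [DecidableEq V] in
theorem two_card (g : Perm V) (p p' : V → Prop) [DecidablePred p] [DecidablePred p']
    (h : ∀ x, p' (g x) ↔ p x) : (univ.filter p').card = (univ.filter p).card :=
  (card_bijective g g.bijective fun x => by simp [h x]).symm

/-- The counting facts on an invariant ternary relation. -/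
theorem two_count (h : Tr 2 Γ) (ρ : V → V → V → Prop) [∀ x z y, Decidable (ρ x z y)]
    (hd : ∀ x z y, ρ x z y → x ≠ z ∧ x ≠ y ∧ z ≠ y)
    (hi : ∀ g ∈ Γ, ∀ x z y, ρ (g x) (g z) (g y) ↔ ρ x z y) {a b : V} (hab : a ≠ b) {φ : ℕ}
    (hφ : (univ.filter fun y => ρ a b y).card = φ) :
    (∀ x z, x ≠ z → (univ.filter fun y => ρ x z y).card = φ) ∧
    (∀ x y, (univ.filter fun z => ρ x z y).card ≤ φ) ∧
    (∀ z y, (univ.filter fun x => ρ x z y).card ≤ φ) ∧
    ∀ y y', y ≠ y' → (univ.filter fun p : V × V => ρ p.1 p.2 y ∧ ¬ρ p.1 p.2 y').card =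
      φ * (Fintype.card V - φ) := by
  have hv : 0 < Fintype.card V - 1 := by
    have : 1 < Fintype.card V := Fintype.one_lt_card_iff.2 ⟨a, b, hab⟩
    omega
  have c1 : ∀ x z, x ≠ z → (univ.filter fun y => ρ x z y).card = φ := fun x z hxz => by
    rw [← hφ]
    exact two_const h (fun x z => (univ.filter fun y => ρ x z y).card)
      (fun g hg x z => two_card g _ _ fun y => hi g hg x z y) hab hxz
  have z1 : ∀ x, (univ.filter fun y => ρ x x y).card = 0 := fun x => by
    rw [card_eq_zero, filter_eq_empty_iff]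
    exact fun y _ hy => (hd _ _ _ hy).1 rfl
  have z2 : ∀ x, (univ.filter fun z => ρ x z x).card = 0 := fun x => by
    rw [card_eq_zero, filter_eq_empty_iff]
    exact fun y _ hy => (hd _ _ _ hy).2.1 rfl
  have z3 : ∀ z, (univ.filter fun x => ρ x z z).card = 0 := fun x => by
    rw [card_eq_zero, filter_eq_empty_iff]
    exact fun y _ hy => (hd _ _ _ hy).2.2 rfl
  refine ⟨c1, fun x y => ?_, fun z y => ?_, fun y y' hy => ?_⟩
  · by_cases hxy : x = y
    · rw [← hxy, z2]
      exact Nat.zero_le _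
    have e1 := two_sum (fun z => (univ.filter fun y => ρ x z y).card) x φ (z1 x)
      fun z hz => c1 x z hz.symm
    have e2 := two_sum (fun y => (univ.filter fun z => ρ x z y).card) x
      (univ.filter fun z => ρ x z y).card (z2 x) fun y' hy' =>
        two_const h (fun x y => (univ.filter fun z => ρ x z y).card)
          (fun g hg x y => two_card g _ _ fun z => hi g hg x z y) hxy hy'.symm
    have e3 : ∑ z, (univ.filter fun y => ρ x z y).card =
        ∑ y, (univ.filter fun z => ρ x z y).card := by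
      simp only [card_filter]
      exact sum_comm
    rw [e1, e2] at e3
    exact (Nat.eq_of_mul_eq_mul_left hv e3).ge
  · by_cases hzy : z = y
    · rw [← hzy, z3]
      exact Nat.zero_le _
    have e1 := two_sum (fun x => (univ.filter fun y => ρ x z y).card) z φ (z1 z)
      fun x hx => c1 x z hx
    have e2 := two_sum (fun y => (univ.filter fun x => ρ x z y).card) z
      (univ.filter fun x => ρ x z y).card (z3 z) fun y' hy' =>
        two_const h (fun z y => (univ.filter fun x => ρ x z y).card)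
          (fun g hg z y => two_card g _ _ fun x => hi g hg x z y) hzy hy'.symm
    have e3 : ∑ x, (univ.filter fun y => ρ x z y).card =
        ∑ y, (univ.filter fun x => ρ x z y).card := by
      simp only [card_filter]
      exact sum_comm
    rw [e1, e2] at e3
    exact (Nat.eq_of_mul_eq_mul_left hv e3).ge
  · set δ := (univ.filter fun p : V × V => ρ p.1 p.2 y ∧ ¬ρ p.1 p.2 y').card with hδ
    have e1 : ∀ u, ∑ u', (univ.filter fun p : V × V => ρ p.1 p.2 u ∧ ¬ρ p.1 p.2 u').card =
        (Fintype.card V - 1) * δ := fun u => by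
      refine two_sum _ u δ (by simp) fun u' hu' => ?_
      refine two_const h
        (fun u u' => (univ.filter fun p : V × V => ρ p.1 p.2 u ∧ ¬ρ p.1 p.2 u').card)
        (fun g hg u u' => ?_) hy hu'.symm
      exact two_card (Equiv.prodCongr g g) _ _ fun p => by
        simp [hi g hg]
    have e2 : ∀ x, ∑ z, (univ.filter fun u => ρ x z u).card *
        (univ.filter fun u => ¬ρ x z u).card =
        (Fintype.card V - 1) * (φ * (Fintype.card V - φ)) := fun x => by
      refine two_sum _ x _ (by rw [z1, zero_mul]) fun z hz => ?_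
      have := card_filter_add_card_filter_not (s := univ) (fun u => ρ x z u)
      rw [c1 x z hz.symm, card_univ] at this
      rw [c1 x z hz.symm, ← this, Nat.add_sub_cancel_left]
    have e3 : ∑ u, ∑ u', (univ.filter fun p : V × V => ρ p.1 p.2 u ∧ ¬ρ p.1 p.2 u').card =
        ∑ x, ∑ z, (univ.filter fun u => ρ x z u).card *
          (univ.filter fun u => ¬ρ x z u).card := by
      rw [← Fintype.sum_prod_type', ← Fintype.sum_prod_type']
      simp only [card_filter]
      rw [sum_comm]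
      refine sum_congr rfl fun p _ => ?_
      rw [sum_mul_sum, Fintype.sum_prod_type]
      refine sum_congr rfl fun u _ => sum_congr rfl fun u' _ => ?_
      by_cases h1 : ρ p.1 p.2 u <;> by_cases h2 : ρ p.1 p.2 u' <;> simp [h1, h2]
    simp only [e1, e2, sum_const, card_univ, smul_eq_mul] at e3
    exact Nat.eq_of_mul_eq_mul_left hv (Nat.eq_of_mul_eq_mul_left (by omega) e3)

/-- A dense set of pairs with small degrees has many first points with a partner outside `N`. -/
theorem two_out (D : V → V → Prop) [∀ x z, Decidable (D x z)] {φ : ℕ} (hφ : 0 < φ)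
    (h1 : ∀ x, (univ.filter fun z => D x z).card ≤ φ)
    (h2 : ∀ z, (univ.filter fun x => D x z).card ≤ φ)
    (h3 : φ * Fintype.card V ≤ 2 * (univ.filter fun p : V × V => D p.1 p.2).card) (N : Finset V) :
    Fintype.card V ≤ 2 * (N.card + (univ.filter fun x => ∃ z, z ∉ N ∧ D x z).card) := by
  have hs : (univ.filter fun p : V × V => D p.1 p.2) ⊆
      (N.biUnion fun z => (univ.filter fun x => D x z).image fun x => (x, z)) ∪
      ((univ.filter fun x => ∃ z, z ∉ N ∧ D x z).biUnion fun x =>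
        (univ.filter fun z => D x z).image fun z => (x, z)) := by
    rintro ⟨x, z⟩ hp
    have hp' : D x z := (mem_filter.1 hp).2
    by_cases hz : z ∈ N
    · exact mem_union_left _ (mem_biUnion.2 ⟨z, hz, mem_image.2 ⟨x, by simpa using hp', rfl⟩⟩)
    · exact mem_union_right _ (mem_biUnion.2 ⟨x, mem_filter.2 ⟨mem_univ _, z, hz, hp'⟩,
        mem_image.2 ⟨z, by simpa using hp', rfl⟩⟩)
  have h4 := (card_le_card hs).trans ((card_union_le _ _).trans (add_le_add
    (card_biUnion_le_card_mul _ _ φ fun z _ => card_image_le.trans (h2 z))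
    (card_biUnion_le_card_mul _ _ φ fun x _ => card_image_le.trans (h1 x))))
  refine Nat.le_of_mul_le_mul_left (h3.trans ?_) hφ
  calc _ ≤ 2 * (N.card * φ + (univ.filter fun x => ∃ z, z ∉ N ∧ D x z).card * φ) := by gcongr
    _ = _ := by ring

omit [DecidableEq V] in
theorem two_idx (p : V × V → Prop) :
    Nat.card {x // p x} < 2 ^ (2 * (Nat.log 2 (Fintype.card V) + 1)) := by
  have h1 : Nat.card {x // p x} ≤ Fintype.card V * Fintype.card V := by
    rw [← Fintype.card_prod, ← Nat.card_eq_fintype_card]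
    exact Nat.card_le_card_of_injective _ Subtype.val_injective
  have h2 : Fintype.card V < 2 ^ (Nat.log 2 (Fintype.card V) + 1) :=
    Nat.lt_pow_succ_log_self (by norm_num) _
  rw [two_mul, pow_add]
  exact h1.trans_lt (Nat.mul_lt_mul'' h2 h2)

/-- First stage: every family member gets many marked second points. -/
theorem two_stage (hHit : SHit) (hv : 100 < Fintype.card V) (D : V × V → V → V → Prop)
    [∀ p x z, Decidable (D p x z)]
    (hD : ∀ p : V × V, p.1 ≠ p.2 → ∀ N : Finset V, Fintype.card V ≤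
      2 * (N.card + (univ.filter fun x => ∃ z, z ∉ N ∧ D p x z).card)) :
    ∀ j, j ≤ Nat.sqrt (Fintype.card V) + 1 → ∃ A : Finset V,
      A.card ≤ 12 * (Nat.log 2 (Fintype.card V) + 1) * j ∧
      ∀ p : V × V, p.1 ≠ p.2 → j ≤ (univ.filter fun z => ∃ x ∈ A, D p x z).card := by
  have hs : 4 * Nat.sqrt (Fintype.card V) ≤ Fintype.card V := by
    have h1 : 10 ≤ Nat.sqrt (Fintype.card V) := Nat.le_sqrt.2 (by omega)
    have h2 := Nat.sqrt_le (Fintype.card V)
    nlinarith
  intro j
  induction j with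
  | zero => exact fun _ => ⟨∅, by simp, fun _ _ => Nat.zero_le _⟩
  | succ j ih =>
    intro hj
    obtain ⟨A, hA, hN⟩ := ih (by omega)
    obtain ⟨T, hT, hT'⟩ := hHit V
      {p : V × V // p.1 ≠ p.2 ∧ (univ.filter fun z => ∃ x ∈ A, D p x z).card ≤ j}
      (fun p => ↑(univ.filter fun x =>
        ∃ z, z ∉ (univ.filter fun z => ∃ x ∈ A, D p.1 x z) ∧ D p.1 x z))
      (Fintype.card V / 4) _ (by omega) (fun p => by
        rw [Set.ncard_coe_finset]
        have h1 := hD p.1 p.2.1 (univ.filter fun z => ∃ x ∈ A, D p.1 x z)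
        have h2 := p.2.2
        omega) (two_idx _)
    refine ⟨A ∪ T, ?_, fun p hp => ?_⟩
    · have h1 : Nat.card V / (Fintype.card V / 4) ≤ 5 := by
        rw [Nat.card_eq_fintype_card]
        exact Nat.lt_succ_iff.1 ((Nat.div_lt_iff_lt_mul (by omega)).2 (by omega))
      calc (A ∪ T).card ≤ A.card + T.card := card_union_le _ _
        _ ≤ 12 * (Nat.log 2 (Fintype.card V) + 1) * j +
            2 * (Nat.log 2 (Fintype.card V) + 1) * (5 + 1) :=
          add_le_add hA (hT.trans (by gcongr))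
        _ = _ := by ring
    · have hsub : (univ.filter fun z => ∃ x ∈ A, D p x z) ⊆
          univ.filter fun z => ∃ x ∈ A ∪ T, D p x z := fun z hz => by
        obtain ⟨x, hx, hxz⟩ := (mem_filter.1 hz).2
        exact mem_filter.2 ⟨mem_univ _, x, mem_union_left _ hx, hxz⟩
      by_cases hc : (univ.filter fun z => ∃ x ∈ A, D p x z).card ≤ j
      · obtain ⟨x, hx, hx'⟩ := hT' ⟨p, hp, hc⟩
        obtain ⟨z, hz, hxz⟩ := (mem_filter.1 (mem_coe.1 hx')).2
        refine Nat.succ_le_of_lt ((hN p hp).trans_lt (card_lt_card ?_))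
        exact (ssubset_iff_of_subset hsub).2
          ⟨z, mem_filter.2 ⟨mem_univ _, x, mem_union_right _ hx, hxz⟩, hz⟩
      · exact (Nat.succ_le_of_lt (not_le.1 hc)).trans (card_le_card hsub)

/-- The base attached to a sparse invariant ternary relation. -/
theorem two_main (hHit : SHit) (h : Tr 2 Γ) (hv : 100 < Fintype.card V) (ρ : V → V → V → Prop)
    [∀ x z y, Decidable (ρ x z y)] (hd : ∀ x z y, ρ x z y → x ≠ z ∧ x ≠ y ∧ z ≠ y)
    (hi : ∀ g ∈ Γ, ∀ x z y, ρ (g x) (g z) (g y) ↔ ρ x z y) {a b : V} (hab : a ≠ b)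
    (hne : ∃ x z y, ρ x z y)
    (hφ : 2 * (univ.filter fun y => ρ a b y).card ≤ Fintype.card V) :
    ∃ T : Finset V, IsBase Γ T ∧
      T.card ≤ 100 * (Nat.sqrt (Fintype.card V) + 1) * (Nat.log 2 (Fintype.card V) + 1) := by
  obtain ⟨c1, c2, c3, c4⟩ := two_count h ρ hd hi hab rfl
  set φ := (univ.filter fun y => ρ a b y).card with hφd
  have hφ0 : 0 < φ := by
    obtain ⟨x, z, y, hy⟩ := hne
    rw [← c1 x z (hd _ _ _ hy).1]
    exact card_pos.2 ⟨y, by simpa using hy⟩
  obtain ⟨A, hA, hN⟩ := two_stage hHit hv (fun p x z => ρ x z p.1 ∧ ¬ρ x z p.2)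
    (fun p hp N => two_out (fun x z => ρ x z p.1 ∧ ¬ρ x z p.2) hφ0
      (fun x => (card_le_card (monotone_filter_right _ fun z _ hz => hz.1)).trans (c2 x p.1))
      (fun z => (card_le_card (monotone_filter_right _ fun x _ hx => hx.1)).trans (c3 z p.1))
      (by
        rw [c4 _ _ hp, mul_left_comm]
        exact Nat.mul_le_mul_left _ (by omega)) N) _ le_rfl
  obtain ⟨T, hT, hT'⟩ := hHit V {p : V × V // p.1 ≠ p.2}
    (fun p => ↑(univ.filter fun z => ∃ x ∈ A, ρ x z p.1.1 ∧ ¬ρ x z p.1.2))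
    (Nat.sqrt (Fintype.card V) + 1) _ (by omega) (fun p => by
      rw [Set.ncard_coe_finset]
      exact hN p.1 p.2) (two_idx _)
  refine ⟨A ∪ T, fun g hg hfix => ?_, ?_⟩
  · ext y
    by_contra hy
    obtain ⟨z, hz, hz'⟩ := hT' ⟨(y, g y), fun e => hy e.symm⟩
    obtain ⟨x, hx, h1, h2⟩ := (mem_filter.1 (mem_coe.1 hz')).2
    have := (hi g hg x z y).2 h1
    rw [hfix x (mem_union_left _ hx), hfix z (mem_union_right _ hz)] at this
    exact h2 this
  · have h1 : Nat.card V / (Nat.sqrt (Fintype.card V) + 1) ≤ Nat.sqrt (Fintype.card V) := by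
      rw [Nat.card_eq_fintype_card]
      exact Nat.lt_succ_iff.1 ((Nat.div_lt_iff_lt_mul (by omega)).2 (Nat.lt_succ_sqrt _))
    calc (A ∪ T).card ≤ A.card + T.card := card_union_le _ _
      _ ≤ 12 * (Nat.log 2 (Fintype.card V) + 1) * (Nat.sqrt (Fintype.card V) + 1) +
          2 * (Nat.log 2 (Fintype.card V) + 1) * (Nat.sqrt (Fintype.card V) + 1) :=
        add_le_add hA (hT.trans (by gcongr))
      _ = 14 * (Nat.sqrt (Fintype.card V) + 1) * (Nat.log 2 (Fintype.card V) + 1) := by ring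
      _ ≤ _ := by gcongr; norm_num

end

theorem sTwo (hHit : SHit) : STwo := by
  intro V _ Γ h2 h3
  classical
  have := Fintype.ofFinite V
  rw [Nat.card_eq_fintype_card]
  by_cases hv : Fintype.card V ≤ 100
  · refine ⟨univ, fun g _ hg => Equiv.ext fun x => hg x (mem_univ x), ?_⟩
    rw [card_univ]
    calc Fintype.card V ≤ 100 * 1 * 1 := by omega
      _ ≤ _ := by gcongr <;> omega
  simp only [Tr, Cl, not_forall] at h3
  obtain ⟨σ, s, hs, hσ⟩ := h3
  have hs3 : s.card = 3 := by
    by_contra hc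
    exact hσ (h2 σ s (by omega))
  obtain ⟨a, b, c, hab, hac, hbc, rfl⟩ := card_eq_three.1 hs3
  have i0 : ∀ g ∈ Γ, ∀ x z y, (∃ k ∈ Γ, k a = g x ∧ k b = g z ∧ k c = g y) ↔
      ∃ k ∈ Γ, k a = x ∧ k b = z ∧ k c = y := by
    intro g hg x z y
    constructor
    · rintro ⟨k, hk, e1, e2, e3⟩
      exact ⟨g⁻¹ * k, Γ.mul_mem (Γ.inv_mem hg) hk, by simp [e1], by simp [e2], by simp [e3]⟩
    · rintro ⟨k, hk, e1, e2, e3⟩
      exact ⟨g * k, Γ.mul_mem hg hk, by simp [e1], by simp [e2], by simp [e3]⟩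
  by_cases hc : 2 * (univ.filter fun y => ∃ k ∈ Γ, k a = a ∧ k b = b ∧ k c = y).card ≤
      Fintype.card V
  · refine two_main hHit h2 (by omega) (fun x z y => ∃ k ∈ Γ, k a = x ∧ k b = z ∧ k c = y)
      ?_ i0 hab ⟨a, b, c, 1, Γ.one_mem, rfl, rfl, rfl⟩ hc
    rintro x z y ⟨k, -, rfl, rfl, rfl⟩
    exact ⟨k.injective.ne hab, k.injective.ne hac, k.injective.ne hbc⟩
  · refine two_main hHit h2 (by omega)
      (fun x z y => (x ≠ z ∧ x ≠ y ∧ z ≠ y) ∧ ¬∃ k ∈ Γ, k a = x ∧ k b = z ∧ k c = y)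
      (fun x z y h => h.1) (fun g hg x z y => ?_) hab
      ⟨σ a, σ b, σ c, ⟨σ.injective.ne hab, σ.injective.ne hac, σ.injective.ne hbc⟩, ?_⟩ ?_
    · rw [i0 g hg]
      simp only [g.injective.ne_iff]
    · rintro ⟨k, hk, e1, e2, e3⟩
      refine hσ ⟨k, hk, fun x hx => ?_⟩
      simp only [mem_insert, mem_singleton] at hx
      rcases hx with rfl | rfl | rfl <;> assumption
    · have e := card_filter_add_card_filter_not (s := univ)
        (fun y => ∃ k ∈ Γ, k a = a ∧ k b = b ∧ k c = y)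
      have e' : (univ.filter fun y => (a ≠ b ∧ a ≠ y ∧ b ≠ y) ∧
          ¬∃ k ∈ Γ, k a = a ∧ k b = b ∧ k c = y).card ≤
          (univ.filter fun y => ¬∃ k ∈ Γ, k a = a ∧ k b = b ∧ k c = y).card :=
        card_le_card (monotone_filter_right _ fun y _ hy => hy.2)
      rw [card_univ] at e
      omega

end Pool.Agent.Lib.MP_f51cdd_lc.Seu
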