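import Pool.Agent.Lib.MP_f51cdd_lc.Seu.Defs

namespace Pool.Agent.Lib.MP_f51cdd_lc.Seu

open Equiv Function

theorem uni_cross {V : Type} {r : V → V → Prop} {P : V → Prop} {a b : V}
    (h : Relation.ReflTransGen r a b) (ha : ¬P a) (hb : P b) : ∃ w y, r w y ∧ ¬P w ∧ P y := by
  induction h with
  | refl => exact absurd hb ha
  | @tail c d _ h2 ih =>
    by_cases hc : P c
    · exact ih hc
    · exact ⟨c, d, h2, hc, hb⟩

/-- A nonempty invariant irreflexive relation of a primitive group is strongly connected. -/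
theorem uni_conn {V : Type} [Finite V] {Γ : Subgroup (Perm V)} (hP : Prim Γ) {r : V → V → Prop}
    (hr : Inv Γ r) {a b : V} (hab : a ≠ b) (h : r a b) (x y : V) : Relation.ReflTransGen r x y := by
  have back : ∀ u w, r u w → Relation.ReflTransGen r w u := by
    intro u w huw
    obtain ⟨g, hg, rfl⟩ := hP.1 u w
    have key : ∀ n : ℕ, Relation.ReflTransGen r (g u) ((g ^ (n + 1)) u) := by
      intro n
      induction n with
      | zero => rw [zero_add, pow_one]
      | succ n ih =>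
        refine ih.tail ?_
        have := hr _ (Γ.pow_mem hg (n + 1)) _ _ huw
        rwa [← Perm.mul_apply, ← pow_succ] at this
    have h1 := key (orderOf g - 1)
    rwa [Nat.sub_add_cancel (orderOf_pos g), pow_orderOf_eq_one, Perm.one_apply] at h1
  have symm : ∀ {u w}, Relation.ReflTransGen r u w → Relation.ReflTransGen r w u := by
    intro u w huw
    induction huw with
    | refl => exact .refl
    | tail _ h2 ih => exact (back _ _ h2).trans ih
  let s : Setoid V := ⟨Relation.ReflTransGen r, fun _ => .refl, symm, fun h1 h2 => h1.trans h2⟩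
  have hs : Inv Γ s := fun g hg u w huw => Relation.ReflTransGen.lift g (fun _ _ => hr g hg _ _) u w huw
  rcases hP.2 s hs with h1 | h1
  · exact absurd (h1 a b (Relation.ReflTransGen.single h)) hab
  · exact h1 x y

open Classical in
/-- The points that distinguish `x` and `y`. -/
noncomputable def uniD {V : Type} [Fintype V] (Γ : Subgroup (Perm V)) (x y : V) : Finset V :=
  Finset.univ.filter fun z => ¬∃ g ∈ Γ, g x = y ∧ g z = z

section
variable {V : Type} [Fintype V] {Γ : Subgroup (Perm V)}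

theorem uni_mem {x y z : V} : z ∈ uniD Γ x y ↔ ¬∃ g ∈ Γ, g x = y ∧ g z = z := by
  simp only [uniD, Finset.mem_filter, Finset.mem_univ, true_and]

theorem uni_inv {g : Perm V} (hg : g ∈ Γ) (x y : V) :
    (uniD Γ (g x) (g y)).card = (uniD Γ x y).card := by
  refine (Finset.card_equiv g fun z => ?_).symm
  rw [uni_mem, uni_mem, not_iff_not]
  constructor
  · rintro ⟨h, hh, h1, h2⟩
    exact ⟨g * h * g⁻¹, Γ.mul_mem (Γ.mul_mem hg hh) (Γ.inv_mem hg), by simp [h1], by simp [h2]⟩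
  · rintro ⟨h, hh, h1, h2⟩
    exact ⟨g⁻¹ * h * g, Γ.mul_mem (Γ.mul_mem (Γ.inv_mem hg) hh) hg, by simp [h1], by simp [h2]⟩

theorem uni_symm (x y : V) : uniD Γ x y = uniD Γ y x := by
  have key : ∀ x y z : V, (∃ g ∈ Γ, g x = y ∧ g z = z) → ∃ g ∈ Γ, g y = x ∧ g z = z := by
    rintro x y z ⟨g, hg, h1, h2⟩
    exact ⟨g⁻¹, Γ.inv_mem hg, by rw [← h1]; simp, by rw [Perm.inv_eq_iff_eq, h2]⟩
  ext z
  rw [uni_mem, uni_mem, not_iff_not]
  exact ⟨key _ _ _, key _ _ _⟩

theorem uni_tri (x w y : V) :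
    (uniD Γ x y).card ≤ (uniD Γ x w).card + (uniD Γ w y).card := by
  classical
  refine le_trans (Finset.card_le_card fun z hz => ?_) (Finset.card_union_le _ _)
  rw [Finset.mem_union, uni_mem, uni_mem, ← not_and_or]
  rintro ⟨⟨g, hg, h1, h2⟩, h, hh, h3, h4⟩
  exact uni_mem.1 hz ⟨h * g, Γ.mul_mem hh hg, by simp [h1, h3], by simp [h2, h4]⟩

theorem uni_self (x : V) : (uniD Γ x x).card = 0 := by
  rw [Finset.card_eq_zero, Finset.eq_empty_iff_forall_notMem]
  exact fun z hz => uni_mem.1 hz ⟨1, Γ.one_mem, rfl, rfl⟩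

theorem uni_left {x y : V} (h : x ≠ y) : x ∈ uniD Γ x y :=
  uni_mem.2 fun ⟨_, _, h1, h2⟩ => h (h2.symm.trans h1)

theorem uni_tr2 (hT : Trans Γ) {z x : V} (h : ∀ a b, a ≠ b → ∃ g ∈ Γ, g z = a ∧ g x = b) :
    Tr 2 Γ := by
  classical
  intro σ s hs
  by_cases hc : ∃ a ∈ s, ∃ b ∈ s, a ≠ b
  · obtain ⟨a, ha, b, hb, hab⟩ := hc
    have e : ({a, b} : Finset V) = s :=
      Finset.eq_of_subset_of_card_le (Finset.insert_subset ha (Finset.singleton_subset_iff.2 hb))
        (by rw [Finset.card_pair hab]; exact hs)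
    obtain ⟨g, hg, h1, h2⟩ := h a b hab
    obtain ⟨g', hg', h3, h4⟩ := h (σ a) (σ b) fun e => hab (σ.injective e)
    refine ⟨g' * g⁻¹, Γ.mul_mem hg' (Γ.inv_mem hg), fun u hu => ?_⟩
    rw [← e, Finset.mem_insert, Finset.mem_singleton] at hu
    rcases hu with hu | hu
    · rw [hu, ← h3, ← h1]; simp
    · rw [hu, ← h4, ← h2]; simp
  · rcases s.eq_empty_or_nonempty with rfl | ⟨a, ha⟩
    · exact ⟨1, Γ.one_mem, fun u hu => absurd hu (Finset.notMem_empty u)⟩
    · obtain ⟨g, hg, h1⟩ := hT a (σ a)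
      refine ⟨g, hg, fun u hu => ?_⟩
      have e : u = a := by
        by_contra hne
        exact hc ⟨u, hu, a, ha, hne⟩
      rw [e, h1]

theorem uni_small (hP : Prim Γ) (h2 : ¬Tr 2 Γ) {ρ : ℕ} (hρ : 1 ≤ ρ) (x : V)
    (hd : ∀ y, (uniD Γ x y).card ≤ 2 * ρ) : Fintype.card V ≤ 4 * ρ ^ 2 := by
  classical
  have hsum : ∑ z, (Finset.univ.filter fun y => z ∈ uniD Γ x y).card < ∑ _z : V, 2 * ρ := by
    have e : ∑ z, (Finset.univ.filter fun y => z ∈ uniD Γ x y).card =
        ∑ y, (uniD Γ x y).card := by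
      simp only [Finset.card_filter]
      rw [Finset.sum_comm]
      refine Finset.sum_congr rfl fun y _ => ?_
      rw [← Finset.card_filter, Finset.filter_mem_eq_inter, Finset.univ_inter]
    rw [e]
    exact Finset.sum_lt_sum (fun y _ => hd y) ⟨x, Finset.mem_univ x, by rw [uni_self]; omega⟩
  obtain ⟨z, -, hz⟩ := Finset.exists_lt_of_sum_lt hsum
  by_cases hxz : z = x
  · subst hxz
    have h1 : Finset.univ.erase z ⊆ Finset.univ.filter fun y => z ∈ uniD Γ z y := fun y hy =>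
      Finset.mem_filter.2 ⟨Finset.mem_univ y, uni_left (Finset.ne_of_mem_erase hy).symm⟩
    have h3 := Finset.card_le_card h1
    rw [Finset.card_erase_of_mem (Finset.mem_univ z), Finset.card_univ] at h3
    have h4 : ρ ≤ ρ ^ 2 := Nat.le_self_pow (by norm_num) ρ
    omega
  obtain ⟨C, hC⟩ : ∃ C : V → Finset V, ∀ a b, b ∈ C a ↔ ¬∃ g ∈ Γ, g z = a ∧ g x = b :=
    ⟨fun a => Finset.univ.filter fun b => ¬∃ g ∈ Γ, g z = a ∧ g x = b, fun a b => by
      simp only [Finset.mem_filter, Finset.mem_univ, true_and]⟩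
  have hinv : Inv Γ fun a b => b ∈ C a := by
    intro g hg a b hab
    rw [hC] at hab ⊢
    rintro ⟨h, hh, h1, h3⟩
    exact hab ⟨g⁻¹ * h, Γ.mul_mem (Γ.inv_mem hg) hh, by simp [h1], by simp [h3]⟩
  have hCz : (C z).card < 2 * ρ := by
    refine lt_of_le_of_lt (Finset.card_le_card fun y hy => ?_) hz
    rw [Finset.mem_filter, uni_mem]
    exact ⟨Finset.mem_univ y, fun ⟨g, hg, h1, h3⟩ => (hC z y).1 hy ⟨g, hg, h3, h1⟩⟩
  have hCa : ∀ a, (C a).card < 2 * ρ := by
    intro a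
    obtain ⟨g, hg, rfl⟩ := hP.1 z a
    rwa [← Finset.card_equiv g fun b => (hinv.iff hg z b).symm]
  have hself : ∀ a, a ∈ C a := fun a => (hC a a).2 fun ⟨g, _, h1, h3⟩ =>
    hxz (g.injective (h1.trans h3.symm))
  obtain ⟨a, b, hab, hb⟩ : ∃ a b, a ≠ b ∧ b ∈ C a := by
    by_contra hc
    refine h2 (uni_tr2 hP.1 (z := z) (x := x) fun a b hab => ?_)
    by_contra hn
    exact hc ⟨a, b, hab, (hC a b).2 hn⟩
  obtain ⟨w, y, h1, h3, h4⟩ := uni_cross (P := fun u => u ∉ C z) (uni_conn hP hinv hab hb z x)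
    (not_not.2 (hself z)) fun h => (hC z x).1 h ⟨1, Γ.one_mem, rfl, rfl⟩
  rw [not_not] at h3
  have hcov : Finset.univ ⊆ (C z).biUnion C := by
    intro u _
    rw [Finset.mem_biUnion]
    by_cases hu : u ∈ C z
    · exact ⟨u, hu, hself u⟩
    · rw [hC, not_not] at hu h4
      obtain ⟨g, hg, g1, g2⟩ := hu
      obtain ⟨h, hh, g3, g4⟩ := h4
      have hm : g * h⁻¹ ∈ Γ := Γ.mul_mem hg (Γ.inv_mem hh)
      have e1 : (g * h⁻¹) z = z := by rw [Perm.mul_apply, Perm.inv_eq_iff_eq.2 g3.symm, g1]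
      have e2 : (g * h⁻¹) y = u := by rw [Perm.mul_apply, Perm.inv_eq_iff_eq.2 g4.symm, g2]
      refine ⟨(g * h⁻¹) w, ?_, ?_⟩
      · have := hinv _ hm _ _ h3
        rwa [e1] at this
      · have := hinv _ hm _ _ h1
        rwa [e2] at this
  calc Fintype.card V = Finset.univ.card := Finset.card_univ.symm
    _ ≤ ((C z).biUnion C).card := Finset.card_le_card hcov
    _ ≤ (C z).card * (2 * ρ) := Finset.card_biUnion_le_card_mul _ _ _ fun u _ => (hCa u).le
    _ ≤ 2 * ρ * (2 * ρ) := Nat.mul_le_mul_right _ hCz.le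
    _ = 4 * ρ ^ 2 := by ring

theorem uni_main (hP : Prim Γ) (h2 : ¬Tr 2 Γ) {a b : V} (hab : a ≠ b)
    (hmin : ∀ x y, x ≠ y → (uniD Γ a b).card ≤ (uniD Γ x y).card) :
    Fintype.card V ≤ 6 * (uniD Γ a b).card ^ 2 := by
  classical
  obtain ⟨ρ, hρ⟩ : ∃ ρ, ρ = (uniD Γ a b).card := ⟨_, rfl⟩
  rw [← hρ] at hmin ⊢
  have hρ1 : 1 ≤ ρ := hρ ▸ Finset.card_pos.2 ⟨a, uni_left hab⟩
  obtain ⟨N, hN⟩ : ∃ N : V → Finset V, ∀ x y, y ∈ N x ↔ x ≠ y ∧ (uniD Γ x y).card = ρ :=
    ⟨fun x => Finset.univ.filter fun y => x ≠ y ∧ (uniD Γ x y).card = ρ, fun x y => by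
      simp only [Finset.mem_filter, Finset.mem_univ, true_and]⟩
  have hinv : Inv Γ fun x y => y ∈ N x := by
    intro g hg x y h
    rw [hN] at h ⊢
    exact ⟨fun e => h.1 (g.injective e), (uni_inv hg x y).trans h.2⟩
  have hb : b ∈ N a := (hN a b).2 ⟨hab, hρ.symm⟩
  have hconn := uni_conn hP hinv hab hb
  by_cases hk : (N a).card ≤ 3 * ρ
  · have hcov : Finset.univ ⊆ (N a).biUnion (uniD Γ a) := by
      intro z _
      rw [Finset.mem_biUnion]
      by_cases hz : z = a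
      · exact ⟨b, hb, hz ▸ uni_left (hz ▸ hab)⟩
      obtain ⟨w, y, h1, h3, h4⟩ := uni_cross (P := fun u => z ∈ uniD Γ a u) (hconn a z)
        (fun h => uni_mem.1 h ⟨1, Γ.one_mem, rfl, rfl⟩)
        (by rw [uni_symm]; exact uni_left hz)
      rw [uni_mem, not_not] at h3
      obtain ⟨g, hg, g1, g2⟩ := h3
      refine ⟨g⁻¹ y, ?_, uni_mem.2 fun ⟨h, hh, g3, g4⟩ => uni_mem.1 h4
        ⟨g * h, Γ.mul_mem hg hh, by simp [g3], by simp [g2, g4]⟩⟩
      have := hinv _ (Γ.inv_mem hg) _ _ h1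
      rwa [Perm.inv_eq_iff_eq.2 g1.symm] at this
    calc Fintype.card V = Finset.univ.card := Finset.card_univ.symm
      _ ≤ ((N a).biUnion (uniD Γ a)).card := Finset.card_le_card hcov
      _ ≤ (N a).card * ρ :=
        Finset.card_biUnion_le_card_mul _ _ _ fun u hu => ((hN a u).1 hu).2.le
      _ ≤ 6 * ρ * ρ := Nat.mul_le_mul_right _ (by omega)
      _ = 6 * ρ ^ 2 := by ring
  · have hd : ∀ y, (uniD Γ a y).card ≤ 2 * ρ := by
      intro y
      induction hconn a y with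
      | refl => rw [uni_self]; omega
      | @tail c d _ h1 ih =>
        have t1 := uni_tri (Γ := Γ) a c d
        rw [((hN c d).1 h1).2] at t1
        obtain ⟨u, hu1, hu2⟩ := Finset.exists_mem_notMem_of_card_lt_card
          (s := uniD Γ a d) (t := N a) (by omega)
        rw [uni_mem, not_not] at hu2
        obtain ⟨g, hg, g1, g2⟩ := hu2
        have t2 := hinv _ hg _ _ hu1
        rw [g1, g2] at t2
        have t3 := uni_tri (Γ := Γ) a u d
        rw [((hN a u).1 hu1).2, uni_symm u d, ((hN d u).1 t2).2] at t3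
        omega
    exact (uni_small hP h2 hρ1 a hd).trans (Nat.mul_le_mul_right _ (by norm_num))

end

theorem sUni : SUni := by
  intro V _ Γ hP h2 x y hxy
  classical
  have := Fintype.ofFinite V
  obtain ⟨p, hp, hmin⟩ := Finset.exists_min_image (Finset.univ.filter fun p : V × V => p.1 ≠ p.2)
    (fun p => (uniD Γ p.1 p.2).card) ⟨(x, y), Finset.mem_filter.2 ⟨Finset.mem_univ _, hxy⟩⟩
  have hm : ∀ u w, u ≠ w → (uniD Γ p.1 p.2).card ≤ (uniD Γ u w).card := fun u w h =>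
    hmin (u, w) (Finset.mem_filter.2 ⟨Finset.mem_univ _, h⟩)
  have e : {z | ¬∃ g ∈ Γ, g x = y ∧ g z = z} = (uniD Γ x y : Set V) :=
    Set.ext fun z => uni_mem.symm
  rw [e, Set.ncard_coe_finset, Nat.card_eq_fintype_card]
  exact (uni_main hP h2 (Finset.mem_filter.1 hp).2 hm).trans
    (Nat.mul_le_mul_left _ (Nat.pow_le_pow_left (hm x y hxy) 2))

end Pool.Agent.Lib.MP_f51cdd_lc.Seu
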