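import Pool.Agent.Lib.MP_f51cdd_lc.Seu.Hit
import Pool.Agent.Lib.MP_f51cdd_lc.Seu.Uni
import Pool.Agent.Lib.MP_f51cdd_lc.Seu.Two
import Pool.Agent.Lib.MP_f51cdd_lc.Seu.High
import Pool.Agent.Lib.MP_f51cdd_lc.Seu.Col
import Pool.Agent.Lib.MP_f51cdd_lc.Seu.Pt
import Pool.Agent.Lib.MP_f51cdd_lc.Seu.Red
import Pool.Agent.Lib.MP_f51cdd_lc.Seu.Grp2
import Pool.Agent.Lib.MP_f51cdd_lc.Seu.Enc
import Pool.Agent.Lib.MP_f51cdd_lc.Seu.TwoSys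
import Pool.Agent.Lib.MP_f51cdd_lc.Seu.Pq
import Pool.Agent.Lib.MP_f51cdd_lc.Seu.A2
import Pool.Agent.Lib.MP_f51cdd_lc.Seu.Norm
import Pool.Agent.Lib.MP_f51cdd_lc.Seu.Il
import Pool.Agent.Lib.MP_f51cdd_lc.Seu.GiantC
import Pool.Agent.Lib.MP_f51cdd_lc.Seu.Blk
import Pool.Agent.Lib.MP_f51cdd_lc.Seu.Struc
import Pool.Agent.Lib.MP_f51cdd_lc.Seu.MainG
import Pool.Agent.Lib.MP_f51cdd_lc.Seu.Clo
import Pool.Agent.Lib.MP_f51cdd_lc.Seu.Card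
import Pool.Agent.Lib.MP_f51cdd_lc.Seu.GameQ
import Pool.Agent.Lib.MP_f51cdd_lc.Seu.Link
import Pool.Agent.Lib.MP_f51cdd_lc.Seu.Step

/-!
Assembly: the structure theorem and the finite Seurat theorem for colourings of tuples.
-/

namespace Pool.Agent.Lib.MP_f51cdd_lc.Seu

theorem main_exists : ∃ E₀, Main E₀ := by
  obtain ⟨d, hd⟩ := sPT sHit sUni (sTwo sHit) sHigh sCol
  obtain ⟨m, hm⟩ := sIL d hd
  obtain ⟨E₀, h1, hS⟩ := sStruct d m hd hm sBlk (s2A sEnc (s2grp sRed) sP)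
    (sGiant (sTwoSys sEnc) sNorm) sNorm
  exact ⟨E₀, sMain sRed E₀ h1 hS⟩

theorem th_exists (r : ℕ) : ∃ C, TH (r + 2) C := by
  obtain ⟨E₀, hM⟩ := main_exists
  induction r with
  | zero =>
    exact ⟨_, th_of_ls sCl sCard E₀ (E₀ + 3) 1 3 hM (by omega) le_rfl (by omega)
      (ls_one (sQ sCard) _ (by omega))⟩
  | succ r ih =>
    obtain ⟨C, hC⟩ := ih
    exact ⟨_, th_of_ls sCl sCard E₀ (E₀ + r + 4) (r + 2) C hM (by omega) (by omega) (by omega)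
      (ls_of_th _ _ _ (by omega) hC)⟩

end Pool.Agent.Lib.MP_f51cdd_lc.Seu
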