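import Pool.Agent.Lib.MP_f51cdd_lc.Seu.Defs

namespace Pool.Agent.Lib.MP_f51cdd_lc.Seu

open Equiv Function

theorem card_single {m : ℕ} {V W : Type} (S : BF m V W) (hm : 2 ≤ m) {x : V} {T : Set W}
    (h : S.R [({x}, T)]) : ∃ y, T = {y} := by
  obtain ⟨y, hy⟩ := S.pal h x
  have hyT : y ∈ T := (hy _ List.mem_cons_self).1 rfl
  refine ⟨y, Set.eq_singleton_iff_unique_mem.2 ⟨hyT, fun y' hy' => ?_⟩⟩
  obtain ⟨U, hU⟩ := S.back h (by simp; omega) {y}
  obtain ⟨a, ha⟩ := S.pal' hU y
  obtain ⟨b, hb⟩ := S.pal' hU y'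
  simp only [List.mem_cons, List.not_mem_nil, or_false, forall_eq_or_imp, forall_eq,
    Set.mem_singleton_iff] at ha hb
  have h1 : a = x := ha.2.2 hyT
  have h2 : b = x := hb.2.2 hy'
  exact hb.1.1 (by rw [h2, ← h1]; exact ha.1.2 trivial)

theorem sCard : SCard := by
  intro m V W _ _ S hm p A B hp hAB
  have h1 : S.R [(A, B)] := S.mono hp (by simpa using hAB)
  clear hp hAB
  induction hn : A.ncard generalizing A B with
  | zero =>
    have hA : A = ∅ := (Set.ncard_eq_zero (Set.toFinite A)).1 hn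
    have hB : B = ∅ := by
      rw [Set.eq_empty_iff_forall_notMem]
      intro y hy
      obtain ⟨x, hx⟩ := S.pal' h1 y
      have := (hx _ List.mem_cons_self).2 hy
      simp [hA] at this
    simp [hB]
  | succ k ih =>
    obtain ⟨x, hx⟩ : A.Nonempty := Set.nonempty_of_ncard_ne_zero (by omega)
    obtain ⟨T, hT⟩ := S.forth h1 (by simp; omega) {x}
    obtain ⟨y, rfl⟩ := card_single S (by omega) (S.mono hT (q := [({x}, T)]) (by simp))
    obtain ⟨U, hU⟩ := S.forth hT (by simp; omega) (A \ {x})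
    have hy : y ∈ B := by
      obtain ⟨y', hy'⟩ := S.pal hT x
      simp only [List.mem_cons, List.not_mem_nil, or_false, forall_eq_or_imp, forall_eq,
        Set.mem_singleton_iff] at hy'
      exact hy'.1.1 trivial ▸ hy'.2.1 hx
    have hUe : U = B \ {y} := by
      ext w
      obtain ⟨a, ha⟩ := S.pal' hU w
      simp only [List.mem_cons, List.not_mem_nil, or_false, forall_eq_or_imp, forall_eq,
        Set.mem_singleton_iff, Set.mem_sdiff] at ha ⊢
      rw [← ha.1, ← ha.2.1, ← ha.2.2]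
    have := ih (A \ {x}) U (S.mono hU (by simp))
      (by rw [Set.ncard_sdiff_singleton_of_mem hx]; omega)
    rw [hUe, Set.ncard_sdiff_singleton_of_mem hy] at this
    have := (Set.ncard_pos (Set.toFinite B)).2 ⟨y, hy⟩
    omega

end Pool.Agent.Lib.MP_f51cdd_lc.Seu
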