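import Mathlib

/-!
Finite Seurat theorem: group-theoretic and game-theoretic definitions, and the statements of
the lemmas (as propositions, proved in separate files).
-/

namespace Pool.Agent.Lib.MP_f51cdd_lc.Seu

open Equiv Function

variable {Ω Ω' : Type}

/-- The elements of `Γ` preserving the colouring `c` on the whole set. -/
def stab {K : Type} (Γ : Subgroup (Perm Ω)) (c : Ω → K) : Subgroup (Perm Ω) where
  carrier := {g | g ∈ Γ ∧ ∀ x, c (g x) = c x}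
  one_mem' := ⟨Γ.one_mem, fun _ => rfl⟩
  mul_mem' := fun {a b} ha hb =>
    ⟨Γ.mul_mem ha.1 hb.1, fun x => by rw [Perm.mul_apply, ha.2, hb.2]⟩
  inv_mem' := fun {a} ha => ⟨Γ.inv_mem ha.1, fun x => by
    have := ha.2 (a⁻¹ x); simpa using this.symm⟩

theorem mem_stab {K : Type} {Γ : Subgroup (Perm Ω)} {c : Ω → K} {g : Perm Ω} :
    g ∈ stab Γ c ↔ g ∈ Γ ∧ ∀ x, c (g x) = c x := Iff.rfl

/-- The permutations induced by `Γ` on the target of `π` (used for surjective `π`). -/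
def img (Γ : Subgroup (Perm Ω)) (π : Ω → Ω') : Subgroup (Perm Ω') where
  carrier := {σ | ∃ g ∈ Γ, ∀ x, σ (π x) = π (g x)}
  one_mem' := ⟨1, Γ.one_mem, fun _ => rfl⟩
  mul_mem' := by
    rintro a b ⟨g, hg, ha⟩ ⟨h, hh, hb⟩
    exact ⟨g * h, Γ.mul_mem hg hh, fun x => by rw [Perm.mul_apply, hb, ha, Perm.mul_apply]⟩
  inv_mem' := by
    rintro a ⟨g, hg, ha⟩
    refine ⟨g⁻¹, Γ.inv_mem hg, fun x => ?_⟩
    rw [Perm.inv_eq_iff_eq, ha]; simp

theorem mem_img {Γ : Subgroup (Perm Ω)} {π : Ω → Ω'} {σ : Perm Ω'} :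
    σ ∈ img Γ π ↔ ∃ g ∈ Γ, ∀ x, σ (π x) = π (g x) := Iff.rfl

/-- The permutations induced by `Γ` on the source of `ι` (used for injective `ι`, mostly
`Subtype.val`). -/
def ind (Γ : Subgroup (Perm Ω)) (ι : Ω' → Ω) : Subgroup (Perm Ω') where
  carrier := {σ | ∃ g ∈ Γ, ∀ x, ι (σ x) = g (ι x)}
  one_mem' := ⟨1, Γ.one_mem, fun _ => rfl⟩
  mul_mem' := by
    rintro a b ⟨g, hg, ha⟩ ⟨h, hh, hb⟩
    exact ⟨g * h, Γ.mul_mem hg hh, fun x => by rw [Perm.mul_apply, ha, hb, Perm.mul_apply]⟩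
  inv_mem' := by
    rintro a ⟨g, hg, ha⟩
    refine ⟨g⁻¹, Γ.inv_mem hg, fun x => ?_⟩
    rw [Perm.eq_inv_iff_eq, ← ha]; simp

theorem mem_ind {Γ : Subgroup (Perm Ω)} {ι : Ω' → Ω} {σ : Perm Ω'} :
    σ ∈ ind Γ ι ↔ ∃ g ∈ Γ, ∀ x, ι (σ x) = g (ι x) := Iff.rfl

/-- The group induced on the `r`-class of `x` by its setwise stabiliser in `Γ`. -/
abbrev onClass (Γ : Subgroup (Perm Ω)) (r : Setoid Ω) (x : Ω) : Subgroup (Perm {z // r z x}) :=
  ind Γ Subtype.val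

/-- The relation `r` is invariant under `Γ`. -/
def Inv (Γ : Subgroup (Perm Ω)) (r : Ω → Ω → Prop) : Prop :=
  ∀ g ∈ Γ, ∀ x y, r x y → r (g x) (g y)

theorem Inv.iff {Γ : Subgroup (Perm Ω)} {r : Ω → Ω → Prop} (h : Inv Γ r) {g : Perm Ω}
    (hg : g ∈ Γ) (x y : Ω) : r (g x) (g y) ↔ r x y :=
  ⟨fun h' => by simpa using h _ (Γ.inv_mem hg) _ _ h', h g hg x y⟩

theorem exists_img {Γ : Subgroup (Perm Ω)} {π : Ω → Ω'} (hπ : Surjective π)
    (hinv : Inv Γ fun x y => π x = π y) {g : Perm Ω} (hg : g ∈ Γ) :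
    ∃ σ ∈ img Γ π, ∀ x, σ (π x) = π (g x) := by
  have key : ∀ {a : Perm Ω}, a ∈ Γ → ∀ x, π (a (surjInv hπ (π x))) = π (a x) :=
    fun ha x => hinv _ ha _ _ (surjInv_eq hπ _)
  let σ : Perm Ω' :=
    { toFun := fun y => π (g (surjInv hπ y))
      invFun := fun y => π (g⁻¹ (surjInv hπ y))
      left_inv := fun y => by
        simp only []
        rw [key (Γ.inv_mem hg)]; simp [surjInv_eq]
      right_inv := fun y => by
        simp only []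
        rw [key hg]; simp [surjInv_eq] }
  exact ⟨σ, ⟨g, hg, fun x => key hg x⟩, fun x => key hg x⟩

theorem exists_ind {Γ : Subgroup (Perm Ω)} {p : Ω → Prop} {g : Perm Ω} (hg : g ∈ Γ)
    (h : ∀ x, p (g x) ↔ p x) :
    ∃ σ ∈ ind Γ (Subtype.val : {x // p x} → Ω), ∀ x, (σ x : Ω) = g x :=
  ⟨g.subtypePerm h, ⟨g, hg, fun _ => rfl⟩, fun _ => rfl⟩

/-- `y` lies in the `Γ`-orbit of `x`. -/
def Orb (Γ : Subgroup (Perm Ω)) (x y : Ω) : Prop := ∃ g ∈ Γ, g x = y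

/-- Transitive. -/
def Trans (Γ : Subgroup (Perm Ω)) : Prop := ∀ x y, ∃ g ∈ Γ, g x = y

/-- Primitive: transitive, and every invariant equivalence relation is trivial. -/
def Prim (Γ : Subgroup (Perm Ω)) : Prop :=
  Trans Γ ∧ ∀ r : Setoid Ω, Inv Γ r → (∀ x y, r x y → x = y) ∨ ∀ x y, r x y

/-- `g` is the 3-cycle `(a b c)`. -/
def Cyc3 (g : Perm Ω) (a b c : Ω) : Prop :=
  g a = b ∧ g b = c ∧ g c = a ∧ ∀ x, x ≠ a → x ≠ b → x ≠ c → g x = x

/-- `Γ` contains all 3-cycles, i.e. the alternating group. -/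
def Giant (Γ : Subgroup (Perm Ω)) : Prop :=
  ∀ a b c : Ω, a ≠ b → b ≠ c → a ≠ c → ∃ g ∈ Γ, Cyc3 g a b c

theorem Cyc3.eq [DecidableEq Ω] {g : Perm Ω} {a b c : Ω} (h : Cyc3 g a b c) (hab : a ≠ b)
    (hbc : b ≠ c) (hac : a ≠ c) : g = swap a c * swap a b := by
  obtain ⟨h1, h2, h3, h4⟩ := h
  ext x
  by_cases hxa : x = a
  · subst hxa; simp [h1, swap_apply_of_ne_of_ne hab.symm hbc]
  by_cases hxb : x = b
  · subst hxb; simp [h2]
  by_cases hxc : x = c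
  · subst hxc; simp [h3, swap_apply_of_ne_of_ne hac.symm hbc.symm]
  simp [h4 x hxa hxb hxc, swap_apply_of_ne_of_ne hxa hxb, swap_apply_of_ne_of_ne hxa hxc]

theorem cyc3_swap [DecidableEq Ω] {a b c : Ω} (hab : a ≠ b) (hbc : b ≠ c) (hac : a ≠ c) :
    Cyc3 (swap a c * swap a b) a b c := by
  refine ⟨by simp [swap_apply_of_ne_of_ne hab.symm hbc], by simp,
    by simp [swap_apply_of_ne_of_ne hac.symm hbc.symm], fun x hxa hxb hxc => ?_⟩
  simp [swap_apply_of_ne_of_ne hxa hxb, swap_apply_of_ne_of_ne hxa hxc]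

theorem giant_iff [Fintype Ω] [DecidableEq Ω] {Γ : Subgroup (Perm Ω)} :
    Giant Γ ↔ alternatingGroup Ω ≤ Γ := by
  constructor
  · intro h
    rw [← Perm.closure_three_cycles_eq_alternating, Subgroup.closure_le]
    intro σ hσ
    obtain ⟨a, ha⟩ : σ.support.Nonempty := by
      rw [← Finset.card_pos, Perm.IsThreeCycle.card_support hσ]; norm_num
    have hc := Perm.IsThreeCycle.isCycle hσ
    have ho : σ ^ 3 = 1 := by rw [← Perm.IsThreeCycle.orderOf hσ, pow_orderOf_eq_one]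
    have ha' : σ a ≠ a := Perm.mem_support.1 ha
    have h3 : σ (σ (σ a)) = a := by
      have := congrArg (fun τ : Perm Ω => τ a) ho
      simpa [pow_succ] using this
    have hbc : σ a ≠ σ (σ a) := fun e => ha' (σ.injective e).symm
    have hac : a ≠ σ (σ a) := fun e => ha' (by rw [← e] at h3; exact h3)
    obtain ⟨g, hg, hg3⟩ := h a (σ a) (σ (σ a)) ha'.symm hbc hac
    have hsup : σ.support = {a, σ a, σ (σ a)} := by
      symm
      apply Finset.eq_of_subset_of_card_le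
      · intro x hx
        simp only [Finset.mem_insert, Finset.mem_singleton] at hx
        rcases hx with rfl | rfl | rfl <;> simpa using ha
      · rw [Perm.IsThreeCycle.card_support hσ, Finset.card_eq_three.2
          ⟨a, σ a, σ (σ a), ha'.symm, hac, hbc, rfl⟩]
    have : σ = g := by
      ext x
      by_cases hxa : x = a
      · rw [hxa, hg3.1]
      by_cases hxb : x = σ a
      · rw [hxb, hg3.2.1]
      by_cases hxc : x = σ (σ a)
      · rw [hxc, hg3.2.2.1, h3]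
      rw [hg3.2.2.2 x hxa hxb hxc, ← Perm.notMem_support, hsup]
      simp [hxa, hxb, hxc]
    exact this ▸ hg
  · intro h a b c hab hbc hac
    refine ⟨_, h ?_, cyc3_swap hab hbc hac⟩
    rw [Perm.mem_alternatingGroup, Perm.sign_mul, Perm.sign_swap hac, Perm.sign_swap hab]
    simp

/-- On every set of at most `r` points, `σ` agrees with an element of `Δ`. -/
def Cl (r : ℕ) (Δ : Subgroup (Perm Ω)) (σ : Perm Ω) : Prop :=
  ∀ s : Finset Ω, s.card ≤ r → ∃ δ ∈ Δ, ∀ x ∈ s, δ x = σ x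

/-- `t`-fold transitivity. -/
def Tr (t : ℕ) (Γ : Subgroup (Perm Ω)) : Prop := ∀ σ : Perm Ω, Cl t Γ σ

/-- Some colouring with `d` colours is preserved by no nontrivial element. -/
def Rigid (Γ : Subgroup (Perm Ω)) (d : ℕ) : Prop :=
  ∃ c : Ω → Fin d, ∀ g ∈ Γ, (∀ x, c (g x) = c x) → g = 1

/-- `T` is a base of `Γ`. -/
def IsBase (Γ : Subgroup (Perm Ω)) (T : Finset Ω) : Prop :=
  ∀ g ∈ Γ, (∀ x ∈ T, g x = x) → g = 1

/-- Tree-like groups: built from the trivial group by adding rigid fibres, and by adding fibres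
with more than `M` points whose alternating groups lie in the group. -/
inductive Q (M : ℕ) : (Ω : Type) → Subgroup (Perm Ω) → Prop
  | triv (Ω : Type) : Q M Ω ⊥
  | fibre {Ω Ω' : Type} (Δ : Subgroup (Perm Ω)) (π : Ω → Ω') (hπ : Surjective π)
      (hinv : Inv Δ fun x y => π x = π y) (hrig : ∀ g ∈ Δ, ∀ x, π (g x) = π x → g x = x)
      (h : Q M Ω' (img Δ π)) : Q M Ω Δ
  | twin {Ω Ω' : Type} (Δ : Subgroup (Perm Ω)) (π : Ω → Ω') (hπ : Surjective π)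
      (hinv : Inv Δ fun x y => π x = π y)
      (hbig : ∀ x y, π x = π y → x ≠ y → M < Nat.card {z // π z = π x})
      (halt : ∀ a b c, a ≠ b → b ≠ c → a ≠ c → π a = π b → π b = π c → ∃ g ∈ Δ, Cyc3 g a b c)
      (h : Q M Ω' (img Δ π)) : Q M Ω Δ

/-- Some colouring with `E * E` colours has a tree-like stabiliser. -/
def Good (E : ℕ) (Γ : Subgroup (Perm Ω)) : Prop := ∃ c : Ω → Fin E × Fin E, Q E Ω (stab Γ c)

/-- Reduction of the first kind: an invariant partition of an invariant nonempty set `W` into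
classes of size at least two that become rigid after colouring `W` with `E` colours. -/
def Red (Γ : Subgroup (Perm Ω)) (E : ℕ) : Prop :=
  ∃ (W : Set Ω) (r : Setoid Ω) (c : Ω → Fin E), W.Nonempty ∧ (∀ g ∈ Γ, ∀ x ∈ W, g x ∈ W) ∧
    Inv Γ r ∧ (∀ x ∈ W, ∃ y, y ≠ x ∧ r x y) ∧ (∀ x, x ∉ W → ∀ y, r x y → y = x) ∧
    ∀ g ∈ Γ, (∀ x ∈ W, c (g x) = c x) → ∀ x, r (g x) x → g x = x

/-- Reduction of the second kind: an invariant nontrivial partition whose nonsingleton classes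
have more than `M` points and whose alternating groups lie in `Γ`. -/
def Twin (Γ : Subgroup (Perm Ω)) (M : ℕ) : Prop :=
  ∃ r : Setoid Ω, Inv Γ r ∧ (∃ x y, x ≠ y ∧ r x y) ∧
    (∀ x y, r x y → x ≠ y → M < Nat.card {z // r z x}) ∧
    ∀ a b c, a ≠ b → b ≠ c → a ≠ c → r a b → r b c → ∃ g ∈ Γ, Cyc3 g a b c

/-- A back-and-forth system with `m` set pebbles between `V` and `W`. -/
structure BF (m : ℕ) (V W : Type) where
  R : List (Set V × Set W) → Prop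
  nil : R []
  mono : ∀ {p q}, R p → (∀ z ∈ q, z ∈ p) → R q
  forth : ∀ {p}, R p → p.length < m → ∀ S, ∃ T, R ((S, T) :: p)
  back : ∀ {p}, R p → p.length < m → ∀ T, ∃ S, R ((S, T) :: p)
  pal : ∀ {p}, R p → ∀ x, ∃ y, ∀ z ∈ p, (x ∈ z.1 ↔ y ∈ z.2)
  pal' : ∀ {p}, R p → ∀ y, ∃ x, ∀ z ∈ p, (x ∈ z.1 ↔ y ∈ z.2)

/-- Two colourings of `r`-tuples agree on tuples pebbled by singletons. -/
def Compat {m r : ℕ} {V W K : Type} (S : BF m V W) (χ : (Fin r → V) → K)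
    (χ' : (Fin r → W) → K) : Prop :=
  ∀ p, S.R p → ∀ x y, (∀ i, (({x i}, {y i}) : Set V × Set W) ∈ p) → χ x = χ' y

/-! ### Statements -/

/-- Greedy hitting sets. -/
def SHit : Prop :=
  ∀ (U ι : Type) [Finite U] [Finite ι] (A : ι → Set U) (ρ k : ℕ), 0 < ρ →
    (∀ i, ρ ≤ (A i).ncard) → Nat.card ι < 2 ^ k →
    ∃ T : Finset U, T.card ≤ k * (Nat.card U / ρ + 1) ∧ ∀ i, ∃ x ∈ T, x ∈ A i

/-- Babai's separation bound for primitive groups that are not 2-transitive. -/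
def SUni : Prop :=
  ∀ (V : Type) [Finite V] (Γ : Subgroup (Perm V)), Prim Γ → ¬Tr 2 Γ → ∀ x y : V, x ≠ y →
    Nat.card V ≤ 6 * {z | ¬∃ g ∈ Γ, g x = y ∧ g z = z}.ncard ^ 2

/-- Small bases of 2-transitive groups that are not 3-transitive. -/
def STwo : Prop :=
  ∀ (V : Type) [Finite V] (Γ : Subgroup (Perm V)), Tr 2 Γ → ¬Tr 3 Γ →
    ∃ T : Finset V, IsBase Γ T ∧
      T.card ≤ 100 * (Nat.sqrt (Nat.card V) + 1) * (Nat.log 2 (Nat.card V) + 1)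

/-- Very highly transitive groups contain the alternating group. -/
def SHigh : Prop :=
  ∃ v₀ : ℕ, ∀ (V : Type) [Finite V] (Γ : Subgroup (Perm V)) (t : ℕ), v₀ ≤ Nat.card V →
    Tr t Γ → 16 * Nat.card V ≤ t * Nat.log 2 (Nat.card V) → Giant Γ

/-- Transitive groups with a base of size `O(v / log v)` have bounded distinguishing number. -/
def SCol : Prop :=
  ∀ C : ℕ, ∃ d : ℕ, ∀ (V : Type) [Finite V] (Γ : Subgroup (Perm V)) (T : Finset V), Trans Γ →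
    IsBase Γ T → T.card * (Nat.log 2 (Nat.card V) + 1) ≤ C * Nat.card V → Rigid Γ d

/-- Primitive groups not containing the alternating group are rigid with `d` colours. -/
def PT (d : ℕ) : Prop :=
  ∀ (V : Type) [Finite V] (Γ : Subgroup (Perm V)), Prim Γ → ¬Giant Γ → Rigid Γ d

/-- Contraction along a reduction of the first kind. -/
def SRed : Prop :=
  ∀ (Ω : Type) (Γ : Subgroup (Perm Ω)) (E : ℕ), Red Γ E →
    ∃ (Ω' : Type) (π : Ω → Ω') (Δ : Subgroup (Perm Ω)), Surjective π ∧ ¬Injective π ∧ Δ ≤ Γ ∧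
      Inv Δ (fun x y => π x = π y) ∧ (∀ g ∈ Δ, ∀ x, π (g x) = π x → g x = x) ∧
      ∀ c' : Ω' → Fin E × Fin E, ∃ c : Ω → Fin E × Fin E,
        stab Γ c ≤ Δ ∧ img (stab Γ c) π = stab (img Δ π) c'

/-- Permutation 2-groups are rigid with four colours. -/
def S2grp : Prop :=
  ∀ (Ω : Type) [Finite Ω] (Γ : Subgroup (Perm Ω)), (∀ g ∈ Γ, ∃ e : ℕ, g ^ 2 ^ e = 1) →
    Rigid Γ 4

/-- Names of classes are stored in the numbers of marked points. -/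
def SEnc : Prop :=
  ∀ (Ω : Type) [Finite Ω] (Γ : Subgroup (Perm Ω)) (W : Set Ω) (r : Setoid Ω) (m : ℕ)
    (ν : Ω → Fin (m + 1) × Fin (m + 1)), (∀ g ∈ Γ, ∀ x ∈ W, g x ∈ W) → Inv Γ r →
    (∀ x ∈ W, ∀ y, r x y → y ∈ W) → (∀ x ∈ W, m ≤ Nat.card {z // r z x}) →
    (∀ x y, r x y → ν x = ν y) →
    ∃ c : Ω → Fin 4, ∀ g ∈ Γ, (∀ x ∈ W, c (g x) = c x) → ∀ x ∈ W, ν (g x) = ν x

/-- Two transversal block systems on one orbit give a reduction. -/
def STwoSys : Prop :=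
  ∀ (Ω : Type) [Finite Ω] (Γ : Subgroup (Perm Ω)) (x₀ : Ω) (r₁ r₂ : Setoid Ω), Inv Γ r₁ →
    Inv Γ r₂ → (∃ y, Orb Γ x₀ y ∧ y ≠ x₀ ∧ r₁ x₀ y) → (∃ y, Orb Γ x₀ y ∧ y ≠ x₀ ∧ r₂ x₀ y) →
    (∀ y, Orb Γ x₀ y → r₁ x₀ y → r₂ x₀ y → y = x₀) → Red Γ 4

/-- Small quotients of point stabilisers of tree-like groups are 2-groups. -/
def SP : Prop :=
  ∀ (M : ℕ) (Ω : Type) [Finite Ω] (Δ : Subgroup (Perm Ω)), Q M Ω Δ → 5 ≤ M →
    ∀ (ω : Ω) (N : Subgroup (Perm Ω)) (k : ℕ) (κ : Perm Ω → Fin k), 2 * k < M.factorial →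
    N ≤ Δ → (∀ n ∈ N, n ω = ω) → (∀ g ∈ Δ, g ω = ω → ∀ n ∈ N, g * n * g⁻¹ ∈ N) →
    (∀ g ∈ Δ, ∀ h ∈ Δ, g ω = ω → h ω = ω → κ g = κ h → g⁻¹ * h ∈ N) →
    ∀ g ∈ Δ, g ω = ω → ∃ e : ℕ, g ^ 2 ^ e ∈ N

/-- An orbit on which the group acts faithfully through a block system. -/
def S2A : Prop :=
  ∀ (Ω : Type) [Finite Ω] (Γ : Subgroup (Perm Ω)) (x₀ : Ω) (r : Setoid Ω) (m : ℕ), 4 ≤ m →
    Inv Γ r → (∀ x y, r x y → x ≠ y → Orb Γ x₀ x) →
    (∀ x, Orb Γ x₀ x → Nat.card {z // r z x} = m) →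
    (∀ g ∈ Γ, (∀ x, Orb Γ x₀ x → r (g x) x) → ∀ x, Orb Γ x₀ x → g x = x) →
    (∀ (Ω' : Type) [Finite Ω'] (Γ' : Subgroup (Perm Ω')), Nat.card Ω' < Nat.card Ω →
      Good (m + 1) Γ') → Red Γ 16

/-- A nontrivial subgroup normalised by the alternating group contains it. -/
def SNorm : Prop :=
  ∀ (B : Type) [Finite B] (H L : Subgroup (Perm B)), 5 ≤ Nat.card B → Giant L →
    (∀ l ∈ L, ∀ h ∈ H, l * h * l⁻¹ ∈ H) → H ≠ ⊥ → Giant H

/-- Two giant actions with the same kernel have a common point stabiliser. -/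
def IL (m : ℕ) : Prop :=
  ∀ (Λ : Type) [Group Λ] (B B' : Type) [Finite B] [Finite B'] (f : Λ →* Perm B)
    (f' : Λ →* Perm B'), f.ker = f'.ker → Giant f.range → Giant f'.range → m ≤ Nat.card B →
    m ≤ Nat.card B' → ∃ x y, ∀ g, f g x = x ↔ f' g y = y

/-- The case where all chosen blocks carry giant actions of the block kernels. -/
def SGiant : Prop :=
  ∀ (Ω : Type) [Finite Ω] (Γ : Subgroup (Perm Ω)) (r : Setoid Ω) (E : ℕ), IL E → 5 ≤ E →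
    Γ ≠ ⊥ → Inv Γ r → (∀ x y, r x y → Orb Γ x y) →
    (∀ x, (∃ g ∈ Γ, g x ≠ x) → E < Nat.card {z // r z x} ∧
      ∀ a b c, a ≠ b → b ≠ c → a ≠ c → r a x → r b x → r c x →
        ∃ g ∈ Γ, (∀ y, Orb Γ x y → r (g y) y) ∧ g a = b ∧ g b = c ∧ g c = a ∧
          ∀ z, r z x → z ≠ a → z ≠ b → z ≠ c → g z = z) →
    Red Γ 4 ∨ Twin Γ E

/-- Minimal block systems. -/
def SBlk : Prop :=
  ∀ (Ω : Type) [Finite Ω] (Γ : Subgroup (Perm Ω)) (x₀ : Ω), (∃ g ∈ Γ, g x₀ ≠ x₀) →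
    ∃ r : Setoid Ω, Inv Γ r ∧ (∀ x y, r x y → x ≠ y → Orb Γ x₀ x) ∧
      ∀ x, Orb Γ x₀ x → (∃ y, y ≠ x ∧ r x y) ∧ Prim (onClass Γ r x)

/-- The dichotomy, given the induction hypothesis. -/
def Struct (E₀ : ℕ) : Prop :=
  ∀ (Ω : Type) [Finite Ω] (Γ : Subgroup (Perm Ω)) (E : ℕ), E₀ ≤ E → Γ ≠ ⊥ →
    (∀ (Ω' : Type) [Finite Ω'] (Γ' : Subgroup (Perm Ω')) (E' : ℕ), E₀ ≤ E' →
      Nat.card Ω' < Nat.card Ω → Good E' Γ') → Red Γ E ∨ Twin Γ E

/-- The structure theorem. -/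
def Main (E₀ : ℕ) : Prop :=
  ∀ (Ω : Type) [Finite Ω] (Γ : Subgroup (Perm Ω)) (E : ℕ), E₀ ≤ E → Good E Γ

/-- For tree-like groups the 2-closure is the `r`-closure. -/
def SCl : Prop :=
  ∀ (M : ℕ) (Ω : Type) [Finite Ω] (Δ : Subgroup (Perm Ω)), Q M Ω Δ → ∀ r, r < M →
    ∀ σ, Cl 2 Δ σ → Cl r Δ σ

/-- Singletons and cardinalities are preserved. -/
def SCard : Prop :=
  ∀ (m : ℕ) (V W : Type) [Finite V] [Finite W] (S : BF m V W), 3 ≤ m →
    ∀ p A B, S.R p → (A, B) ∈ p → A.ncard = B.ncard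

/-- The game on a tree-like group. -/
def SQ : Prop :=
  ∀ (M m : ℕ) (V : Type) [Finite V] (S : BF m V V) (Γ : Subgroup (Perm V)), 3 ≤ M → 3 ≤ m →
    (∀ A B, S.R [(A, B)] → ∃ g ∈ Γ, g '' A = B) →
    ∀ (Ω : Type) [Finite Ω] (Δ : Subgroup (Perm Ω)), Q M Ω Δ → ∀ e : Ω → Set V,
      (∀ ω, (e ω).Nonempty) → (∀ ω ω', ω ≠ ω' → Disjoint (e ω) (e ω')) →
      (∀ g ∈ Γ, ∃ δ ∈ Δ, ∀ ω, g '' e ω = e (δ ω)) →
      (∀ δ ∈ Δ, ∀ ω, (e (δ ω)).ncard = (e ω).ncard) →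
      ∃ σ : Perm Ω, Cl 2 Δ σ ∧ ∀ ω, S.R [(e ω, e (σ ω))]

/-- Compatible colourings of `r`-tuples are isomorphic when there are `C` pebbles. -/
def TH (r C : ℕ) : Prop :=
  ∀ (m : ℕ) (V W K : Type) [Finite V] [Finite W] (S : BF m V W) (χ : (Fin r → V) → K)
    (χ' : (Fin r → W) → K), C ≤ m → Compat S χ χ' → ∃ f : V ≃ W, ∀ x, χ' (f ∘ x) = χ x

/-- The link step: compatible colourings on the domain of a tree-like group whose orbits on
pairs of sets are respected by the game. -/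
def LS (M r C : ℕ) : Prop :=
  ∀ (m : ℕ) (V K : Type) [Finite V] (S : BF m V V) (Δ : Subgroup (Perm V))
    (β β' : (Fin r → V) → K), C ≤ m → Q M V Δ →
    (∀ A B A' B', S.R [(A, B), (A', B')] → ∃ g ∈ Δ, g '' A = B ∧ g '' A' = B') →
    Compat S β β' → ∃ σ : Perm V, Cl 2 Δ σ ∧ ∀ x, β' (σ ∘ x) = β x

end Pool.Agent.Lib.MP_f51cdd_lc.Seu
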