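import Pool.Agent.Lib.MP_f51cdd_lc.Seu.LDefs

namespace Pool.Agent.Lib.MP_f51cdd_lc.Seu

open Equiv Function

/-- A nonzero element meets some palette term. -/
theorem finB_pal {n : ℕ} {C : Type} [BooleanAlgebra C] (γ : Fin n → C) (c : C) (hc : c ≠ ⊥)
    (t : Finset (Fin n)) :
    ∃ s : Fin n → Bool, c ⊓ (t.inf fun i => if s i then γ i else (γ i)ᶜ) ≠ ⊥ := by
  classical
  induction t using Finset.induction_on with
  | empty => exact ⟨fun _ => true, by simpa using hc⟩
  | insert i t hi ih =>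
    obtain ⟨s, hs⟩ := ih
    have key : ∀ b : Bool, (t.inf fun j => if update s i b j then γ j else (γ j)ᶜ) =
        t.inf fun j => if s j then γ j else (γ j)ᶜ := by
      intro b
      refine Finset.inf_congr rfl fun j hj => ?_
      have : j ≠ i := fun e => hi (e ▸ hj)
      rw [update_of_ne this]
    set d := t.inf fun j => if s j then γ j else (γ j)ᶜ with hd
    by_cases h1 : c ⊓ (γ i ⊓ d) = ⊥
    · refine ⟨update s i false, ?_⟩
      rw [Finset.inf_insert, key]
      simp only [update_self, Bool.false_eq_true, if_false]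
      intro h2
      apply hs
      have : c ⊓ d = c ⊓ (γ i ⊓ d) ⊔ c ⊓ ((γ i)ᶜ ⊓ d) := by
        rw [← inf_sup_left, ← inf_sup_right, sup_compl_eq_top, top_inf_eq]
      rw [this, h1, h2, bot_sup_eq]
    · refine ⟨update s i true, ?_⟩
      rw [Finset.inf_insert, key]
      simpa only [update_self, if_true] using h1

/-- Transfer of an inclusion `γ i ≤ γ j ⊔ γ k`. -/
theorem finB_le {n : ℕ} {C D : Type} [BooleanAlgebra C] [BooleanAlgebra D] (γ : Fin n → C)
    (δ : Fin n → D)
    (h : ∀ s : Fin n → Bool, (Finset.univ.inf fun i => if s i then γ i else (γ i)ᶜ) = ⊥ →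
      (Finset.univ.inf fun i => if s i then δ i else (δ i)ᶜ) = ⊥)
    (i j k : Fin n) (hle : γ i ≤ γ j ⊔ γ k) : δ i ≤ δ j ⊔ δ k := by
  by_contra hn
  have hc : δ i ⊓ (δ j ⊔ δ k)ᶜ ≠ ⊥ := fun e => hn (by
    rw [← disjoint_compl_right_iff, disjoint_iff]; exact e)
  obtain ⟨s, hs⟩ := finB_pal δ _ hc Finset.univ
  have lit : ∀ l : Fin n, (Finset.univ.inf fun i => if s i then δ i else (δ i)ᶜ) ≤
      if s l then δ l else (δ l)ᶜ := fun l =>
    Finset.inf_le (f := fun i => if s i then δ i else (δ i)ᶜ) (Finset.mem_univ l)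
  have lit' : ∀ l : Fin n, (Finset.univ.inf fun i => if s i then γ i else (γ i)ᶜ) ≤
      if s l then γ l else (γ l)ᶜ := fun l =>
    Finset.inf_le (f := fun i => if s i then γ i else (γ i)ᶜ) (Finset.mem_univ l)
  have hi : s i = true := by
    by_contra e
    have h1 := lit i
    rw [if_neg e] at h1
    apply hs
    rw [eq_bot_iff]
    calc _ ≤ δ i ⊓ (δ i)ᶜ := inf_le_inf inf_le_left h1
      _ = ⊥ := inf_compl_eq_bot
  have hj : ¬ s j = true := by
    intro e
    have h1 := lit j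
    rw [if_pos e] at h1
    apply hs
    rw [eq_bot_iff]
    calc _ ≤ (δ j)ᶜ ⊓ δ j := inf_le_inf (inf_le_right.trans (compl_le_compl le_sup_left)) h1
      _ = ⊥ := compl_inf_eq_bot
  have hk : ¬ s k = true := by
    intro e
    have h1 := lit k
    rw [if_pos e] at h1
    apply hs
    rw [eq_bot_iff]
    calc _ ≤ (δ k)ᶜ ⊓ δ k := inf_le_inf (inf_le_right.trans (compl_le_compl le_sup_right)) h1
      _ = ⊥ := compl_inf_eq_bot
  apply hs
  rw [h s, inf_bot_eq]
  have h1 := lit' i
  have h2 := lit' j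
  have h3 := lit' k
  rw [if_pos hi] at h1
  rw [if_neg hj] at h2
  rw [if_neg hk] at h3
  rw [eq_bot_iff]
  calc _ ≤ (γ j ⊔ γ k) ⊓ (γ j ⊔ γ k)ᶜ := by
        refine le_inf (h1.trans hle) ?_
        rw [compl_sup]
        exact le_inf h2 h3
    _ = ⊥ := inf_compl_eq_bot

/-- Transfer of `γ i = ⊥`. -/
theorem finB_bot {n : ℕ} {C D : Type} [BooleanAlgebra C] [BooleanAlgebra D] (γ : Fin n → C)
    (δ : Fin n → D)
    (h : ∀ s : Fin n → Bool, (Finset.univ.inf fun i => if s i then γ i else (γ i)ᶜ) = ⊥ →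
      (Finset.univ.inf fun i => if s i then δ i else (δ i)ᶜ) = ⊥)
    (i : Fin n) (hb : γ i = ⊥) : δ i = ⊥ := by
  by_contra hc
  obtain ⟨s, hs⟩ := finB_pal δ _ hc Finset.univ
  have h1 : (Finset.univ.inf fun i => if s i then δ i else (δ i)ᶜ) ≤
      if s i then δ i else (δ i)ᶜ :=
    Finset.inf_le (f := fun i => if s i then δ i else (δ i)ᶜ) (Finset.mem_univ i)
  have h2 : (Finset.univ.inf fun i => if s i then γ i else (γ i)ᶜ) ≤
      if s i then γ i else (γ i)ᶜ :=
    Finset.inf_le (f := fun i => if s i then γ i else (γ i)ᶜ) (Finset.mem_univ i)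
  apply hs
  by_cases e : s i = true
  · rw [if_pos e, hb] at h2
    rw [h s (le_bot_iff.1 h2), inf_bot_eq]
  · rw [if_neg e] at h1
    rw [eq_bot_iff]
    calc _ ≤ δ i ⊓ (δ i)ᶜ := inf_le_inf le_rfl h1
      _ = ⊥ := inf_compl_eq_bot

theorem finB_idx {n : ℕ} (hn : 3 ≤ n) (i : Fin n) : ∃ j k : Fin n, j ≠ i ∧ k ≠ i ∧ j ≠ k := by
  have : 1 < (Finset.univ.erase i).card := by
    rw [Finset.card_erase_of_mem (Finset.mem_univ i), Finset.card_univ, Fintype.card_fin]
    omega
  obtain ⟨j, hj, k, hk, hjk⟩ := Finset.one_lt_card.1 this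
  exact ⟨j, k, Finset.ne_of_mem_erase hj, Finset.ne_of_mem_erase hk, hjk⟩

theorem sFin : SFin := by
  intro n A B _ _ _ _ _ hn ⟨P, ⟨α₀, β₀, h₀⟩, hP⟩
  have main : ∀ a : A, ∀ α β i, P α β → α i = a → (Set.Iic (β i)).Finite := by
    intro a
    induction a using WellFoundedLT.induction with
    | ind a ih =>
      intro α β i hαβ hi
      obtain ⟨j, k, hji, hki, hjk⟩ := finB_idx hn i
      by_cases hat : ∀ x ≤ a, x = ⊥ ∨ x = a
      · refine (Set.toFinite ({⊥, β i} : Set B)).subset fun b hb => ?_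
        obtain ⟨x, hx⟩ := (hP α β hαβ).2.2 j b
        have hA := (hP _ _ hx).1.1
        have h1 := finB_le _ _ (fun s => (hA s).2) j i i
        have h2 := finB_le _ _ (fun s => (hA s).1) i j j
        have h3 := finB_bot _ _ (fun s => (hA s).1) j
        simp only [update_self, update_of_ne hji.symm, sup_idem] at h1 h2 h3
        rcases hat x (hi ▸ h1 hb) with e | e
        · exact Or.inl (h3 e)
        · exact Or.inr (le_antisymm hb (h2 (by rw [hi, e])))
      · push Not at hat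
        obtain ⟨x, hxa, hx0, hx1⟩ := hat
        obtain ⟨b₁, h₁⟩ := (hP α β hαβ).2.1 j x
        obtain ⟨b₂, h₂⟩ := (hP _ _ h₁).2.1 k (a \ x)
        have hlt1 : x < a := lt_of_le_of_ne hxa hx1
        have hlt2 : a \ x < a := sdiff_lt hxa hx0
        have f1 := ih x hlt1 _ _ j h₂ (by rw [update_of_ne hjk, update_self])
        have f2 := ih (a \ x) hlt2 _ _ k h₂ (by rw [update_self])
        have hA := (hP _ _ h₂).1.1
        have h1 := finB_le _ _ (fun s => (hA s).1) i j k
        simp only [update_self, update_of_ne hji.symm, update_of_ne hki.symm,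
          update_of_ne hjk] at h1 f1 f2
        have h2 : β i ≤ b₁ ⊔ b₂ := h1 (by rw [hi]; exact le_sup_sdiff)
        refine (f1.image2 (· ⊔ ·) f2).subset fun b hb => ?_
        refine ⟨b ⊓ b₁, inf_le_right, b ⊓ b₂, inf_le_right, ?_⟩
        simp only []
        rw [← inf_sup_left]
        exact inf_eq_left.2 (le_trans hb h2)
  let i : Fin n := ⟨0, by omega⟩
  obtain ⟨a, ha⟩ := (hP α₀ β₀ h₀).2.2 i ⊤
  have := main _ _ _ i ha rfl
  rw [update_self, Set.Iic_top] at this
  exact Set.finite_univ_iff.1 this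

end Pool.Agent.Lib.MP_f51cdd_lc.Seu
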