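import Pool.Agent.Lib.MP_f51cdd_lc.Seu.LDefs

namespace Pool.Agent.Lib.MP_f51cdd_lc.Seu

open Equiv Function

theorem pos_step {n : ℕ} {V W : Type} {p : List (Set V × Set W)} {α : Fin n → Set V}
    {β : Fin n → Set W} {I : Finset (Fin n)} {i : Fin n} (hi : i ∉ I)
    (h : ∀ z ∈ p, ∃ j ∈ I, z = (α j, β j)) (a : Set V) (b : Set W) :
    ∀ z ∈ (a, b) :: p, ∃ j ∈ insert i I, z = (update α i a j, update β i b j) := by
  intro z hz
  rcases List.mem_cons.1 hz with rfl | hz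
  · exact ⟨i, Finset.mem_insert_self _ _, by simp⟩
  · obtain ⟨j, hj, rfl⟩ := h z hz
    have : j ≠ i := fun e => hi (e ▸ hj)
    exact ⟨j, Finset.mem_insert_of_mem hj, by simp [update_of_ne this]⟩

theorem sPos : SPos := by
  classical
  intro n V W P hne hP
  have hfree : ∀ I : Finset (Fin n), I.card < n → ∃ i, i ∉ I := fun I hI => by
    obtain ⟨i, -, hi⟩ := Finset.exists_mem_notMem_of_card_lt_card (s := I) (t := Finset.univ)
      (by simpa using hI)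
    exact ⟨i, hi⟩
  refine ⟨⟨fun p => ∃ α β, P α β ∧ ∃ I : Finset (Fin n), I.card ≤ p.length ∧
    ∀ z ∈ p, ∃ i ∈ I, z = (α i, β i), ?_, ?_, ?_, ?_, ?_, ?_⟩, ?_⟩
  · obtain ⟨α, β, h⟩ := hne
    exact ⟨α, β, h, ∅, le_rfl, by simp⟩
  · rintro p q ⟨α, β, h, I, -, hI⟩ hq
    refine ⟨α, β, h, ?_⟩
    induction q with
    | nil => exact ⟨∅, le_rfl, by simp⟩
    | cons z q ih =>
      obtain ⟨J, hJ, hJ'⟩ := ih fun w hw => hq w (List.mem_cons_of_mem _ hw)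
      obtain ⟨i, -, hi⟩ := hI z (hq z List.mem_cons_self)
      refine ⟨insert i J, (Finset.card_insert_le _ _).trans (by simpa using hJ), fun w hw => ?_⟩
      rcases List.mem_cons.1 hw with rfl | hw
      · exact ⟨i, Finset.mem_insert_self _ _, hi⟩
      · obtain ⟨j, hj, hj'⟩ := hJ' w hw
        exact ⟨j, Finset.mem_insert_of_mem hj, hj'⟩
  · rintro p ⟨α, β, h, I, hc, hI⟩ hl S
    obtain ⟨i, hi⟩ := hfree I (hc.trans_lt hl)
    obtain ⟨T, hT⟩ := (hP α β h).2.2.1 i S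
    exact ⟨T, _, _, hT, insert i I, (Finset.card_insert_le _ _).trans (by simpa using hc),
      pos_step hi hI S T⟩
  · rintro p ⟨α, β, h, I, hc, hI⟩ hl T
    obtain ⟨i, hi⟩ := hfree I (hc.trans_lt hl)
    obtain ⟨S, hS⟩ := (hP α β h).2.2.2 i T
    exact ⟨S, _, _, hS, insert i I, (Finset.card_insert_le _ _).trans (by simpa using hc),
      pos_step hi hI S T⟩
  · rintro p ⟨α, β, h, I, -, hI⟩ x
    obtain ⟨y, hy⟩ := (hP α β h).1 x
    refine ⟨y, fun z hz => ?_⟩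
    obtain ⟨i, -, rfl⟩ := hI z hz
    exact hy i
  · rintro p ⟨α, β, h, I, -, hI⟩ y
    obtain ⟨x, hx⟩ := (hP α β h).2.1 y
    refine ⟨x, fun z hz => ?_⟩
    obtain ⟨i, -, rfl⟩ := hI z hz
    exact hx i
  · rintro p ⟨α, β, h, I, -, hI⟩
    exact ⟨α, β, h, fun z hz => let ⟨i, _, hi⟩ := hI z hz; ⟨i, hi⟩⟩

end Pool.Agent.Lib.MP_f51cdd_lc.Seu
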