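import Pool.Agent.Lib.MP_f51cdd_lc.Seu.LDefs
import Pool.Agent.Lib.MP_f51cdd_lc.Seu.EqFix

namespace Pool.Agent.Lib.MP_f51cdd_lc.Seu

open Equiv Function RelAlg

variable {n : ℕ}

/-- A property of assignments in relation algebras. -/
abbrev Pr (n : ℕ) : Type 1 := ∀ (B : Type) [BooleanAlgebra B] [RelAlg B], (Fin n → B) → Prop

/-- Definable by a formula in `n` variables. -/
def Df (P : Pr n) : Prop :=
  ∃ φ : Fm n, ∀ (B : Type) [BooleanAlgebra B] [RelAlg B] (β : Fin n → B), φ.Sat β ↔ P B β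

theorem Df.congr {P P' : Pr n} (h : Df P)
    (e : ∀ (B : Type) [BooleanAlgebra B] [RelAlg B] (β : Fin n → B), P B β ↔ P' B β) : Df P' :=
  let ⟨φ, h⟩ := h; ⟨φ, fun B _ _ β => (h B β).trans (e B β)⟩

theorem Df.imp {P P' : Pr n} (h : Df P) (h' : Df P') : Df fun B _ _ β => P B β → P' B β :=
  let ⟨φ, h⟩ := h; let ⟨ψ, h'⟩ := h'
  ⟨.imp φ ψ, fun B _ _ β => imp_congr (h B β) (h' B β)⟩

theorem df_const (p : Prop) : Df (n := n) fun _ _ _ _ => p := by
  by_cases hp : p
  · exact ⟨.imp .fls .fls, fun _ _ _ _ => by simp [Fm.Sat, hp]⟩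
  · exact ⟨.fls, fun _ _ _ _ => by simp [Fm.Sat, hp]⟩

theorem Df.not {P : Pr n} (h : Df P) : Df fun B _ _ β => ¬P B β := h.imp (df_const False)

theorem Df.and {P P' : Pr n} (h : Df P) (h' : Df P') : Df fun B _ _ β => P B β ∧ P' B β :=
  (h.imp h'.not).not.congr fun _ _ _ _ => by tauto

theorem Df.iff {P P' : Pr n} (h : Df P) (h' : Df P') : Df fun B _ _ β => P B β ↔ P' B β :=
  ((h.imp h').and (h'.imp h)).congr fun _ _ _ _ => iff_iff_implies_and_implies.symm

theorem Df.all {P : Pr n} (h : Df P) (i : Fin n) :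
    Df fun B _ _ β => ∀ b, P B (update β i b) :=
  let ⟨φ, h⟩ := h; ⟨.all i φ, fun B _ _ _ => forall_congr' fun _ => h B _⟩

theorem Df.ex {P : Pr n} (h : Df P) (i : Fin n) :
    Df fun B _ _ β => ∃ b, P B (update β i b) :=
  (h.not.all i).not.congr fun _ _ _ _ => by simp

theorem df_forall {ι : Type} [Finite ι] {P : ι → Pr n} (h : ∀ j, Df (P j)) :
    Df fun B _ _ β => ∀ j, P j B β := by
  classical
  have := Fintype.ofFinite ι
  have key : ∀ s : Finset ι, Df fun B _ _ β => ∀ j ∈ s, P j B β := fun s => by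
    induction s using Finset.induction_on with
    | empty => exact (df_const True).congr fun _ _ _ _ => by simp
    | insert a s _ ih => exact ((h a).and ih).congr fun _ _ _ _ => by simp
  exact (key Finset.univ).congr fun _ _ _ _ => by simp

theorem df_exists {ι : Type} [Finite ι] {P : ι → Pr n} (h : ∀ j, Df (P j)) :
    Df fun B _ _ β => ∃ j, P j B β :=
  (df_forall fun j => (h j).not).not.congr fun _ _ _ _ => by simp

theorem df_bot (t : Tm n) : Df fun _ _ _ β => t.eval β = ⊥ := ⟨.eq t .zero, fun _ _ _ _ => Iff.rfl⟩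

/-- The meet of two terms. -/
def Tm.meet (s t : Tm n) : Tm n := .neg (.add (.neg s) (.neg t))

theorem Tm.eval_meet {B : Type} [BooleanAlgebra B] [RelAlg B] (β : Fin n → B) (s t : Tm n) :
    (s.meet t).eval β = s.eval β ⊓ t.eval β := by simp [Tm.meet, Tm.eval]

theorem exists_pal (s : Fin n → Bool) (I : Finset (Fin n)) : ∃ t : Tm n,
    ∀ (B : Type) [BooleanAlgebra B] [RelAlg B] (β : Fin n → B),
      t.eval β = I.inf fun i => if s i then β i else (β i)ᶜ := by
  induction I using Finset.induction_on with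
  | empty => exact ⟨.one, fun _ _ _ _ => by simp [Tm.eval]⟩
  | insert a I _ ih =>
    obtain ⟨t, ht⟩ := ih
    refine ⟨(if s a then .var a else .neg (.var a) : Tm n).meet t, fun B _ _ β => ?_⟩
    rw [Tm.eval_meet, ht, Finset.inf_insert]
    cases s a <;> simp [Tm.eval]

variable {A : Type} [BooleanAlgebra A] [RelAlg A]

theorem df_atomic (α : Fin n → A) : Df fun _ _ _ β => Atomic α β := by
  refine (df_forall fun s => (df_const _).iff ?_).and ((df_forall fun i => df_forall fun j =>
    df_forall fun k => (df_const _).iff ?_).and ((df_forall fun i => df_forall fun j =>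
    (df_const _).iff ?_).and (df_forall fun i => (df_const _).iff ?_)))
  · obtain ⟨t, ht⟩ := exists_pal s Finset.univ
    exact (df_bot t).congr fun B _ _ β => by rw [ht]
  · exact (df_bot ((Tm.comp (.var i) (.var j)).meet (.var k))).congr fun B _ _ β => by
      rw [Tm.eval_meet]; rfl
  · exact (df_bot ((Tm.conv (.var i)).meet (.var j))).congr fun B _ _ β => by
      rw [Tm.eval_meet]; rfl
  · exact (df_bot ((Tm.var i).meet .ident)).congr fun B _ _ β => by
      rw [Tm.eval_meet]; rfl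

/-- The second player survives `k` rounds. -/
def Sem : ℕ → (Fin n → A) → Pr n
  | 0, α => fun _ _ _ β => Atomic α β
  | k + 1, α => fun B _ _ β => Atomic α β ∧
      (∀ i a, ∃ b, Sem k (update α i a) B (update β i b)) ∧
      ∀ i b, ∃ a, Sem k (update α i a) B (update β i b)

theorem df_sem [Finite A] (k : ℕ) (α : Fin n → A) : Df (Sem k α) := by
  induction k generalizing α with
  | zero => exact df_atomic α
  | succ k ih =>
    exact (df_atomic α).and ((df_forall fun i => df_forall fun a => (ih _).ex i).and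
      (df_forall fun i => (df_exists fun a => ih (update α i a)).all i))

theorem sem_refl (k : ℕ) (α : Fin n → A) : Sem k α A α := by
  have h0 : ∀ α : Fin n → A, Atomic α α := fun α =>
    ⟨fun _ => Iff.rfl, fun _ _ _ => Iff.rfl, fun _ _ => Iff.rfl, fun _ => Iff.rfl⟩
  induction k generalizing α with
  | zero => exact h0 α
  | succ k ih => exact ⟨h0 α, fun i a => ⟨a, ih _⟩, fun i a => ⟨a, ih _⟩⟩

theorem sem_succ {B : Type} [BooleanAlgebra B] [RelAlg B] (k : ℕ) (α : Fin n → A)
    (β : Fin n → B) (h : Sem (k + 1) α B β) : Sem k α B β := by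
  induction k generalizing α β with
  | zero => exact h.1
  | succ k ih =>
    exact ⟨h.1, fun i a => (h.2.1 i a).imp fun _ => ih _ _, fun i b => (h.2.2 i b).imp fun _ => ih _ _⟩

theorem sem_stable [Finite A] : ∃ k, ∀ α β : Fin n → A, Sem k α A β → Sem (k + 1) α A β := by
  let S : ℕ → Set ((Fin n → A) × (Fin n → A)) := fun k => {p | Sem k p.1 A p.2}
  obtain ⟨_, ⟨k, rfl⟩, hk⟩ := wellFounded_lt.has_min (Set.range fun k => (S k).ncard) ⟨_, 0, rfl⟩
  have e : S (k + 1) = S k := Set.eq_of_subset_of_ncard_le (fun p hp => sem_succ k _ _ hp)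
    (not_lt.1 (hk _ ⟨k + 1, rfl⟩))
  exact ⟨k, fun α β h => show (α, β) ∈ S (k + 1) from e ▸ h⟩

theorem free_foldr (φ : Fm n) (l : List (Fin n)) (i : Fin n) (hi : i ∈ l) :
    i ∉ (l.foldr Fm.all φ).free := by
  induction l with
  | nil => simp at hi
  | cons j l ih =>
    simp only [List.foldr_cons, Fm.free, Finset.mem_erase, not_and]
    exact fun hne => ih ((List.mem_cons.1 hi).resolve_left hne)

theorem sat_foldr {B : Type} [BooleanAlgebra B] [RelAlg B] (φ : Fm n) (l : List (Fin n)) :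
    Models B (l.foldr Fm.all φ) ↔ Models B φ := by
  induction l with
  | nil => rfl
  | cons j l ih =>
    rw [← ih]
    exact ⟨fun h β => by simpa using h β (β j), fun h β b => h _⟩

theorem df_ex_all {P : Pr n} (h : Df P) (l : List (Fin n)) :
    Df fun B _ _ β => ∃ γ, P B γ ∧ ∀ i, i ∉ l → γ i = β i := by
  induction l with
  | nil => exact h.congr fun B _ _ β =>
      ⟨fun h => ⟨β, h, fun _ _ => rfl⟩, fun ⟨γ, h, e⟩ => funext (fun i => e i (by simp)) ▸ h⟩
  | cons j l ih =>
    refine (ih.ex j).congr fun B _ _ β => ⟨?_, ?_⟩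
    · rintro ⟨b, γ, h, e⟩
      refine ⟨γ, h, fun i hi => ?_⟩
      simp only [List.mem_cons, not_or] at hi
      rw [e i hi.2, update_of_ne hi.1]
    · rintro ⟨γ, h, e⟩
      refine ⟨γ j, γ, h, fun i hi => ?_⟩
      by_cases hij : i = j
      · subst hij; simp
      · rw [update_of_ne hij]; exact e i (by simp [hi, hij])

theorem sScott : SScott := by
  intro n A _ _ _
  obtain ⟨k, hk⟩ := sem_stable (n := n) (A := A)
  obtain ⟨φ, hφ⟩ := (df_ex_all (df_sem k (fun _ => ⊥ : Fin n → A)) (List.finRange n)).and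
    (df_forall fun α : Fin n → A => (df_sem k α).imp (df_sem (k + 1) α))
  refine ⟨(List.finRange n).foldr Fm.all φ,
    Finset.eq_empty_of_forall_notMem fun i => free_foldr _ _ i (List.mem_finRange i),
    (sat_foldr _ _).2 fun β => (hφ A β).2 ⟨⟨_, sem_refl k _, by simp⟩, fun α => hk α β⟩,
    fun B _ _ hB => ?_⟩
  have h := fun β => (hφ B β).1 ((sat_foldr _ _).1 hB β)
  obtain ⟨γ, hγ, -⟩ := (h fun _ => ⊥).1
  exact ⟨fun α β => Sem k α B β, ⟨_, γ, hγ⟩, fun α β h' => (h β).2 α h'⟩

end Pool.Agent.Lib.MP_f51cdd_lc.Seu
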