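import Pool.Agent.Lib.MP_f51cdd_lc.Seu.All
import Pool.Agent.Lib.MP_f51cdd_lc.Seu.Scott
import Pool.Agent.Lib.MP_f51cdd_lc.Seu.FinB
import Pool.Agent.Lib.MP_f51cdd_lc.Seu.Alg
import Pool.Agent.Lib.MP_f51cdd_lc.Seu.Pos

/-!
Finite relation algebras are characterised by sentences in a fixed number of variables.
-/

namespace Pool.Agent.Lib.MP_f51cdd_lc.Seu

open Function RelAlg

variable {n : ℕ} {A B : Type} [BooleanAlgebra A] [RelAlg A] [BooleanAlgebra B] [RelAlg B]

theorem Tm.eval_congr {α β : Fin n → A} (t : Tm n) (h : ∀ i ∈ t.vars, α i = β i) :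
    t.eval α = t.eval β := by
  induction t with
  | var i => exact h i (by simp [Tm.vars])
  | zero => rfl
  | one => rfl
  | ident => rfl
  | neg s ih => simp only [Tm.eval, ih h]
  | conv s ih => simp only [Tm.eval, ih h]
  | add s t ih1 ih2 =>
    simp only [Tm.eval, ih1 fun i hi => h i (Finset.mem_union_left _ hi),
      ih2 fun i hi => h i (Finset.mem_union_right _ hi)]
  | comp s t ih1 ih2 =>
    simp only [Tm.eval, ih1 fun i hi => h i (Finset.mem_union_left _ hi),
      ih2 fun i hi => h i (Finset.mem_union_right _ hi)]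

theorem Fm.sat_congr (φ : Fm n) {α β : Fin n → A} (h : ∀ i ∈ φ.free, α i = β i) :
    φ.Sat α ↔ φ.Sat β := by
  induction φ generalizing α β with
  | eq s t =>
    simp only [Fm.Sat, s.eval_congr fun i hi => h i (Finset.mem_union_left _ hi),
      t.eval_congr fun i hi => h i (Finset.mem_union_right _ hi)]
  | fls => rfl
  | imp φ ψ ih1 ih2 =>
    simp only [Fm.Sat, ih1 fun i hi => h i (Finset.mem_union_left _ hi),
      ih2 fun i hi => h i (Finset.mem_union_right _ hi)]
  | all i φ ih =>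
    refine forall_congr' fun a => ih fun j hj => ?_
    by_cases e : j = i
    · subst e; simp
    · rw [update_of_ne e, update_of_ne e]
      exact h j (Finset.mem_erase.2 ⟨e, hj⟩)

theorem Iso.isRRA (h : Iso A B) (hB : IsRRA B) : IsRRA A := by
  obtain ⟨f, h1, h2, h3⟩ := h
  obtain ⟨U, E, g, hE, hg, g0, g1, gs, gc, gm, gv, gi⟩ := hB
  exact ⟨U, E, g ∘ f, hE, hg.comp f.injective, by simp [g0], by simp [g1],
    fun a b => by simp [gs], fun a => by simp [gc, map_compl'], fun a b => by simp [gm, h1],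
    fun a => by simp [gv, h2], by simp [gi, h3]⟩

theorem exists_scott : ∃ n : ℕ, ∀ (A : Type) [BooleanAlgebra A] [RelAlg A] [Finite A],
    ∃ φ : Fm n, φ.free = ∅ ∧ Models A φ ∧
      ∀ (B : Type) [BooleanAlgebra B] [RelAlg B], Models B φ → Iso A B := by
  obtain ⟨C, hC⟩ := th_exists 1
  refine ⟨C + 3, fun A _ _ _ => ?_⟩
  obtain ⟨φ, h1, h2, h3⟩ := sScott (C + 3) A
  refine ⟨φ, h1, h2, fun B _ _ hB => ?_⟩
  have := sFin (C + 3) A B (by omega) (h3 B hB)
  exact sAlg sPos (C + 3) A B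
    (fun m V W K _ _ S χ χ' hm => hC m V W K S χ χ' (by omega)) (h3 B hB)

end Pool.Agent.Lib.MP_f51cdd_lc.Seu
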