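import Mathlib

/-!
The Seurat game of Egrot and Hirsch on a pair of digraphs.
-/

namespace Pool.Agent.Lib.MP_f51cdd_lc.Seu

open Function

variable {c : ℕ} {V W : Type}

/-- The vertices `x` and `y` carry the same palette (set of colours). -/
def SamePal (α : Fin c → Set V) (β : Fin c → Set W) (x : V) (y : W) : Prop :=
  ∀ i, x ∈ α i ↔ y ∈ β i

/-- Every palette, and every edge from a palette to a palette, occurs in both digraphs or in
neither. -/
def Safe (E : V → V → Prop) (F : W → W → Prop) (α : Fin c → Set V) (β : Fin c → Set W) : Prop :=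
  (∀ x, ∃ y, SamePal α β x y) ∧ (∀ y, ∃ x, SamePal α β x y) ∧
  (∀ x x', E x x' → ∃ y y', F y y' ∧ SamePal α β x y ∧ SamePal α β x' y') ∧
  ∀ y y', F y y' → ∃ x x', E x x' ∧ SamePal α β x y ∧ SamePal α β x' y'

/-- The first player wins from the position `(α, β)` after finitely many rounds: the position is
not safe, or he recolours one colour in one digraph and wins after every answer. -/
inductive AllWins (E : V → V → Prop) (F : W → W → Prop) :
    (Fin c → Set V) → (Fin c → Set W) → Prop
  | now {α β} : ¬Safe E F α β → AllWins E F α β
  | left {α β} (i : Fin c) (S : Set V) :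
      (∀ T, AllWins E F (update α i S) (update β i T)) → AllWins E F α β
  | right {α β} (i : Fin c) (T : Set W) :
      (∀ S, AllWins E F (update α i S) (update β i T)) → AllWins E F α β

end Pool.Agent.Lib.MP_f51cdd_lc.Seu
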