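import Pool.Agent.Lib.MP_f51cdd_lc.Seu.Defs

namespace Pool.Agent.Lib.MP_f51cdd_lc.Seu

open Equiv Function

section
variable {U ι : Type} [Fintype U] [DecidableEq U]

/-- The indices in `s` of the sets missed by `T`. -/
def hit_un (A : ι → Finset U) (s : Finset ι) (T : Finset U) : Finset ι :=
  s.filter fun i => Disjoint T (A i)

theorem hit_un_un (A : ι → Finset U) (s : Finset ι) (T T' : Finset U) :
    hit_un A (hit_un A s T) T' = hit_un A s (T ∪ T') := by
  ext i
  simp [hit_un, Finset.disjoint_union_left, and_assoc]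

theorem hit_un_le (A : ι → Finset U) (s : Finset ι) (T : Finset U) :
    (hit_un A s T).card ≤ s.card := Finset.card_filter_le _ _

theorem hit_step (A : ι → Finset U) (ρ : ℕ) (hρ : 0 < ρ) (hA : ∀ i, ρ ≤ (A i).card)
    (s : Finset ι) : ∃ T : Finset U, T.card ≤ 1 ∧
      Fintype.card U * (hit_un A s T).card + ρ * s.card ≤ Fintype.card U * s.card := by
  rcases s.eq_empty_or_nonempty with rfl | ⟨i₀, -⟩
  · exact ⟨∅, by simp, by simp [hit_un]⟩
  obtain ⟨x₀, -⟩ : (A i₀).Nonempty := Finset.card_pos.1 (hρ.trans_le (hA i₀))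
  obtain ⟨x, -, hx⟩ := Finset.exists_max_image Finset.univ
    (fun x : U => (s.filter fun i => x ∈ A i).card) ⟨x₀, Finset.mem_univ _⟩
  refine ⟨{x}, by simp, ?_⟩
  have h1 : ∑ y : U, (s.filter fun i => y ∈ A i).card = ∑ i ∈ s, (A i).card := by
    simp only [Finset.card_filter]
    rw [Finset.sum_comm]
    refine Finset.sum_congr rfl fun i _ => ?_
    rw [← Finset.card_filter]
    congr 1
    ext y
    simp
  have h2 : ρ * s.card ≤ ∑ i ∈ s, (A i).card := by
    rw [mul_comm]
    exact Finset.card_nsmul_le_sum s _ ρ fun i _ => hA i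
  have h3 : ∑ y : U, (s.filter fun i => y ∈ A i).card ≤
      Fintype.card U * (s.filter fun i => x ∈ A i).card :=
    Finset.sum_le_card_nsmul _ _ _ hx
  have h4 : (s.filter fun i => x ∈ A i).card + (hit_un A s {x}).card = s.card := by
    rw [← Finset.card_filter_add_card_filter_not (s := s) fun i => x ∈ A i]
    congr 2
    ext i
    simp [hit_un]
  rw [← h4, mul_add (Fintype.card U), h4]
  omega

theorem hit_steps (A : ι → Finset U) (ρ : ℕ) (hρ : 0 < ρ) (hA : ∀ i, ρ ≤ (A i).card)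
    (s : Finset ι) (j : ℕ) : ∃ T : Finset U, T.card ≤ j ∧
      Fintype.card U * (hit_un A s T).card + j * (ρ * (hit_un A s T).card) ≤
        Fintype.card U * s.card := by
  induction j with
  | zero => exact ⟨∅, le_rfl, by simpa using Nat.mul_le_mul_left _ (hit_un_le A s ∅)⟩
  | succ j ih =>
    obtain ⟨T, hT, h1⟩ := ih
    obtain ⟨T', hT', h2⟩ := hit_step A ρ hρ hA (hit_un A s T)
    have h3 := Nat.mul_le_mul_left ρ (hit_un_le A (hit_un A s T) T')
    rw [hit_un_un] at h2 h3
    refine ⟨T ∪ T', (Finset.card_union_le _ _).trans (by omega), ?_⟩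
    have h4 := Nat.mul_le_mul_left j h3
    rw [add_mul, one_mul]
    omega

theorem hit_half (A : ι → Finset U) (ρ : ℕ) (hρ : 0 < ρ) (hA : ∀ i, ρ ≤ (A i).card)
    (s : Finset ι) : ∃ T : Finset U, T.card ≤ Fintype.card U / ρ + 1 ∧
      2 * (hit_un A s T).card ≤ s.card := by
  obtain ⟨T, hT, h⟩ := hit_steps A ρ hρ hA s (Fintype.card U / ρ + 1)
  refine ⟨T, hT, ?_⟩
  have h1 : Fintype.card U < (Fintype.card U / ρ + 1) * ρ := by
    rw [mul_comm]
    exact Nat.lt_mul_div_succ _ hρ
  rw [← mul_assoc] at h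
  generalize (Fintype.card U / ρ + 1) * ρ = a at h h1
  generalize Fintype.card U = n at h h1
  generalize (hit_un A s T).card = u at h
  by_contra hc
  have h2 : s.card + 1 ≤ 2 * u := by omega
  have h3 := Nat.mul_le_mul_right u (Nat.succ_le_of_lt h1)
  have h4 := Nat.mul_le_mul_left n h2
  nlinarith

theorem hit_all (A : ι → Finset U) (ρ : ℕ) (hρ : 0 < ρ) (hA : ∀ i, ρ ≤ (A i).card)
    (s : Finset ι) (k : ℕ) : ∃ T : Finset U, T.card ≤ k * (Fintype.card U / ρ + 1) ∧
      2 ^ k * (hit_un A s T).card ≤ s.card := by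
  induction k with
  | zero => exact ⟨∅, by simp, by simpa using hit_un_le A s ∅⟩
  | succ k ih =>
    obtain ⟨T, hT, h1⟩ := ih
    obtain ⟨T', hT', h2⟩ := hit_half A ρ hρ hA (hit_un A s T)
    rw [hit_un_un] at h2
    refine ⟨T ∪ T', (Finset.card_union_le _ _).trans ?_, ?_⟩
    · rw [add_mul, one_mul]
      omega
    · rw [pow_succ, mul_assoc]
      exact (Nat.mul_le_mul_left _ h2).trans h1

end

theorem sHit : SHit := by
  intro U ι _ _ A ρ k hρ hA hk
  classical
  letI := Fintype.ofFinite U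
  letI := Fintype.ofFinite ι
  obtain ⟨T, hT, h⟩ := hit_all (fun i => (A i).toFinset) ρ hρ
    (fun i => by rw [← Set.ncard_eq_toFinset_card']; exact hA i) Finset.univ k
  rw [Nat.card_eq_fintype_card] at hk ⊢
  refine ⟨T, hT, fun i => ?_⟩
  rw [Finset.card_univ] at h
  have h0 : (hit_un (fun i => (A i).toFinset) Finset.univ T).card = 0 := by
    by_contra hc
    have := Nat.mul_le_mul_left (2 ^ k) (Nat.one_le_iff_ne_zero.2 hc)
    omega
  have h1 : i ∉ hit_un (fun i => (A i).toFinset) Finset.univ T := by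
    rw [Finset.card_eq_zero.1 h0]
    exact Finset.notMem_empty i
  simp only [hit_un, Finset.mem_filter, Finset.mem_univ, true_and] at h1
  obtain ⟨x, hx, hx'⟩ := Finset.not_disjoint_iff.1 h1
  exact ⟨x, hx, Set.mem_toFinset.1 hx'⟩

end Pool.Agent.Lib.MP_f51cdd_lc.Seu
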