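import Pool.Agent.Lib.MP_f51cdd_lc.H26Defs

/-!
First-order formulas in the signature of relation algebras whose variables, free or bound, are
among `n` fixed variables; a variable may be quantified any number of times.
-/

namespace Pool.Agent.Lib.MP_f51cdd_lc.Seu

open RelAlg

/-- Terms in the variables `Fin n`. -/
inductive Tm (n : ℕ) : Type
  | var : Fin n → Tm n
  | zero : Tm n
  | one : Tm n
  | ident : Tm n
  | neg : Tm n → Tm n
  | conv : Tm n → Tm n
  | add : Tm n → Tm n → Tm n
  | comp : Tm n → Tm n → Tm n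

/-- Formulas in the variables `Fin n`. -/
inductive Fm (n : ℕ) : Type
  | eq : Tm n → Tm n → Fm n
  | fls : Fm n
  | imp : Fm n → Fm n → Fm n
  | all : Fin n → Fm n → Fm n

variable {n : ℕ}

/-- The variables of a term. -/
def Tm.vars : Tm n → Finset (Fin n)
  | .var i => {i}
  | .zero => ∅
  | .one => ∅
  | .ident => ∅
  | .neg s => s.vars
  | .conv s => s.vars
  | .add s t => s.vars ∪ t.vars
  | .comp s t => s.vars ∪ t.vars

/-- The free variables of a formula. -/
def Fm.free : Fm n → Finset (Fin n)
  | .eq s t => s.vars ∪ t.vars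
  | .fls => ∅
  | .imp φ ψ => φ.free ∪ ψ.free
  | .all i φ => φ.free.erase i

variable {A : Type} [BooleanAlgebra A] [RelAlg A]

/-- The value of a term under an assignment. -/
def Tm.eval (α : Fin n → A) : Tm n → A
  | .var i => α i
  | .zero => ⊥
  | .one => ⊤
  | .ident => RelAlg.ident
  | .neg s => (s.eval α)ᶜ
  | .conv s => RelAlg.conv (s.eval α)
  | .add s t => s.eval α ⊔ t.eval α
  | .comp s t => RelAlg.comp (s.eval α) (t.eval α)

/-- Tarski's satisfaction relation. -/
def Fm.Sat : Fm n → (Fin n → A) → Prop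
  | .eq s t, α => s.eval α = t.eval α
  | .fls, _ => False
  | .imp φ ψ, α => φ.Sat α → ψ.Sat α
  | .all i φ, α => ∀ a, φ.Sat (Function.update α i a)

/-- `A` satisfies `φ` under every assignment (for a sentence: `A` is a model of `φ`). -/
def Models (A : Type) [BooleanAlgebra A] [RelAlg A] (φ : Fm n) : Prop :=
  ∀ α : Fin n → A, φ.Sat α

end Pool.Agent.Lib.MP_f51cdd_lc.Seu
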