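import Pool.Agent.Lib.MP_f51cdd_lc.Seu.Defs
import Pool.Agent.Lib.MP_f51cdd_lc.Seu.Logic

/-!
Pebble systems between relation algebras, and the statements of the logical lemmas.
-/

namespace Pool.Agent.Lib.MP_f51cdd_lc.Seu

open RelAlg

variable {n : ℕ} {A B : Type} [BooleanAlgebra A] [RelAlg A] [BooleanAlgebra B] [RelAlg B]

/-- The atomic formulas used by the game hold on both sides or on neither. -/
def Atomic (α : Fin n → A) (β : Fin n → B) : Prop :=
  (∀ s : Fin n → Bool, (Finset.univ.inf fun i => if s i then α i else (α i)ᶜ) = ⊥ ↔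
    (Finset.univ.inf fun i => if s i then β i else (β i)ᶜ) = ⊥) ∧
  (∀ i j k, comp (α i) (α j) ⊓ α k = ⊥ ↔ comp (β i) (β j) ⊓ β k = ⊥) ∧
  (∀ i j, conv (α i) ⊓ α j = ⊥ ↔ conv (β i) ⊓ β j = ⊥) ∧
  ∀ i, α i ⊓ ident = ⊥ ↔ β i ⊓ ident = ⊥

/-- The second player wins the `n`-pebble game on `A` and `B`. -/
def Peb (n : ℕ) (A B : Type) [BooleanAlgebra A] [RelAlg A] [BooleanAlgebra B] [RelAlg B] :
    Prop :=
  ∃ P : (Fin n → A) → (Fin n → B) → Prop, (∃ α β, P α β) ∧ ∀ α β, P α β → Atomic α β ∧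
    (∀ i a, ∃ b, P (Function.update α i a) (Function.update β i b)) ∧
    ∀ i b, ∃ a, P (Function.update α i a) (Function.update β i b)

/-- Isomorphic relation algebras. -/
def Iso (A B : Type) [BooleanAlgebra A] [RelAlg A] [BooleanAlgebra B] [RelAlg B] : Prop :=
  ∃ f : A ≃o B, (∀ a b, f (comp a b) = comp (f a) (f b)) ∧ (∀ a, f (conv a) = conv (f a)) ∧
    f ident = ident

/-- Scott sentences of finite algebras. -/
def SScott : Prop :=
  ∀ (n : ℕ) (A : Type) [BooleanAlgebra A] [RelAlg A] [Finite A], ∃ φ : Fm n, φ.free = ∅ ∧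
    Models A φ ∧ ∀ (B : Type) [BooleanAlgebra B] [RelAlg B], Models B φ → Peb n A B

/-- The game transfers finiteness. -/
def SFin : Prop :=
  ∀ (n : ℕ) (A B : Type) [BooleanAlgebra A] [RelAlg A] [BooleanAlgebra B] [RelAlg B] [Finite A],
    3 ≤ n → Peb n A B → Finite B

/-- From the game on finite algebras to an isomorphism. -/
def SAlg : Prop :=
  ∀ (C : ℕ) (A B : Type) [BooleanAlgebra A] [RelAlg A] [BooleanAlgebra B] [RelAlg B] [Finite A]
    [Finite B], TH 3 C → Peb C A B → Iso A B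

/-- A family of related total assignments gives a back-and-forth system on lists. -/
def SPos : Prop :=
  ∀ (n : ℕ) (V W : Type) (P : (Fin n → Set V) → (Fin n → Set W) → Prop), (∃ α β, P α β) →
    (∀ α β, P α β → (∀ x, ∃ y, ∀ i, x ∈ α i ↔ y ∈ β i) ∧ (∀ y, ∃ x, ∀ i, x ∈ α i ↔ y ∈ β i) ∧
      (∀ i a, ∃ b, P (Function.update α i a) (Function.update β i b)) ∧
      ∀ i b, ∃ a, P (Function.update α i a) (Function.update β i b)) →
    ∃ S : BF n V W, ∀ p, S.R p → ∃ α β, P α β ∧ ∀ z ∈ p, ∃ i, z = (α i, β i)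

end Pool.Agent.Lib.MP_f51cdd_lc.Seu
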