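import Pool.Agent.Lib.MP_f51cdd_lc.Seu.Defs

namespace Pool.Agent.Lib.MP_f51cdd_lc.Seu

open Equiv Function

/-- Greedy colouring. -/
theorem greedy_twosys {α K : Type} [Fintype α] [Fintype K] [Nonempty K] (C : α → α → Prop)
    [DecidableRel C] (hs : ∀ a b, C a b → C b a) (hi : ∀ a, ¬C a a)
    (hd : ∀ a, (Finset.univ.filter fun b => C a b).card < Fintype.card K) :
    ∃ ν : α → K, ∀ a b, C a b → ν a ≠ ν b := by
  classical
  have key : ∀ s : Finset α, ∃ ν : α → K, ∀ a ∈ s, ∀ b ∈ s, C a b → ν a ≠ ν b := by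
    intro s
    induction s using Finset.induction_on with
    | empty => exact ⟨fun _ => Classical.arbitrary K, fun a ha => absurd ha (by simp)⟩
    | insert a s has ih =>
      obtain ⟨ν, hν⟩ := ih
      have h1 : ((Finset.univ.filter fun b => C a b).image ν).card < (Finset.univ : Finset K).card :=
        Finset.card_image_le.trans_lt (hd a)
      obtain ⟨k, -, hk⟩ := Finset.exists_mem_notMem_of_card_lt_card h1
      have hk' : ∀ b, C a b → ν b ≠ k := fun b hb e =>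
        hk (Finset.mem_image.2 ⟨b, Finset.mem_filter.2 ⟨Finset.mem_univ _, hb⟩, e⟩)
      refine ⟨Function.update ν a k, fun x hx y hy hxy => ?_⟩
      by_cases hxa : x = a
      · subst hxa
        have hyx : y ≠ x := fun e => hi x (e ▸ hxy)
        rw [Function.update_self, Function.update_of_ne hyx]
        exact (hk' y hxy).symm
      · by_cases hya : y = a
        · subst hya
          rw [Function.update_self, Function.update_of_ne hxa]
          exact hk' x (hs _ _ hxy)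
        · rw [Function.update_of_ne hxa, Function.update_of_ne hya]
          exact hν x ((Finset.mem_insert.1 hx).resolve_left hxa) y
            ((Finset.mem_insert.1 hy).resolve_left hya) hxy
  obtain ⟨ν, hν⟩ := key Finset.univ
  exact ⟨ν, fun a b => hν a (Finset.mem_univ _) b (Finset.mem_univ _)⟩

/-- The restriction of an equivalence relation to a set. -/
def res_twosys {Ω : Type} (O : Set Ω) (r : Setoid Ω) : Setoid Ω where
  r x y := x = y ∨ (x ∈ O ∧ y ∈ O ∧ r x y)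
  iseqv := ⟨fun _ => Or.inl rfl,
    fun h => h.elim (fun e => Or.inl e.symm) fun h => Or.inr ⟨h.2.1, h.1, r.symm h.2.2⟩,
    fun {x y z} h h' => by
      rcases h with rfl | h
      · exact h'
      rcases h' with rfl | h'
      · exact Or.inr h
      · exact Or.inr ⟨h.1, h'.2.1, r.trans h.2.2 h'.2.2⟩⟩

theorem res_iff_twosys {Ω : Type} {O : Set Ω} {r : Setoid Ω} {x y : Ω} :
    res_twosys O r x y ↔ x = y ∨ (x ∈ O ∧ y ∈ O ∧ r x y) := Iff.rfl

theorem card_class_twosys {Ω : Type} {Γ : Subgroup (Perm Ω)} {r : Setoid Ω} (h : Inv Γ r)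
    {g : Perm Ω} (hg : g ∈ Γ) (x : Ω) :
    Nat.card {z // r z (g x)} = Nat.card {z // r z x} :=
  (Nat.card_congr (g.subtypeEquiv fun z => (h.iff hg z x).symm)).symm

theorem core_twosys (hEnc : SEnc) {Ω : Type} [Finite Ω] {Γ : Subgroup (Perm Ω)} {O : Set Ω}
    {r₁ r₂ : Setoid Ω} (hne : O.Nonempty) (hO : ∀ g ∈ Γ, ∀ x ∈ O, g x ∈ O) (h₁ : Inv Γ r₁)
    (h₂ : Inv Γ r₂) (hs₁ : ∀ x y, r₁ x y → x = y ∨ x ∈ O)
    (hs₂ : ∀ x ∈ O, ∀ y, r₂ x y → y ∈ O) (hnt : ∀ x ∈ O, ∃ y, y ≠ x ∧ r₁ x y)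
    (htr : ∀ x y, r₁ x y → r₂ x y → x = y) {M : ℕ}
    (hM₁ : ∀ x ∈ O, Nat.card {z // r₁ z x} ≤ M) (hM₂ : ∀ x ∈ O, Nat.card {z // r₂ z x} = M) :
    Red Γ 4 := by
  classical
  have := Fintype.ofFinite Ω
  let C : Quotient r₂ → Quotient r₂ → Prop := fun q q' =>
    q ≠ q' ∧ ∃ x y, Quotient.mk r₂ x = q ∧ Quotient.mk r₂ y = q' ∧ r₁ x y
  have hcard : ∀ (r : Setoid Ω) (x : Ω),
      (Finset.univ.filter fun z => r z x).card = Nat.card {z // r z x} := fun r x => by
    rw [Nat.card_eq_fintype_card, Fintype.card_subtype]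
  have hd : ∀ q, (Finset.univ.filter fun q' => C q q').card <
      Fintype.card (Fin (M + 1) × Fin (M + 1)) := by
    intro q
    induction q using Quotient.inductionOn with
    | h a =>
      rw [Fintype.card_prod, Fintype.card_fin]
      by_cases ha : a ∈ O
      · have hsub : (Finset.univ.filter fun q' => C (Quotient.mk r₂ a) q') ⊆
            ((Finset.univ.filter fun x => r₂ x a).biUnion
              fun x => Finset.univ.filter fun y => r₁ y x).image (Quotient.mk r₂) := by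
          intro q' hq'
          obtain ⟨-, x, y, hx, hy, hxy⟩ := (Finset.mem_filter.1 hq').2
          refine Finset.mem_image.2 ⟨y, Finset.mem_biUnion.2 ⟨x, ?_, ?_⟩, hy⟩
          · exact Finset.mem_filter.2 ⟨Finset.mem_univ _, Quotient.exact hx⟩
          · exact Finset.mem_filter.2 ⟨Finset.mem_univ _, r₁.symm hxy⟩
        have h1 := (Finset.card_le_card hsub).trans Finset.card_image_le
        have h2 := Finset.card_biUnion_le_card_mul (Finset.univ.filter fun x => r₂ x a)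
          (fun x => Finset.univ.filter fun y => r₁ y x) M (fun x hx => by
            rw [hcard]
            exact hM₁ x (hs₂ a ha x (r₂.symm (Finset.mem_filter.1 hx).2)))
        rw [hcard, hM₂ a ha] at h2
        have h3 := h1.trans h2
        nlinarith
      · have : (Finset.univ.filter fun q' => C (Quotient.mk r₂ a) q') = ∅ := by
          rw [Finset.filter_eq_empty_iff]
          rintro q' - ⟨hne', x, y, hx, hy, hxy⟩
          rcases hs₁ x y hxy with rfl | hxO
          · exact hne' (hx.symm.trans hy)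
          · exact ha (hs₂ x hxO a (Quotient.exact hx))
        rw [this, Finset.card_empty]
        positivity
  obtain ⟨ν, hν⟩ := greedy_twosys C
    (fun a b ⟨h, x, y, hx, hy, hxy⟩ => ⟨h.symm, y, x, hy, hx, r₁.symm hxy⟩)
    (fun a h => h.1 rfl) hd
  obtain ⟨c, hc⟩ := hEnc Ω Γ O r₂ M (fun x => ν (Quotient.mk r₂ x)) hO h₂ hs₂
    (fun x hx => (hM₂ x hx).ge) (fun x y hxy => by rw [Quotient.sound hxy])
  refine ⟨O, r₁, c, hne, hO, h₁, hnt, fun x hx y hxy => ((hs₁ x y hxy).resolve_right hx).symm,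
    fun g hg hgc x hx => ?_⟩
  by_contra hne'
  have hxO : x ∈ O := ((hs₁ x (g x) (r₁.symm hx)).resolve_left fun e => hne' e.symm)
  refine hν (Quotient.mk r₂ (g x)) (Quotient.mk r₂ x) ⟨fun e => hne' (htr _ _ hx
    (Quotient.exact e)), g x, x, rfl, rfl, hx⟩ (hc g hg hgc x hxO)

theorem sTwoSys (hEnc : SEnc) : STwoSys := by
  intro Ω _ Γ x₀ r₁ r₂ h₁ h₂ hn₁ hn₂ htr
  let O : Set Ω := {y | Orb Γ x₀ y}
  have hx₀ : x₀ ∈ O := ⟨1, Γ.one_mem, rfl⟩
  have hO : ∀ g ∈ Γ, ∀ x ∈ O, g x ∈ O := by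
    rintro g hg x ⟨k, hk, rfl⟩
    exact ⟨g * k, Γ.mul_mem hg hk, rfl⟩
  have hinv : ∀ r : Setoid Ω, Inv Γ r → Inv Γ (res_twosys O r) := by
    intro r hr g hg x y hxy
    rcases res_iff_twosys.1 hxy with rfl | ⟨hx, hy, h⟩
    · exact Or.inl rfl
    · exact Or.inr ⟨hO g hg x hx, hO g hg y hy, hr g hg x y h⟩
  have hs : ∀ (r : Setoid Ω) x y, res_twosys O r x y → x = y ∨ x ∈ O := fun r x y h =>
    (res_iff_twosys.1 h).imp id fun h => h.1
  have hs' : ∀ (r : Setoid Ω), ∀ x ∈ O, ∀ y, res_twosys O r x y → y ∈ O := fun r x hx y h =>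
    (res_iff_twosys.1 h).elim (fun e => e ▸ hx) fun h => h.2.1
  have hnt : ∀ r : Setoid Ω, Inv Γ r → (∃ y, Orb Γ x₀ y ∧ y ≠ x₀ ∧ r x₀ y) →
      ∀ x ∈ O, ∃ y, y ≠ x ∧ res_twosys O r x y := by
    rintro r hr ⟨y, hy, hne, hxy⟩ x ⟨g, hg, rfl⟩
    exact ⟨g y, fun e => hne (g.injective e),
      Or.inr ⟨hO g hg _ hx₀, hO g hg y hy, hr g hg _ _ hxy⟩⟩
  have htr' : ∀ x y, res_twosys O r₁ x y → res_twosys O r₂ x y → x = y := by
    intro x y h h'
    rcases res_iff_twosys.1 h with e | ⟨⟨g, hg, rfl⟩, hy, h⟩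
    · exact e
    rcases res_iff_twosys.1 h' with e | ⟨-, -, h'⟩
    · exact e
    have hg' := Γ.inv_mem hg
    have e := htr (g⁻¹ y) (hO _ hg' y hy) (by simpa using h₁ _ hg' _ _ h)
      (by simpa using h₂ _ hg' _ _ h')
    rw [← e]
    simp
  have hc : ∀ r : Setoid Ω, Inv Γ r → ∀ x ∈ O,
      Nat.card {z // res_twosys O r z x} = Nat.card {z // res_twosys O r z x₀} := by
    rintro r hr x ⟨g, hg, rfl⟩
    exact card_class_twosys (hinv r hr) hg x₀
  rcases le_total (Nat.card {z // res_twosys O r₁ z x₀}) (Nat.card {z // res_twosys O r₂ z x₀})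
    with h | h
  · exact core_twosys hEnc ⟨x₀, hx₀⟩ hO (hinv _ h₁) (hinv _ h₂) (hs _) (hs' _) (hnt _ h₁ hn₁)
      htr' (fun x hx => (hc _ h₁ x hx).trans_le h) (hc _ h₂)
  · exact core_twosys hEnc ⟨x₀, hx₀⟩ hO (hinv _ h₂) (hinv _ h₁) (hs _) (hs' _) (hnt _ h₂ hn₂)
      (fun x y a b => htr' x y b a) (fun x hx => (hc _ h₂ x hx).trans_le h) (hc _ h₁)

end Pool.Agent.Lib.MP_f51cdd_lc.Seu
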